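import Pool.Agent.MP_c69980_ag.E1.Gain

/-!
Potential theory on strips and half-planes: mean values and the abstract statements.
-/

set_option autoImplicit false

noncomputable section

namespace Pool.Agent.MP_c69980_ag.G3C

open MvPolynomial Metric Filter Topology MeasureTheory Set Real
open H60 H4

/-- Almost every point of the disc lies in `Z`, and the mean of `v` is at least `a`. -/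
def Mn (v : ℂ → ℝ) (Z : Set ℂ) (t : ℂ) (ρ a : ℝ) : Prop :=
  ∃ G : ℂ → ℝ, IntegrableOn G (ball t ρ) ∧ (∀ᵐ w, w ∈ ball t ρ → w ∈ Z ∧ G w ≤ v w) ∧
    π * ρ ^ 2 * a ≤ ∫ w in ball t ρ, G w

section kit

variable {v v' : ℂ → ℝ} {Z Z' : Set ℂ} {t : ℂ} {ρ R a a' c : ℝ} {g : ℂ → ℂ}

lemma Mn.mono (h : Mn v Z t ρ a) (H : ∀ w ∈ ball t ρ, w ∈ Z → w ∈ Z' ∧ v w ≤ v' w)
    (ha : a' ≤ a) : Mn v' Z' t ρ a' := by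
  obtain ⟨G, g1, g2, g3⟩ := h
  exact ⟨G, g1, g2.mono fun w hw q => ⟨(H w q (hw q).1).1, (hw q).2.trans (H w q (hw q).1).2⟩,
    (mul_le_mul_of_nonneg_left ha (by positivity)).trans g3⟩

lemma Mn.ae (h : Mn v Z t ρ a) (H : ∀ᵐ w, w ∈ ball t ρ → w ∈ Z → w ∈ Z' ∧ v w ≤ v' w) :
    Mn v' Z' t ρ a := by
  obtain ⟨G, g1, g2, g3⟩ := h
  refine ⟨G, g1, ?_, g3⟩
  filter_upwards [g2, H] with w hw k q using ⟨(k q (hw q).1).1, (hw q).2.trans (k q (hw q).1).2⟩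

lemma Mn.add (h : Mn v Z t ρ a) (h' : Mn v' Z' t ρ a') :
    Mn (fun w => v w + v' w) (Z ∩ Z') t ρ (a + a') := by
  obtain ⟨G, g1, g2, g3⟩ := h
  obtain ⟨G', k1, k2, k3⟩ := h'
  refine ⟨fun w => G w + G' w, g1.add k1, ?_, by rw [integral_add g1 k1]; linarith⟩
  filter_upwards [g2, k2] with w p q hw
  exact ⟨⟨(p hw).1, (q hw).1⟩, add_le_add (p hw).2 (q hw).2⟩

/-- Adding a function that is defined everywhere. -/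
lemma Mn.add' (h : Mn v Z t ρ a) (h' : Mn v' univ t ρ a') :
    Mn (fun w => v w + v' w) Z t ρ (a + a') := by
  simpa using h.add h'

lemma Mn.smul (h : Mn v Z t ρ a) (hc : 0 ≤ c) : Mn (fun w => c * v w) Z t ρ (c * a) := by
  obtain ⟨G, g1, g2, g3⟩ := h
  refine ⟨fun w => c * G w, g1.const_mul c, g2.mono fun w hw q =>
    ⟨(hw q).1, mul_le_mul_of_nonneg_left (hw q).2 hc⟩, ?_⟩
  rw [integral_const_mul]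
  nlinarith [mul_le_mul_of_nonneg_left g3 hc]

lemma Mn.const (hρ : 0 < ρ) (c : ℝ) : Mn (fun _ => c) univ t ρ c :=
  ⟨fun _ => c, integrableOn_const measure_ball_lt_top.ne, .of_forall fun _ _ => ⟨trivial, le_rfl⟩,
    by rw [setIntegral_const, H26.vol_ball t hρ, smul_eq_mul]⟩

lemma Mn.le (h : Mn v Z t ρ a) (hρ : 0 < ρ) (H : ∀ w ∈ ball t ρ, w ∈ Z → v w ≤ c) : a ≤ c := by
  obtain ⟨G, g1, g2, g3⟩ := h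
  have := setIntegral_mono_on_ae g1 (integrableOn_const (C := c) measure_ball_lt_top.ne)
    measurableSet_ball (g2.mono fun w hw q => (hw q).2.trans (H w q (hw q).1))
  rw [setIntegral_const, H26.vol_ball t hρ, smul_eq_mul] at this
  exact le_of_mul_le_mul_left (g3.trans this) (by positivity)

lemma Mn.of_int (hi : IntegrableOn v (ball t ρ)) (hz : ∀ᵐ w, w ∈ ball t ρ → w ∈ Z)
    (h : π * ρ ^ 2 * a ≤ ∫ w in ball t ρ, v w) : Mn v Z t ρ a :=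
  ⟨v, hi, hz.mono fun _ hw q => ⟨hw q, le_rfl⟩, h⟩

lemma Mn.log (hρ : 0 < ρ) (hR : ρ < R) (hg : DifferentiableOn ℂ g (ball t R)) (h0 : g t ≠ 0) :
    Mn (fun w => log ‖g w‖) {w | g w ≠ 0} t ρ (log ‖g t‖) := by
  have sc : closedBall t ρ ⊆ ball t R := closedBall_subset_ball hR
  obtain ⟨s1, s2⟩ := H26.logSub _ g isOpen_ball hg
  obtain ⟨s3, s4⟩ := s2 t ρ hρ sc h0
  exact Mn.of_int ((s1.integrableOn_compact_subset sc (isCompact_closedBall t ρ)).mono_set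
    ball_subset_closedBall) s3 s4

lemma Mn.re (hρ : 0 < ρ) (hR : ρ < R) (hg : DifferentiableOn ℂ g (ball t R)) :
    Mn (fun w => (g w).re) univ t ρ (g t).re := by
  have := Mn.log hρ hR hg.cexp (Complex.exp_ne_zero _)
  simp only [Complex.norm_exp, log_exp] at this
  exact this.mono (fun w _ _ => ⟨trivial, le_rfl⟩) le_rfl

lemma Mn.lin (hρ : 0 < ρ) (α p : ℝ) : Mn (fun w => α + p * (w.re - t.re)) univ t ρ α := by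
  have := Mn.re (g := fun w => (α : ℂ) + p * (w - t)) (t := t) hρ (lt_add_one ρ) (by fun_prop)
  simpa using this

/-- Convex functions of the real part. -/
lemma Mn.cvx (hρ : 0 < ρ) {α p q : ℝ} (hq : 0 ≤ q)
    (H : ∀ w ∈ ball t ρ, α + p * (w.re - t.re) + q * (w.re - t.re) ^ 2 ≤ v w) :
    Mn v univ t ρ (α + q * ρ ^ 2 / 16) := by
  have h1 : Mn (fun w => ‖w - t‖ ^ 2) univ t ρ (3 / 16 * ρ ^ 2) :=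
    Mn.of_int ((Continuous.continuousOn (by fun_prop)).integrableOn_compact
      (isCompact_closedBall t ρ) |>.mono_set ball_subset_closedBall)
      (.of_forall fun _ _ => trivial) (E1.Gain.mom t hρ)
  have h2 := Mn.re (g := fun w => (w - t) ^ 2) (t := t) hρ (lt_add_one ρ) (by fun_prop)
  refine ((Mn.lin hρ α p).add' ((h1.add' h2).smul (half_pos (zero_lt_one' ℝ)).le |>.smul hq)).mono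
    (fun w hw _ => ⟨trivial, le_trans (le_of_eq ?_) (H w hw)⟩) ?_
  · rw [Complex.sq_norm, Complex.normSq_apply, _root_.sq (w - t), Complex.mul_re, Complex.sub_re]
    ring
  · simp only [sub_self, ne_eq, OfNat.ofNat_ne_zero, not_false_eq_true, zero_pow, Complex.zero_re]
    nlinarith [mul_nonneg hq (sq_nonneg ρ)]

/-- Functions of the real part with second derivative bounded below. -/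
lemma Mn.ccv (hρ : 0 < ρ) {α p q : ℝ} (hq : 0 ≤ q)
    (H : ∀ w ∈ ball t ρ, α + p * (w.re - t.re) - q * (w.re - t.re) ^ 2 ≤ v w) :
    Mn v univ t ρ (α - q * ρ ^ 2) := by
  refine (Mn.lin hρ (α - q * ρ ^ 2) p).mono (fun w hw _ => ⟨trivial, le_trans ?_ (H w hw)⟩) le_rfl
  have h1 : |w.re - t.re| ≤ ρ :=
    (Complex.abs_re_le_norm (w - t)).trans (mem_ball_iff_norm.1 hw).le
  have h2 : (w.re - t.re) ^ 2 ≤ ρ ^ 2 := sq_le_sq' (abs_le.1 h1).1 (abs_le.1 h1).2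
  nlinarith [mul_le_mul_of_nonneg_left h2 hq]

end kit

/-- The gain. -/
def gn (c ρ : ℝ) (t : ℂ) : ℝ := if |t.re| ≤ 2 then c * ρ ^ 2 else 0

/-- `v` is sub-mean at `t`, at a bounded radius or at a radius proportional to the depth. -/
def Sm (v : ℂ → ℝ) (Z : Set ℂ) (κ c r M₀ : ℝ) (t : ℂ) : Prop :=
  ∃ ρ, (ρ ∈ Icc r 1 ∨ ρ = κ * |t.re| / 2 ∧ M₀ ≤ |t.re|) ∧ Mn v Z t ρ (v t + gn c ρ t)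

/-- The comparison of `Δ` with a holomorphic function at the ends. -/
def Cmp (Δ : ℂ → ℝ) (κ C d₀ d₁ : ℝ) (K : ℕ) (t₁ : ℂ) (g : ℂ → ℂ) : Prop :=
  DifferentiableOn ℂ g (ball t₁ (κ * |t₁.re|)) ∧ ‖g t₁‖ ≤ C * Δ t₁ ∧
    ∀ t ∈ ball t₁ (κ * |t₁.re|), ‖g t‖ ≤ C * |t₁.re| ^ K ∧ (‖g t‖ ≤ d₁ → Δ t ≤ C * ‖g t‖) ∧
      (Δ t ≤ d₀ → ‖g t‖ ≤ C * Δ t ∨ d₁ ≤ ‖g t‖)

/-- On connected sets where `Δ` is small, `g` is small. -/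
lemma Cmp.conn {Δ : ℂ → ℝ} {κ C d₀ d₁ : ℝ} {K : ℕ} {t₁ : ℂ} {g : ℂ → ℂ} {S : Set ℂ}
    (h : Cmp Δ κ C d₀ d₁ K t₁ g) (hC : 0 ≤ C) (hd : C * d₀ < d₁) (hS : IsPreconnected S)
    (h1 : t₁ ∈ S) (hs : S ⊆ ball t₁ (κ * |t₁.re|)) (hΔ : ∀ t ∈ S, Δ t ≤ d₀) :
    ∀ t ∈ S, ‖g t‖ ≤ C * Δ t := fun t ht => by
  refine ((h.2.2 t (hs ht)).2.2 (hΔ t ht)).resolve_right fun q => ?_
  have c : ContinuousOn (fun w => ‖g w‖) S := (h.1.continuousOn.mono hs).norm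
  have b : ∀ w ∈ S, C * Δ w ≤ C * d₀ := fun w hw => mul_le_mul_of_nonneg_left (hΔ w hw) hC
  obtain ⟨w, hw, e⟩ := hS.intermediate_value h1 ht c (show (C * d₀ + d₁) / 2 ∈ Icc ‖g t₁‖ ‖g t‖
    from ⟨by linarith [h.2.1, b t₁ h1], by linarith⟩)
  have e : ‖g w‖ = (C * d₀ + d₁) / 2 := e
  rcases (h.2.2 w (hs hw)).2.2 (hΔ w hw) with k | k <;> linarith [b w hw]

/-! ### The rows -/

/-- The maximum principle. -/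
def MPStmt : Prop := ∀ (F : ℂ → ℝ) (Z Ω Ω' : Set ℂ) (r R C C' : ℝ), 0 < r →
  (∀ t ∈ Ω', |t.re| ≤ R) → Ω ⊆ Ω' → (∀ t ∈ Z, t ∈ Ω → F t ≤ C') →
  (∀ t ∈ Z, t ∈ Ω' → t ∉ Ω → F t ≤ C) →
  (∀ t ∈ Z, t ∈ Ω → ∃ ρ, r ≤ ρ ∧ ball t ρ ⊆ Ω' ∧ Mn F Z t ρ (F t)) → ∀ t ∈ Z, t ∈ Ω → F t ≤ C

/-- The correction at the ends. -/
def ps (κ A e M₀ x : ℝ) : ℝ := -A + e * (x - 2 * M₀) - 256 * A / κ ^ 2 * log (x / M₀)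

/-- Gluing of a function `u` on the strip with a function `k` at the ends. -/
def GlueStmt : Prop := ∀ (κ A e c r M₀ M : ℝ) (u k : ℂ → ℝ) (Z Z' : Set ℂ), 0 < κ → κ ≤ 1 / 16 →
  0 ≤ A → 0 ≤ e → 0 < r → 4 ≤ M₀ → 4 * M₀ ≤ M → (∀ x ∈ Icc (M - 1) M, A ≤ ps κ A e M₀ x) →
  ∃ (v : ℂ → ℝ) (V : Set ℂ),
    (∀ t ∈ V, (t ∈ Z ∧ |t.re| ≤ M ∧ v t = u t) ∨
      t ∈ Z' ∧ M₀ ≤ |t.re| ∧ v t = ps κ A e M₀ |t.re| + k t) ∧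
    (∀ t ∈ Z, |t.re| ≤ M → t ∈ V ∧ u t ≤ v t) ∧
    (∀ t ∈ Z', M₀ ≤ |t.re| → t ∈ V ∧ ps κ A e M₀ |t.re| + k t ≤ v t) ∧
    ∀ t ∈ V, (t ∈ Z → |t.re| ≤ M → ∃ ρ ∈ Icc r 1, Mn u Z t ρ (u t + gn c ρ t)) →
      (t ∈ Z' → 2 * M₀ ≤ |t.re| → Mn k Z' t (κ * |t.re| / 2) (k t - A)) →
      (t ∈ Z → M₀ ≤ |t.re| → |t.re| ≤ M → t ∈ Z' ∧ u t ≤ A + k t) →
      (t ∈ Z' → M₀ ≤ |t.re| → |t.re| ≤ 2 * M₀ → Mn u Z t (κ * |t.re| / 2) (k t - A)) →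
      Sm v V κ c r M₀ t

/-- The barrier on a rectangle. -/
def RectStmt : Prop := ∀ (v : ℂ → ℝ) (Z : Set ℂ) (κ c r M₀ X₀ y₀ B : ℝ), 0 < κ → κ ≤ 1 / 16 →
  0 < c → 0 < r → 4 ≤ M₀ → 4 ≤ X₀ →
  (∀ t ∈ Z, |t.re| ≤ X₀ → |t.im - y₀| ≤ 3 * X₀ → Sm v Z κ c r M₀ t) →
  (∀ t ∈ Z, |t.re| ≤ 2 * X₀ → |t.im - y₀| ≤ 4 * X₀ → v t ≤ B) →
  ∀ t ∈ Z, |t.re| ≤ X₀ / 2 → t.im = y₀ → v t ≤ B - c * X₀ / 4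

/-- The barrier on a half-plane. -/
def HalfStmt : Prop := ∀ (v : ℂ → ℝ) (Z : Set ℂ) (κ c r M₀ e B y₂ : ℝ), 0 < κ → κ ≤ 1 / 16 →
  0 < c → 0 < r → 4 ≤ M₀ → 0 ≤ e → 2 * e ≤ c → 2 ≤ y₂ →
  (∀ t ∈ Z, y₂ ≤ t.im → Sm v Z κ c r M₀ t) →
  (∀ t ∈ Z, y₂ - 1 - |t.re| / 16 ≤ t.im → v t ≤ B + e * |t.re|) → ∀ t ∈ Z, t.im ≤ y₂

/-- Three circles. -/
def TCStmt : Prop := ∀ (g : ℂ → ℂ) (c : ℂ) (r ε B : ℝ), 0 < r → 0 < ε → ε ≤ B →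
  DifferentiableOn ℂ g (ball c (8 * r)) → (∀ t ∈ ball c (8 * r), ‖g t‖ ≤ B) →
  (∀ t ∈ closedBall c r, ‖g t‖ ≤ ε) → ∀ t ∈ closedBall c (2 * r), ‖g t‖ ^ 2 ≤ 2 * ε * B

/-- Propagation of smallness. -/
def PropStmt : Prop := ∀ (κ C d₀ d₁ c : ℝ) (K : ℕ), 0 < κ → κ ≤ 1 / 16 → 1 ≤ C → 0 < d₀ →
  C * d₀ < d₁ → 0 < c → ∃ X₁ : ℝ, ∀ (Δ : ℂ → ℝ) (M₀ X₀ y₁ : ℝ), X₁ ≤ X₀ → 8 * M₀ ≤ X₀ →
    (∀ t, 0 ≤ Δ t) → (∀ t₁ : ℂ, M₀ ≤ |t₁.re| → Δ t₁ ≤ d₀ → ∃ g, Cmp Δ κ C d₀ d₁ K t₁ g) →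
    (∀ t : ℂ, X₀ / 4 ≤ |t.re| → |t.re| ≤ X₀ / 2 → y₁ ≤ t.im → Δ t ≤ exp (-(c * X₀))) →
    ∀ t : ℂ, X₀ / 2 ≤ |t.re| → |t.re| ≤ 4 * X₀ → y₁ - 16 * X₀ ≤ t.im → Δ t ≤ d₀

/-- The hypotheses of abstract expansivity on the half-plane `y₀ < σ im t`. -/
structure Ea (κ C d₀ d₁ A c μ M₀ : ℝ) (K : ℕ) (M r σ y₀ : ℝ) (u Δ : ℂ → ℝ) (Z : Set ℂ) : Prop where
  nn : ∀ t, 0 ≤ Δ t
  sub : ∀ t ∈ Z, |t.re| ≤ M → y₀ < σ * t.im → ∃ ρ ∈ Icc r 1, Mn u Z t ρ (u t + gn c ρ t)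
  up : ∀ t ∈ Z, |t.re| ≤ M₀ → y₀ < σ * t.im → u t ≤ A
  cmp : ∀ t : ℂ, M₀ ≤ |t.re| → Δ t ≤ d₀ → ∃ g, Cmp Δ κ C d₀ d₁ K t g
  hi : ∀ t ∈ Z, M₀ ≤ |t.re| → |t.re| ≤ M → y₀ < σ * t.im → 0 < Δ t ∧ u t ≤ A + μ * log (Δ t)
  lo : ∀ t : ℂ, M₀ ≤ |t.re| → |t.re| ≤ 2 * M₀ → y₀ + M₀ < σ * t.im → 0 < Δ t →
    Mn u Z t (κ * |t.re| / 2) (μ * log (Δ t) - A)
  cl : ∀ t : ℂ, M₀ ≤ |t.re| → |t.re| ≤ M → y₀ < σ * t.im → Δ t ≤ d₀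

/-- Abstract expansivity on the upper half-plane. -/
def Eabs0Stmt : Prop := ∀ (κ C d₀ d₁ A c μ M₀ : ℝ) (K : ℕ), 0 < κ → κ ≤ 1 / 16 → 1 ≤ C → 0 < d₀ →
  C * d₀ < d₁ → d₁ ≤ 1 → 0 < c → 0 < μ → 4 ≤ M₀ → ∃ M : ℝ, 4 * M₀ ≤ M ∧
    ∀ (r : ℝ) (u Δ : ℂ → ℝ) (Z : Set ℂ), 0 < r → Ea κ C d₀ d₁ A c μ M₀ K M r 1 0 u Δ Z →
      ∀ t ∈ Z, |t.re| ≤ M → t.im ≤ M + 2

/-- Abstract expansivity. -/
def EabsStmt : Prop := ∀ (κ C d₀ d₁ A c μ M₀ : ℝ) (K : ℕ), 0 < κ → κ ≤ 1 / 16 → 1 ≤ C → 0 < d₀ →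
  C * d₀ < d₁ → d₁ ≤ 1 → 0 < c → 0 < μ → 4 ≤ M₀ → ∃ M : ℝ, 4 * M₀ ≤ M ∧
    ∀ (r σ y₀ : ℝ) (u Δ : ℂ → ℝ) (Z : Set ℂ), 0 < r → σ = 1 ∨ σ = -1 →
      Ea κ C d₀ d₁ A c μ M₀ K M r σ y₀ u Δ Z → ∀ t ∈ Z, |t.re| ≤ M → σ * t.im ≤ y₀ + M + 2

/-- A lower bound for the mean of `log ‖F‖`. -/
def LowStmt : Prop := ∀ (F g : ℂ → ℂ) (t₁ t₂ : ℂ) (ρ A : ℝ), 0 < ρ → 1 ≤ A →
  DifferentiableOn ℂ F (ball t₁ (2 * ρ)) → DifferentiableOn ℂ g (ball t₁ (2 * ρ)) → g t₁ ≠ 0 →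
  (∀ t ∈ ball t₁ (2 * ρ), ‖F t‖ ≤ A * ‖g t‖) → t₂ ∈ ball t₁ (ρ / 2) →
  (∀ᶠ t in 𝓝 t₂, ‖g t‖ ≤ A * ‖F t‖) →
  Mn (fun t => log ‖F t‖) {t | F t ≠ 0} t₁ ρ (log ‖g t₁‖ - 4 * log A)

/-- Polynomial growth from a chain of discs. -/
def ChainStmt : Prop := ∀ κ C A M₀ : ℝ, 0 < κ → κ ≤ 1 → 1 ≤ C → 1 ≤ M₀ → ∃ (K : ℕ) (B : ℝ),
  ∀ (σ : ℝ) (p : ℂ → ℝ), σ = 1 ∨ σ = -1 →
    (∀ t : ℂ, M₀ ≤ σ * t.re → σ * t.re ≤ 2 * M₀ → p t ≤ A) →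
    (∀ t₁ : ℂ, M₀ ≤ σ * t₁.re → ∀ t ∈ ball t₁ (κ * (σ * t₁.re)), p t ≤ C * p t₁) →
    ∀ t : ℂ, M₀ ≤ σ * t.re → p t ≤ B * (σ * t.re) ^ K

/-- The period. -/
def Tp (N : ℕ) : ℂ := N * (2 * π * Complex.I)

/-- Periodic meromorphic functions become holomorphic on a strip. -/
def HolStmt : Prop := ∀ (N : ℕ) (M r : ℝ) (h : ℂ → Fin 3 → ℂ) (φ : ℂ → ℝ), 0 < N → 0 < r →
  (∀ t, h (t + Tp N) = h t) → (∀ t, φ (t + Tp N) = φ t) →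
  (∀ l t, MeromorphicAt (fun w => h w l) t) →
  (∀ t₀ : ℂ, ∃ (j : ℕ) (A : ℝ), ∀ᶠ t in 𝓝[≠] t₀, ‖t - t₀‖ ^ j * φ t ≤ A) →
  ∃ (p : ℂ → ℂ) (H : ℂ → Fin 3 → ℂ) (E : Set ℂ) (A : ℝ), Differentiable ℂ p ∧
    DifferentiableOn ℂ H {t | |t.re| < M} ∧ (∀ t, H (t + Tp N) = H t) ∧ E.Countable ∧ 1 ≤ A ∧
    (∀ t : ℂ, |t.re| < M → ‖p t‖ ≤ A ∧ (∃ t' ∈ ball t r, 1 ≤ A * ‖p t'‖) ∧
      (t ∉ E → p t ≠ 0 ∧ H t = p t • h t ∧ ‖p t‖ * φ t ≤ A))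

/-- The Siegel argument on the cylinder. -/
def CylStmt : Prop := ∀ (N : ℕ) (κ C M₀ : ℝ) (H F : ℂ → Fin 3 → ℂ) (p : ℂ → ℂ) (E : Set ℂ), 0 < N →
  0 < κ → κ ≤ 1 / 16 → 1 ≤ C → 4 ≤ M₀ → DifferentiableOn ℂ H {t | |t.re| < 8 * M₀} →
  (∀ t, H (t + Tp N) = H t) → E.Countable → Differentiable ℂ p →
  (∀ t : ℂ, |t.re| < 8 * M₀ → ‖p t‖ ≤ C ∧ ∃ t' ∈ ball t (κ / 4), 1 ≤ C * ‖p t'‖) →
  (∀ t₁ : ℂ, M₀ ≤ |t₁.re| → ∃ G : ℂ → Fin 3 → ℂ, DifferentiableOn ℂ G (ball t₁ (κ * |t₁.re|)) ∧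
    ∀ t ∈ ball t₁ (κ * |t₁.re|), ‖G t‖ ≤ C ∧
      ∃ a : ℂ, G t = a • F t ∧ ‖a‖ ≤ C ∧ 1 ≤ C * ‖a‖) →
  (∀ t : ℂ, M₀ / 2 ≤ |t.re| → |t.re| < 8 * M₀ → t ∉ E →
    ∃ a : ℂ, H t = a • F t ∧ a ≠ 0 ∧ ‖a‖ ≤ C ∧ ‖p t‖ ≤ C * ‖a‖) →
  ∃ (Q : PR 3) (d : ℕ), Q.IsHomogeneous d ∧ Q ≠ 0 ∧ ∀ t : ℂ, |t.re| < 8 * M₀ → eval (H t) Q = 0

/-- Vanishing to order `e` in one variable: upper bound. -/
def SchwStmt : Prop := ∀ (f : ℂ → ℂ) (c : ℂ) (r A : ℝ) (e : ℕ), 0 < r →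
  DifferentiableOn ℂ f (ball c r \ {c}) → (∀ w ∈ ball c r \ {c}, ‖f w‖ ≤ A) →
  (∃ B : ℝ, ∀ᶠ w in 𝓝[≠] c, ‖f w‖ ≤ B * ‖w - c‖ ^ e) →
  ∀ w ∈ ball c r \ {c}, ‖f w‖ * r ^ e ≤ A * ‖w - c‖ ^ e

/-- The order of vanishing along the curve `w = 0` of an analytic function of two variables that
is known only off the curve. -/
def OrdStmt : Prop := ∀ (F : ℂ × ℂ → ℂ) (t₀ : ℂ) (e : ℕ),
  (∀ᶠ q in 𝓝 ((t₀, 0) : ℂ × ℂ), q.2 ≠ 0 → AnalyticAt ℂ F q) →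
  (∀ᶠ t in 𝓝 t₀, ∃ B : ℝ, ∀ᶠ w in 𝓝[≠] (0 : ℂ), ‖F (t, w)‖ ≤ B * ‖w‖ ^ e) →
  ∃ c : ℂ → ℂ, AnalyticAt ℂ c t₀ ∧ ∃ B : ℝ, ∀ᶠ q in 𝓝 ((t₀, 0) : ℂ × ℂ), q.2 ≠ 0 →
    ‖F q - c q.1 * q.2 ^ e‖ ≤ B * ‖q.2‖ ^ (e + 1)

def RectOf : Prop := MPStmt → RectStmt
def HalfOf : Prop := MPStmt → HalfStmt
def PropOf : Prop := TCStmt → PropStmt
def Eabs0Of : Prop := GlueStmt → RectStmt → HalfStmt → PropStmt → Eabs0Stmt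
def EabsOf : Prop := Eabs0Stmt → EabsStmt
def CylOf : Prop := MPStmt → GlueStmt → LowStmt → CylStmt

end Pool.Agent.MP_c69980_ag.G3C
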