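import Pool.Agent.MP_c69980_ag.G3C.SpecE
import Pool.Agent.MP_c69980_ag.E2.Base

/-!
The bridge to the projective picture: sections, periods and values of the forms.
-/

set_option autoImplicit false

noncomputable section

namespace Pool.Agent.MP_c69980_ag.G3C

open MvPolynomial Metric Filter Topology Set Real
open H60 H4 E1 G3

namespace BrgX

variable {n : ℕ} {X : Set (Pt n)} {W U : Set (PS n)} {m : ℕ} {Φ : Fin 3 → Pt n → V n → ℂ}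
  {t w z : ℂ} {y v : V n} {a j : Fin n} {O : Set (ℂ × ℂ)} {Y : ℂ × ℂ → V n} {g : C2 → V n}

lemma vt_shift (hP : PerX X U m Φ) (k : ℤ) :
    Vt X (t + k * (2 * π * Complex.I), y) v ↔ Vt X (t, y) v :=
  ⟨fun ⟨w0, g, g1, g2, g3, g4⟩ => ⟨w0, g, g1, g2, g3, g4.mono fun w q => by
    simpa using hP.1 _ q (-k)⟩,
    fun ⟨w0, g, g1, g2, g3, g4⟩ => ⟨w0, g, g1, g2, g3, g4.mono fun _ q => hP.1 _ q k⟩⟩

lemma tv_shift (hP : PerX X U m Φ) (k : ℤ) :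
    tv X (t + k * (2 * π * Complex.I), y) = tv X (t, y) :=
  congrArg Classical.epsilon (funext fun _ => propext (vt_shift hP k))

lemma rx_shift (hP : PerX X U m Φ) (h : (t, y) ∈ Rx X) (k : ℤ) :
    (t + k * (2 * π * Complex.I), y) ∈ Rx X := by
  obtain ⟨a, j, O, Y, c, z, z1, z2⟩ := h
  exact ⟨a, j, _, _, c.shift (fun x hx => hP.1 x hx k) fun x hx => by
    simpa [sub_eq_add_neg] using hP.1 x hx (-k), z, by simpa using z1, by simpa using z2⟩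

/-- The values of the forms on a vertical vector, at all the translates. -/
lemma val (hP : PerX X U m Φ) (hX : Cn X) (h : Chart X a j O Y) (hz : (t, z) ∈ O)
    (hU : y ∈ Cone U) (hy : Pp y (Y (t, z))) (hv : Vt X (t, y) v) : ∃ κ : ℂ, κ ≠ 0 ∧
      ∀ (k : ℤ) i, Φ i (t + k * (2 * π * Complex.I), y) v = κ ^ m * fc Φ Y i (t, z) := by
  obtain ⟨α, β, α0, rfl⟩ := (h.vt_iff (p := (t, z)) hX hz hy).1 hv
  have hU' := E2.cone_pp hU hy.symm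
  obtain ⟨c, c0, rfl⟩ := hy
  exact ⟨α / c, div_ne_zero α0 c0, fun k i => hP.2 a j O Y h _ hz hU' k c α β i c0⟩

lemma phi_per (hP : PerX X U m Φ) (hX : Cn X) (h : (t, y) ∈ Rx X) (hU : y ∈ Cone U)
    (hv : Vt X (t, y) v) (k : ℤ) (i : Fin 3) :
    Φ i (t + k * (2 * π * Complex.I), y) v = Φ i (t, y) v := by
  obtain ⟨a, j, O, Y, c, z, z1, z2⟩ := h
  obtain ⟨κ, -, e⟩ := val hP hX c z1 hU z2 hv
  rw [e k i, ← e 0 i]
  simp

/-- The derivative of a lift of a chart is a vertical vector. -/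
lemma vt_lift (g1 : AnalyticAt ℂ g (t, w)) (g2 : ∀ᶠ q in 𝓝 ((t, w) : C2), (q.1, g q) ∈ X)
    (g3 : wg (g (t, w)) (dz g (t, w)) ≠ 0) : Vt X (t, g (t, w)) (dz g (t, w)) := by
  have a1 : AnalyticAt ℂ (fun u : ℂ => ((t, u + w) : C2)) 0 := by fun_prop
  have c1 : Tendsto (fun u : ℂ => ((t, u + w) : C2)) (𝓝 0) (𝓝 (t, w)) := by
    simpa using a1.continuousAt.tendsto
  refine ⟨g3, fun u => g (t, u + w), g1.comp_of_eq a1 (by simp), by simp, ?_, c1.eventually g2⟩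
  have := deriv_comp_add_const (fun u => g (t, u)) w 0
  rw [zero_add] at this
  exact this.trans (hasDerivAt_dz g1.differentiableAt).deriv

variable {A : Amb (Wg n)} {S : C2 → Wg n}

/-- The data at a chart of the open part. -/
lemma lz (hp : PrjStmt) (h : IsEnd X U m Φ W A) (hS : A.LZ S (t, w)) : ∃ g : C2 → V n,
    Lt S (t, w) g ∧ (∀ᶠ q in 𝓝 ((t, w) : C2), (q.1, g q) ∈ X) ∧ (t, g (t, w)) ∈ Rx X ∧
      wg (g (t, w)) (dz g (t, w)) ≠ 0 ∧ g (t, w) ∈ Cone U := by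
  obtain ⟨g, g1, g2, g3, g4⟩ := (h.2.1.lc _ _).1 hS.1
  obtain ⟨x, x1, x2⟩ : (t, S (t, w)) ∈ Im (E2.Op X U) := h.2.1.z ▸ hS.2
  have e : prj (g (t, w)) = prj x.2 :=
    g1.2.2.self_of_nhds.symm.trans (congrArg Prod.snd x2).symm
  exact ⟨g, g1, g2, g3, g4, E2.cone_pp x1.2 (((hp n).1 _ _ g1.2.1 (h.1.cn.nz x x1.1)).1 e)⟩

lemma hs (hp : PrjStmt) (h : IsEnd X U m Φ W A) {O : Set ℂ} {g : ℂ → V n} (o : IsOpen O)
    (hg : Sc X O g) (ht : t ∈ O) : A.HS (fun t => prj (g t)) t := by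
  obtain ⟨f, f1, f2, f3⟩ := lh_iff.1 hg.1 t ht
  refine (h.2.1.hs _ _).2 ⟨f, f1, f2, ?_⟩
  filter_upwards [f3, o.mem_nhds ht, f1.continuousAt.eventually_ne f2] with u u1 u2 u3
  exact ⟨((hp n).1 _ _ (u1.ne u3) u3).2 u1, h.1.cn.pp (hg.2 u u2) u1.symm⟩

lemma pc (hp : PrjStmt) (h : IsEnd X U m Φ W A) (E : EA A) : Pc E := by
  intro S t w hS hL
  obtain ⟨g, g1, g2, g3, g4, g5⟩ := lz hp h hL
  obtain ⟨T, hT'⟩ : ∃ T, T = G3.tp E.N := ⟨_, rfl⟩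
  have hT : ((E.N : ℤ) : ℂ) * (2 * π * Complex.I) = T := by simp [hT', G3.tp]
  have e0 : ((t + T - T, w) : C2) = (t, w) := by simp
  have a1 : AnalyticAt ℂ (fun q : C2 => ((q.1 - T, q.2) : C2)) (t + T, w) :=
    (analyticAt_fst.sub analyticAt_const).prod analyticAt_snd
  have c1 : Tendsto (fun q : C2 => ((q.1 - T, q.2) : C2)) (𝓝 (t + T, w)) (𝓝 (t, w)) :=
    e0 ▸ a1.continuousAt.tendsto
  have l1 : Lt S (t + T, w) fun q => g (q.1 - T, q.2) := by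
    refine ⟨g1.1.comp_of_eq a1 e0, by simpa using g1.2.1, (c1.eventually g1.2.2).mono
      fun q e => ?_⟩
    rw [← e, ← hS (q.1 - T), ← hT', sub_add_cancel]
  have l2 : A.LC S (t + T, w) := by
    refine (h.2.1.lc _ _).2 ⟨_, l1, (c1.eventually g2).mono fun q e => ?_, ?_, ?_⟩
    · have := h.2.2.1 _ e (E.N : ℤ)
      rw [hT] at this
      simpa using this
    · simpa using hT ▸ rx_shift h.2.2 g3 (E.N : ℤ)
    · simpa [dz_shift] using g4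
  funext l
  rw [← hT', h.2.1.cf _ _ _ l2 l1 (by simpa using g5), h.2.1.cf _ _ _ hL.1 g1 g5, dz_shift]
  simpa using hT ▸ phi_per h.2.2 h.1.cn g3 g5 (vt_lift g1.1 g2 g4) (E.N : ℤ) l

end BrgX

open BrgX in
theorem brgOf : BrgOf := by
  intro hp n X W U m Φ A h
  have hX := h.1.cn
  refine ⟨fun O g o hg => ⟨fun hU t ht => ⟨hs hp h o hg ht, ?_⟩,
    fun hU t ht => ⟨hs hp h o hg ht, ?_, ?_⟩⟩, pc hp h, fun S t w y hS y0 e => ?_⟩
  · rw [h.2.1.z]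
    exact ⟨(t, g t), ⟨hg.2 t ht, hU t ht⟩, rfl⟩
  · rw [h.2.1.zb]
    exact ⟨(t, g t), hg.2 t ht, rfl⟩
  · rw [h.2.1.z]
    rintro ⟨x, x1, x2⟩
    exact hU t ht (E2.cone_pp x1.2 (((hp n).1 _ _ (hg.1.ne ht) (hX.nz x x1.1)).1
      (congrArg Prod.snd x2).symm))
  obtain ⟨g, g1, g2, g3, g4, g5⟩ := lz hp h hS
  have pp : Pp y (g (t, w)) := ((hp n).1 _ _ y0 g1.2.1).1 (e.trans g1.2.2.self_of_nhds)
  have r := Rx.pp g3 pp
  have hU := E2.cone_pp g5 pp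
  have hv := Rx.vt hX r
  refine ⟨r, ⟨Rx.mem hX r, hU⟩, ?_, fun Q d k y' _ => ?_⟩
  · obtain ⟨a, j, O, Y, c, z, z1, z2⟩ := g3
    obtain ⟨κ, k0, k1⟩ := val h.2.2 hX c z1 g5 z2 (vt_lift g1.1 g2 g4)
    obtain ⟨κ', k0', k1'⟩ := val h.2.2 hX c z1 hU (pp.trans z2) hv
    refine ⟨κ ^ m / κ' ^ m, div_ne_zero (pow_ne_zero _ k0) (pow_ne_zero _ k0'), fun l => ?_⟩
    have b1 := k1 0 l
    have b2 := k1' 0 l
    simp only [Int.cast_zero, zero_mul, add_zero] at b1 b2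
    rw [h.2.1.cf _ _ _ hS.1 g1 g5, b1, b2, ← mul_assoc, div_mul_cancel₀ _ (pow_ne_zero _ k0')]
  · have u : Uq0 X Φ Q (t + k * (2 * π * Complex.I)) y = Uq0 X Φ Q t y := by
      rw [Uq0, Uq0, tv_shift h.2.2]
      exact congrArg (fun f => eval f Q) (funext (phi_per h.2.2 hX r hU hv k))
    exact ⟨by rw [Z0, Z0, u], fun _ => by rw [U0, U0, u, tv_shift h.2.2]⟩

end Pool.Agent.MP_c69980_ag.G3C
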