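import Pool.Agent.MP_c69980_ag.G3C.SpecE

/-!
Comparison at bounded depth, near the boundary.
-/

set_option autoImplicit false

noncomputable section

namespace Pool.Agent.MP_c69980_ag.G3C

open MvPolynomial Metric Filter Topology MeasureTheory Set Real
open H60 H4 E1 G3

namespace CmpBX

variable {M : Type} [MetricSpace M] {A : Amb M}

lemma dp_per (t : ℂ) (k : ℤ) (N : ℕ) : A.dp (t + k * G3.tp N) = A.dp t := by
  simp [Amb.dp, G3.tp]

/-- A compact fundamental domain. -/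
lemma dom (E : EA A) (R : ℝ) : ∃ K : Set ℂ, IsCompact K ∧ (∀ t ∈ K, E.M₁ ≤ A.dp t) ∧
    ∀ t, E.M₁ ≤ A.dp t → A.dp t ≤ R → ∃ (s : ℂ) (k : ℤ), s ∈ K ∧ t = s + k * G3.tp E.N := by
  have c0 : (0 : ℝ) < E.N * (2 * π) := by
    have := E.N0
    positivity
  refine ⟨(Icc (-R) R ∩ {a | E.M₁ ≤ A.σ * a}) ×ℂ Icc 0 (E.N * (2 * π)),
    (isCompact_Icc.inter_right (isClosed_le continuous_const (by fun_prop))).reProdIm
      isCompact_Icc, fun t ht => ht.1.2, fun t h1 h2 =>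
    ⟨t - (⌊t.im / (E.N * (2 * π))⌋ : ℤ) * G3.tp E.N, ⌊t.im / (E.N * (2 * π))⌋, ?_, by ring⟩⟩
  have a := Int.sub_floor_div_mul_nonneg t.im c0
  have b := Int.sub_floor_div_mul_lt t.im c0
  have := A.M0
  have := E.MM
  rw [Amb.dp] at h1 h2
  refine ⟨?_, ?_⟩
  · have e : (t - (⌊t.im / (E.N * (2 * π))⌋ : ℤ) * G3.tp E.N).re = t.re := by simp [G3.tp]
    rw [mem_preimage, e]
    refine ⟨?_, h1⟩
    rcases A.hσ with q | q <;> rw [q] at h1 h2 <;> constructor <;> linarith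
  · have e : (t - (⌊t.im / (E.N * (2 * π))⌋ : ℤ) * G3.tp E.N).im =
        t.im - ⌊t.im / (E.N * (2 * π))⌋ * (E.N * (2 * π)) := by simp [G3.tp]
    rw [mem_preimage, e]
    exact ⟨a, b.le⟩

/-- Points of the family near a compact piece of the zero section of a chart. -/
lemma tube {K : Set ℂ} (hK : IsCompact K) {Y : C2 → M} (h : ∀ t ∈ K, A.LC Y (t, 0)) {N : Set C2}
    (hN : ∀ t ∈ K, N ∈ 𝓝 ((t, 0) : C2)) : ∃ δ : ℝ, 0 < δ ∧ ∀ t ∈ K, ∀ x, (t, x) ∈ A.Zb →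
      dist x (Y (t, 0)) ≤ δ → ∃ w, (t, w) ∈ N ∧ Y (t, w) = x := by
  have c : ContinuousOn (fun t => (t, Y (t, 0))) K := fun t ht =>
    (continuousAt_id.prodMk ((A.cont Y _ (h t ht)).comp (f := fun s : ℂ => ((s, 0) : C2))
      (by fun_prop))).continuousWithinAt
  obtain ⟨δ, d0, hδ⟩ := (hK.image_of_continuousOn c).exists_cthickening_subset_open
    (isOpen_interior (s := {x : ℂ × M | x ∈ A.Zb → ∃ w, (x.1, w) ∈ N ∧ Y (x.1, w) = x.2})) (by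
      rintro _ ⟨t, ht, rfl⟩
      exact mem_interior_iff_mem_nhds.2 (A.onto Y _ (h t ht) N (hN t ht)))
  exact ⟨δ, d0, fun t ht x hx q => interior_subset (hδ (mem_cthickening_of_dist_le (t, x)
    (t, Y (t, 0)) δ _ ⟨t, ht, rfl⟩ (by simpa using q))) hx⟩

end CmpBX

open CmpBX in
theorem cmpBOf : CmpBOf := by
  intro hP hB hC hL n X W U m Φ A E Q d hE hQ d0 R ε ε0
  obtain ⟨K, hK, K1, K2⟩ := dom E R
  obtain ⟨-, pc, br⟩ := hB n X W U m Φ A hE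
  have key : ∀ i, ∀ᶠ δ in 𝓝[>] (0 : ℝ), ∀ Y, E.pu i = some Y → ∀ t y y', E.M₁ ≤ A.dp t →
      A.dp t ≤ R → (t, y) ∈ E2.Op X U → y' ≠ 0 → d2 y y' ≤ δ → prj y' = Y (t, 0) →
      ∃ b, ‖b‖ ≤ ε ∧ prj y = Y (t, b) ∧ (Z0 X U Φ Q t y y' ↔ Ff A Q d Y t 0 b ≠ 0) ∧
        (Z0 X U Φ Q t y y' →
          |U0 X m Φ Q d t y y' - 6 * log ‖Ff A Q d Y t 0 b‖| ≤ 3 * (m * d)) := by
    intro i
    rcases hi : E.pu i with _ | Y
    · exact .of_forall fun _ _ q => by cases q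
    have cu := (E.cusp i Y hi).2
    have pY := (E.per i).2.2.2.2.2 Y hi
    have lc : ∀ t ∈ K, A.LC Y (t, 0) := fun t ht => ((cu t (K1 t ht)).2.2.2 0 (by simp)).1
    obtain ⟨δ, δ0, hδ⟩ := tube hK lc (N := {p | ‖p.2‖ ≤ min ε (1 / 4) ∧ ∀ y y', y ∈ Cone U →
      y' ≠ 0 → prj y = Y (p.1, p.2) → prj y' = Y (p.1, 0) →
      (Z0 X U Φ Q p.1 y y' ↔ Ff A Q d Y p.1 0 p.2 ≠ 0) ∧ (Z0 X U Φ Q p.1 y y' →
        |U0 X m Φ Q d p.1 y y' - 6 * log ‖Ff A Q d Y p.1 0 p.2‖| ≤ 3 * (m * d))}) fun t ht =>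
      Eventually.and (continuous_snd.norm.continuousAt.eventually_le_const (by simpa using ε0))
        ((show ContinuousAt (fun p : C2 => (p.1, p.2, (0 : ℂ))) (t, 0) by fun_prop).eventually
          (hL n X W U m Φ A Q d Y t 0 hE hQ d0 (lc t ht)))
    filter_upwards [Ioc_mem_nhdsGT (show 0 < δ ^ 2 / 2 by positivity)] with δ' hδ' Y' hY' t y y'
      h1 h2 hy y0 hd e
    obtain rfl : Y = Y' := Option.some.inj hY'
    obtain ⟨s, k, hs, rfl⟩ := K2 t h1 h2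
    have pk : ∀ (j : ℤ) w, Y (s + j * G3.tp E.N, w) = Y (s, w) := fun j w =>
      Function.Periodic.int_mul (f := fun t => Y (t, w)) (fun t => pY t w) j s
    have ek : s + k * G3.tp E.N = s + ((k * E.N : ℤ) : ℂ) * (2 * π * Complex.I) := by
      rw [G3.tp]; push_cast; ring
    have hs' : (s, y) ∈ X := by
      have := hE.2.2.1 _ hy.1 (-(k * E.N))
      rwa [show s + k * G3.tp E.N + ((-(k * E.N) : ℤ) : ℂ) * (2 * π * Complex.I) = s by
        rw [G3.tp]; push_cast; ring] at this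
    rw [pk] at e
    obtain ⟨b, ⟨b1, b2⟩, b3⟩ := hδ s hs (prj y) (hE.2.1.zb ▸ ⟨(s, y), hs', rfl⟩) (by
      rw [← e]
      have := ((hP n).2.2.1 y y' hy.2.1 y0).1
      exact le_of_sq_le_sq (by linarith [hδ'.2]) δ0.le)
    have b0 : b ≠ 0 := by
      rintro rfl
      exact (cu s (K1 s hs)).2.2.1 (hE.2.1.z ▸ ⟨(s, y), ⟨hs', hy.2⟩, by rw [b3]⟩)
    have lz : ∀ j : ℤ, A.LZ Y (s + j * G3.tp E.N, b) := fun j =>
      (((hC _ A E).1 i Y _ hi (by rw [dp_per]; exact K1 s hs)).1 b b0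
        (b1.trans (min_le_right _ _))).1
    have cf : A.cf Y (s + k * G3.tp E.N, b) = A.cf Y (s, b) := by
      have p : Function.Periodic (fun j : ℤ => A.cf Y (s + j * G3.tp E.N, b)) 1 := fun j => by
        simpa [add_mul, add_assoc] using pc E Y _ b pY (lz j)
      simpa using p.int_mul_eq k
    have ff : Ff A Q d Y (s + k * G3.tp E.N) 0 b = Ff A Q d Y s 0 b := by rw [Ff, Ff, cf]
    obtain ⟨z1, z2⟩ := (br Y s b y (by simpa using lz 0) hy.2.1 b3.symm).2.2.2 Q d (k * E.N) y' hQ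
    obtain ⟨l1, l2⟩ := b2 y y' hy.2 y0 b3.symm e
    refine ⟨b, b1.trans (min_le_left _ _), by rw [pk, b3], by rw [ff, ek, z1, l1], fun q => ?_⟩
    rw [ff]
    rw [ek] at q ⊢
    rw [z2 (z1.1 q)]
    exact l2 (z1.1 q)
  obtain ⟨δ, h, δ0⟩ := ((eventually_all.2 key).and self_mem_nhdsWithin).exists
  exact ⟨δ, δ0, fun t y y' h1 h2 hy y0 hd i Y hi e => h i Y hi t y y' h1 h2 hy y0 hd e⟩

end Pool.Agent.MP_c69980_ag.G3C
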