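import Pool.Agent.MP_c69980_ag.G3C.SpecE

/-!
Comparison at bounded depth, away from the boundary.
-/

set_option autoImplicit false

noncomputable section

namespace Pool.Agent.MP_c69980_ag.G3C

open MvPolynomial Metric Filter Topology Set Real
open H60 H4 E1 G3

namespace CI

lemma cmp {a b : ℂ} {D u A₁ : ℝ} {z : Prop} (hD : 1 ≤ D) (h1 : ‖a‖ ≤ D * ‖b‖) (h2 : ‖b‖ ≤ D * ‖a‖)
    (h : (z ↔ b ≠ 0) ∧ (z → |u - 6 * log ‖b‖| ≤ A₁)) :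
    (z ↔ a ≠ 0) ∧ (z → |u - 6 * log ‖a‖| ≤ A₁ + 6 * log D) := by
  have e : a ≠ 0 ↔ b ≠ 0 := not_congr
    ⟨fun e => by simpa [e] using h2, fun e => by simpa [e] using h1⟩
  refine ⟨h.1.trans e.symm, fun hz => ?_⟩
  have b0 := norm_pos_iff.2 (h.1.1 hz)
  have a0 := norm_pos_iff.2 (e.2 (h.1.1 hz))
  have D0 : D ≠ 0 := by positivity
  have l1 := log_le_log a0 h1
  have l2 := log_le_log b0 h2
  rw [log_mul D0 b0.ne'] at l1
  rw [log_mul D0 a0.ne'] at l2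
  have := abs_le.1 (h.2 hz)
  exact abs_le.2 ⟨by linarith, by linarith⟩

lemma nrm {p q a c : ℂ} {C : ℝ} {m d : ℕ} (h1 : ‖p‖ ≤ C * ‖q‖) (h2 : ‖q‖ ≤ C * ‖p‖)
    (h3 : ‖a‖ ≤ C ^ m) (h4 : 1 ≤ C ^ m * ‖a‖) :
    ‖p ^ (m * d) * (a ^ d * c)‖ ≤ C ^ (m * d) * C ^ (m * d) * ‖q ^ (m * d) * c‖ ∧
    ‖q ^ (m * d) * c‖ ≤ C ^ (m * d) * C ^ (m * d) * ‖p ^ (m * d) * (a ^ d * c)‖ := by
  simp only [norm_mul, norm_pow]
  have k1 := pow_le_pow_left₀ (norm_nonneg _) h1 (m * d)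
  have k2 := pow_le_pow_left₀ (norm_nonneg _) h2 (m * d)
  have k3 := pow_le_pow_left₀ (norm_nonneg _) h3 d
  have k4 := one_le_pow₀ (n := d) h4
  constructor
  · calc _ ≤ (C * ‖q‖) ^ (m * d) * ((C ^ m) ^ d * ‖c‖) :=
        mul_le_mul k1 (mul_le_mul_of_nonneg_right k3 (norm_nonneg _)) (by positivity)
          ((pow_nonneg (norm_nonneg _) _).trans k1)
      _ = _ := by rw [← pow_mul, mul_pow]; ring
  · calc _ ≤ (C * ‖p‖) ^ (m * d) * ((C ^ m * ‖a‖) ^ d * ‖c‖) :=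
        mul_le_mul k2 (le_mul_of_one_le_left (norm_nonneg _) k4) (norm_nonneg _)
          ((pow_nonneg (norm_nonneg _) _).trans k2)
      _ = _ := by rw [mul_pow, mul_pow, ← pow_mul]; ring

variable {n : ℕ} {X : Set (Pt n)} {W U : Set (PS n)} {m : ℕ} {Φ : Fin 3 → Pt n → V n → ℂ}
  {A : Amb (Wg n)}

/-- The conclusion at one point. -/
def PI (X : Set (Pt n)) (U : Set (PS n)) (m : ℕ) (Φ : Fin 3 → Pt n → V n → ℂ) (E : EA A)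
    (Q : PR 3) (d : ℕ) (A₀ ε δ B : ℝ) (t : ℂ) (y' : V n) : Prop :=
  ∀ i w₀, (t, w₀) ∈ E.O₃ i → prj y' = E.Y i (t, w₀) → E.sc i (t, w₀) ≤ B ∧
    ∀ y, (t, y) ∈ X → d2 y y' ≤ δ → ∃ w, ‖w - w₀‖ ≤ ε ∧ prj y = E.Y i (t, w) ∧
      ((t, w) ∈ E.O₃ i → (Z0 X U Φ Q t y y' ↔ Ff A Q d (E.Y i) t w₀ w ≠ 0) ∧
        (Z0 X U Φ Q t y y' →
          |U0 X m Φ Q d t y y' - 6 * log ‖Ff A Q d (E.Y i) t w₀ w‖| ≤ A₀))

variable {E : EA A} {Q : PR 3} {d : ℕ} {A₀ ε δ δ' B B' : ℝ} {t : ℂ} {y' y'' : V n}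

lemma PI.mono (h : PI X U m Φ E Q d A₀ ε δ B t y') (h1 : δ' ≤ δ) (h2 : B ≤ B') :
    PI X U m Φ E Q d A₀ ε δ' B' t y' := fun i w a b =>
  ⟨(h i w a b).1.trans h2, fun y c e => (h i w a b).2 y c (e.trans h1)⟩

lemma PI.pp (hP : PrjStmt) (h : PI X U m Φ E Q d A₀ ε δ B t y') (h0 : y' ≠ 0) (p : Pp y'' y') :
    PI X U m Φ E Q d A₀ ε δ B t y'' := fun i w a b => by
  rw [((hP n).1 _ _ (p.ne h0) h0).2 p] at b
  refine ⟨(h i w a b).1, fun y c e => ?_⟩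
  have e1 : d2 y y'' = d2 y y' := (Pp.refl y).d2 p
  have e2 : Z0 X U Φ Q t y y'' ↔ Z0 X U Φ Q t y y' :=
    and_congr_right' (and_congr_left' (not_congr ⟨fun q => q.trans p, fun q => q.trans p.symm⟩))
  rw [e2, U0, e1]
  exact (h i w a b).2 y c (e1 ▸ e)

lemma lz (E : EA A) {i : E.ι} {w : ℂ} (h : (t, w) ∈ E.O₃ i) : A.LZ (E.Y i) (t, w) :=
  (E.lc i t w w h (by simpa using E.δ0.le)).1

lemma pd {α : Type} {N : ℕ} {Y : C2 → α} (h : Pd N Y) (k : ℤ) (t w : ℂ) :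
    Y (t + k * G3.tp N, w) = Y (t, w) :=
  (show Function.Periodic (fun t => Y (t, w)) (G3.tp N) from fun t => h t w).int_mul k t

lemma tpe (k : ℤ) (N : ℕ) : k * G3.tp N = ((k * N : ℤ) : ℂ) * (2 * π * Complex.I) := by
  rw [G3.tp]; push_cast; ring

lemma cfp (hc : Pc E) {i : E.ι} {w : ℂ} (h : (t, w) ∈ E.O₃ i) (k : ℤ) :
    A.cf (E.Y i) (t + k * G3.tp E.N, w) = A.cf (E.Y i) (t, w) := by
  have : Pd E.N fun p => p ∈ E.O₃ i ∧ A.cf (E.Y i) (p.1, p.2) = A.cf (E.Y i) (t, w) :=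
    fun s v => by
      have e := (E.per i).2.2.2.1 s v
      simp only at e ⊢
      rw [e]
      exact propext (and_congr_right fun q => by rw [hc _ s v (E.per i).1 (lz E q)])
  exact ((pd this k t w).mpr ⟨h, rfl⟩).2

lemma PI.per (hB : BrgStmt) (hE : IsEnd X U m Φ W A) (hQ : Q.IsHomogeneous d)
    (h : PI X U m Φ E Q d A₀ ε δ B t y') (k : ℤ) :
    PI X U m Φ E Q d A₀ ε δ B (t + k * G3.tp E.N) y' := fun i w₀ a b => by
  obtain ⟨-, b2, b3⟩ := hB n X W U m Φ A hE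
  have o := pd (E.per i).2.2.2.1 k t
  have c := pd (E.per i).1 k t
  rw [c] at b
  have a' := (o w₀).mp a
  refine ⟨pd (E.per i).2.2.2.2.1 k t w₀ ▸ (h i w₀ a' b).1, fun y hy e => ?_⟩
  have hy' : (t, y) ∈ X := by
    have := hE.2.2.1 _ hy (-(k * E.N))
    simp only [tpe] at this
    rwa [Int.cast_neg, neg_mul, add_neg_cancel_right] at this
  obtain ⟨w, w1, w2, w3⟩ := (h i w₀ a' b).2 y hy' e
  refine ⟨w, w1, (c w).symm ▸ w2, fun q => ?_⟩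
  have q' := (o w).mp q
  obtain ⟨z1, z2⟩ := (b3 _ t w y (lz E q') (hE.1.cn.nz _ hy') w2).2.2.2 Q d (k * E.N) y' hQ
  rw [← tpe] at z1 z2
  rw [z1, Ff, cfp (b2 E) q' k]
  exact ⟨(w3 q').1, fun z => z2 z ▸ (w3 q').2 z⟩

lemma loc (hP : PrjStmt) (hB : BrgStmt) (hT : TrStmt) (hL : LocStmt) (hE : IsEnd X U m Φ W A)
    (hO : OpE E) (hQ : Q.IsHomogeneous d) (hd : 0 < d) (hε : 0 < ε) {x₀ : Pt n}
    (hx : x₀ ∈ E2.Op X U) (ht : E.M₁ < A.dp x₀.1) : ∃ δ B : ℝ, 0 < δ ∧ ∀ᶠ x in 𝓝 x₀, x ∈ X →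
      PI X U m Φ E Q d (3 * (m * d) + 6 * log (E.C ^ (A.m * d) * E.C ^ (A.m * d))) ε δ B
        x.1 x.2 := by
  obtain ⟨t₀, y₀⟩ := x₀
  have nz := hE.1.cn.nz
  have hZ : (t₀, prj y₀) ∈ A.Z := hE.2.1.z ▸ ⟨_, hx, rfl⟩
  obtain ⟨j, v₀, j1, j2⟩ := E.cov _ hZ ht.le
  have o2 := hO j _ j1 ht
  have lc := (lz E (E.o23 j (mem_of_mem_nhds o2))).1
  have C1 := E.C1
  have C0 : 0 < E.C := by linarith
  have δ0 := E.δ0
  obtain ⟨ρ, ρ0, ρ1, ρ2⟩ : ∃ ρ : ℝ, 0 < ρ ∧ E.C * (E.C * (E.C * ρ)) ≤ E.δ ∧ E.C * ρ ≤ ε :=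
    ⟨min (E.δ / E.C ^ 3) (ε / E.C), by positivity, by
      have := (le_div_iff₀ (by positivity)).1 (min_le_left (E.δ / E.C ^ 3) (ε / E.C))
      linarith, by
      have := (le_div_iff₀ C0).1 (min_le_right (E.δ / E.C ^ 3) (ε / E.C))
      linarith⟩
  have c1 : Tendsto (fun q : C2 × C2 => (q.1.1, q.1.2, q.2.2)) (𝓝 (t₀, v₀) ×ˢ 𝓝 (t₀, v₀))
      (𝓝 (t₀, v₀, v₀)) := by
    rw [← nhds_prod_eq]
    exact Continuous.tendsto' (by fun_prop) _ _ rfl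
  have c2 : ∀ᶠ q : ℂ × ℂ × ℂ in 𝓝 (t₀, v₀, v₀), ‖q.2.1 - q.2.2‖ < ρ :=
    ContinuousAt.eventually_lt (by fun_prop) continuousAt_const (by simpa using ρ0)
  obtain ⟨N, hN, N1⟩ := eventually_prod_self_iff'.1
    (c1.eventually ((hL n X W U m Φ A Q d _ t₀ v₀ hE hQ hd lc).and c2))
  have on := A.onto _ _ lc _ (inter_mem hN o2)
  simp only at j2
  rw [← j2] at on
  obtain ⟨r, r0, hr⟩ := Metric.eventually_nhds_iff.1 on
  obtain ⟨B, hB'⟩ := E.scl _ hZ ht.le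
  have c3 : Tendsto (fun x : Pt n => (x.1, prj x.2)) (𝓝 (t₀, y₀)) (𝓝 (t₀, prj y₀)) :=
    continuousAt_fst.prodMk (((hP n).2.1 y₀ (nz _ hx.1)).comp_of_eq continuousAt_snd rfl)
  refine ⟨(r / 2) ^ 2 / 2, B, by positivity, ?_⟩
  filter_upwards [c3.eventually hB', c3.eventually (ball_mem_nhds _ (half_pos r0))] with x s1 s2 hX
  obtain ⟨t, y'⟩ := x
  intro i w₀ a b
  refine ⟨s1 i w₀ a b, fun y hy e => ?_⟩
  have s3 : dist (t, prj y') (t₀, prj y₀) < r / 2 := s2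
  have s4 : dist (prj y) (prj y') ≤ r / 2 := by
    have := ((hP n).2.2.1 y y' (nz _ hy) (nz _ hX)).1
    exact abs_le_of_sq_le_sq' (by linarith) (by positivity) |>.2
  have s5 : dist (t, prj y) (t₀, prj y₀) < r := by
    have := dist_triangle (t, prj y) (t, prj y') (t₀, prj y₀)
    rw [dist_prod_same_left] at this
    linarith
  obtain ⟨v, ⟨v1, v2⟩, v3⟩ := hr s5 (hE.2.1.zb ▸ ⟨_, hy, rfl⟩)
  obtain ⟨v', ⟨u1, u2⟩, u3⟩ := hr (s3.trans (half_lt_self r0)) (hE.2.1.zb ▸ ⟨_, hX, rfl⟩)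
  simp only at v1 v2 v3 u1 u2 u3 a b e
  obtain ⟨l1, l2⟩ := N1 _ v1 _ u1
  simp only at l1 l2
  have v4 := E.o23 j v2
  have u4 := E.o23 j u2
  have g1 : E.C * ‖v - v'‖ ≤ E.C * ρ := by gcongr
  have g2 : ρ ≤ E.C * ρ := le_mul_of_one_le_left ρ0.le C1
  have g3 : E.C * ρ ≤ E.C * (E.C * ρ) := by gcongr
  have g4 : E.C * (E.C * ρ) ≤ E.C * (E.C * (E.C * ρ)) := by gcongr
  obtain ⟨w, w1, w2⟩ := E.tr j i t v' w₀ v u4 a (u3.trans b) (by linarith)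
  have g5 : E.C * ‖w - w₀‖ ≤ E.C * (E.C * ρ) := by gcongr; linarith
  obtain ⟨v'', w3, w4⟩ := E.tr i j t w₀ v' w a u4 (u3.trans b).symm (by linarith)
  rw [← (E.lc j t v' v u4 (by linarith)).2.2 v'' (by linarith) (w2.trans w4)] at w3
  refine ⟨w, by linarith, v3.symm.trans w2, fun q => ?_⟩
  obtain ⟨c, k1, k2, k3⟩ := (hT _ A).2 E i j t w v q v4 w2.symm |>.1
  have hU := ((hB n X W U m Φ A hE).2.2 _ t v y (lz E v4) (nz _ hy) v3.symm).2.1.2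
  have k4 := nrm (d := d) (c := eval (A.cf (E.Y j) (t, v)) Q) w1 w3 k1 k2
  have k5 := l1 y y' hU (nz _ hX) v3.symm u3.symm
  rw [Ff, k3, eval_smul_hom hQ]
  exact cmp (one_le_mul_of_one_le_of_one_le (one_le_pow₀ C1) (one_le_pow₀ C1)) k4.1 k4.2 k5

lemma lim (hP : PrjStmt) (hE : IsEnd X U m Φ W A) (E : EA A) {η : ℝ} (hη : 0 < η) {x₀ : Pt n}
    (h0 : x₀.2 ≠ 0) (ht : E.M₁ < A.dp x₀.1)
    (h : x₀ ∈ closure {x : Pt n | x ∈ X ∧ Aw0 X U η x.1 x.2}) : x₀ ∈ E2.Op X U := by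
  have hX : x₀ ∈ X := hE.1.cn.closed _ (closure_mono (fun x hx => hx.1) h) h0
  refine ⟨hX, by_contra fun hU => ?_⟩
  have nz := hE.1.cn.nz
  have h1 : (x₀.1, prj x₀.2) ∉ A.Z := fun q => by
    rw [hE.2.1.z] at q
    obtain ⟨x, hx, e⟩ := q
    obtain ⟨c, c0, e'⟩ := ((hP n).1 _ _ h0 (nz _ hx.1)).1 (congrArg Prod.snd e).symm
    exact hU (e' ▸ H60.Cone.smul hx.2 c0)
  obtain ⟨i, F, hF, e⟩ := E.bdy _ (hE.2.1.zb ▸ ⟨_, hX, rfl⟩) h1 ht.le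
  have cu := (E.cusp i F hF).2
  have c1 : ContinuousAt (fun x : Pt n => F (x.1, 0)) x₀ :=
    (A.cont _ _ ((cu _ ht.le).2.2.2 0 (by simp)).1).comp_of_eq (by fun_prop) rfl
  have c2 : ContinuousAt (fun x : Pt n => prj x.2) x₀ :=
    ((hP n).2.1 _ h0).comp_of_eq continuousAt_snd rfl
  have c3 : ∀ᶠ x : Pt n in 𝓝 x₀, (n : ℝ) ^ 2 * dist (prj x.2) (F (x.1, 0)) ^ 2 < η :=
    ContinuousAt.eventually_lt (continuousAt_const.mul ((c2.dist c1).pow 2)) continuousAt_const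
      (by simp only at e; simpa [e] using hη)
  have c4 : ∀ᶠ x : Pt n in 𝓝 x₀, E.M₁ < A.dp x.1 :=
    ContinuousAt.eventually_lt continuousAt_const (by unfold Amb.dp; fun_prop) ht
  obtain ⟨x, ⟨x1, x2⟩, x3, x4⟩ := ((mem_closure_iff_frequently.1 h).and_eventually (c3.and c4)).exists
  have m1 := A.mem _ _ ((cu _ x4.le).2.2.2 0 (by simp)).1
  rw [hE.2.1.zb] at m1
  obtain ⟨⟨s, z⟩, z1, z2⟩ := m1
  obtain ⟨z3, z4⟩ := Prod.mk.inj z2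
  simp only at z3 z4
  subst z3
  have z5 := x2 z z1 fun q => (cu _ x4.le).2.2.1 (hE.2.1.z ▸ ⟨_, ⟨z1, q⟩, z2⟩)
  have z6 := ((hP n).2.2.1 _ _ (nz _ x1) (nz _ z1)).2
  rw [z4] at z6
  simp only at z6
  linarith

end CI

open CI in
theorem cmpIOf : CmpIOf := by
  intro hP hB hT hL n X W U m Φ A E Q d hE hO hQ hd
  refine ⟨3 * (m * d) + 6 * log (E.C ^ (A.m * d) * E.C ^ (A.m * d)), fun M η ε hη hε => ?_⟩
  have M1 : 0 < E.M₁ := by linarith [E.MM, A.M0]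
  have p0 : 0 < 2 * π * E.N := by have := E.N0; positivity
  obtain ⟨T, hT'⟩ : ∃ T : Set (Pt n), T = {x | (x ∈ X ∧ Aw0 X U η x.1 x.2) ∧
    2 * E.M₁ ≤ A.dp x.1 ∧ ‖x.2‖ = 1 ∧ ‖x.1‖ ≤ M + 2 * π * E.N} := ⟨_, rfl⟩
  have hK : IsCompact (closure T) := Bornology.IsBounded.isCompact_closure
    (isBounded_iff_forall_norm_le.2 ⟨max (M + 2 * π * E.N) 1, fun x hx => by
      rw [hT'] at hx
      exact max_le_max hx.2.2.2 hx.2.2.1.le⟩)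
  obtain ⟨δ, B, δ0, H⟩ := hK.induction_on (p := fun s => ∃ δ B : ℝ, 0 < δ ∧ ∀ x ∈ s, x ∈ X →
      PI X U m Φ E Q d (3 * (m * d) + 6 * log (E.C ^ (A.m * d) * E.C ^ (A.m * d))) ε δ B x.1 x.2)
    ⟨1, 0, one_pos, fun _ h => h.elim⟩
    (fun s t h ⟨δ, B, a, b⟩ => ⟨δ, B, a, fun x hx => b x (h hx)⟩)
    (fun s t ⟨δ, B, a, b⟩ ⟨δ', B', a', b'⟩ => ⟨min δ δ', max B B', lt_min a a', fun x hx q =>
      hx.elim (fun h => (b x h q).mono (min_le_left _ _) (le_max_left _ _))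
        fun h => (b' x h q).mono (min_le_right _ _) (le_max_right _ _)⟩)
    fun x hx => by
      have h1 : x ∈ {x : Pt n | 2 * E.M₁ ≤ A.dp x.1} ∩ {x | ‖x.2‖ = 1} :=
        closure_minimal (fun x hx => by rw [hT'] at hx; exact ⟨hx.2.1, hx.2.2.1⟩)
          ((isClosed_le continuous_const (by unfold Amb.dp; fun_prop)).inter
            (isClosed_eq (by fun_prop) continuous_const)) hx
      have h2 : E.M₁ < A.dp x.1 := by have : 2 * E.M₁ ≤ A.dp x.1 := h1.1; linarith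
      obtain ⟨δ, B, a, b⟩ := loc hP hB hT hL hE hO hQ hd hε
        (lim hP hE E hη (fun e => by have : ‖x.2‖ = 1 := h1.2; simp [e] at this) h2
          (closure_mono (fun x hx => by rw [hT'] at hx; exact hx.1) hx)) h2
      exact ⟨_, mem_nhdsWithin_of_mem_nhds b, δ, B, a, fun _ h => h⟩
  refine ⟨δ, B, δ0, fun t y' t1 t2 hX hA => ?_⟩
  obtain ⟨k, hk, -⟩ := existsUnique_sub_zsmul_mem_Ico p0 t.im 0
  have y0 : y' ≠ 0 := hE.1.cn.nz _ hX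
  have c0 : ((‖y'‖⁻¹ : ℝ) : ℂ) ≠ 0 := by simpa using y0
  have pp := Pp.smul c0 y'
  have e1 : (t + (-k : ℤ) * G3.tp E.N).re = t.re := by simp [G3.tp]
  have e2 : (t + (-k : ℤ) * G3.tp E.N).im = t.im - k • (2 * π * E.N) := by
    simp [G3.tp]
    ring
  have e3 : t + (-k : ℤ) * G3.tp E.N + k * G3.tp E.N = t := by push_cast; ring
  have x1 : (t + (-k : ℤ) * G3.tp E.N, ((‖y'‖⁻¹ : ℝ) : ℂ) • y') ∈ X := by
    rw [tpe]
    exact hE.2.2.1 _ (hE.1.cn.scal _ hX _ c0) _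
  have := ((H _ (subset_closure ?_) x1).pp hP (pp.ne y0) pp.symm).per hB hE hQ k
  · rwa [e3] at this
  rw [hT']
  refine ⟨⟨x1, fun z z1 z2 => ?_⟩, by rw [Amb.dp, e1]; exact t1, ?_, ?_⟩
  · rw [pp.d2 (Pp.refl z)]
    have := hE.2.2.1 _ z1 (k * E.N)
    rw [← tpe, e3] at this
    exact hA z this z2
  · rw [norm_smul, Complex.norm_real, norm_inv, norm_norm, inv_mul_cancel₀ (norm_ne_zero_iff.2 y0)]
  · refine (Complex.norm_le_abs_re_add_abs_im _).trans (add_le_add ?_ ?_)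
    · rw [e1]
      unfold Amb.dp at t1 t2
      rcases A.hσ with h | h <;> rw [h] at t1 t2 <;> exact abs_le.2 ⟨by linarith, by linarith⟩
    · rw [e2]
      exact abs_le.2 ⟨by linarith [hk.1], by linarith [hk.2]⟩

end Pool.Agent.MP_c69980_ag.G3C
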