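import Pool.Agent.MP_c69980_ag.G3C.SpecE

/-!
Cusps, a lower bound in one variable, and merging the two ends.
-/

set_option autoImplicit false

noncomputable section

namespace Pool.Agent.MP_c69980_ag.G3C

open MvPolynomial Metric Filter Topology MeasureTheory Set Real
open H60 H4 E1 G3

theorem mergeS : MergeStmt := by
  intro κ C C₁ C₂ d₀ d d₁ d₂ A A₁ A₂ c M₀ M r σ y₀ K K₁ K₂ u u' Δ₁ Δ₂ Z Z' k0 k1 m4 c1 c2 c3 c4
    e1 e2 a1 a2 q1 q2 h1 h2 hu hs hA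
  obtain ⟨Δ, nn, key⟩ : ∃ Δ : ℂ → ℝ, (∀ t, 0 ≤ Δ t) ∧ ∀ t : ℂ, M₀ ≤ |t.re| →
      ∃ s C' d' A' K' Δ', En s κ C' d₀ d' A' M₀ K' M σ y₀ u Δ' Z ∧ 0 ≤ C' ∧ C' ≤ C ∧ d ≤ d' ∧
        A' ≤ A ∧ K' ≤ K ∧ s * t.re = |t.re| ∧ ∀ w : ℂ, |w.re - t.re| < |t.re| → Δ w = Δ' w := by
    refine ⟨fun t => if 0 ≤ t.re then Δ₁ t else Δ₂ t,
      fun t => by dsimp only; split_ifs; exacts [h1.nn t, h2.nn t], fun t _ => ?_⟩
    rcases le_total 0 t.re with h | h
    · refine ⟨_, _, _, _, _, _, h1, c1, c3, e1, a1, q1, by rw [abs_of_nonneg h, one_mul],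
        fun w hw => if_pos ?_⟩
      rw [abs_of_nonneg h] at hw
      linarith [(abs_lt.1 hw).1]
    · refine ⟨_, _, _, _, _, _, h2, c2, c4, e2, a2, q2, by rw [abs_of_nonpos h, neg_one_mul],
        fun w hw => if_neg ?_⟩
      rw [abs_of_nonpos h] at hw
      linarith [(abs_lt.1 hw).2]
  have nr : ∀ {t w : ℂ} {ρ : ℝ}, w ∈ ball t ρ → |w.re - t.re| < ρ := fun {t w ρ} hw =>
    (Complex.abs_re_le_norm (w - t)).trans_lt (mem_ball_iff_norm.1 hw)
  have z0 : ∀ t : ℂ, M₀ ≤ |t.re| → |t.re - t.re| < |t.re| := fun t ht => by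
    rw [sub_self, abs_zero]; linarith
  refine ⟨Δ, nn, hs, hA, fun t ht hd => ?_, fun t hz ht hM hy => ?_, fun t ht hM hy h0 => ?_,
    fun t ht hM hy => ?_⟩ <;> obtain ⟨s, C', d', A', K', Δ', h, p1, p2, p3, p4, p5, p6, p7⟩ :=
      key t ht <;> have e0 := p7 t (z0 t ht)
  · obtain ⟨g, g1, g2, g3⟩ := h.cmp t (p6 ▸ ht) (e0 ▸ hd)
    refine ⟨g, g1, ?_, fun w hw => ?_⟩
    · rw [e0]
      exact g2.trans (mul_le_mul_of_nonneg_right p2 (h.nn t))
    · obtain ⟨g4, g5, g6⟩ := g3 w hw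
      rw [p7 w ((nr hw).trans_le (by nlinarith))]
      refine ⟨g4.trans (mul_le_mul p2 (pow_le_pow_right₀ (by linarith) p5) (by positivity)
        (p1.trans p2)), fun k => (g5 (k.trans p3)).trans
          (mul_le_mul_of_nonneg_right p2 (norm_nonneg _)), fun k => (g6 k).imp
            (fun k => k.trans (mul_le_mul_of_nonneg_right p2 (h.nn w))) p3.trans⟩
  · obtain ⟨v1, v2⟩ := hu t (by linarith)
    obtain ⟨g1, g2⟩ := h.hi t (v2.1 hz) (p6 ▸ ht) (p6 ▸ hM) hy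
    rw [e0, v1]
    exact ⟨g1, by linarith⟩
  · rw [e0] at h0 ⊢
    refine (h.lo t (p6 ▸ ht) (p6 ▸ hM) hy h0).mono (fun w hw hz => ?_) (by linarith)
    obtain ⟨v1, v2⟩ := hu w (by
      have := abs_sub_abs_le_abs_sub t.re w.re
      rw [abs_sub_comm] at this
      nlinarith [nr hw])
    exact ⟨v2.2 hz, v1.ge⟩
  · rw [e0]
    exact h.cl t (p6 ▸ ht) (p6 ▸ hM) hy

theorem schwLOf : SchwLOf := by
  intro hS r A η e r0 η0
  have hB : 0 < |A| / r ^ e + 1 := by positivity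
  generalize hb : |A| / r ^ e + 1 = B at hB
  refine ⟨min (r / 4) (η * r / (4 * B)), by positivity, fun f c hd hA hO hl w hw hε => ?_⟩
  have ne : ∀ v : ℂ, v ≠ c → 0 < ‖v - c‖ ^ e := fun v hv =>
    pow_pos (norm_pos_iff.2 (sub_ne_zero.2 hv)) e
  have bd : ∀ v ∈ ball c r \ {c}, ‖f v / (v - c) ^ e‖ ≤ B := fun v hv => by
    have := hS f c r A e r0 hd hA hO v hv
    rw [norm_div, norm_pow, div_le_iff₀ (ne v hv.2), ← hb]
    have h2 : ‖f v‖ ≤ |A| / r ^ e * ‖v - c‖ ^ e := by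
      rw [div_mul_eq_mul_div, le_div_iff₀ (by positivity)]
      exact this.trans (mul_le_mul_of_nonneg_right (le_abs_self A) (ne v hv.2).le)
    nlinarith [ne v hv.2]
  have hψ := Complex.differentiableOn_update_limUnder_of_bddAbove
    (f := fun v => f v / (v - c) ^ e) (ball_mem_nhds c r0)
    (hd.div (by fun_prop) fun v hv => pow_ne_zero e (sub_ne_zero.2 hv.2))
    ⟨B, by rintro _ ⟨v, hv, rfl⟩; exact bd v hv⟩
  have hu : ∀ v, v ≠ c → Function.update (fun v => f v / (v - c) ^ e) c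
    (limUnder (𝓝[≠] c) fun v => f v / (v - c) ^ e) v = f v / (v - c) ^ e :=
    fun v hv => Function.update_of_ne hv _ _
  generalize Function.update (fun v => f v / (v - c) ^ e) c _ = ψ at hψ hu
  have dc := hψ.differentiableAt (ball_mem_nhds c r0)
  have lo : η ≤ ‖ψ c‖ := by
    refine ge_of_tendsto (dc.continuousAt.norm.tendsto.mono_left (nhdsWithin_le_nhds (s := {c}ᶜ))) ?_
    filter_upwards [hl, self_mem_nhdsWithin] with v hv hc
    rwa [hu v hc, norm_div, norm_pow, le_div_iff₀ (ne v hc)]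
  have w1 := hε.trans (min_le_left _ _)
  have w2 := (le_div_iff₀ (by positivity)).1 (hε.trans (min_le_right _ _))
  have k := hS (fun v => ψ v - ψ c) c r (B + ‖ψ c‖) 1 r0 ((hψ.mono sdiff_subset).sub_const _)
    (fun v hv => (norm_sub_le _ _).trans (by rw [hu v hv.2]; linarith [bd v hv]))
    (dc.isBigO_sub.bound.imp fun _ h => (h.filter_mono nhdsWithin_le_nhds).mono fun v hv => by
      rwa [pow_one]) w ⟨mem_ball_iff_norm.2 (by linarith), hw⟩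
  simp only [pow_one] at k
  have k2 := norm_sub_norm_le (ψ c) (ψ w)
  rw [norm_sub_rev] at k2
  have k3 : η / 2 ≤ ‖ψ w‖ := by
    refine le_of_mul_le_mul_right ?_ r0
    nlinarith [mul_le_mul_of_nonneg_left w1 (norm_nonneg (ψ c)),
      mul_le_mul_of_nonneg_right k2 r0.le, mul_le_mul_of_nonneg_right lo r0.le]
  rwa [hu w hw, norm_div, norm_pow, le_div_iff₀ (ne w hw)] at k3

theorem cuS : CuStmt := by
  intro M _ A E
  have h2 : ∀ i Y t, E.pu i = some Y → E.M₁ ≤ A.dp t → ∀ w, (t, w) ∈ E.O₃ i →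
      A.cf (E.Y i) (t, w) = Complex.exp w ^ A.m • A.cf Y (t, Complex.exp w) := by
    intro i Y t hY ht w hw
    obtain ⟨c1, c2⟩ := E.cusp i Y hY
    obtain ⟨-, c3, -, c4⟩ := c2 t ht
    have hd : dw (fun q => Complex.exp q.2) (t, w) = Complex.exp w := by
      have := (hasFDerivAt_snd (𝕜 := ℂ) (p := ((t, w) : C2))).cexp.fderiv
      rw [dw, this]
      simp
    have := (A.comp Y (E.Y i) (t, w) (fun q => Complex.exp q.2)
      (c4 _ (by rw [Complex.norm_exp]; exact exp_le_one_iff.2 (c3 w hw))).1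
      analyticAt_snd.cexp' (hd ▸ Complex.exp_ne_zero w) (.of_forall fun q => c1 q.1 q.2)).2
    funext l
    rw [this l, hd]
    rfl
  have h1 : ∀ i Y t, E.pu i = some Y → E.M₁ ≤ A.dp t → ∀ b : ℂ, b ≠ 0 → ‖b‖ ≤ 1 / 4 →
      A.LZ Y (t, b) ∧ ∀ l, ‖b ^ A.m * A.cf Y (t, b) l‖ ≤ E.C := by
    intro i Y t hY ht b b0 hb
    obtain ⟨c1, c2⟩ := E.cusp i Y hY
    obtain ⟨c3, -, -, c4⟩ := c2 t ht
    have o3 : (t, Complex.log b) ∈ E.O₃ i := E.o23 i (E.o12 i t _ _ (c3 _ (by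
      rw [Complex.log_re, log_le_iff_le_exp (norm_pos_iff.2 b0)]
      linarith [exp_neg_one_gt_d9])) (by simpa using E.δ0.le))
    obtain ⟨l1, l2, -⟩ := E.lc i t _ (Complex.log b) o3 (by simpa using E.δ0.le)
    have e1 := l1.2
    rw [h2 i Y t hY ht _ o3, Complex.exp_log b0] at l2
    rw [c1, Complex.exp_log b0] at e1
    exact ⟨⟨(c4 b (by linarith)).1, e1⟩, l2⟩
  refine ⟨fun i Y t hY ht => ⟨h1 i Y t hY ht, h2 i Y t hY ht⟩, fun γ hγ => ?_⟩
  have op : IsOpen (Hs E) := isOpen_lt continuous_const (by unfold Amb.dp; fun_prop)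
  have h3 : ∀ i Y, E.pu i = some Y → ∀ t₀ ∈ Hs E, γ t₀ = Y (t₀, 0) →
      ∀ t ∈ Hs E, γ t = Y (t, 0) := by
    intro i Y hY t₀ h0 e0 t ht
    have lc : ∀ t ∈ Hs E, A.LC Y (t, 0) := fun t ht =>
      (((E.cusp i Y hY).2 t (le_of_lt ht)).2.2.2 0 (by simp)).1
    have cv : Convex ℝ (Hs E) := convex_halfSpace_gt (f := A.dp)
      ⟨fun x y => by simp [Amb.dp, mul_add], fun c x => by simp [Amb.dp]; ring⟩ _
    refine (cv.isPreconnected.subset_of_closure_inter_subset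
      (u := {t | t ∈ Hs E ∧ γ t = Y (t, 0)}) (isOpen_iff_mem_nhds.2 fun t ht => ?_)
      ⟨t₀, h0, h0, e0⟩ (fun t ht => ⟨ht.2, ?_⟩) ht).2
    · obtain ⟨ω, w1, w2, w3⟩ := A.lift γ Y t 0 (hγ t ht.1).1 (lc t ht.1) ht.2
      filter_upwards [w3, op.mem_nhds ht.1, w1.continuousAt.norm.eventually_le_const
        (show ‖ω t‖ < 1 / 4 by rw [w2]; norm_num)] with v v1 v2 v3
      refine ⟨v2, by_contra fun k => (hγ v v2).2.2 ?_⟩
      rw [v1] at k ⊢
      exact (h1 i Y v hY (le_of_lt v2) _ (fun z => k (by rw [z])) v3).1.2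
    · exact tendsto_nhds_unique_of_frequently_eq (A.hsc γ t (hγ t ht.2).1)
        ((A.cont Y _ (lc t ht.2)).comp_of_eq (f := fun t : ℂ => ((t, 0) : C2)) (by fun_prop) rfl)
        ((mem_closure_iff_frequently.1 ht.1).mono fun _ h => h.2)
  have h0 : ((A.σ * (E.M₁ + 1) : ℝ) : ℂ) ∈ Hs E := by
    show E.M₁ < A.σ * (Complex.ofReal _).re
    rw [Complex.ofReal_re]
    rcases A.hσ with h | h <;> rw [h] <;> linarith
  obtain ⟨i, Y, hY, e⟩ := E.bdy _ (hγ _ h0).2.1 (hγ _ h0).2.2 (le_of_lt h0)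
  exact ⟨⟨i, Y, hY, h3 i Y hY _ h0 e⟩, h3⟩

end Pool.Agent.MP_c69980_ag.G3C
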