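import Pool.Agent.MP_c69980_ag.G3C.CylA
import Pool.Agent.MP_c69980_ag.E1.Fin

/-!
The Siegel argument on the cylinder.
-/

set_option autoImplicit false

noncomputable section

namespace Pool.Agent.MP_c69980_ag.G3C

open MvPolynomial Metric Filter Topology MeasureTheory Set Real
open H60 H4

namespace CylX

/-- The function with simple zeros at the periods. -/
def sN (N : ℕ) (t : ℂ) : ℂ := Complex.exp (t / N) - 1

variable {N : ℕ}

lemma sN_diff : Differentiable ℂ (sN N) := by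
  unfold sN
  fun_prop

lemma sN_zero (hN : 0 < N) {t : ℂ} (h : sN N t = 0) : ∃ k : ℤ, t = k * Tp N := by
  have h0 : (N : ℂ) ≠ 0 := by exact_mod_cast hN.ne'
  obtain ⟨k, hk⟩ := Complex.exp_eq_one_iff.1 (sub_eq_zero.1 h)
  refine ⟨k, ?_⟩
  rw [div_eq_iff h0] at hk
  rw [hk, Tp]
  ring

lemma sN_per (hN : 0 < N) : Function.Periodic (sN N) (Tp N) := fun t => by
  have h0 : (N : ℂ) ≠ 0 := by exact_mod_cast hN.ne'
  rw [sN, sN, add_div, Tp, mul_div_cancel_left₀ _ h0, Complex.exp_add,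
    Complex.exp_two_pi_mul_I, mul_one]

lemma Tp_re (k : ℤ) : ((k : ℂ) * Tp N).re = 0 := by simp [Tp]

lemma Tp_im (k : ℤ) : ((k : ℂ) * Tp N).im = k * (N * (2 * π)) := by simp [Tp]

lemma sN_cnt (hN : 0 < N) : {t | sN N t = 0}.Countable :=
  (countable_range fun k : ℤ => (k : ℂ) * Tp N).mono fun _ ht =>
    (sN_zero hN ht).imp fun _ h => h.symm

lemma sN_ne (hN : 0 < N) {t : ℂ} (h : t.re ≠ 0) : sN N t ≠ 0 := fun c => by
  obtain ⟨k, rfl⟩ := sN_zero hN c
  exact h (Tp_re k)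

lemma sN_low (hN : 0 < N) {M₀ : ℝ} (hM : 0 < M₀) {t : ℂ} (h : M₀ ≤ |t.re|) :
    log (1 - exp (-(M₀ / N))) + (t.re + |t.re|) / (2 * N) ≤ log ‖sN N t‖ := by
  have n0 : (0 : ℝ) < N := by exact_mod_cast hN
  have d0 : 0 < 1 - exp (-(M₀ / N)) :=
    sub_pos.2 (exp_lt_one_iff.2 (neg_lt_zero.2 (div_pos hM n0)))
  have h1 : |exp (t.re / N) - 1| ≤ ‖sN N t‖ := by
    have := abs_norm_sub_norm_le (Complex.exp (t / N)) 1
    rwa [Complex.norm_exp, norm_one, Complex.div_natCast_re] at this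
  rw [← log_exp ((t.re + |t.re|) / (2 * N)), ← log_mul d0.ne' (exp_pos _).ne']
  refine log_le_log (mul_pos d0 (exp_pos _)) (le_trans ?_ h1)
  rcases le_total 0 t.re with c | c
  · rw [abs_of_nonneg c] at h ⊢
    have e : (t.re + t.re) / (2 * N) = t.re / N := by field_simp; ring
    have h2 : 1 ≤ exp (-(M₀ / N)) * exp (t.re / N) := by
      rw [← exp_add]
      exact one_le_exp (by linarith [div_le_div_of_nonneg_right h n0.le])
    rw [e]
    exact le_trans (by linarith) (le_abs_self _)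
  · rw [abs_of_nonpos c] at h ⊢
    have h2 : exp (t.re / N) ≤ exp (-(M₀ / N)) := by
      rw [← neg_div]
      exact exp_le_exp.2 (div_le_div_of_nonneg_right (by linarith) n0.le)
    rw [add_neg_cancel, zero_div, exp_zero, mul_one]
    exact le_trans (by linarith) (neg_le_abs _)

lemma strip_open (M : ℝ) : IsOpen {t : ℂ | |t.re| < M} :=
  isOpen_lt (by fun_prop) continuous_const

/-- Division by a power of `sN`. -/
lemma ext (hN : 0 < N) {M : ℝ} (hM : 0 < M) {f : ℂ → ℂ} {J : ℕ}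
    (hf : DifferentiableOn ℂ f {t | |t.re| < M}) (hp : Function.Periodic f (Tp N))
    (hJ : ∀ i < J, iteratedDeriv i f 0 = 0) :
    ∃ W : ℂ → ℂ, DifferentiableOn ℂ W {t | |t.re| < M} ∧ Function.Periodic W (Tp N) ∧
      ∀ t, sN N t ≠ 0 → W t = f t / sN N t ^ J := by
  classical
  have n0 : (N : ℂ) ≠ 0 := by exact_mod_cast hN.ne'
  have a0 : AnalyticAt ℂ f 0 := hf.analyticAt ((strip_open M).mem_nhds (by simpa using hM))
  obtain ⟨g, g1, g2⟩ := (natCast_le_analyticOrderAt a0).1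
    ((natCast_le_analyticOrderAt_iff_iteratedDeriv_eq_zero a0).2 hJ)
  have s0 : sN N 0 = 0 := by simp [sN]
  have s1 : DifferentiableOn ℂ (dslope (sN N) 0) univ :=
    (Complex.differentiableOn_dslope univ_mem).2 sN_diff.differentiableOn
  have s2 : ∀ t, sN N t = t * dslope (sN N) 0 t := fun t => by
    have := sub_smul_dslope (sN N) 0 t
    rw [s0, sub_zero, sub_zero, smul_eq_mul] at this
    exact this.symm
  have s3 : dslope (sN N) 0 0 ≠ 0 := by
    have : HasDerivAt (sN N) (Complex.exp (0 / N) * (1 / N)) 0 :=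
      ((hasDerivAt_id (0 : ℂ)).div_const (N : ℂ)).cexp.sub_const 1
    rw [dslope_same, this.deriv]
    exact mul_ne_zero (Complex.exp_ne_zero _) (one_div_ne_zero n0)
  have s4 := s1.differentiableAt (x := 0) univ_mem
  let W : ℂ → ℂ := fun t => if sN N t = 0 then g 0 / dslope (sN N) 0 0 ^ J else f t / sN N t ^ J
  have w1 : Function.Periodic W (Tp N) := fun t => by simp only [W, sN_per hN t, hp t]
  have w2 : ∀ t, sN N t ≠ 0 → W t = f t / sN N t ^ J := fun t ht => if_neg ht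
  have w3 : DifferentiableAt ℂ W 0 := by
    refine (g1.differentiableAt.div (s4.pow J) (pow_ne_zero _ s3)).congr_of_eventuallyEq ?_
    filter_upwards [g2, s4.continuousAt.eventually_ne s3] with t h1 h2
    by_cases c : t = 0
    · subst c
      exact if_pos s0
    · rw [w2 t (by rw [s2]; exact mul_ne_zero c h2), h1, s2 t, sub_zero, smul_eq_mul, mul_pow,
        mul_div_mul_left _ _ (pow_ne_zero _ c)]
      rfl
  refine ⟨W, fun t ht => DifferentiableAt.differentiableWithinAt ?_, w1, w2⟩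
  by_cases c : sN N t = 0
  · obtain ⟨k, rfl⟩ := sN_zero hN c
    have e : W = fun t => W (t - k * Tp N) := funext fun t => ((w1.int_mul k).sub_eq t).symm
    rw [e]
    exact DifferentiableAt.comp (g := W) _ (by rwa [sub_self]) (by fun_prop)
  · refine ((hf.differentiableAt ((strip_open M).mem_nhds ht)).div ((sN_diff t).pow J)
      (pow_ne_zero _ c)).congr_of_eventuallyEq ?_
    filter_upwards [(sN_diff t).continuousAt.eventually_ne c] with w hw using w2 w hw

lemma bdd (hN : 0 < N) {M M' : ℝ} (hM : M' < M) {W : ℂ → ℂ}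
    (hW : ContinuousOn W {t | |t.re| < M}) (hp : Function.Periodic W (Tp N)) :
    ∃ B, ∀ t : ℂ, |t.re| ≤ M' → ‖W t‖ ≤ B := by
  have n0 : (0 : ℝ) < N * (2 * π) := by positivity
  have c : IsCompact (closedBall (0 : ℂ) (M' + N * (2 * π)) ∩ {t | |t.re| ≤ M'}) :=
    (isCompact_closedBall _ _).inter_right (isClosed_le (by fun_prop) continuous_const)
  obtain ⟨B, hB⟩ := c.exists_bound_of_continuousOn (hW.mono fun t ht => ht.2.trans_lt hM)
  refine ⟨B, fun t ht => ?_⟩
  have e : (t - toIcoDiv n0 0 t.im * Tp N).re = t.re := by rw [Complex.sub_re, Tp_re, sub_zero]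
  rw [← (hp.int_mul (toIcoDiv n0 0 t.im)).sub_eq t]
  refine hB _ ⟨mem_closedBall_zero_iff.2 ((Complex.norm_le_abs_re_add_abs_im _).trans ?_), ?_⟩
  · have h := sub_toIcoDiv_zsmul_mem_Ico n0 0 t.im
    rw [zsmul_eq_mul, zero_add] at h
    rw [e, Complex.sub_im, Tp_im, abs_of_nonneg h.1]
    exact add_le_add ht h.2.le
  · change |_| ≤ M'
    rwa [e]

end CylX

open CylX in
theorem cylOf : CylOf := by
  intro hMP hGl hLo N κ C M₀ H F p E hN k0 k1 hC hM hH hper hE hp hp' hG ha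
  have M0 : 0 < M₀ := by linarith
  have n0 : (0 : ℝ) < N := by exact_mod_cast hN
  obtain ⟨e, e0, hc⟩ := core hMP hGl hLo k0 k1 hC hM
  obtain ⟨m, hm⟩ := exists_nat_ge (4 * N * (e + 1))
  have z0 : (0 : ℂ) ∈ {t : ℂ | |t.re| < 8 * M₀} := by simpa using M0
  obtain ⟨n, Q, Q1, Q0, Q2⟩ := E1.FinX.siegel (ι := Unit) (fun _ => H)
    (fun _ => hH.analyticAt ((strip_open _).mem_nhds z0)) m
  have n1 : 0 < n := by
    refine Nat.pos_of_ne_zero fun c => Q0 ?_
    have h1 := Q2 () 0 (Nat.succ_pos _)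
    rw [c] at Q1
    rw [totalDegree_eq_zero_iff_eq_C.1 (Nat.le_zero.1 Q1.totalDegree_le)] at h1 ⊢
    rw [iteratedDeriv_zero, eval_C] at h1
    rw [h1, map_zero]
  have fd : DifferentiableOn ℂ (fun t => eval (H t) Q) {t | |t.re| < 8 * M₀} := H18.evd hH Q
  obtain ⟨W, w1, w2, w3⟩ := ext hN (by linarith) fd (fun t => by simp only [hper t]) (Q2 ())
  obtain ⟨B₀, hB₀⟩ := bdd hN (show 4 * M₀ < 8 * M₀ by linarith) w1.continuousOn w2
  obtain ⟨B₁, hB₁⟩ := (isCompact_closedBall (0 : Fin 3 → ℂ) (C * C)).exists_bound_of_continuousOn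
    (MvPolynomial.continuous_eval Q).continuousOn
  obtain ⟨J, hJ⟩ : ∃ J, J = m * n + 1 := ⟨_, rfl⟩
  rw [← hJ] at w3
  obtain ⟨d, hd⟩ : ∃ d, d = 2 * n := ⟨_, rfl⟩
  rw [← hd] at Q1
  have d0 : 0 < d := by omega
  have d1 : (0 : ℝ) < d := by exact_mod_cast d0
  have key := hc d ((d : ℝ)⁻¹ * J / (2 * N))
    (max B₀ ((d : ℝ)⁻¹ * (log B₁ - J * log (1 - exp (-(M₀ / N)))))) W
    (fun t => eval (F t) Q / sN N t ^ J) p (E ∪ {t | sN N t = 0}) d0 (by
      have h1 : (m : ℝ) * d ≤ 2 * J := by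
        rw [hJ, hd]
        push_cast
        linarith
      have h2 := mul_le_mul_of_nonneg_right hm d1.le
      rw [le_div_iff₀ (by positivity), le_inv_mul_iff₀ d1]
      linarith) (hE.union (sN_cnt hN)) w1 (fun t ht => le_max_of_le_left (hB₀ t ht)) hp hp'
    (fun t₁ ht => by
      obtain ⟨G, q1, q2⟩ := hG t₁ ht
      refine ⟨fun t => eval (G t) Q / sN N t ^ J, (H18.evd q1 Q).div
        (sN_diff.differentiableOn.pow J) fun t hb => pow_ne_zero _ (sN_ne hN fun c => ?_),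
        fun t hb => ?_⟩
      · have h1 := (re_near hb).2
        have h2 := mul_le_mul_of_nonneg_right k1 (abs_nonneg t₁.re)
        rw [c, abs_zero] at h1
        linarith
      · obtain ⟨a, q3, q4⟩ := (q2 t hb).2
        exact ⟨a, by simp only [q3, eval_smul_hom Q1, mul_div_assoc], q4⟩)
    (fun t h1 h2 h3 => by
      obtain ⟨a, q3, q4⟩ := ha t h1 h2 fun c => h3 (Or.inl c)
      exact ⟨a, by rw [w3 t fun c => h3 (Or.inr c), q3, eval_smul_hom Q1, mul_div_assoc], q4⟩)
    fun t ht h0 => by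
      obtain ⟨G, -, q2⟩ := hG t ht
      obtain ⟨q3, a, q4, -, q5⟩ := q2 t (mem_ball_self (mul_pos k0 (M0.trans_le ht)))
      obtain ⟨h1, h2⟩ := div_ne_zero_iff.1 h0
      have h3 : ‖F t‖ ≤ C * C := by
        rw [q4, norm_smul] at q3
        have := mul_le_mul_of_nonneg_right q5 (norm_nonneg (F t))
        have := mul_le_mul_of_nonneg_left q3 (show 0 ≤ C by linarith)
        linarith
      have h4 := log_le_log (norm_pos_iff.2 h1) (hB₁ _ (mem_closedBall_zero_iff.2 h3))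
      have h5 := mul_le_mul_of_nonneg_left (sN_low hN M0 ht) (Nat.cast_nonneg J)
      have h6 := mul_le_mul_of_nonneg_left (show log ‖eval (F t) Q‖ - J * log ‖sN N t‖ ≤
        log B₁ - J * log (1 - exp (-(M₀ / N))) - J * ((t.re + |t.re|) / (2 * N)) by linarith)
        (inv_pos.2 d1).le
      have h7 := le_max_right B₀ ((d : ℝ)⁻¹ * (log B₁ - J * log (1 - exp (-(M₀ / N)))))
      have h8 : (d : ℝ)⁻¹ * (J * ((t.re + |t.re|) / (2 * N))) =
          (d : ℝ)⁻¹ * J / (2 * N) * t.re + (d : ℝ)⁻¹ * J / (2 * N) * |t.re| := by ring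
      rw [norm_div, log_div (norm_ne_zero_iff.2 h1) (norm_ne_zero_iff.2 h2), norm_pow, log_pow]
      rw [mul_sub _ (_ - _), h8] at h6
      linarith
  have an := fd.analyticOnNhd (strip_open _)
  have cv : Convex ℝ {t : ℂ | |t.re| < 8 * M₀} := by
    simp only [abs_lt]
    exact (convex_halfSpace_re_gt _).inter (convex_halfSpace_re_lt _)
  refine ⟨Q, d, Q1, Q0, an.eqOn_zero_of_preconnected_of_frequently_eq_zero cv.isPreconnected z0 ?_⟩
  have dn := ((hE.union (sN_cnt hN)).insert 0).dense_compl ℂ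
  rw [frequently_nhdsWithin_iff]
  refine ((mem_closure_iff_frequently.1 (dn 0)).and_eventually
    ((strip_open (4 * M₀)).mem_nhds (by simpa using M0))).mono fun t ht => ?_
  obtain ⟨h1, h2⟩ := not_or.1 ht.1
  have h3 := key t (le_of_lt ht.2) h2
  have h4 : sN N t ≠ 0 := fun c => h2 (Or.inr c)
  rw [w3 t h4] at h3
  exact ⟨(div_eq_zero_iff.1 h3).resolve_right (pow_ne_zero _ h4), h1⟩

end Pool.Agent.MP_c69980_ag.G3C
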