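import Pool.Agent.MP_c69980_ag.G3C.Abs

/-! Abstract expansivity on the upper half-plane. -/

set_option autoImplicit false

namespace Pool.Agent.MP_c69980_ag.G3C

open Metric Filter Set Real

namespace Eabs0

theorem big {a b e M₀ : ℝ} (ha : 0 ≤ a) (he : 0 < e) (hM : 1 ≤ M₀) :
    ∃ x₀ : ℝ, ∀ x, x₀ ≤ x → b + a * log (x / M₀) ≤ e * x := by
  have h1 := isLittleO_log_id_atTop.bound (show 0 < e / (2 * (a + 1)) by positivity)
  obtain ⟨x₀, h⟩ := eventually_atTop.1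
    ((h1.and (eventually_ge_atTop (2 * b / e))).and (eventually_gt_atTop 0))
  refine ⟨x₀, fun x hx => ?_⟩
  obtain ⟨⟨h2, h3⟩, h4⟩ := h x hx
  rw [id, norm_of_nonneg h4.le, norm_eq_abs] at h2
  have h5 : log (x / M₀) ≤ e / (2 * (a + 1)) * x :=
    (log_le_log (by positivity) (div_le_self h4.le hM)).trans ((le_abs_self _).trans h2)
  have h6 : a * (e / (2 * (a + 1)) * x) ≤ e * x / 2 := by
    rw [div_mul_eq_mul_div, mul_div_assoc', div_le_div_iff₀ (by positivity) two_pos]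
    nlinarith [mul_pos he h4]
  rw [div_le_iff₀ he] at h3
  nlinarith [mul_le_mul_of_nonneg_left h5 ha]

theorem near {κ : ℝ} (hκ : κ ≤ 1 / 16) {t w : ℂ} (h : w ∈ ball t (κ * |t.re| / 2)) :
    31 / 32 * |t.re| ≤ |w.re| ∧ |w.re| ≤ 33 / 32 * |t.re| ∧ t.im - |t.re| / 32 ≤ w.im := by
  have h0 : ‖w - t‖ ≤ |t.re| / 32 := by
    have := mul_le_mul_of_nonneg_right hκ (abs_nonneg t.re)
    linarith [mem_ball_iff_norm.1 h]
  have h1 : |w.re - t.re| ≤ |t.re| / 32 := (Complex.abs_re_le_norm (w - t)).trans h0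
  have h2 : |w.im - t.im| ≤ |t.re| / 32 := (Complex.abs_im_le_norm (w - t)).trans h0
  have h3 := abs_le.1 ((abs_abs_sub_abs_le_abs_sub w.re t.re).trans h1)
  exact ⟨by linarith [h3.1], by linarith [h3.2], by linarith [(abs_le.1 h2).1]⟩

theorem mn_log {Δ : ℂ → ℝ} {κ C d₀ d₁ μ : ℝ} {K : ℕ} {t : ℂ} {g : ℂ → ℂ} (hκ : 0 < κ)
    (hC : 1 ≤ C) (hd : C * d₀ < d₁) (hμ : 0 < μ) (ht : 0 < |t.re|) (h : Cmp Δ κ C d₀ d₁ K t g)
    (h0 : 0 < Δ t) (hΔ : ∀ w ∈ ball t (κ * |t.re| / 2), Δ w ≤ d₀) :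
    Mn (fun w => μ * log (Δ w)) {w | 0 < Δ w} t (κ * |t.re| / 2)
      (μ * log (Δ t) - 2 * μ * log C) := by
  have p : 0 < κ * |t.re| := mul_pos hκ ht
  have C0 : 0 < C := one_pos.trans_le hC
  have m : t ∈ ball t (κ * |t.re| / 2) := mem_ball_self (half_pos p)
  have h1 := h.conn C0.le hd (convex_ball t _).isPreconnected m
    (ball_subset_ball (half_le_self p.le)) hΔ
  have h2 : Δ t ≤ C * ‖g t‖ := (h.2.2 t (mem_ball_self p)).2.1
    (h.2.1.trans ((mul_le_mul_of_nonneg_left (hΔ t m) C0.le).trans hd.le))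
  have h3 : 0 < ‖g t‖ := (mul_pos_iff_of_pos_left C0).1 (h0.trans_le h2)
  have h4 := log_le_log h0 h2
  rw [log_mul C0.ne' h3.ne'] at h4
  refine (((Mn.log (half_pos p) (half_lt_self p) h.1 (norm_pos_iff.1 h3)).smul hμ.le).add'
    (Mn.const (half_pos p) (-(μ * log C)))).mono (fun w hw k => ?_)
    (by nlinarith [mul_le_mul_of_nonneg_left h4 hμ.le])
  have k1 : 0 < ‖g w‖ := norm_pos_iff.2 k
  have k2 : 0 < Δ w := (mul_pos_iff_of_pos_left C0).1 (k1.trans_le (h1 w hw))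
  have k3 := log_le_log k1 (h1 w hw)
  rw [log_mul C0.ne' k2.ne'] at k3
  exact ⟨k2, by nlinarith [mul_le_mul_of_nonneg_left k3 hμ.le]⟩

end Eabs0

open Eabs0

theorem eabs0Of : Eabs0Of := by
  intro hG hR hH hP κ C d₀ d₁ A c μ M₀ K hκ hκ' hC hd₀ hd hd₁ hc hμ hM₀
  obtain ⟨A', a1, a2⟩ : ∃ A', A ≤ A' ∧ 2 * μ * log C ≤ A' := ⟨_, le_max_left _ _, le_max_right _ _⟩
  have a0 : 0 ≤ A' := le_trans (mul_nonneg (by positivity) (log_nonneg hC)) a2
  obtain ⟨e, rfl⟩ : ∃ e, c = 32 * e := ⟨c / 32, by ring⟩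
  have he : 0 < e := by linarith
  have ha : 0 ≤ 256 * A' / κ ^ 2 := by positivity
  obtain ⟨x₀, hx₀⟩ := big (b := 2 * A' + 2 * e * M₀) ha he (show 1 ≤ M₀ by linarith)
  obtain ⟨X₁, hX₁⟩ := hP κ C d₀ d₁ (4 * e / μ) K hκ hκ' hC hd₀ hd (by positivity)
  obtain ⟨M, m1, m2, m3, m4⟩ : ∃ M, 16 * M₀ ≤ M ∧ 2 * X₁ ≤ M ∧ 2 * x₀ ≤ M ∧ x₀ + 1 ≤ M :=
    ⟨16 * M₀ + 2 * |X₁| + 2 * |x₀|, by linarith [abs_nonneg X₁, abs_nonneg x₀],
      by linarith [le_abs_self X₁, abs_nonneg x₀], by linarith [abs_nonneg X₁, le_abs_self x₀],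
      by linarith [abs_nonneg X₁, le_abs_self x₀, abs_nonneg x₀]⟩
  refine ⟨M, by linarith, fun r u Δ Z hr E => ?_⟩
  obtain ⟨v, V, g1, g2, g3, g4⟩ := hG κ A' e (32 * e) r M₀ M u (fun w => μ * log (Δ w)) Z
    {w | 0 < Δ w} hκ hκ' a0 he.le hr hM₀ (by linarith) fun x hx => by
      have := hx₀ x (by linarith [hx.1])
      rw [ps]
      linarith
  have kn : ∀ t, 0 < Δ t → Δ t ≤ d₀ → μ * log (Δ t) ≤ 0 := fun t h h' =>
    mul_nonpos_of_nonneg_of_nonpos hμ.le (log_nonpos h.le (by nlinarith))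
  have sm : ∀ t ∈ V, M₀ < t.im →
      (2 * M₀ ≤ |t.re| → ∀ w ∈ ball t (κ * |t.re| / 2), Δ w ≤ d₀) → Sm v V κ (32 * e) r M₀ t := by
    intro t ht h1 h2
    have h3 : 0 < 1 * t.im := by linarith
    refine g4 t ht (fun a b => E.sub t a b h3) (fun a b => ?_) (fun a b b' => ?_) fun a b b' => ?_
    · have p : 0 < |t.re| := by linarith
      obtain ⟨g, hg⟩ := E.cmp t (by linarith) (h2 b t (mem_ball_self (by positivity)))
      exact (mn_log hκ hC hd hμ p hg a (h2 b)).mono (fun _ _ k => ⟨k, le_rfl⟩) (by linarith)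
    · exact ⟨(E.hi t a b b' h3).1, by linarith [(E.hi t a b b' h3).2]⟩
    · exact (E.lo t b b' (by linarith) a).mono (fun _ _ k => ⟨k, le_rfl⟩) (by linarith)
  have ub : ∀ t ∈ V, (|t.re| ≤ M → 0 < t.im) → (M₀ ≤ |t.re| → Δ t ≤ d₀) →
      v t ≤ A' + e * |t.re| := by
    intro t ht h1 h2
    have p := mul_nonneg he.le (abs_nonneg t.re)
    rcases g1 t ht with ⟨a, b, k⟩ | ⟨a, b, k⟩
    · have h3 : 0 < 1 * t.im := by linarith [h1 b]
      rcases le_total |t.re| M₀ with q | q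
      · linarith [E.up t a q h3]
      · linarith [(E.hi t a q b h3).2, kn t (E.hi t a q b h3).1 (h2 q)]
    · have q := mul_nonneg ha (log_nonneg ((one_le_div (by linarith)).2 b))
      rw [k, ps]
      nlinarith [kn t a (h2 b)]
  have step : ∀ X₀, M / 2 ≤ X₀ → (∀ t : ℂ, M₀ ≤ |t.re| → |t.re| ≤ 2 * X₀ → 0 < t.im → Δ t ≤ d₀) →
      ∀ t : ℂ, X₀ / 2 ≤ |t.re| → |t.re| ≤ 4 * X₀ → 6 * X₀ - 16 * X₀ ≤ t.im → Δ t ≤ d₀ := by
    intro X₀ hX H
    refine hX₁ Δ M₀ X₀ (6 * X₀) (by linarith) (by linarith) E.nn E.cmp fun t h1 h2 h3 => ?_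
    rcases (E.nn t).eq_or_lt with q | q
    · exact q ▸ (exp_pos _).le
    obtain ⟨q1, q2⟩ := g3 t q (by linarith)
    have q3 := hR v V κ (32 * e) r M₀ X₀ t.im (A' + e * (2 * X₀)) hκ hκ' hc hr hM₀ (by linarith)
      (fun s hs b b' => sm s hs (by linarith [(abs_le.1 b').1]) fun k w hw => by
        obtain ⟨n1, n2, n3⟩ := near hκ' hw
        exact H w (by linarith) (by linarith) (by linarith [(abs_le.1 b').1]))
      (fun s hs b b' => by
        have i : 0 < s.im := by linarith [(abs_le.1 b').1]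
        linarith [ub s hs (fun _ => i) fun k => H s k b i, mul_le_mul_of_nonneg_left b he.le])
      t q1 h2 rfl
    have q4 := hx₀ X₀ (by linarith)
    have q5 : log (|t.re| / M₀) ≤ log (X₀ / M₀) := log_le_log (div_pos (by linarith) (by linarith))
      (div_le_div_of_nonneg_right (by linarith) (by linarith))
    have q6 := mul_le_mul_of_nonneg_left q5 ha
    have q7 := mul_nonneg he.le (abs_nonneg t.re)
    have q8 : 0 ≤ e * X₀ := mul_nonneg he.le (by linarith)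
    rw [ps] at q2
    rw [← log_le_iff_le_exp q, div_mul_eq_mul_div, ← neg_div, le_div_iff₀ hμ]
    nlinarith
  have all : ∀ j : ℕ, ∀ t : ℂ, M₀ ≤ |t.re| → |t.re| ≤ 2 * (2 ^ j * (M / 2)) → 0 < t.im →
      Δ t ≤ d₀ := fun j => by
    induction j with
    | zero => exact fun t a b i => E.cl t a (by linarith) (by linarith)
    | succ j ih =>
      intro t a b i
      have p : M / 2 ≤ 2 ^ j * (M / 2) :=
        le_mul_of_one_le_left (by linarith) (one_le_pow₀ one_le_two)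
      rcases le_total |t.re| (2 * (2 ^ j * (M / 2))) with q | q
      · exact ih t a q i
      · exact step _ p ih t (by linarith) (by rw [pow_succ] at b; linarith) (by linarith)
  have up : ∀ t : ℂ, M₀ ≤ |t.re| → 0 < t.im → Δ t ≤ d₀ := fun t a i => by
    obtain ⟨j, hj⟩ := pow_unbounded_of_one_lt |t.re| (one_lt_two (α := ℝ))
    refine all j t a ?_ i
    nlinarith [pow_pos (two_pos (α := ℝ)) j]
  have far : ∀ t : ℂ, M₀ ≤ |t.re| → M - |t.re| ≤ t.im → Δ t ≤ d₀ := fun t a i => by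
    rcases le_total |t.re| (M / 4) with q | q
    · exact up t a (by linarith)
    · exact step (2 * |t.re|) (by linarith) (fun s b _ i => up s b i) t (by linarith) (by linarith)
        (by linarith)
  intro t ht h
  refine hH v V κ (32 * e) r M₀ e A' (M + 2) hκ hκ' hc hr hM₀ he.le (by linarith) (by linarith)
    (fun s hs i => sm s hs (by linarith) fun k w hw => ?_)
    (fun s hs i => ub s hs (fun _ => by linarith) fun k => far s k (by linarith)) t (g2 t ht h).1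
  obtain ⟨n1, n2, n3⟩ := near hκ' hw
  exact far w (by linarith) (by linarith)

end Pool.Agent.MP_c69980_ag.G3C
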