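import Pool.Agent.MP_c69980_ag.G3C.SpecE

/-!
The values of the forms along a section.
-/

set_option autoImplicit false

namespace Pool.Agent.MP_c69980_ag.G3C

open MvPolynomial Metric Filter Topology Set
open H60 H4 E1 G3

namespace Fh

theorem tp_succ (n k : ℕ) (t : ℂ) :
    t + G3.tp (n * (k + 1)) = t + G3.tp (n * k) + G3.tp n := by
  simp only [G3.tp]
  push_cast
  ring

theorem pd_mul {α : Type} {n : ℕ} {Y : C2 → α} (h : Pd n Y) (k : ℕ) : Pd (n * k) Y := by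
  induction k with
  | zero => exact fun t w => by simp [G3.tp]
  | succ k ih => exact fun t w => by rw [tp_succ, h, ih]

theorem ex_choice {α β : Type} (P : β → α → Prop) : ∃ c : β → Option α,
    (∀ t t', P t = P t' → c t = c t') ∧ (∀ t q, c t = some q → P t q) ∧
      ∀ t, (∃ q, P t q) → ∃ q, c t = some q := by
  classical
  refine ⟨fun t => if h : ∃ q, P t q then some h.choose else none, fun t t' e => by
    simp only [e], fun t q e => ?_, fun t h => ⟨_, dif_pos h⟩⟩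
  by_cases h : ∃ q, P t q
  · exact Option.some.inj ((dif_pos h).symm.trans e) ▸ h.choose_spec
  · cases (dif_neg h).symm.trans e

variable {M : Type} [MetricSpace M] {A : Amb M} (E : EA A) {i : E.ι} {t w : ℂ}

theorem o12 (h : (t, w) ∈ E.O₁ i) : (t, w) ∈ E.O₂ i := E.o12 i t w w h (by simpa using E.δ0.le)

theorem lc (h : (t, w) ∈ E.O₃ i) :
    A.LZ (E.Y i) (t, w) ∧ ∀ l, ‖A.cf (E.Y i) (t, w) l‖ ≤ E.C :=
  (E.lc i t w w h (by simpa using E.δ0.le)).imp_right And.left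

theorem M1 : 0 < E.M₁ := by linarith [A.M0, E.MM]

theorem ball_sub (h : 2 * E.M₁ ≤ A.dp t) : ball t (A.dp t / 2) ⊆ Hs E := fun x hx => by
  have h1 := abs_le.1 (Complex.abs_re_le_norm (x - t))
  have h2 := mem_ball_iff_norm.1 hx
  rw [Complex.sub_re] at h1
  change E.M₁ < A.σ * x.re
  unfold Amb.dp at h h2
  rcases A.hσ with e | e <;> rw [e] at h h2 ⊢ <;> linarith [h1.1, h1.2]

theorem cf_per (h : Pc E) (k : ℕ) (hw : (t, w) ∈ E.O₃ i) :
    A.cf (E.Y i) (t + G3.tp (E.N * k), w) = A.cf (E.Y i) (t, w) := by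
  induction k with
  | zero => simp [G3.tp]
  | succ k ih =>
    rw [tp_succ, h _ _ _ (E.per i).1 (lc E ((pd_mul (E.per i).2.2.2.1 k t w).mpr hw)).1, ih]

omit E in
theorem cont {Y : C2 → M} {p : C2} (h : A.LZ Y p) (Q : PR 3) :
    ContinuousAt (fun q => ‖eval (A.cf Y q) Q‖) p :=
  ((continuous_eval Q).continuousAt.comp
    (continuousAt_pi.2 fun l => (A.an Y p h.1 h.2 l).continuousAt)).norm

end Fh

open Fh

theorem fhOf : FhOf := by
  rintro hT M _ A E s N hs hP ⟨k, rfl⟩ hp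
  obtain ⟨c, c1, c2, c3⟩ := ex_choice fun (t : ℂ) (q : E.ι × ℂ) =>
    (t, q.2) ∈ E.O₁ q.1 ∧ s t = E.Y q.1 (t, q.2)
  have key : ∀ t ∈ Hs E, ∃ q, c t = some q ∧ (t, q.2) ∈ E.O₁ q.1 ∧ s t = E.Y q.1 (t, q.2) :=
    fun t ht => by
      obtain ⟨i, w, h⟩ := E.cov (t, s t) (hs t ht).2 (le_of_lt ht)
      obtain ⟨q, hq⟩ := c3 t ⟨(i, w), h⟩
      exact ⟨q, hq, c2 t q hq⟩
  refine ⟨fun t => (c t).elim 0 fun q => A.cf (E.Y q.1) (t, q.2), fun t => ?_, fun t ht => ?_,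
    fun t₁ h1 => ?_⟩
  · have e := c1 (t + G3.tp (E.N * k)) t (funext fun q => by
      rw [hp, pd_mul (E.per q.1).1 k, show ((t + G3.tp (E.N * k), q.2) ∈ E.O₁ q.1) = _ from
        pd_mul (E.per q.1).2.1 k t q.2])
    simp only [e]
    rcases h : c t with _ | q
    · rfl
    · exact cf_per E hP k (E.o23 _ (o12 E (c2 t q h).1))
  · obtain ⟨q, h1, h2, h3⟩ := key t ht
    exact ⟨E.Y q.1, q.2, (lc E (E.o23 _ (o12 E h2))).1, h3, by simp only [h1, Option.elim_some]⟩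
  · have h0 := M1 E
    have hb := ball_sub E h1
    obtain ⟨⟨i, w⟩, -, h2, h3⟩ := key t₁ (hb (mem_ball_self (by linarith)))
    obtain ⟨ω, k1, -, k2⟩ := E.eq i t₁ w s (o12 E h2) h1 (fun t ht => hs t (hb ht)) h3
    refine ⟨fun t => A.cf (E.Y i) (t, ω t), differentiableOn_pi.2 fun l t ht => ?_,
      fun t ht => ⟨(pi_norm_le_iff_of_nonneg (by linarith [E.C1])).2 (lc E (k2 t ht).1).2, ?_⟩⟩
    · have := (lc E (k2 t ht).1).1
      exact (A.an _ _ this.1 this.2 l).differentiableAt.comp_differentiableWithinAt t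
        (differentiableWithinAt_id.prodMk (k1 t ht))
    · obtain ⟨q, a1, a2, a3⟩ := key t (hb (ball_subset_ball (by nlinarith [E.κ0.2]) ht))
      obtain ⟨⟨a, b1, b2, b3⟩, -⟩ := (hT M A).2 E i q.1 t (ω t) q.2 (k2 t ht).1
        (E.o23 _ (o12 E a2)) ((k2 t ht).2.1.symm.trans a3)
      exact ⟨a, by simp only [a1, Option.elim_some, b3], b1, b2⟩

theorem ld0Of : Ld0Of := by
  intro hT M _ A E Q d η hQ hη
  have hC : 0 < E.C := by linarith [E.C1]
  refine ⟨η / 2 / (2 * E.C ^ (A.m * d)), by positivity, fun γ M₀ r hs =>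
    ⟨fun t ht Y w₀ h1 h2 => ?_, fun h t₁ a1 a2 => ?_⟩⟩
  · have h3 := (cont (p := (t, w₀)) ⟨h1, h2 ▸ (hs t ht).2⟩ Q).comp
      (f := fun w : ℂ => (t, w)) (by fun_prop)
    refine ⟨‖eval (A.cf Y (t, w₀)) Q‖ + 1, (h3.eventually_lt continuousAt_const
      (lt_add_one _)).filter_mono nhdsWithin_le_nhds |>.mono fun w hw => ?_⟩
    rw [Ff, norm_mul, norm_pow, mul_comm]
    exact mul_le_mul_of_nonneg_right hw.le (by positivity)
  · obtain ⟨t₂, b1, b2, j, v, b3, b4, b5⟩ := h t₁ a1 a2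
    have h0 := M1 E
    obtain ⟨ω, k1, rfl, k2⟩ := E.eq j t₂ v γ b3 b2 (fun t ht => hs t (ball_sub E b2 ht)) b4
    have hb : ball t₂ (E.κ * A.dp t₂) ∈ 𝓝 t₂ := ball_mem_nhds _ (mul_pos E.κ0.1 (by linarith))
    have h3 := (continuousAt_const.eventually_lt (cont (lc E (E.o23 _ b3)).1 Q)
      ((half_lt_self hη).trans_le b5)).eventually_nhds
    have h4 : ContinuousAt (fun t => (t, ω t)) t₂ :=
      continuousAt_id.prodMk (k1.differentiableAt hb).continuousAt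
    refine ⟨t₂, b1, ?_⟩
    filter_upwards [h4.eventually h3, hb] with t c1 c2 i w₀ c3 c4
    refine ((hT M A).2 E i j t w₀ (ω t) c3 (k2 t c2).1 (c4.symm.trans (k2 t c2).2.1)).2 Q d _ _ hQ
      (half_pos hη) ?_
    have c5 : ContinuousAt (fun w : ℂ => (t, w)) (ω t) := by fun_prop
    refine ((c5.eventually c1).filter_mono nhdsWithin_le_nhds).mono fun w hw => ?_
    rw [Ff, norm_mul, norm_pow, mul_comm]
    exact mul_le_mul_of_nonneg_left hw.le (by positivity)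

end Pool.Agent.MP_c69980_ag.G3C
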