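import Pool.Agent.MP_c69980_ag.G3C.SpecE

/-!
The generic order of vanishing along a section exists.
-/

set_option autoImplicit false

noncomputable section

namespace Pool.Agent.MP_c69980_ag.G3C

open MvPolynomial Metric Filter Topology MeasureTheory Set Real
open H60 H4 E1 G3

namespace GOp

lemma shift (w₀ : ℂ) (p : ℂ → Prop) :
    (∀ᶠ w in 𝓝[≠] w₀, p w) ↔ ∀ᶠ b in 𝓝[≠] (0 : ℂ), p (w₀ + b) := by
  have h := (Homeomorph.addLeft w₀).map_punctured_nhds_eq 0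
  simp only [Homeomorph.coe_addLeft, add_zero] at h
  rw [← h, eventually_map]

/-- A function that is continuous at `0` and small of a higher order vanishes there. -/
lemma zero_of_le {h : ℂ → ℂ} {B : ℝ} {e : ℕ} (hc : ContinuousAt h 0)
    (H : ∀ᶠ b in 𝓝[≠] (0 : ℂ), ‖h b * b ^ e‖ ≤ B * ‖b‖ ^ (e + 1)) : h 0 = 0 := by
  have k1 : Tendsto (fun b => ‖h b‖) (𝓝[≠] (0 : ℂ)) (𝓝 ‖h 0‖) :=
    hc.norm.tendsto.mono_left nhdsWithin_le_nhds
  have k2 : Tendsto (fun b : ℂ => B * ‖b‖) (𝓝[≠] (0 : ℂ)) (𝓝 (B * ‖(0 : ℂ)‖)) :=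
    ((continuous_const.mul continuous_norm).tendsto 0).mono_left nhdsWithin_le_nhds
  have k3 : ‖h 0‖ ≤ B * ‖(0 : ℂ)‖ := by
    refine le_of_tendsto_of_tendsto k1 k2 ?_
    filter_upwards [H, self_mem_nhdsWithin] with b hb b0
    have p : 0 < ‖b‖ ^ e := pow_pos (norm_pos_iff.2 b0) e
    rw [norm_mul, norm_pow, pow_succ'] at hb
    exact le_of_mul_le_mul_right (hb.trans_eq (by ring)) p
  simpa using k3

/-- A function that vanishes to all orders at an isolated singularity vanishes. -/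
lemma flat {f : ℂ → ℂ} (ha : ∀ᶠ b in 𝓝[≠] (0 : ℂ), DifferentiableAt ℂ f b)
    (H : ∀ e : ℕ, ∃ B : ℝ, ∀ᶠ b in 𝓝[≠] (0 : ℂ), ‖f b‖ ≤ B * ‖b‖ ^ e) :
    ∀ᶠ b in 𝓝[≠] (0 : ℂ), f b = 0 := by
  have e1 : Function.update f 0 0 =ᶠ[𝓝[≠] (0 : ℂ)] f := by
    filter_upwards [self_mem_nhdsWithin] with b hb using Function.update_of_ne hb _ _
  have hc : ContinuousAt (Function.update f 0 0) 0 := by
    rw [continuousAt_update_same]
    obtain ⟨B, hB⟩ := H 1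
    have k2 : Tendsto (fun b : ℂ => B * ‖b‖ ^ 1) (𝓝[≠] (0 : ℂ)) (𝓝 (B * ‖(0 : ℂ)‖ ^ 1)) :=
      ((continuous_const.mul (continuous_norm.pow 1)).tendsto 0).mono_left nhdsWithin_le_nhds
    rw [norm_zero, pow_one, mul_zero] at k2
    exact squeeze_zero_norm' hB k2
  have hd : ∀ᶠ b in 𝓝[≠] (0 : ℂ), DifferentiableAt ℂ (Function.update f 0 0) b := by
    filter_upwards [ha, self_mem_nhdsWithin] with b hb b0
    refine hb.congr_of_eventuallyEq ?_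
    filter_upwards [isOpen_ne.mem_nhds b0] with x hx using Function.update_of_ne hx _ _
  have an := Complex.analyticAt_of_differentiable_on_punctured_nhds_of_continuousAt hd hc
  by_cases hz : ∀ᶠ z in 𝓝 (0 : ℂ), Function.update f 0 0 z = 0
  · filter_upwards [e1, hz.filter_mono nhdsWithin_le_nhds] with b p q using p ▸ q
  · obtain ⟨n, g, g1, g2, g3⟩ := an.exists_eventuallyEq_pow_smul_nonzero_iff.2 hz
    obtain ⟨B, hB⟩ := H (n + 1)
    refine absurd (zero_of_le (B := B) (e := n) g1.continuousAt ?_) g2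
    filter_upwards [e1, g3.filter_mono nhdsWithin_le_nhds, hB] with b p q r
    rw [← p, q, sub_zero, smul_eq_mul, mul_comm] at r
    exact r

variable {M : Type} [MetricSpace M] {A : Amb M}

lemma od_iff (hT : TrStmt) {Q : PR 3} {d : ℕ} {γ : ℂ → M} {Y : C2 → M} {t w₀ : ℂ}
    (hQ : Q.IsHomogeneous d) (lc : A.LC Y (t, w₀)) (hγ : γ t = Y (t, w₀)) (e : ℕ) :
    Od A Q d γ t e ↔
      ∃ B : ℝ, ∀ᶠ b in 𝓝[≠] (0 : ℂ), ‖Ff A Q d Y t w₀ (w₀ + b)‖ ≤ B * ‖b‖ ^ e := by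
  have k := fun B : ℝ => shift w₀ fun w => ‖Ff A Q d Y t w₀ w‖ ≤ B * ‖w - w₀‖ ^ e
  simp only [add_sub_cancel_left] at k
  exact ⟨fun h => (h Y w₀ lc hγ).imp fun B hB => (k B).1 hB,
    fun ⟨B, hB⟩ => (hT M A).1 Q d e γ Y t w₀ B hQ lc hγ ((k B).2 hB)⟩

/-- A chart along the section near `t`. -/
def Lo (A : Amb M) (γ : ℂ → M) (t : ℂ) (Y : C2 → M) (ω : ℂ → ℂ) : Prop :=
  AnalyticAt ℂ ω t ∧ (∀ᶠ t' in 𝓝 t, A.LC Y (t', ω t') ∧ γ t' = Y (t', ω t')) ∧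
    (∀ᶠ q in 𝓝 ((t, 0) : C2), q.2 ≠ 0 → A.LZ Y (q.1, ω q.1 + q.2)) ∧
    ∃ B : ℝ, ∀ᶠ b in 𝓝[≠] (0 : ℂ), ‖b ^ A.m • A.cf Y (t, ω t + b)‖ ≤ B

lemma hs_open (E : EA A) : IsOpen (Hs E) :=
  isOpen_lt continuous_const (continuous_const.mul Complex.continuous_re)

lemma hs_conv (E : EA A) : Convex ℝ (Hs E) :=
  convex_halfSpace_gt (f := fun t : ℂ => A.σ * t.re)
    ⟨fun x y => by rw [Complex.add_re, mul_add], fun c x => by simp [mul_left_comm]⟩ _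

lemma lz_ev {Y : C2 → M} {p : C2} (h : A.LZ Y p) : ∀ᶠ q in 𝓝 p, A.LZ Y q := by
  have c : Tendsto (fun q : C2 => (q.1, Y q)) (𝓝 p) (𝓝 (p.1, Y p)) :=
    continuousAt_fst.prodMk (A.cont Y p h.1)
  filter_upwards [A.ev Y p h.1, c.eventually (A.opn _ h.2)] with q q1 q2
    using ⟨q1, q2 (A.mem Y q q1)⟩

lemma lo_sec (E : EA A) {γ : ℂ → M} (h : A.Sec (Hs E) γ) {t : ℂ} (ht : t ∈ Hs E) :
    ∃ Y ω, Lo A γ t Y ω := by
  obtain ⟨i, w, o, hw⟩ := E.cov _ (h t ht).2 (le_of_lt ht)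
  have o3 := E.o23 i (E.o12 i t w w o (by simpa using E.δ0.le))
  have lz := (E.lc i t w w o3 (by simpa using E.δ0.le)).1
  obtain ⟨ω, ω1, ω2, ω3⟩ := A.lift γ _ t w (h t ht).1 lz.1 hw
  subst ω2
  have c : ContinuousAt (fun q : C2 => (q.1, ω q.1 + q.2)) (t, 0) :=
    continuousAt_fst.prodMk
      ((ω1.continuousAt.comp_of_eq continuousAt_fst rfl).add continuousAt_snd)
  have c' : Tendsto (fun t' : ℂ => (t', ω t')) (𝓝 t) (𝓝 (t, ω t)) :=
    continuousAt_id.prodMk ω1.continuousAt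
  refine ⟨_, ω, ω1, (c'.eventually (A.ev _ _ lz.1)).and ω3, ?_, ?_⟩
  · exact (c.tendsto.eventually (lz_ev (by simpa using lz))).mono fun q hq _ => hq
  · have c1 : ContinuousAt (A.cf (E.Y i)) (t, ω t) :=
      continuousAt_pi.2 fun l => (A.an _ _ lz.1 lz.2 l).continuousAt
    have c2 : ContinuousAt (fun b : ℂ => b ^ A.m • A.cf (E.Y i) (t, ω t + b)) 0 :=
      (continuousAt_id.pow _).smul (c1.comp_of_eq (f := fun b : ℂ => (t, ω t + b))
        (by fun_prop) (by simp))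
    exact ⟨_, ((c2.norm.tendsto.eventually (gt_mem_nhds (lt_add_one _))).filter_mono
      nhdsWithin_le_nhds).mono fun b hb => hb.le⟩

lemma lo_bdy (hC : CuStmt) (E : EA A) {γ : ℂ → M} (h : Bs A (Hs E) γ) {t : ℂ} (ht : t ∈ Hs E) :
    ∃ Y ω, Lo A γ t Y ω := by
  obtain ⟨i, Y, pu, hγ⟩ := ((hC M A E).2 γ h).1
  have ho := (hs_open E).mem_nhds ht
  have sm : ∀ᶠ b in 𝓝 (0 : ℂ), ‖b‖ ≤ 1 / 4 := by
    filter_upwards [closedBall_mem_nhds (0 : ℂ) (show (0 : ℝ) < 1 / 4 by norm_num)] with b hb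
    simpa using hb
  refine ⟨Y, fun _ => 0, analyticAt_const, ?_, ?_, E.C, ?_⟩
  · filter_upwards [ho] with t' ht'
    exact ⟨(((E.cusp i Y pu).2 t' (le_of_lt ht')).2.2.2 0 (by simp)).1, hγ t' ht'⟩
  · filter_upwards [prod_mem_nhds ho sm] with q hq q0
    rw [zero_add]
    exact (((hC M A E).1 i Y q.1 pu (le_of_lt hq.1)).1 q.2 q0 hq.2).1
  · filter_upwards [sm.filter_mono nhdsWithin_le_nhds, self_mem_nhdsWithin] with b hb b0
    rw [zero_add]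
    exact (pi_norm_le_iff_of_nonneg (zero_le_one.trans E.C1)).2
      (((hC M A E).1 i Y t pu (le_of_lt ht)).1 b b0 hb).2

variable {Q : PR 3} {d : ℕ} {γ : ℂ → M} {t : ℂ} {Y : C2 → M} {ω : ℂ → ℂ}

lemma Lo.an (h : Lo A γ t Y ω) (Q : PR 3) (d : ℕ) : ∀ᶠ q in 𝓝 ((t, 0) : C2), q.2 ≠ 0 →
    AnalyticAt ℂ (fun q : C2 => Ff A Q d Y q.1 (ω q.1) (ω q.1 + q.2)) q := by
  have k : ∀ᶠ q in 𝓝 ((t, 0) : C2), AnalyticAt ℂ ω q.1 :=
    (continuousAt_fst (p := ((t, 0) : C2))).tendsto.eventually h.1.eventually_analyticAt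
  filter_upwards [k, h.2.2.1] with q q1 q2 q0
  have a1 : AnalyticAt ℂ (fun q : C2 => (q.1, ω q.1 + q.2)) q :=
    analyticAt_fst.prod ((q1.comp_of_eq analyticAt_fst rfl).add analyticAt_snd)
  have a2 : AnalyticAt ℂ (fun q : C2 => aeval (A.cf Y (q.1, ω q.1 + q.2)) Q) q :=
    AnalyticAt.aeval_mvPolynomial
      (fun l => (A.an Y _ (q2 q0).1 (q2 q0).2 l).comp_of_eq a1 rfl) Q
  simp only [Ff, add_sub_cancel_left]
  exact (analyticAt_snd.pow _).mul a2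

lemma Lo.zero (hT : TrStmt) (hQ : Q.IsHomogeneous d) (h : Lo A γ t Y ω) : Od A Q d γ t 0 := by
  obtain ⟨B, hB⟩ := h.2.2.2
  obtain ⟨C, hC⟩ := (isCompact_closedBall (0 : Fin 3 → ℂ) B).exists_bound_of_continuousOn
    (MvPolynomial.continuous_eval Q).continuousOn
  refine (od_iff hT hQ h.2.1.self_of_nhds.1 h.2.1.self_of_nhds.2 0).2 ⟨C, hB.mono fun b hb => ?_⟩
  have := hC _ (mem_closedBall_zero_iff.2 hb)
  rw [eval_smul_hom hQ, ← pow_mul] at this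
  simpa [Ff] using this

lemma Lo.fin (hT : TrStmt) (hQ : Q.IsHomogeneous d) (h : Lo A γ t Y ω)
    (H : ∀ e, Od A Q d γ t e) :
    ∃ w, A.LZ Y (t, w) ∧ ∀ᶠ w' in 𝓝 w, eval (A.cf Y (t, w')) Q = 0 := by
  have c : Tendsto (fun b : ℂ => (t, b)) (𝓝[≠] 0) (𝓝 ((t, 0) : C2)) :=
    ((Continuous.prodMk_right t).tendsto 0).mono_left nhdsWithin_le_nhds
  have k := flat (f := fun b => Ff A Q d Y t (ω t) (ω t + b)) ?_ fun e =>
    (od_iff hT hQ h.2.1.self_of_nhds.1 h.2.1.self_of_nhds.2 e).1 (H e)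
  · have k1 : ∀ᶠ w in 𝓝[≠] (ω t), A.LZ Y (t, w) ∧ eval (A.cf Y (t, w)) Q = 0 := by
      rw [shift]
      filter_upwards [k, c.eventually h.2.2.1, self_mem_nhdsWithin] with b b1 b2 b0
      refine ⟨b2 b0, (mul_eq_zero.1 b1).resolve_left (pow_ne_zero _ ?_)⟩
      simpa using b0
    obtain ⟨w, w1, w0⟩ :=
      ((eventually_eventually_nhdsWithin.2 k1).and self_mem_nhdsWithin).exists
    rw [nhdsWithin_eq_nhds.2 (isOpen_compl_singleton.mem_nhds w0)] at w1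
    exact ⟨w, w1.self_of_nhds.1, w1.mono fun _ q => q.2⟩
  · filter_upwards [c.eventually (h.an Q d), self_mem_nhdsWithin] with b b1 b0
    exact ((b1 b0).comp_of_eq (f := fun b : ℂ => (t, b))
      (analyticAt_const.prod analyticAt_id) rfl).differentiableAt

lemma Lo.coef (hO : OrdStmt) (hT : TrStmt) (hQ : Q.IsHomogeneous d) (h : Lo A γ t Y ω) {e : ℕ}
    (H : ∀ᶠ t' in 𝓝 t, Od A Q d γ t' e) :
    ∃ c : ℂ → ℂ, AnalyticAt ℂ c t ∧ ∀ᶠ t' in 𝓝 t, (Od A Q d γ t' (e + 1) ↔ c t' = 0) := by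
  obtain ⟨c, c1, B, hB⟩ := hO _ t e (h.an Q d) (by
    filter_upwards [H, h.2.1] with t' p q using (od_iff hT hQ q.1 q.2 e).1 p)
  refine ⟨c, c1, ?_⟩
  rw [nhds_prod_eq] at hB
  filter_upwards [hB.curry, h.2.1] with t' p q
  have p' : ∀ᶠ b in 𝓝[≠] (0 : ℂ),
      ‖Ff A Q d Y t' (ω t') (ω t' + b) - c t' * b ^ e‖ ≤ B * ‖b‖ ^ (e + 1) := by
    filter_upwards [p.filter_mono nhdsWithin_le_nhds, self_mem_nhdsWithin] with b b1 b0
      using b1 b0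
  rw [od_iff hT hQ q.1 q.2]
  refine ⟨fun ⟨B', hB'⟩ => zero_of_le (h := fun _ => c t') (B := B' + B) (e := e)
    continuousAt_const ?_, fun z => ⟨B, by simpa [z] using p'⟩⟩
  filter_upwards [p', hB'] with b b1 b2
  have := norm_sub_le (Ff A Q d Y t' (ω t') (ω t' + b))
    (Ff A Q d Y t' (ω t') (ω t' + b) - c t' * b ^ e)
  rw [sub_sub_cancel] at this
  linarith

end GOp

open GOp in
theorem goOf : GOOf := by
  intro hO hT hC M _ A E Q d γ hQ hN hγ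
  have lo : ∀ t ∈ Hs E, ∃ Y ω, Lo A γ t Y ω := fun t ht =>
    hγ.elim (fun h => lo_sec E h ht) fun h => lo_bdy hC E h ht
  have ex : ∃ e, (∀ t ∈ Hs E, Od A Q d γ t e) ∧ ¬∀ t ∈ Hs E, Od A Q d γ t (e + 1) := by
    by_contra! hn
    have all : ∀ e, ∀ t ∈ Hs E, Od A Q d γ t e := fun e => by
      induction e with
      | zero => exact fun t ht => (lo t ht).elim fun Y h => h.elim fun ω h => h.zero hT hQ
      | succ e ih => exact hn e ih
    obtain ⟨t, ht, hN⟩ := hN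
    obtain ⟨Y, ω, h⟩ := lo t ht
    obtain ⟨w, w1, w2⟩ := h.fin hT hQ fun e => all e t ht
    exact hN Y w w1 w2
  obtain ⟨e, e1, e2⟩ := ex
  have k := iden (E := ℂ) (hs_conv E).isPreconnected (P := fun t => Od A Q d γ t (e + 1))
    fun t ht => (lo t ht).elim fun Y h => h.elim fun ω h =>
      h.coef hO hT hQ (mem_of_superset ((hs_open E).mem_nhds ht) e1)
  exact ⟨e, fun t ht => ⟨e1 t ht,
    k.resolve_left (fun q => e2 fun t ht => (q t ht).self_of_nhds) t ht⟩⟩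

end Pool.Agent.MP_c69980_ag.G3C
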