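import Pool.Agent.MP_c69980_ag.G3C.Abs

/-!
Gluing of a function on the strip with a function at the ends.
-/

set_option autoImplicit false

noncomputable section

namespace Pool.Agent.MP_c69980_ag.G3C

open Metric Filter Topology MeasureTheory Set Real

namespace Glue

lemma log_le {s : ℝ} (h : |s| ≤ 1 / 32) : log (1 + s) ≤ s - s ^ 2 / 4 := by
  have h1 := abs_log_sub_add_sum_range_le (x := -s) (by rw [abs_neg]; linarith) 2
  rw [abs_neg, sub_neg_eq_add, Finset.sum_range_succ, Finset.sum_range_one] at h1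
  have h2 : |s| ^ (2 + 1) / (1 - |s|) ≤ s ^ 2 / 4 := by
    rw [div_le_iff₀ (by linarith), pow_succ, sq_abs]
    nlinarith [sq_nonneg s, abs_nonneg s]
  have h3 := (abs_le.1 h1).2
  norm_num at h2 h3
  nlinarith

lemma ps_ge {κ A e M₀ X d : ℝ} (hA : 0 ≤ A) (hM : 0 < M₀) (hX : 0 < X) (hd : |d| ≤ X / 32) :
    ps κ A e M₀ X + (e - 256 * A / κ ^ 2 / X) * d + 256 * A / κ ^ 2 / (4 * X ^ 2) * d ^ 2 ≤
      ps κ A e M₀ (X + d) := by
  have ha : 0 ≤ 256 * A / κ ^ 2 := by positivity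
  have h1 : |d / X| ≤ 1 / 32 := by
    rw [abs_div, abs_of_pos hX, div_le_iff₀ hX]
    linarith
  have h2 := log_le h1
  have h3 : 0 < 1 + d / X := by linarith [(abs_le.1 h1).1]
  have h4 : log ((X + d) / M₀) = log (X / M₀) + log (1 + d / X) := by
    rw [← log_mul (by positivity) h3.ne']
    congr 1
    field_simp
  have h5 := mul_le_mul_of_nonneg_left h2 ha
  unfold ps
  rw [h4]
  generalize 256 * A / κ ^ 2 = a at *
  have h6 : a * (d / X - (d / X) ^ 2 / 4) = a / X * d - a / (4 * X ^ 2) * d ^ 2 := by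
    field_simp
  nlinarith

lemma re_near {t w : ℂ} {ρ : ℝ} (hw : w ∈ ball t ρ) : |w.re - t.re| ≤ ρ :=
  (Complex.abs_re_le_norm (w - t)).trans (mem_ball_iff_norm.1 hw).le

lemma abs_near {t w : ℂ} {ρ : ℝ} (hw : w ∈ ball t ρ) :
    |w.re| ≤ |t.re| + ρ ∧ |t.re| - ρ ≤ |w.re| := by
  have h := abs_le.1 ((abs_abs_sub_abs_le w.re t.re).trans (re_near hw))
  constructor <;> linarith [h.1, h.2]

lemma mn_ps {κ A e M₀ : ℝ} {t : ℂ} (hκ : 0 < κ) (hκ' : κ ≤ 1 / 16) (hA : 0 ≤ A) (hM : 0 < M₀)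
    (hX : 0 < |t.re|) :
    Mn (fun w => ps κ A e M₀ |w.re|) univ t (κ * |t.re| / 2) (ps κ A e M₀ |t.re| + A) := by
  have hρ : κ * |t.re| / 2 ≤ |t.re| / 32 := by nlinarith
  obtain ⟨σ, s1, s2⟩ : ∃ σ : ℝ, σ ^ 2 = 1 ∧ ∀ x, |x - t.re| ≤ |t.re| / 32 →
      |x| = |t.re| + σ * (x - t.re) := by
    rcases le_total 0 t.re with h | h
    · refine ⟨1, by norm_num, fun x hx => ?_⟩
      rw [abs_of_nonneg h] at hx ⊢
      rw [abs_of_nonneg (by linarith [(abs_le.1 hx).1])]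
      ring
    · refine ⟨-1, by norm_num, fun x hx => ?_⟩
      rw [abs_of_nonpos h] at hx ⊢
      rw [abs_of_nonpos (by linarith [(abs_le.1 hx).2])]
      ring
  have h := Mn.cvx (v := fun w => ps κ A e M₀ |w.re|) (t := t) (ρ := κ * |t.re| / 2)
    (α := ps κ A e M₀ |t.re|) (p := (e - 256 * A / κ ^ 2 / |t.re|) * σ)
    (q := 256 * A / κ ^ 2 / (4 * |t.re| ^ 2)) (by positivity) (by positivity) fun w hw => by
      have h1 := (re_near hw).trans hρ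
      have h2 : |σ * (w.re - t.re)| ≤ |t.re| / 32 := by
        rwa [abs_mul, (pow_eq_one_iff_of_nonneg (abs_nonneg σ) two_ne_zero).1
          ((sq_abs σ).trans s1), one_mul]
      have h3 := ps_ge (κ := κ) (e := e) hA hM hX h2
      rw [mul_pow, s1, one_mul, ← mul_assoc] at h3
      show _ ≤ ps κ A e M₀ |w.re|
      rwa [s2 _ h1]
  refine h.mono (fun w _ _ => ⟨trivial, le_rfl⟩) (le_of_eq ?_)
  field_simp
  ring

end Glue

open Glue in
theorem glueS : GlueStmt := by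
  intro κ A e c r M₀ M u k Z Z' hκ hκ' hA he hr hM₀ hM hps
  classical
  obtain ⟨v, hv⟩ : ∃ v : ℂ → ℝ, ∀ t, v t = if t ∈ Z ∧ |t.re| ≤ M then
      (if t ∈ Z' ∧ M₀ ≤ |t.re| then max (u t) (ps κ A e M₀ |t.re| + k t) else u t)
      else ps κ A e M₀ |t.re| + k t := ⟨_, fun _ => rfl⟩
  obtain ⟨V, hV⟩ : ∃ V : Set ℂ, ∀ t, t ∈ V ↔ (t ∈ Z ∧ |t.re| ≤ M) ∨ (t ∈ Z' ∧ M₀ ≤ |t.re|) :=
    ⟨{t | _}, fun _ => Iff.rfl⟩
  have p1 : ∀ t ∈ V, (t ∈ Z ∧ |t.re| ≤ M ∧ v t = u t) ∨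
      t ∈ Z' ∧ M₀ ≤ |t.re| ∧ v t = ps κ A e M₀ |t.re| + k t := fun t ht => by
    rw [hv]
    split_ifs with a b
    · rcases max_choice (u t) (ps κ A e M₀ |t.re| + k t) with h | h
      · exact Or.inl ⟨a.1, a.2, h⟩
      · exact Or.inr ⟨b.1, b.2, h⟩
    · exact Or.inl ⟨a.1, a.2, rfl⟩
    · have b := ((hV t).1 ht).resolve_left a
      exact Or.inr ⟨b.1, b.2, rfl⟩
  have p2 : ∀ t ∈ Z, |t.re| ≤ M → t ∈ V ∧ u t ≤ v t := fun t h1 h2 => by
    refine ⟨(hV t).2 (Or.inl ⟨h1, h2⟩), ?_⟩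
    rw [hv, if_pos ⟨h1, h2⟩]
    split_ifs
    exacts [le_max_left _ _, le_rfl]
  have p3 : ∀ t ∈ Z', M₀ ≤ |t.re| → t ∈ V ∧ ps κ A e M₀ |t.re| + k t ≤ v t := fun t h1 h2 => by
    refine ⟨(hV t).2 (Or.inr ⟨h1, h2⟩), ?_⟩
    rw [hv, if_pos (⟨h1, h2⟩ : t ∈ Z' ∧ M₀ ≤ |t.re|)]
    split_ifs
    exacts [le_max_right _ _, le_rfl]
  refine ⟨v, V, p1, p2, p3, fun t ht q1 q2 q3 q4 => ?_⟩
  have B : t ∈ Z' → M₀ ≤ |t.re| → v t ≤ ps κ A e M₀ |t.re| + k t → Sm v V κ c r M₀ t := by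
    intro b1 b2 b3
    refine ⟨κ * |t.re| / 2, Or.inr ⟨rfl, b2⟩, ?_⟩
    have hρ : κ * |t.re| / 2 ≤ |t.re| / 32 := by nlinarith
    rw [gn, if_neg (by linarith), add_zero]
    rcases le_total (2 * M₀) |t.re| with h | h
    · refine ((q2 b1 h).add' (mn_ps (e := e) hκ hκ' hA (by linarith : 0 < M₀)
        (by linarith))).mono (fun w hw hz => ?_) (by linarith)
      have := p3 w hz (by linarith [(abs_near hw).2])
      exact ⟨this.1, by linarith [this.2]⟩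
    · refine (q4 b1 b2 h).mono (fun w hw hz => p2 w hz (by linarith [(abs_near hw).1])) ?_
      have a1 : 0 ≤ log (|t.re| / M₀) := log_nonneg ((one_le_div (by linarith)).2 b2)
      have a2 : 0 ≤ 256 * A / κ ^ 2 * log (|t.re| / M₀) := by positivity
      have a3 : e * (|t.re| - 2 * M₀) ≤ 0 := mul_nonpos_of_nonneg_of_nonpos he (by linarith)
      unfold ps at b3
      linarith
  rcases p1 t ht with ⟨a1, a2, a3⟩ | ⟨a1, a2, a3⟩
  · rcases le_total |t.re| (M - 1) with h | h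
    · obtain ⟨ρ, r1, r2⟩ := q1 a1 a2
      exact ⟨ρ, Or.inl r1, r2.mono
        (fun w hw hz => p2 w hz (by linarith [(abs_near hw).1, r1.2])) (by rw [a3])⟩
    · have b2 : M₀ ≤ |t.re| := by linarith
      obtain ⟨b1, b3⟩ := q3 a1 b2 a2
      exact B b1 b2 (by linarith [hps _ ⟨h, a2⟩])
  · exact B a1 a2 a3.le

end Pool.Agent.MP_c69980_ag.G3C
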