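import Pool.Agent.MP_c69980_ag.G3C.Abs

/-!
The barrier on a half-plane.
-/

set_option autoImplicit false

noncomputable section

namespace Pool.Agent.MP_c69980_ag.G3C

open Metric Set Real

namespace HalfX

/-- A smoothing of the absolute value. -/
def be (x : ℝ) : ℝ := if |x| ≤ 1 then (x ^ 2 + 1) / 2 else |x|

lemma be_ge (x : ℝ) : |x| ≤ be x := by
  unfold be
  split_ifs
  · nlinarith [sq_nonneg (|x| - 1), sq_abs x]
  · rfl

lemma be_le (x u : ℝ) : be x ≤ |u| + (x - u) ^ 2 / 2 + 1 / 2 := by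
  unfold be
  split_ifs with h
  · have : x * u ≤ |u| := (le_abs_self _).trans (by
      rw [abs_mul]; exact mul_le_of_le_one_left (abs_nonneg u) h)
    nlinarith [sq_nonneg u]
  · have := abs_add_le u (x - u)
    rw [add_sub_cancel] at this
    nlinarith [sq_nonneg (|x - u| - 1), sq_abs (x - u)]

lemma be_eq (x : ℝ) : ∃ u, be x = |u| + (x - u) ^ 2 / 2 + 1 / 2 := by
  unfold be
  split_ifs with h
  · exact ⟨0, by rw [abs_zero]; ring⟩
  · rcases lt_abs.1 (not_le.1 h) with k | k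
    · exact ⟨x - 1, by rw [abs_of_pos (by linarith), abs_of_pos (by linarith)]; ring⟩
    · exact ⟨x + 1, by rw [abs_of_neg (by linarith), abs_of_neg (by linarith)]; ring⟩

variable {t : ℂ} {ρ c L y : ℝ}

lemma mn_be (hρ : 0 < ρ) (hc : 0 ≤ c) (h : 2 < |t.re| → ρ ≤ |t.re| - 1) :
    Mn (fun w => -(c * be w.re)) univ t ρ (-(c * be t.re) - gn c ρ t) := by
  unfold gn
  split_ifs with k
  · obtain ⟨u, hu⟩ := be_eq t.re
    refine Mn.ccv hρ (p := -(c * (t.re - u))) hc fun w _ => ?_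
    have h1 := mul_le_mul_of_nonneg_left (be_le w.re u) hc
    rw [hu]
    nlinarith [mul_nonneg hc (sq_nonneg (w.re - t.re))]
  · have k := not_le.1 k
    have b : ∀ w ∈ ball t ρ, |w.re - t.re| < |t.re| - 1 := fun w hw =>
      ((Complex.abs_re_le_norm (w - t)).trans_lt (mem_ball_iff_norm.1 hw)).trans_le (h k)
    have e : ∀ x : ℝ, 1 < |x| → be x = |x| := fun x hx => if_neg (not_le.2 hx)
    rw [sub_zero, e _ (by linarith)]
    rcases lt_abs.1 k with k | k
    · refine (Mn.lin hρ _ (-c)).mono (fun w hw _ => ⟨trivial, le_of_eq ?_⟩) le_rfl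
      have := (abs_lt.1 (b w hw)).1
      rw [abs_of_pos (a := t.re) (by linarith)] at this ⊢
      rw [e _ (lt_abs.2 (.inl (by linarith))), abs_of_pos (by linarith)]
      ring
    · refine (Mn.lin hρ _ c).mono (fun w hw _ => ⟨trivial, le_of_eq ?_⟩) le_rfl
      have := (abs_lt.1 (b w hw)).2
      rw [abs_of_neg (a := t.re) (by linarith)] at this ⊢
      rw [e _ (lt_abs.2 (.inr (by linarith))), abs_of_neg (by linarith)]
      ring

/-- The holomorphic part of the barrier. -/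
def hh (L y : ℝ) (w : ℂ) : ℂ :=
  L * (-Complex.I * w - y) - -Complex.I * w * Complex.log (-Complex.I * w)

lemma hh_re (w : ℂ) : (hh L y w).re =
    L * (w.im - y) - w.im * log ‖w‖ - w.re * Complex.arg (-Complex.I * w) := by
  simp [hh, Complex.log_re, Complex.log_im]
  ring

lemma hh_le (w : ℂ) : (hh L y w).re ≤ L * (w.im - y) - w.im * log ‖w‖ + 4 * |w.re| := by
  rw [hh_re]
  have h1 := neg_abs_le (w.re * Complex.arg (-Complex.I * w))
  rw [abs_mul] at h1
  have := mul_le_mul_of_nonneg_left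
    ((Complex.abs_arg_le_pi (-Complex.I * w)).trans pi_le_four) (abs_nonneg w.re)
  linarith

lemma mn_hh (hρ : 0 < ρ) (h : ρ < t.im ∨ ρ < |t.re|) :
    Mn (fun w => (hh L y w).re) univ t ρ (hh L y t).re := by
  have d : ∀ w : ℂ, 0 < w.im ∨ w.re ≠ 0 → DifferentiableAt ℂ (hh L y) w := fun w hw => by
    have : -Complex.I * w ∈ Complex.slitPlane := by simpa [Complex.mem_slitPlane_iff] using hw
    unfold hh
    exact DifferentiableAt.sub (by fun_prop) (DifferentiableAt.mul (by fun_prop)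
      (DifferentiableAt.clog (by fun_prop) this))
  rcases h with h | h
  · refine Mn.re hρ h fun w hw => (d w (.inl ?_)).differentiableWithinAt
    have := (abs_lt.1 ((Complex.abs_im_le_norm (w - t)).trans_lt (mem_ball_iff_norm.1 hw))).1
    rw [Complex.sub_im] at this
    linarith
  · refine Mn.re hρ h fun w hw => (d w (.inr fun e => ?_)).differentiableWithinAt
    have := (Complex.abs_re_le_norm (w - t)).trans_lt (mem_ball_iff_norm.1 hw)
    rw [Complex.sub_re, e, zero_sub, abs_neg] at this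
    exact this.false

lemma collar (hL : 0 ≤ L) (hy : 2 ≤ y) (h1 : ‖t‖ ≤ 2 * exp L) (h2 : y - 1 - |t.re| / 16 ≤ t.im)
    (h3 : ¬(y ≤ t.im ∧ ‖t‖ ≤ exp L)) : L * (t.im - y) - t.im * log ‖t‖ ≤ 1 + |t.re| := by
  have a0 := abs_nonneg t.re
  have t0 : 0 < ‖t‖ := norm_pos_iff.2 fun e => by
    rw [e, Complex.zero_re, Complex.zero_im, abs_zero] at h2
    linarith
  have Ly : 0 ≤ L * y := mul_nonneg hL (by linarith)
  rcases le_or_gt y t.im with k | k
  · have : L ≤ log ‖t‖ := (le_log_iff_exp_le t0).2 (not_le.1 fun r => h3 ⟨k, r⟩).le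
    nlinarith [mul_le_mul_of_nonneg_left this (show 0 ≤ t.im by linarith)]
  rcases le_or_gt 0 t.im with j | j
  · have h4 := mul_le_mul_of_nonneg_left (one_sub_inv_le_log_of_pos t0) j
    have h5 : t.im * ‖t‖⁻¹ ≤ 1 := by
      rw [← div_eq_mul_inv, div_le_one t0]
      exact Complex.im_le_norm t
    nlinarith [mul_nonneg hL (show 0 ≤ y - t.im by linarith)]
  · have : log ‖t‖ ≤ 1 + L := (log_le_iff_le_exp t0).2 (h1.trans (by
      rw [exp_add]
      exact mul_le_mul_of_nonneg_right (by linarith [add_one_le_exp 1]) (exp_pos L).le))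
    nlinarith [mul_le_mul_of_nonneg_left this (show 0 ≤ -t.im by linarith)]

lemma sub_ball (hL : 0 ≤ L) (h : ρ ≤ 1 ∨ ρ ≤ |t.re| / 32) (h1 : y ≤ t.im) (h2 : ‖t‖ ≤ exp L) :
    ball t ρ ⊆ {w | ‖w‖ ≤ 2 * exp L ∧ y - 1 - |w.re| / 16 ≤ w.im} := fun w hw => by
  have b := mem_ball_iff_norm.1 hw
  have b1 := (abs_lt.1 ((Complex.abs_im_le_norm (w - t)).trans_lt b)).1
  have b2 := (Complex.abs_re_le_norm (w - t)).trans_lt b
  have b3 := norm_sub_norm_le w t
  have b4 := Complex.abs_re_le_norm t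
  have b5 := abs_sub_abs_le_abs_sub t.re w.re
  have b6 := add_one_le_exp L
  have b7 := abs_nonneg w.re
  have b8 := abs_nonneg t.re
  rw [Complex.sub_im] at b1
  rw [Complex.sub_re, abs_sub_comm] at b2
  rcases h with h | h <;> constructor <;> linarith

end HalfX

open HalfX in
theorem halfOf : HalfOf := by
  intro MP v Z κ c r M₀ e B y hκ hκ' hc hr hM he hec hy H1 H2 t₀ ht₀
  have c1 : 0 < c / 10 := by linarith
  have up : ∀ L, ∀ t ∈ Z, y - 1 - |t.re| / 16 ≤ t.im → v t + -(c * be t.re) +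
      c / 10 * (hh L y t).re ≤ B + c / 10 * (L * (t.im - y) - t.im * log ‖t‖ - |t.re|) :=
    fun L t ht h => by
      have a1 := H2 t ht h
      have a2 := mul_le_mul_of_nonneg_left (be_ge t.re) hc.le
      have a3 := mul_le_mul_of_nonneg_left (hh_le (L := L) (y := y) t) c1.le
      have a4 := mul_le_mul_of_nonneg_right hec (abs_nonneg t.re)
      linarith
  have key : ∀ L, 0 ≤ L → ∀ t ∈ Z, y ≤ t.im ∧ ‖t‖ ≤ exp L →
      v t + -(c * be t.re) + c / 10 * (hh L y t).re ≤ B + c / 10 * 1 := fun L hL => by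
    refine MP (fun t => v t + -(c * be t.re) + c / 10 * (hh L y t).re) Z
      {t | y ≤ t.im ∧ ‖t‖ ≤ exp L} {w | ‖w‖ ≤ 2 * exp L ∧ y - 1 - |w.re| / 16 ≤ w.im}
      (min r (2 * κ)) (2 * exp L) _ (B + c / 10 * (L * exp L)) (lt_min hr (by linarith))
      (fun t ht => (Complex.abs_re_le_norm t).trans ht.1)
      (fun t ht => ⟨by linarith [ht.2, exp_pos L], by linarith [ht.1, abs_nonneg t.re]⟩)
      (fun t ht h => ?_) (fun t ht h h' => ?_) fun t ht h => ?_
    · refine (up L t ht (by linarith [h.1, abs_nonneg t.re])).trans (add_le_add_right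
        (mul_le_mul_of_nonneg_left ?_ c1.le) _)
      have a1 := Complex.im_le_norm t
      have a2 : 0 ≤ t.im * log ‖t‖ :=
        mul_nonneg (by linarith [h.1]) (log_nonneg (by linarith [h.1]))
      have a3 := mul_le_mul_of_nonneg_left (show t.im - y ≤ exp L by linarith [h.2]) hL
      linarith [abs_nonneg t.re]
    · refine (up L t ht h.2).trans (add_le_add_right (mul_le_mul_of_nonneg_left ?_ c1.le) _)
      linarith [collar hL hy h.1 h.2 h']
    · obtain ⟨ρ, h1, h2⟩ := H1 t ht h.1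
      have h3 : min r (2 * κ) ≤ ρ ∧ (ρ ≤ 1 ∨ ρ ≤ |t.re| / 32) ∧ (ρ < t.im ∨ ρ < |t.re|) := by
        rcases h1 with h1 | ⟨rfl, h1⟩
        · exact ⟨(min_le_left _ _).trans h1.1, .inl h1.2, .inl (by linarith [h1.2, h.1])⟩
        · have a1 := mul_le_mul_of_nonneg_left (hM.trans h1) hκ.le
          have a2 := mul_le_mul_of_nonneg_right hκ' (abs_nonneg t.re)
          exact ⟨(min_le_right _ _).trans (by linarith), .inr (by linarith), .inr (by linarith)⟩
      have h0 : 0 < ρ := (lt_min hr (by linarith)).trans_le h3.1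
      refine ⟨ρ, h3.1, sub_ball hL h3.2.1 h.1 h.2, ((h2.add' (mn_be h0 hc.le fun k => ?_)).add'
        ((mn_hh (L := L) (y := y) h0 h3.2.2).smul c1.le)).mono
          (fun w _ hw => ⟨hw, le_rfl⟩) (le_of_eq (by ring))⟩
      rcases h3.2.1 with j | j <;> linarith
  by_contra hn
  have hn : 0 < c / 10 * (t₀.im - y) := mul_pos c1 (by linarith [not_le.1 hn])
  obtain ⟨L, l1, l2⟩ : ∃ L : ℝ, ‖t₀‖ ≤ L ∧ B + c / 10 * 1 - (v t₀ + -(c * be t₀.re) +
      c / 10 * (hh 0 y t₀).re) < L * (c / 10 * (t₀.im - y)) :=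
    ⟨max _ (_ / _ + 1), le_max_left _ _,
      (div_lt_iff₀ hn).1 ((lt_add_one _).trans_le (le_max_right _ _))⟩
  have := key L ((norm_nonneg _).trans l1) t₀ ht₀
    ⟨by nlinarith, by linarith [add_one_le_exp L]⟩
  rw [hh_re] at this l2
  linarith

end Pool.Agent.MP_c69980_ag.G3C
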