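import Pool.Agent.MP_c69980_ag.G3C.Abs

/-!
Periodic meromorphic functions become holomorphic on a strip.
-/

set_option autoImplicit false

noncomputable section

namespace Pool.Agent.MP_c69980_ag.G3C

open Metric Filter Topology Set Real

namespace Hol

lemma unif {K : Set ℂ} (hK : IsCompact K) {P : ℝ → ℂ → Prop}
    (hm : ∀ a b t, a ≤ b → P a t → P b t) (h : ∀ s ∈ K, ∃ a, ∀ᶠ t in 𝓝 s, P a t) :
    ∃ a, ∀ t ∈ K, P a t := by
  refine hK.induction_on (p := fun S => ∃ a, ∀ t ∈ S, P a t) ⟨0, by simp⟩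
    (fun S T hST ⟨a, ha⟩ => ⟨a, fun t ht => ha t (hST ht)⟩) ?_ ?_
  · rintro S T ⟨a, ha⟩ ⟨b, hb⟩
    exact ⟨max a b, fun t ht => ht.elim (fun q => hm _ _ _ (le_max_left _ _) (ha t q))
      fun q => hm _ _ _ (le_max_right _ _) (hb t q)⟩
  · intro s hs
    obtain ⟨a, ha⟩ := h s hs
    exact ⟨_, mem_nhdsWithin_of_mem_nhds ha, a, fun t ht => ht⟩

lemma loc {h : ℂ → Fin 3 → ℂ} {φ : ℂ → ℝ} {t₀ : ℂ} (hm : ∀ l, MeromorphicAt (fun w => h w l) t₀)
    (hφ : ∃ (j : ℕ) (A : ℝ), ∀ᶠ t in 𝓝[≠] t₀, ‖t - t₀‖ ^ j * φ t ≤ A) :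
    ∃ (j : ℕ) (A : ℝ), 0 ≤ A ∧ ∀ᶠ s in 𝓝 t₀, DifferentiableAt ℂ (fun z => (z - t₀) ^ j • h z) s ∧
      ∀ᶠ t in 𝓝 s, ‖t - t₀‖ ^ j * φ t ≤ A := by
  obtain ⟨j, A, hA⟩ := hφ
  choose n hn using hm
  refine ⟨∑ l, n l + 1 + j, max A 0, le_max_right _ _, Eventually.and ?_
    (eventually_eventually_nhds.2 ?_)⟩
  · have h1 : ∀ l, AnalyticAt ℂ (fun z => ((z - t₀) ^ (∑ l, n l + 1 + j) • h z) l) t₀ := by
      intro l
      obtain ⟨c, hc⟩ : ∃ c, ∑ l, n l + 1 + j = c + n l := ⟨∑ l, n l + 1 + j - n l, by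
        have := Finset.single_le_sum (f := n) (fun _ _ => Nat.zero_le _) (Finset.mem_univ l)
        omega⟩
      have h2 := ((analyticAt_id.sub (analyticAt_const (v := t₀))).pow c).mul (hn l)
      refine h2.congr (.of_forall fun z => ?_)
      simp [hc, pow_add, mul_assoc]
    filter_upwards [eventually_all.2 fun l => (h1 l).eventually_analyticAt] with s hs
    exact differentiableAt_pi.2 fun l => (hs l).differentiableAt
  · filter_upwards [eventually_nhdsWithin_iff.1 hA, closedBall_mem_nhds t₀ one_pos] with t ht h1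
    rcases eq_or_ne t t₀ with rfl | hne
    · simp
    · have h2 : ‖t - t₀‖ ^ (∑ l, n l + 1) ≤ 1 :=
        pow_le_one₀ (norm_nonneg _) (mem_closedBall_iff_norm.1 h1)
      rw [pow_add, mul_assoc]
      calc _ ≤ ‖t - t₀‖ ^ (∑ l, n l + 1) * max A 0 :=
            mul_le_mul_of_nonneg_left ((ht hne).trans (le_max_left _ _)) (by positivity)
        _ ≤ 1 * max A 0 := mul_le_mul_of_nonneg_right h2 (le_max_right _ _)
        _ = _ := one_mul _

/-- The coordinate on the cylinder. -/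
def ex (N : ℕ) (t : ℂ) : ℂ := Complex.exp (t / N)

lemma ex_diff (N : ℕ) : Differentiable ℂ (ex N) := by
  unfold ex
  fun_prop

lemma ex_per {N : ℕ} (hN : 0 < N) (t : ℂ) : ex N (t + Tp N) = ex N t := by
  have : (N : ℂ) ≠ 0 := by exact_mod_cast hN.ne'
  rw [ex, ex, Tp, add_div, mul_div_cancel_left₀ _ this, Complex.exp_periodic]

lemma ex_eq {N : ℕ} (hN : 0 < N) {t s : ℂ} (h : ex N t = ex N s) : ∃ k : ℤ, s + k * Tp N = t := by
  have : (N : ℂ) ≠ 0 := by exact_mod_cast hN.ne'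
  obtain ⟨k, hk⟩ := Complex.exp_eq_exp_iff_exists_int.1 h
  refine ⟨k, ?_⟩
  rw [div_eq_iff this] at hk
  rw [hk, Tp]
  field_simp

/-- The multiplier. -/
def pp (N : ℕ) (F : Finset ℂ) (j : ℂ → ℕ) (t : ℂ) : ℂ := ∏ s ∈ F, (ex N t - ex N s) ^ j s

lemma pp_diff (N : ℕ) (F : Finset ℂ) (j : ℂ → ℕ) : Differentiable ℂ (pp N F j) := by
  have := ex_diff N
  unfold pp
  fun_prop

lemma pp_fac (N : ℕ) {F : Finset ℂ} (j : ℂ → ℕ) {s : ℂ} (hs : s ∈ F) :
    ∃ q : ℂ → ℂ, Differentiable ℂ q ∧ ∀ t, pp N F j t = q t * (t - s) ^ j s := by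
  classical
  have h1 : Differentiable ℂ (dslope (ex N) s) := differentiableOn_univ.1
    ((Complex.differentiableOn_dslope univ_mem).2 (ex_diff N).differentiableOn)
  refine ⟨fun t => pp N (F.erase s) j t * dslope (ex N) s t ^ j s,
    (pp_diff _ _ _).mul (h1.pow _), fun t => ?_⟩
  simp only [pp]
  rw [← Finset.mul_prod_erase _ _ hs, ← sub_smul_dslope, smul_eq_mul, mul_pow]
  ring

lemma red {N : ℕ} (hN : 0 < N) {M : ℝ} {t : ℂ} (ht : |t.re| < M) :
    ∃ k : ℤ, t - k * Tp N ∈ closedBall (0 : ℂ) (M + N * (2 * π)) := by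
  have h0 : (0 : ℝ) < N * (2 * π) := by positivity
  refine ⟨⌊t.im / (N * (2 * π))⌋, mem_closedBall_zero_iff.2
    ((Complex.norm_le_abs_re_add_abs_im _).trans (add_le_add ?_ ?_))⟩
  · simpa [Tp] using ht.le
  · have h1 := Int.sub_floor_div_mul_nonneg t.im h0
    have h2 := Int.sub_floor_div_mul_lt t.im h0
    have h3 : (t - (⌊t.im / (N * (2 * π))⌋ : ℤ) * Tp N).im =
        t.im - ⌊t.im / (N * (2 * π))⌋ * (N * (2 * π)) := by simp [Tp]
    rw [h3, abs_of_nonneg h1]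
    exact h2.le

end Hol

open Hol in
theorem holS : HolStmt := by
  intro N M r h φ hN hr hh hφ hm hb
  choose j B B0 hU using fun t₀ => loc (fun l => hm l t₀) (hb t₀)
  have hK := isCompact_closedBall (0 : ℂ) (M + N * (2 * π))
  obtain ⟨F, -, hF⟩ := hK.elim_nhds_subcover _ fun t₀ _ => hU t₀
  have hp := pp_diff N F j
  have pP : Function.Periodic (pp N F j) (Tp N) := fun t => by simp only [pp, ex_per hN]
  have hP : Function.Periodic (fun t => pp N F j t • h t) (Tp N) := fun t => by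
    simp only [pP t, hh]
  have φP : Function.Periodic φ (Tp N) := hφ
  have hE : (⋃ s ∈ F, range fun k : ℤ => s + k * Tp N).Countable :=
    F.countable_toSet.biUnion fun _ _ => countable_range _
  have hz : ∀ t, t ∉ (⋃ s ∈ F, range fun k : ℤ => s + k * Tp N) → pp N F j t ≠ 0 := fun t ht =>
    Finset.prod_ne_zero_iff.2 fun s hs => pow_ne_zero _ fun e =>
      ht (mem_iUnion₂.2 ⟨s, hs, ex_eq hN (sub_eq_zero.1 e)⟩)
  obtain ⟨A, hA⟩ := unif hK (P := fun A t => ‖pp N F j t‖ ≤ A ∧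
      (∃ t' ∈ ball t r, 1 ≤ A * ‖pp N F j t'‖) ∧ ‖pp N F j t‖ * φ t ≤ A)
    (fun a b t hab ⟨h1, ⟨t', h2, h3⟩, h4⟩ => ⟨h1.trans hab, ⟨t', h2,
      h3.trans (mul_le_mul_of_nonneg_right hab (norm_nonneg _))⟩, h4.trans hab⟩) (by
    intro s hs
    obtain ⟨c, hc, -, h1⟩ := mem_iUnion₂.1 (hF hs)
    obtain ⟨q, hq, e⟩ := pp_fac N j hc
    obtain ⟨t', h2, h3⟩ := (hE.dense_compl ℂ).exists_mem_open isOpen_ball ⟨s, mem_ball_self hr⟩
    have h4 := norm_pos_iff.2 (hz t' h2)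
    refine ⟨max (‖pp N F j s‖ + 1) (max ‖pp N F j t'‖⁻¹ ((‖q s‖ + 1) * B c)), ?_⟩
    filter_upwards [h1, isOpen_ball.mem_nhds (mem_ball_comm.1 h3),
      hp.continuous.norm.continuousAt.eventually_lt continuousAt_const (lt_add_one ‖pp N F j s‖),
      hq.continuous.norm.continuousAt.eventually_lt continuousAt_const (lt_add_one ‖q s‖)]
      with t k1 k2 k3 k4
    refine ⟨k3.le.trans (le_max_left _ _), ⟨t', mem_ball_comm.1 k2, ?_⟩,
      le_max_of_le_right (le_max_of_le_right ?_)⟩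
    · rw [← inv_mul_cancel₀ h4.ne']
      exact mul_le_mul_of_nonneg_right (le_max_of_le_right (le_max_left _ _)) h4.le
    · rw [e, norm_mul, norm_pow, mul_assoc]
      exact (mul_le_mul_of_nonneg_left k1 (norm_nonneg _)).trans
        (mul_le_mul_of_nonneg_right k4.le (B0 c)))
  refine ⟨pp N F j, fun t => pp N F j t • h t, _, max A 1, hp, fun t ht => ?_, hP, hE,
    le_max_right _ _, fun t ht => ?_⟩
  · obtain ⟨k, hk⟩ := red hN ht
    obtain ⟨c, hc, h1, -⟩ := mem_iUnion₂.1 (hF hk)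
    obtain ⟨q, hq, e⟩ := pp_fac N j hc
    have h2 : DifferentiableAt ℂ (fun t => pp N F j t • h t) (t - k * Tp N) := by
      simp only [e, mul_smul]
      exact (hq _).smul h1
    have h3 := h2.comp t (differentiableAt_id.sub_const (k * Tp N))
    refine (h3.congr_of_eventuallyEq (.of_forall fun z => ?_)).differentiableWithinAt
    exact (hP.sub_int_mul_eq k).symm
  · obtain ⟨k, hk⟩ := red hN ht
    obtain ⟨h1, ⟨t', h2, h3⟩, h4⟩ := hA _ hk
    rw [pP.sub_int_mul_eq] at h1 h4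
    rw [φP.sub_int_mul_eq] at h4
    refine ⟨h1.trans (le_max_left _ _), ⟨t' + k * Tp N, ?_, ?_⟩,
      fun hE => ⟨hz t hE, rfl, h4.trans (le_max_left _ _)⟩⟩
    · rw [mem_ball_iff_norm] at h2 ⊢
      rwa [show t' + k * Tp N - t = t' - (t - k * Tp N) by ring]
    · rw [pP.int_mul k t']
      exact h3.trans (mul_le_mul_of_nonneg_right (le_max_left _ _) (norm_nonneg _))

end Pool.Agent.MP_c69980_ag.G3C
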