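import Pool.Agent.MP_c69980_ag.G3C.SpecE
import Pool.Agent.MP_c69980_ag.E2.Base
import Pool.Agent.MP_c69980_ag.E1.Loc

/-!
The local form of the function of a pair.
-/

set_option autoImplicit false

noncomputable section

namespace Pool.Agent.MP_c69980_ag.G3C

open MvPolynomial Metric Filter Topology Set Real
open H60 H4 E1 G3

namespace LocY

variable {n : ℕ} {X : Set (Pt n)} {W U : Set (PS n)} {m : ℕ} {Φ : Fin 3 → Pt n → V n → ℂ}
  {σ M₀ : ℝ} {t w : ℂ} {y y' v v' : V n} {g : ℂ × ℂ → V n}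

/-- Two vertical vectors at the same point. -/
lemma two (H : AH X W U m Φ σ M₀) (hx : (t, y') ∈ Rx X) (hU : y' ∈ Cone U) (hy : Pp y y')
    (hv : Vt X (t, y) v) (hv' : Vt X (t, y') v') : ∃ κ : ℂ, κ ≠ 0 ∧
      lamv y v = ‖κ‖ ^ 2 * lamv y' v' ∧ ∀ i, Φ i (t, y) v = κ ^ m * Φ i (t, y') v' := by
  obtain ⟨a, j, O, Y, h, z, hp, q⟩ := hx
  have hU' := E2.cone_pp hU q.symm
  obtain ⟨α, β, α0, rfl⟩ := (h.vt_iff H.cn hp (hy.trans q)).1 hv
  obtain ⟨α', β', α0', rfl⟩ := (h.vt_iff H.cn hp q).1 hv'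
  obtain ⟨c, c0, e⟩ := hy.trans q
  obtain ⟨c', c0', e'⟩ := q
  change y' = c' • Y (t, z) at e'
  change y = c • Y (t, z) at e
  subst e e'
  have k0 := div_ne_zero α0' c0'
  have k1 := norm_ne_zero_iff.2 k0
  refine ⟨α / c / (α' / c'), div_ne_zero (div_ne_zero α0 c0) k0, ?_, fun i => ?_⟩
  · rw [lamv_comb (h.ne hp) c0, lamv_comb (h.ne hp) c0', norm_div (α / c), div_pow,
      ← mul_assoc, div_mul_cancel₀ _ (pow_ne_zero _ k1)]
  · rw [H.hom a j O Y h _ hp hU' c α β i c0, H.hom a j O Y h _ hp hU' c' α' β' i c0',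
      div_pow (α / c), ← mul_assoc, div_mul_cancel₀ _ (pow_ne_zero _ k0)]

lemma vt_dz (hg : AnalyticAt ℂ g (t, w)) (hX : ∀ᶠ q in 𝓝 (t, w), (q.1, g q) ∈ X)
    (h0 : wg (g (t, w)) (dz g (t, w)) ≠ 0) : Vt X (t, g (t, w)) (dz g (t, w)) := by
  have c : AnalyticAt ℂ (fun s : ℂ => (t, w + s)) 0 := by fun_prop
  have e : (fun s : ℂ => (t, w + s)) 0 = (t, w) := by simp
  refine ⟨h0, fun s => g (t, w + s), hg.comp_of_eq c e, by simp, ?_, ?_⟩
  · have h1 := hasDerivAt_dz hg.differentiableAt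
    rw [← add_zero w] at h1
    rw [(h1.comp_const_add w 0).deriv, add_zero]
  · exact (e ▸ c.continuousAt : Tendsto (fun s : ℂ => (t, w + s)) (𝓝 0) (𝓝 (t, w))).eventually hX

open LocX in
lemma small (hg : AnalyticAt ℂ g (t, w)) (g0 : g (t, w) ≠ 0)
    (h0 : wg (g (t, w)) (dz g (t, w)) ≠ 0) : ∀ᶠ q : ℂ × ℂ × ℂ in 𝓝 (t, w, w),
      wg (g (q.1, q.2.1)) (dd g q.1 q.2.1 q.2.2) ≠ 0 ∧ |EE g q| ≤ 1 := by
  have t1 : ContinuousAt (fun q : ℂ × ℂ × ℂ => (q.1, q.2.1)) (t, w, w) := by fun_prop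
  have t2 : ContinuousAt (fun q : ℂ × ℂ × ℂ => (q.1, q.2.2)) (t, w, w) := by fun_prop
  have c1 : ContinuousAt (fun q : ℂ × ℂ × ℂ => g (q.1, q.2.1)) (t, w, w) :=
    hg.continuousAt.comp_of_eq t1 rfl
  have c2 : ContinuousAt (fun q : ℂ × ℂ × ℂ => g (q.1, q.2.2)) (t, w, w) :=
    hg.continuousAt.comp_of_eq t2 rfl
  have c3 : ContinuousAt (fun q : ℂ × ℂ × ℂ => dz g (q.1, q.2.1)) (t, w, w) :=
    (dz_an hg).continuousAt.comp_of_eq t1 rfl
  have c4 : ContinuousAt (fun q : ℂ × ℂ × ℂ => dd g q.1 q.2.1 q.2.2) (t, w, w) :=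
    (dd_cont (U := {p | AnalyticAt ℂ g p}) fun _ hp => hp).continuousAt
      ((t1.eventually hg.eventually_analyticAt).and (t2.eventually hg.eventually_analyticAt))
  have c5 : ContinuousAt (fun q : ℂ × ℂ × ℂ => wg (g (q.1, q.2.1)) (dd g q.1 q.2.1 q.2.2))
      (t, w, w) := wg_cont.continuousAt.comp (c1.prodMk c4)
  have s0 := (H84.sq_pos' g0).ne'
  have l0 := (lamv_pos h0).ne'
  have c6 : ContinuousAt (EE g) (t, w, w) := by
    refine ContinuousAt.sub (ContinuousAt.log (((ContinuousAt.comp_of_eq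
      (lamv_cont g0 (dd g t w w)) (c1.prodMk c4) rfl).mul (sq_cont.continuousAt.comp c1)).div
        (sq_cont.continuousAt.comp c2) s0) ?_)
      ((ContinuousAt.comp_of_eq (lamv_cont g0 (dz g (t, w))) (c1.prodMk c3) rfl).log l0)
    simp only [dd_self]
    exact div_ne_zero (mul_ne_zero l0 s0) s0
  have e : EE g (t, w, w) = 0 := by
    simp only [EE, dd_self]
    rw [mul_div_cancel_right₀ _ s0, sub_self]
  refine (c5.eventually_ne (by simpa only [dd_self] using h0)).and ?_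
  exact c6.abs.eventually
    (ge_mem_nhds (show |EE g (t, w, w)| < 1 by rw [e, abs_zero]; exact one_pos))

end LocY

open LocY LocX in
theorem locOf : LocOf := by
  intro hP n X W U m Φ A Q d Y t₀ w₀ ⟨H, I, _⟩ hQ hd hY
  obtain ⟨g, ⟨g1, g2, g3⟩, g4, g5, g6⟩ := (I.lc _ _).1 hY
  have t1 : Tendsto (fun q : ℂ × ℂ × ℂ => (q.1, q.2.1)) (𝓝 (t₀, w₀, w₀)) (𝓝 (t₀, w₀)) :=
    Continuous.tendsto' (by fun_prop) _ _ rfl
  have t2 : Tendsto (fun q : ℂ × ℂ × ℂ => (q.1, q.2.2)) (𝓝 (t₀, w₀, w₀)) (𝓝 (t₀, w₀)) :=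
    Continuous.tendsto' (by fun_prop) _ _ rfl
  have c1 : ContinuousAt (fun p : ℂ × ℂ => ((p.1, g p) : Pt n)) (t₀, w₀) :=
    continuousAt_fst.prodMk g1.continuousAt
  have c2 : ContinuousAt (fun p : ℂ × ℂ => wg (g p) (dz g p)) (t₀, w₀) :=
    wg_cont.continuousAt.comp (g1.continuousAt.prodMk (dz_an g1).continuousAt)
  have e0 := g1.continuousAt.eventually_ne g2
  filter_upwards [small g1 g2 g6, t1.eventually (A.ev _ _ hY), t1.eventually e0, t2.eventually e0,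
    t1.eventually g1.eventually_analyticAt, t1.eventually g3.eventually_nhds, t2.eventually g3,
    t1.eventually g4.eventually_nhds, t1.eventually (c1.eventually (Rx.ev H.cn g5)),
    t1.eventually (c2.eventually_ne g6)]
  rintro ⟨t, z, z'⟩ ⟨s1, s2⟩ a1 y0 y1 a2 a3 a4 a5 a6 p0 y y' hU y2 e1 e2
  dsimp only at *
  have hy : Pp y (g (t, z)) := ((hP n).1 _ _ hU.1 y0).1 (e1.trans a3.self_of_nhds)
  have hy' : Pp y' (g (t, z')) := ((hP n).1 _ _ y2 y1).1 (e2.trans a4)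
  have r0 := a6 a5.self_of_nhds
  have u0 := E2.cone_pp hU hy.symm
  obtain ⟨κ, κ0, k2, k3⟩ := two H r0 u0 hy (Rx.vt H.cn (Rx.pp r0 hy)) (vt_dz a2 a5 p0)
  have k4 : Uq0 X Φ Q t y = κ ^ (m * d) * eval (A.cf Y (t, z)) Q := by
    rw [pow_mul, ← eval_smul_hom hQ, Uq0]
    refine congrArg (fun c => eval c Q) (funext fun l => ?_)
    rw [k3 l, Pi.smul_apply, I.cf Y _ g a1 ⟨a2, y0, a3⟩ u0 l, smul_eq_mul]
  have m0 : m * d ≠ 0 := (Nat.mul_pos H.m0 hd).ne'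
  have e3 : Pp y y' ↔ z' = z := by
    refine ⟨fun q => ?_, fun q => hy.trans (q ▸ hy').symm⟩
    have q1 := (wg_eq_zero y0 y1).2 (hy'.symm.trans (q.symm.trans hy))
    rw [wg_dd] at q1
    exact sub_eq_zero.1 ((smul_eq_zero.1 q1).resolve_right s1)
  have e4 : Z0 X U Φ Q t y y' ↔ z' - z ≠ 0 ∧ eval (A.cf Y (t, z)) Q ≠ 0 := by
    simp [Z0, k4, e3, κ0, sub_eq_zero, hU]
  refine ⟨by simp [e4, Ff, I.hm, m0, sub_eq_zero, eq_comm (a := z)], fun ht => ?_⟩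
  obtain ⟨n1, n2⟩ := e4.1 ht
  have p1 := div_pos (mul_pos (lamv_pos s1) (H84.sq_pos' y0)) (H84.sq_pos' y1)
  have p2 := lamv_pos p0
  have e5 : lamv (g (t, z)) (g (t, z')) = ‖z' - z‖ ^ 2 * lamv (g (t, z)) (dd g t z z') := by
    simpa [← dd_eq] using lamv_comb y0 one_ne_zero (z' - z) 1 (dd g t z z')
  have e6 : d2 y y' = ‖z' - z‖ ^ 2 * (lamv (g (t, z)) (dd g t z z') *
      H4.sq (g (t, z)) / H4.sq (g (t, z'))) := by
    rw [hy.d2 hy', d2_lamv y0 y1, e5]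
    ring
  have b1 := norm_ne_zero_iff.2 n1
  have b2 := norm_ne_zero_iff.2 n2
  have b3 := norm_ne_zero_iff.2 κ0
  have e7 : U0 X m Φ Q d t y y' - 6 * log ‖Ff A Q d Y t z' z‖ =
      3 * (m * d) * EE g (t, z, z') := by
    rw [U0, Ff, I.hm, k4, e6, k2, EE, norm_mul, norm_mul, norm_pow, norm_pow, norm_sub_rev z,
      log_mul (pow_ne_zero _ b1) p1.ne', log_mul (pow_ne_zero _ b3) p2.ne',
      log_mul (pow_ne_zero _ b3) b2, log_mul (pow_ne_zero _ b1) b2, log_pow, log_pow, log_pow,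
      log_pow]
    push_cast
    ring
  have h0 : (0 : ℝ) ≤ 3 * (m * d) := by positivity
  rw [e7, abs_mul, abs_of_nonneg h0]
  exact mul_le_of_le_one_right h0 s2

end Pool.Agent.MP_c69980_ag.G3C
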