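import Pool.Agent.MP_c69980_ag.G3C.Abs

/-!
A lower bound for the mean of `log ‖F‖` from a two-sided comparison with `g` at one point.
-/

set_option autoImplicit false

noncomputable section

namespace Pool.Agent.MP_c69980_ag.G3C

open MvPolynomial Metric Filter Topology MeasureTheory Set Real
open H60 H4

/-- A bounded quotient of holomorphic functions is holomorphic. -/
lemma quot {U : Set ℂ} {F g : ℂ → ℂ} {A : ℝ} (hA : 0 ≤ A) (hU : IsOpen U)
    (hF : DifferentiableOn ℂ F U) (hg : DifferentiableOn ℂ g U)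
    (hne : ∀ z ∈ U, ∀ᶠ w in 𝓝[≠] z, g w ≠ 0) (hb : ∀ t ∈ U, ‖F t‖ ≤ A * ‖g t‖) :
    ∃ φ : ℂ → ℂ, DifferentiableOn ℂ φ U ∧ (∀ z ∈ U, ‖φ z‖ ≤ A) ∧ ∀ z ∈ U, F z = φ z * g z := by
  have aF := hF.analyticOnNhd hU
  have ag := hg.analyticOnNhd hU
  have mer : MeromorphicOn (F / g) U := aF.meromorphicOn.div ag.meromorphicOn
  set φ := toMeromorphicNFOn (F / g) U with hφ
  have e : ∀ z ∈ U, φ =ᶠ[𝓝[≠] z] F / g := fun z hz => mer.toMeromorphicNFOn_eq_self_on_nhdsNE hz
  have b : ∀ z ∈ U, ∀ᶠ w in 𝓝[≠] z, ‖φ w‖ ≤ A := fun z hz => by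
    filter_upwards [e z hz, nhdsWithin_le_nhds (hU.mem_nhds hz)] with w h1 h2
    rw [h1, Pi.div_apply, norm_div]
    exact div_le_of_le_mul₀ (norm_nonneg _) hA (hb w h2)
  have an : ∀ z ∈ U, AnalyticAt ℂ φ z := fun z hz => by
    refine (meromorphicNFOn_toMeromorphicNFOn (F / g) U hz).meromorphicOrderAt_nonneg_iff_analyticAt.1
      (not_lt.1 fun h => ?_)
    have h1 := (tendsto_norm_atTop_iff_cobounded.2
      (tendsto_cobounded_of_meromorphicOrderAt_neg h)).eventually_gt_atTop A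
    obtain ⟨w, p, q⟩ := (h1.and (b z hz)).exists
    exact absurd p (not_lt.2 q)
  refine ⟨φ, fun z hz => (an z hz).differentiableAt.differentiableWithinAt, fun z hz => ?_,
    fun z hz => ?_⟩
  · exact le_of_tendsto ((an z hz).continuousAt.norm.tendsto.mono_left nhdsWithin_le_nhds) (b z hz)
  · refine tendsto_nhds_unique_of_eventuallyEq (l := 𝓝[≠] z)
      ((aF z hz).continuousAt.tendsto.mono_left nhdsWithin_le_nhds)
      (((an z hz).mul (ag z hz)).continuousAt.tendsto.mono_left nhdsWithin_le_nhds) ?_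
    filter_upwards [e z hz, hne z hz] with w h1 h2
    rw [Pi.mul_apply, h1, Pi.div_apply, div_mul_cancel₀ _ h2]

theorem lowS : LowStmt := fun F g t₁ t₂ ρ A hρ hA hF hg h0 hb h2 hl => by
  have ag := hg.analyticOnNhd isOpen_ball
  have hne : ∀ z ∈ ball t₁ (2 * ρ), ∀ᶠ w in 𝓝[≠] z, g w ≠ 0 := fun z hz =>
    (ag z hz).eventually_eq_zero_or_eventually_ne_zero.resolve_left fun a => h0
      (ag.eqOn_zero_of_preconnected_of_eventuallyEq_zero (convex_ball _ _).isPreconnected hz a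
        (mem_ball_self (by positivity)))
  have A0 : 0 < A := by linarith
  have lA : 0 ≤ log A := log_nonneg hA
  obtain ⟨φ, d, b, e⟩ := quot A0.le isOpen_ball hF hg hne hb
  have s1 : ball t₁ (ρ / 2) ⊆ ball t₁ (2 * ρ) := ball_subset_ball (by linarith)
  obtain ⟨t₃, ⟨g3, l3⟩, m3⟩ := (((hne t₂ (s1 h2)).and (nhdsWithin_le_nhds hl)).and
    (nhdsWithin_le_nhds (isOpen_ball.mem_nhds h2))).exists
  have n3 : 0 < ‖g t₃‖ := norm_pos_iff.2 g3
  have k3 : 1 ≤ A * ‖φ t₃‖ := by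
    rw [e t₃ (s1 m3), norm_mul] at l3
    exact le_of_mul_le_mul_right (by linarith) n3
  have p3 : 0 < ‖φ t₃‖ := (mul_pos_iff_of_pos_left A0).1 (zero_lt_one.trans_le k3)
  have q3 : - log A ≤ log ‖φ t₃‖ := by
    have := log_nonneg k3
    rw [log_mul A0.ne' p3.ne'] at this
    linarith
  have m3' : dist t₃ t₁ < ρ / 2 := m3
  have sc : closedBall t₃ (3 * ρ / 2) ⊆ ball t₁ (2 * ρ) :=
    closedBall_subset_ball' (by linarith)
  have sb : ball t₁ ρ ⊆ ball t₃ (3 * ρ / 2) := ball_subset_ball' (by rw [dist_comm]; linarith)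
  obtain ⟨i1, i2⟩ := H26.logSub _ φ isOpen_ball d
  obtain ⟨i3, i4⟩ := i2 t₃ (3 * ρ / 2) (by positivity) sc (norm_pos_iff.1 p3)
  have I : IntegrableOn (fun z => log ‖φ z‖) (ball t₃ (3 * ρ / 2)) :=
    (i1.integrableOn_compact_subset sc (isCompact_closedBall _ _)).mono_set ball_subset_closedBall
  have c : ∀ (t : ℂ) (r : ℝ), IntegrableOn (fun _ : ℂ => log A) (ball t r) := fun t r =>
    integrableOn_const measure_ball_lt_top.ne
  have mo : ∫ z in ball t₁ ρ, (log A - log ‖φ z‖) ≤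
      ∫ z in ball t₃ (3 * ρ / 2), (log A - log ‖φ z‖) := by
    refine setIntegral_mono_set ((c _ _).sub I) ?_ sb.eventuallyLE
    refine (ae_restrict_iff' measurableSet_ball).2 (i3.mono fun z hz q => ?_)
    exact sub_nonneg.2 (log_le_log (norm_pos_iff.2 (hz q)) (b z (sc (ball_subset_closedBall q))))
  rw [integral_sub (c _ _) I, integral_sub (c _ _) (I.mono_set sb), setIntegral_const,
    setIntegral_const, H26.vol_ball _ hρ, H26.vol_ball _ (by positivity), smul_eq_mul,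
    smul_eq_mul] at mo
  have M : Mn (fun z => log ‖φ z‖) {w | φ w ≠ 0} t₁ ρ (-4 * log A) := by
    refine Mn.of_int (I.mono_set sb) (i3.mono fun z hz q => hz (sb q)) ?_
    have P : 0 ≤ π * ρ ^ 2 := by positivity
    nlinarith [mul_le_mul_of_nonneg_left q3 P, mul_nonneg P lA]
  refine (M.add (Mn.log hρ (by linarith) hg h0)).mono (fun w hw q => ?_) (by linarith)
  have ew := e w (ball_subset_ball (by linarith) hw)
  refine ⟨by simpa only [mem_ofPred_eq, ew] using mul_ne_zero q.1 q.2, le_of_eq ?_⟩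
  rw [ew, norm_mul, log_mul (norm_ne_zero_iff.2 q.1) (norm_ne_zero_iff.2 q.2)]

end Pool.Agent.MP_c69980_ag.G3C
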