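import Pool.Agent.MP_c69980_ag.G3C.Abs

/-!
The maximum principle, growth along a chain of discs, reduction to the upper half-plane.
-/

set_option autoImplicit false

namespace Pool.Agent.MP_c69980_ag.G3C

open Metric MeasureTheory Set Real

theorem mpS : MPStmt := by
  intro F Z Ω Ω' r R C C' hr hR hΩ h1 h2 h3 t₀ z₀ o₀
  have sq : ∀ t ∈ Ω', t.re ^ 2 ≤ R ^ 2 := fun t ht =>
    sq_le_sq' (abs_le.1 (hR t ht)).1 (abs_le.1 (hR t ht)).2
  have key : ∀ ε : ℝ, 0 < ε → F t₀ ≤ C + ε * R ^ 2 := fun ε hε => by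
    let S := (fun t => F t + ε * t.re ^ 2) '' (Z ∩ Ω)
    have hb : BddAbove S := ⟨C' + ε * R ^ 2, by
      rintro _ ⟨t, ht, rfl⟩
      exact add_le_add (h1 t ht.1 ht.2) (mul_le_mul_of_nonneg_left (sq t (hΩ ht.2)) hε.le)⟩
    have h4 : sSup S ≤ max (sSup S) (C + ε * R ^ 2) - ε * r ^ 2 / 16 := by
      refine csSup_le ⟨_, t₀, ⟨z₀, o₀⟩, rfl⟩ ?_
      rintro _ ⟨t, ht, rfl⟩
      obtain ⟨ρ, k1, k2, k3⟩ := h3 t ht.1 ht.2
      have hρ := hr.trans_le k1
      have k4 := (k3.add' (Mn.cvx (v := fun w => ε * w.re ^ 2) (α := ε * t.re ^ 2)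
        (p := 2 * ε * t.re) hρ hε.le fun w _ => le_of_eq (by ring))).le hρ
        (c := max (sSup S) (C + ε * R ^ 2)) fun w hw hz => by
          by_cases ho : w ∈ Ω
          · exact le_max_of_le_left (le_csSup hb ⟨w, ⟨hz, ho⟩, rfl⟩)
          · exact le_max_of_le_right (add_le_add (h2 w hz (k2 hw) ho)
              (mul_le_mul_of_nonneg_left (sq w (k2 hw)) hε.le))
      have k5 := mul_le_mul_of_nonneg_left (pow_le_pow_left₀ hr.le k1 2) hε.le
      change F t + ε * t.re ^ 2 ≤ _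
      linarith
    have h5 : F t₀ + ε * t₀.re ^ 2 ≤ sSup S := le_csSup hb ⟨t₀, ⟨z₀, o₀⟩, rfl⟩
    have h6 : 0 < ε * r ^ 2 := by positivity
    have h7 : 0 ≤ ε * t₀.re ^ 2 := by positivity
    rcases le_total (sSup S) (C + ε * R ^ 2) with k | k
    · linarith
    · rw [max_eq_left k] at h4
      linarith
  refine le_of_forall_pos_le_add fun δ hδ => (key (δ / (R ^ 2 + 1)) (by positivity)).trans ?_
  rw [add_le_add_iff_left, div_mul_eq_mul_div, div_le_iff₀ (by positivity)]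
  nlinarith

theorem chainS : ChainStmt := by
  intro κ C A M₀ h0 h1 hC hM
  have hq : 1 < 1 + κ / 2 := by linarith
  obtain ⟨K, hK⟩ := pow_unbounded_of_one_lt C hq
  refine ⟨K, max A 0, fun σ p hσ hb hs t ht => ?_⟩
  have hσ1 : σ * σ = 1 := by rcases hσ with rfl | rfl <;> norm_num
  have hσ2 : |σ| = 1 := by rcases hσ with rfl | rfl <;> norm_num
  have base : ∀ t : ℂ, M₀ ≤ σ * t.re → σ * t.re ≤ 2 * M₀ → p t ≤ max A 0 * (σ * t.re) ^ K :=
    fun t k1 k2 => ((hb t k1 k2).trans (le_max_left A 0)).trans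
      (le_mul_of_one_le_right (le_max_right A 0) (one_le_pow₀ (hM.trans k1)))
  have key : ∀ (j : ℕ) (t : ℂ), M₀ ≤ σ * t.re → σ * t.re ≤ 2 * M₀ * (1 + κ / 2) ^ j →
      p t ≤ max A 0 * (σ * t.re) ^ K := fun j => by
    induction j with
    | zero => exact fun t k1 k2 => base t k1 (by simpa using k2)
    | succ j ih =>
      intro t k1 k2
      rcases le_total (σ * t.re) (2 * M₀) with k3 | k3
      · exact base t k1 k3
      obtain ⟨s, e⟩ : ∃ s, σ * t.re = s * (1 + κ / 2) :=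
        ⟨_, (div_mul_cancel₀ _ (by linarith)).symm⟩
      have k4 : M₀ ≤ s := by
        by_contra k
        nlinarith
      have k5 : s ≤ 2 * M₀ * (1 + κ / 2) ^ j := by
        rw [e, pow_succ, ← mul_assoc] at k2
        exact le_of_mul_le_mul_right k2 (by linarith)
      have k6 : σ * (t - (σ * (κ / 2 * s) : ℝ)).re = s := by
        rw [Complex.sub_re, Complex.ofReal_re, mul_sub, e, ← mul_assoc, hσ1]
        ring
      have k7 : 0 < κ * s := mul_pos h0 (by linarith)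
      have k8 := hs _ (k6.symm ▸ k4) t (by
        rw [k6, mem_ball, dist_eq_norm, sub_sub_cancel, Complex.norm_real, norm_eq_abs, abs_mul,
          hσ2, abs_of_pos (by linarith)]
        linarith)
      have k9 := ih _ (k6.symm ▸ k4) (k6.symm ▸ k5)
      rw [k6] at k9
      rw [e, mul_pow, ← mul_assoc, mul_comm _ (_ ^ K)]
      exact k8.trans ((mul_le_mul_of_nonneg_left k9 (by linarith)).trans
        (mul_le_mul_of_nonneg_right hK.le
          (mul_nonneg (le_max_right A 0) (pow_nonneg (by linarith) K))))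
  obtain ⟨j, hj⟩ := pow_unbounded_of_one_lt (σ * t.re) hq
  exact key j t ht (hj.le.trans (le_mul_of_one_le_left (by positivity) (by linarith)))

lemma Mn.comp {v : ℂ → ℝ} {Z : Set ℂ} {t : ℂ} {ρ a : ℝ} {φ : ℂ → ℂ}
    (hφ : MeasurePreserving φ volume volume) (hi : Isometry φ) (h : Mn v Z (φ t) ρ a) :
    Mn (fun w => v (φ w)) (φ ⁻¹' Z) t ρ a := by
  obtain ⟨G, g1, g2, g3⟩ := h
  have he := hi.isClosedEmbedding.measurableEmbedding
  have hb := hi.preimage_ball t ρ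
  refine ⟨fun w => G (φ w), ?_, ?_, ?_⟩
  · rw [← hb]
    exact (hφ.integrableOn_comp_preimage he).2 g1
  · rw [← hb]
    exact hφ.quasiMeasurePreserving.ae g2
  · rw [← hb, hφ.setIntegral_preimage_emb he]
    exact g3

theorem eabsOf : EabsOf := by
  intro h κ C d₀ d₁ A c μ M₀ K a1 a2 a3 a4 a5 a6 a7 a8 a9
  obtain ⟨M, hM, h⟩ := h κ C d₀ d₁ A c μ M₀ K a1 a2 a3 a4 a5 a6 a7 a8 a9
  refine ⟨M, hM, fun r σ y₀ u Δ Z hr hσ E t ht hre => ?_⟩
  obtain ⟨φ, h1, h2, h3, h4, h5, w, rfl⟩ : ∃ φ : ℂ → ℂ, MeasurePreserving φ volume volume ∧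
      Isometry φ ∧ Differentiable ℂ φ ∧ (∀ w, |(φ w).re| = |w.re|) ∧
      (∀ w, σ * (φ w).im = w.im + y₀) ∧ ∃ w, φ w = t := by
    rcases hσ with rfl | rfl
    · exact ⟨fun w => w + y₀ * Complex.I, measurePreserving_add_right _ _, isometry_add_right _,
        by fun_prop, fun w => by simp, fun w => by simp, t - y₀ * Complex.I, by simp⟩
    · exact ⟨fun w => -(y₀ * Complex.I) - w, Measure.measurePreserving_sub_left _ _,
        Isometry.of_dist_eq fun w w' => dist_sub_left _ _ _, by fun_prop, fun w => by simp,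
        fun w => by simp [add_comm], -(y₀ * Complex.I) - t, by simp⟩
  have hg : ∀ ρ w, gn c ρ (φ w) = gn c ρ w := fun ρ w => by rw [gn, gn, h4]
  have := h r (fun w => u (φ w)) (fun w => Δ (φ w)) (φ ⁻¹' Z) hr
    { nn := fun w => E.nn _
      sub := fun w k1 k2 k3 => by
        obtain ⟨ρ, k4, k5⟩ := E.sub (φ w) k1 (h4 w ▸ k2) (by rw [h5]; linarith)
        exact ⟨ρ, k4, hg ρ w ▸ k5.comp h1 h2⟩
      up := fun w k1 k2 k3 => E.up (φ w) k1 (h4 w ▸ k2) (by rw [h5]; linarith)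
      cmp := fun w k1 k2 => by
        obtain ⟨g, k3, k4, k5⟩ := E.cmp (φ w) (h4 w ▸ k1) k2
        rw [h4] at k3 k5
        have hb := h2.mapsTo_ball w (κ * |w.re|)
        exact ⟨fun w => g (φ w), k3.comp h3.differentiableOn hb, k4, fun x hx => k5 _ (hb hx)⟩
      hi := fun w k1 k2 k3 k4 => E.hi (φ w) k1 (h4 w ▸ k2) (h4 w ▸ k3) (by rw [h5]; linarith)
      lo := fun w k1 k2 k3 k4 => by
        have k5 := E.lo (φ w) (h4 w ▸ k1) (h4 w ▸ k2) (by rw [h5]; linarith) k4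
        rw [h4] at k5
        exact k5.comp h1 h2
      cl := fun w k1 k2 k3 => E.cl (φ w) (h4 w ▸ k1) (h4 w ▸ k2) (by rw [h5]; linarith) }
    w ht (h4 w ▸ hre)
  rw [h5]
  linarith

end Pool.Agent.MP_c69980_ag.G3C
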