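import Pool.Agent.MP_c69980_ag.G3C.SpecE

/-!
The models for a section of the open part and a section of the boundary.
-/

set_option autoImplicit false

noncomputable section

namespace Pool.Agent.MP_c69980_ag.G3C

open MvPolynomial Metric Filter Topology Set Real
open H60 H4 E1 G3

namespace MoB

variable {M : Type} [MetricSpace M] {A : Amb M} {E : EA A} {Q : PR 3} {d : ℕ} {Y : C2 → M}
  {s : ℂ → M} {t t₁ b : ℂ}

theorem bound (Q : PR 3) (C : ℝ) :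
    ∃ B : ℝ, 0 ≤ B ∧ ∀ v : Fin 3 → ℂ, (∀ l, ‖v l‖ ≤ C) → ‖eval v Q‖ ≤ B := by
  obtain ⟨B, hB⟩ := (isCompact_closedBall (0 : Fin 3 → ℂ) C).exists_bound_of_continuousOn
    (continuous_eval Q).continuousOn
  refine ⟨max B 0, le_max_right _ _, fun v hv => (hB v ?_).trans (le_max_left _ _)⟩
  exact mem_closedBall_zero_iff.2 ((pi_norm_le_iff_of_nonempty v).2 hv)

theorem ff_eq (hQ : Q.IsHomogeneous d) (Y : C2 → M) (t b : ℂ) :
    Ff A Q d Y t 0 b = eval (b ^ A.m • A.cf Y (t, b)) Q := by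
  rw [eval_smul_hom hQ, Ff, sub_zero, pow_mul]

theorem an_eval {p : C2} (h : A.LZ Y p) (Q : PR 3) :
    AnalyticAt ℂ (fun q => eval (A.cf Y q) Q) p :=
  AnalyticAt.aeval_mvPolynomial (f := fun q => A.cf Y q) (A.an Y p h.1 h.2) Q

open Classical in
/-- The distance to the cusp. -/
def dl (s : ℂ → M) (Y : C2 → M) (t : ℂ) : ℝ :=
  if h : ∃ b : ℂ, ‖b‖ ≤ 1 / 4 ∧ s t = Y (t, b) then ‖h.choose‖ else 1 / 4

theorem dl_nn (s : ℂ → M) (Y : C2 → M) (t : ℂ) : 0 ≤ dl s Y t := by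
  unfold dl
  split_ifs
  · exact norm_nonneg _
  · norm_num

theorem dl_ex (h : dl s Y t < 1 / 4) : ∃ b : ℂ, ‖b‖ ≤ 1 / 4 ∧ s t = Y (t, b) := by
  by_contra hn
  rw [dl, dif_neg hn] at h
  exact lt_irrefl _ h

theorem dl_eq (inj : ∀ b b' : ℂ, ‖b‖ ≤ 1 → ‖b'‖ ≤ 1 → Y (t, b) = Y (t, b') → b = b')
    (hb : ‖b‖ ≤ 1) (e : s t = Y (t, b)) : dl s Y t = min ‖b‖ (1 / 4) := by
  unfold dl
  split_ifs with h
  · have h1 := h.choose_spec
    have h2 := inj _ _ (h1.1.trans (by norm_num)) hb (h1.2.symm.trans e)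
    rw [h2] at h1 ⊢
    exact (min_eq_left h1.1).symm
  · exact (min_eq_right (le_of_not_ge fun k => h ⟨b, k, e⟩)).symm

theorem dp_near (t t₁ : ℂ) : A.dp t₁ - ‖t - t₁‖ ≤ A.dp t := by
  have h := abs_le.1 (Complex.abs_re_le_norm (t - t₁))
  rw [Complex.sub_re] at h
  unfold Amb.dp
  rcases A.hσ with e | e <;> rw [e] <;> linarith [h.1, h.2]

theorem dp_abs (h : 0 ≤ A.dp t) : |t.re| = A.dp t := by
  unfold Amb.dp at h ⊢
  rcases A.hσ with e | e <;> rw [e] at h ⊢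
  · rw [abs_of_nonneg (by linarith), one_mul]
  · rw [abs_of_nonpos (by linarith), neg_one_mul]

end MoB

open MoB in
theorem moBOf : MoBOf := by
  intro hS hL hC M _ A E Q d e κ M₀ η hQ _ κ0 κ1 hM η0
  obtain ⟨B, B0, hB⟩ := bound Q E.C
  obtain ⟨ε₁, ε0, hε⟩ := hL (1 / 4) B η e (by norm_num) η0
  refine ⟨1, 1 / 8, max 1 (max (B * 4 ^ e) (2 / η)), ε₁, 0, le_rfl, by norm_num, by norm_num,
    le_max_left _ _, ε0, fun A₀ ε R s γ u Z hA hε8 hR hs hγ hO hLd hBr => ?_⟩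
  obtain ⟨c1, c2⟩ := hC M A E
  obtain ⟨⟨i, Y, hi, hY⟩, -⟩ := c2 γ hγ
  obtain ⟨cY, cu⟩ := E.cusp i Y hi
  have M1 : 0 < E.M₁ := by linarith [E.MM, A.M0]
  have inj : ∀ t ∈ Hs E, ∀ b b' : ℂ, ‖b‖ ≤ 1 → ‖b'‖ ≤ 1 → Y (t, b) = Y (t, b') → b = b' :=
    fun t ht b b' h1 h2 => ((cu t (le_of_lt ht)).2.2.2 b h1).2 b' h2
  have f1 : ∀ t ∈ Hs E, DifferentiableOn ℂ (Ff A Q d Y t 0) (ball 0 (1 / 4) \ {0}) ∧
      (∀ w ∈ ball (0 : ℂ) (1 / 4) \ {0}, ‖Ff A Q d Y t 0 w‖ ≤ B) ∧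
      ∃ B' : ℝ, ∀ᶠ w in 𝓝[≠] (0 : ℂ), ‖Ff A Q d Y t 0 w‖ ≤ B' * ‖w - 0‖ ^ e := fun t ht => by
    have k := fun w (hw : w ∈ ball (0 : ℂ) (1 / 4) \ {0}) =>
      (c1 i Y t hi (le_of_lt ht)).1 w hw.2 (mem_ball_zero_iff.1 hw.1).le
    refine ⟨fun w hw => ?_, fun w hw => ?_,
      hO t ht Y 0 ((cu t (le_of_lt ht)).2.2.2 0 (by simp)).1 (hY t ht)⟩
    · have a : AnalyticAt ℂ (fun w : ℂ => eval (A.cf Y (t, w)) Q) w :=
        AnalyticAt.comp (f := fun w : ℂ => ((t, w) : C2)) (an_eval (k w hw).1 Q)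
          (analyticAt_const.prod analyticAt_id)
      exact (DifferentiableAt.mul (by fun_prop) a.differentiableAt).differentiableWithinAt
    · rw [ff_eq hQ]
      exact hB _ (k w hw).2
  refine ⟨dl s Y, fun t ht => ?_, dl_nn s Y, fun t₁ h₁ hΔ => ?_⟩
  · obtain ⟨b, hb, e1, -⟩ := hBr t ht i Y hi (hY t (hR ht))
    rw [dl_eq (inj t (hR ht)) (by linarith) e1]
    exact (min_le_left _ _).trans hb
  have h₁' : M₀ ≤ A.dp t₁ := h₁
  have hH : ball t₁ (A.dp t₁ / 2) ⊆ Hs E := fun t ht => by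
    have := dp_near (A := A) t t₁
    have := mem_ball_iff_norm.1 ht
    change E.M₁ < A.dp t
    linarith
  have t1 : t₁ ∈ Hs E := hH (mem_ball_self (by linarith))
  obtain ⟨b₁, hb₁, e₁⟩ := dl_ex (show dl s Y t₁ < 1 / 4 by linarith)
  have hd₁ := dl_eq (inj t₁ t1) (hb₁.trans (by norm_num)) e₁
  rw [min_eq_left hb₁] at hd₁
  have b0 : b₁ ≠ 0 := fun h => (cu t₁ (le_of_lt t1)).2.2.1 (by rw [← h, ← e₁]; exact (hs t₁ t1).2)
  have o1 : (t₁, Complex.log b₁) ∈ E.O₁ i := (cu t₁ (le_of_lt t1)).1 _ (by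
    rw [Complex.log_re, Real.log_le_iff_le_exp (norm_pos_iff.2 b0)]
    have := Real.exp_neg_one_gt_d9
    linarith)
  obtain ⟨ω, hω, ω1, hω'⟩ := E.eq i t₁ (Complex.log b₁) s
    (E.o12 i _ _ _ o1 (by simpa using E.δ0.le)) (by linarith) (fun t ht => hs t (hH ht))
    (by rw [cY, Complex.exp_log b0, e₁])
  have ab : |t₁.re| = A.dp t₁ := dp_abs (by linarith)
  have s1 : ball t₁ (κ * |t₁.re|) ⊆ ball t₁ (E.κ * A.dp t₁) := by
    rw [ab]
    exact ball_subset_ball (mul_le_mul_of_nonneg_right κ1 (by linarith))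
  have s2 : ball t₁ (κ * |t₁.re|) ⊆ Hs E :=
    s1.trans ((ball_subset_ball (by nlinarith [E.κ0.2])).trans hH)
  have k : ∀ t ∈ ball t₁ (κ * |t₁.re|), ‖Complex.exp (ω t)‖ ≤ 1 ∧
      s t = Y (t, Complex.exp (ω t)) ∧
      eval (A.cf (E.Y i) (t, ω t)) Q = Ff A Q d Y t 0 (Complex.exp (ω t)) := fun t ht => by
    obtain ⟨o3, e3, -⟩ := hω' t (s1 ht)
    refine ⟨?_, by rw [e3, cY], by rw [ff_eq hQ, (c1 i Y t hi (le_of_lt (s2 ht))).2 _ o3]⟩
    rw [Complex.norm_exp]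
    exact Real.exp_le_one_iff.2 ((cu t (le_of_lt (s2 ht))).2.1 _ o3)
  refine ⟨fun t => Complex.exp (ω t), fun t => eval (A.cf (E.Y i) (t, ω t)) Q,
    fun d₀ _ => ⟨(hω.mono s1).cexp, ?_, fun t ht => ?_⟩, fun t ht => ?_, fun t ht hg => ⟨?_, ?_⟩,
    fun h2 => ?_⟩
  · simp only [ω1, Complex.exp_log b0, hd₁, one_mul, le_refl]
  · obtain ⟨k1, k2, -⟩ := k t ht
    rw [dl_eq (inj t (s2 ht)) k1 k2]
    simp only [pow_zero, one_mul, mul_one]
    refine ⟨k1, fun _ => min_le_left _ _, fun _ => ?_⟩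
    rcases le_total ‖Complex.exp (ω t)‖ (1 / 4) with h | h
    · exact Or.inl (min_eq_left h).ge
    · exact Or.inr (by linarith)
  · have a := an_eval (E.lc i t (ω t) (ω t) (hω' t (s1 ht)).1 (by simpa using E.δ0.le)).1 Q
    exact a.differentiableAt.comp_differentiableWithinAt t (f := fun t => ((t, ω t) : C2))
      (differentiableWithinAt_id.prodMk (hω.mono s1 t ht))
  · obtain ⟨g1, g2, g3⟩ := f1 t (s2 ht)
    have h := hS _ 0 (1 / 4) B e (by norm_num) g1 g2 g3 (Complex.exp (ω t))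
      ⟨mem_ball_zero_iff.2 (by linarith), Complex.exp_ne_zero _⟩
    simp only [(k t ht).2.2]
    rw [sub_zero, one_div_pow, mul_one_div, div_le_iff₀ (by positivity)] at h
    have h3 : B * 4 ^ e ≤ A₀ := ((le_max_left _ _).trans (le_max_right _ _)).trans hA
    calc _ ≤ B * 4 ^ e * ‖Complex.exp (ω t)‖ ^ e := by linarith
      _ ≤ _ := mul_le_mul_of_nonneg_right h3 (by positivity)
  · intro htR
    obtain ⟨b, hb, e1, e2⟩ := hBr t htR i Y hi (hY t (hR htR))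
    obtain ⟨k1, k2, k3⟩ := k t ht
    obtain rfl := inj t (s2 ht) _ _ (by linarith) k1 (e1.symm.trans k2)
    simp only [k3]
    exact e2
  · obtain ⟨t₂, ht₂, hl⟩ := hLd t₁ h₁' h2
    have s3 : ball t₁ (κ * M₀ / 4) ⊆ ball t₁ (κ * |t₁.re| / 4) := by
      rw [ab]
      exact ball_subset_ball (by nlinarith)
    have s4 : ball t₁ (κ * |t₁.re| / 4) ⊆ ball t₁ (κ * |t₁.re|) :=
      ball_subset_ball (by linarith [mul_nonneg κ0.le (abs_nonneg t₁.re)])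
    refine ⟨t₂, s3 ht₂, ?_⟩
    filter_upwards [hl, isOpen_ball.mem_nhds (s4 (s3 ht₂))] with t l1 ht hg
    obtain ⟨g1, g2, g3⟩ := f1 t (s2 ht)
    have h := hε _ 0 g1 g2 g3 (l1 i Y hi (hY t (s2 ht))) (Complex.exp (ω t))
      (Complex.exp_ne_zero _) (by rwa [sub_zero])
    rw [sub_zero, ← (k t ht).2.2] at h
    have h3 : 2 / η ≤ A₀ := ((le_max_right _ _).trans (le_max_right _ _)).trans hA
    calc _ = 2 / η * (η / 2 * ‖Complex.exp (ω t)‖ ^ e) := by field_simp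
      _ ≤ 2 / η * ‖eval (A.cf (E.Y i) (t, ω t)) Q‖ :=
        mul_le_mul_of_nonneg_left h (by positivity)
      _ ≤ _ := mul_le_mul_of_nonneg_right h3 (norm_nonneg _)

end Pool.Agent.MP_c69980_ag.G3C
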