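import Pool.Agent.MP_c69980_ag.G3C.SpecE

/-!
Holomorphic models for two sections of the open part.
-/

set_option autoImplicit false

noncomputable section

namespace Pool.Agent.MP_c69980_ag.G3C

open MvPolynomial Metric Filter Topology MeasureTheory Set Real
open H60 H4 E1 G3

namespace MoI

variable {M : Type} [MetricSpace M] {A : Amb M} (E : EA A)

lemma m1 : 1 < E.M₁ := A.M0.trans_lt E.MM

lemma dp_abs {t : ℂ} (h : 0 ≤ A.dp t) : |t.re| = A.dp t := by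
  rw [← abs_of_nonneg h, Amb.dp]
  rcases A.hσ with k | k <;> simp [k]

lemma half {t₁ : ℂ} (h : 2 * E.M₁ ≤ A.dp t₁) : ball t₁ (A.dp t₁ / 2) ⊆ Hs E := fun t ht => by
  have a := abs_lt.1 ((Complex.abs_re_le_norm (t - t₁)).trans_lt (mem_ball_iff_norm.1 ht))
  rw [Complex.sub_re] at a
  simp only [Hs, mem_ofPred, Amb.dp] at h a ⊢
  rcases A.hσ with k | k <;> rw [k] at h a ⊢ <;> linarith [a.1, a.2]

lemma sub {t₁ : ℂ} (h : 2 * E.M₁ ≤ A.dp t₁) : ball t₁ (E.κ * A.dp t₁) ⊆ Hs E :=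
  (ball_subset_ball (by nlinarith [E.κ0.2, m1 E])).trans (half E h)

lemma o2 {i : E.ι} {t w : ℂ} (h : (t, w) ∈ E.O₁ i) : (t, w) ∈ E.O₂ i :=
  E.o12 i t w w h (by simpa using E.δ0.le)

lemma lz {i : E.ι} {t w : ℂ} (h : (t, w) ∈ E.O₃ i) : A.LZ (E.Y i) (t, w) :=
  (E.lc i t w w h (by simpa using E.δ0.le)).1

lemma an {Y : C2 → M} {p : C2} (h : A.LZ Y p) (Q : PR 3) :
    AnalyticAt ℂ (fun q => eval (A.cf Y q) Q) p := by
  simpa [aeval_eq_eval] using AnalyticAt.aeval_mvPolynomial (A.an Y p h.1 h.2) Q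

/-- Polynomial growth of the scale along sections. -/
lemma grow (hC : ChainStmt) {x : ℝ} (B : ℝ) (hx : 2 * E.M₁ ≤ x) : ∃ (K : ℕ) (B' : ℝ), 0 ≤ B' ∧
    ∀ s, A.Sec (Hs E) s → Scb E s x B → ∀ t, x ≤ A.dp t → ∀ i w, (t, w) ∈ E.O₃ i →
      s t = E.Y i (t, w) → E.sc i (t, w) ≤ B' * A.dp t ^ K := by
  have m := m1 E
  have c := E.C1
  obtain ⟨K, B', h⟩ := hC E.κ (E.C ^ 2) B x E.κ0.1 (by linarith [E.κ0.2]) (one_le_pow₀ c)
    (by linarith)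
  refine ⟨K, E.C * |B'|, by positivity, fun s hs hb t ht i w hw e => ?_⟩
  have : ∀ t, ∃ p : ℝ, t ∈ Hs E → ∃ j v, (t, v) ∈ E.O₁ j ∧ s t = E.Y j (t, v) ∧
      p = E.sc j (t, v) := fun t => by
    by_cases k : t ∈ Hs E
    · obtain ⟨j, v, a, b⟩ := E.cov _ (hs t k).2 (le_of_lt k)
      exact ⟨_, fun _ => ⟨j, v, a, b, rfl⟩⟩
    · exact ⟨0, fun q => (k q).elim⟩
  choose p hp using this
  have H : ∀ t, x ≤ A.dp t → t ∈ Hs E := fun t ht => show E.M₁ < _ by linarith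
  have g : p t ≤ B' * A.dp t ^ K := by
    refine h A.σ p A.hσ (fun t a b => ?_) (fun t₁ a t b => ?_) t ht
    · obtain ⟨j, v, k1, k2, k3⟩ := hp t (H t a)
      exact k3 ▸ hb t a b j v (E.o23 j (o2 E k1)) k2
    · obtain ⟨j, v, k1, k2, k3⟩ := hp t₁ (H t₁ a)
      obtain ⟨ω, -, -, q⟩ := E.eq j t₁ v s (o2 E k1) (hx.trans a)
        (fun t ht => hs t (half E (hx.trans a) ht)) k2
      obtain ⟨q1, q2, -, q3⟩ := q t b
      obtain ⟨j', v', l1, l2, l3⟩ := hp t (sub E (hx.trans a) b)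
      have := E.scc j' j t v' (ω t) (E.o23 _ (o2 E l1)) q1 (l2.symm.trans q2)
      rw [l3, k3]
      nlinarith [mul_le_mul_of_nonneg_left q3 (zero_le_one.trans c)]
  obtain ⟨j, v, k1, k2, k3⟩ := hp t (H t ht)
  have d : 0 ≤ A.dp t ^ K := pow_nonneg (by linarith) K
  calc E.sc i (t, w) ≤ E.C * p t := k3 ▸ E.scc i j t w v hw (E.o23 _ (o2 E k1)) (e.symm.trans k2)
    _ ≤ E.C * (|B'| * A.dp t ^ K) := mul_le_mul_of_nonneg_left
      (g.trans (mul_le_mul_of_nonneg_right (le_abs_self _) d)) (by linarith)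
    _ = _ := by ring

/-- The distance of two sections in a chosen chart. -/
lemma del {s γ : ℂ → M} (hγ : A.Sec (Hs E) γ) : ∃ Δ : ℂ → ℝ, (∀ t, 0 ≤ Δ t) ∧
    ∀ t ∈ Hs E, ∃ i w₀, (t, w₀) ∈ E.O₁ i ∧ γ t = E.Y i (t, w₀) ∧
      (∀ w, ‖w - w₀‖ ≤ E.δ → s t = E.Y i (t, w) → Δ t = ‖w - w₀‖) ∧
      (Δ t < E.δ → ∃ w, ‖w - w₀‖ = Δ t ∧ s t = E.Y i (t, w)) := by
  have : ∀ t, ∃ x : ℝ, 0 ≤ x ∧ (t ∈ Hs E → ∃ i w₀, (t, w₀) ∈ E.O₁ i ∧ γ t = E.Y i (t, w₀) ∧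
      (∀ w, ‖w - w₀‖ ≤ E.δ → s t = E.Y i (t, w) → x = ‖w - w₀‖) ∧
      (x < E.δ → ∃ w, ‖w - w₀‖ = x ∧ s t = E.Y i (t, w))) := fun t => by
    by_cases k : t ∈ Hs E
    · obtain ⟨j, v, a, b⟩ := E.cov _ (hγ t k).2 (le_of_lt k)
      by_cases q : ∃ w, ‖w - v‖ ≤ E.δ ∧ s t = E.Y j (t, w)
      · obtain ⟨w, q1, q2⟩ := q
        refine ⟨‖w - v‖, norm_nonneg _, fun _ => ⟨j, v, a, b, fun w' l1 l2 => ?_,
          fun _ => ⟨w, rfl, q2⟩⟩⟩
        rw [(E.lc j t v w (E.o23 j (o2 E a)) q1).2.2 w' l1 (q2.symm.trans l2)]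
      · exact ⟨E.δ, E.δ0.le, fun _ => ⟨j, v, a, b, fun w l1 l2 => (q ⟨w, l1, l2⟩).elim,
          fun l => (lt_irrefl _ l).elim⟩⟩
    · exact ⟨0, le_rfl, fun q => (k q).elim⟩
  choose Δ h1 h2 using this
  exact ⟨Δ, h1, h2⟩

/-- The function of the pair on a disc in the fibre. -/
lemma fib (Q : PR 3) (d : ℕ) : ∃ A' : ℝ, 0 ≤ A' ∧ ∀ i t c, (t, c) ∈ E.O₃ i →
    DifferentiableOn ℂ (Ff A Q d (E.Y i) t c) (ball c E.δ) ∧
      ∀ w ∈ ball c E.δ, ‖Ff A Q d (E.Y i) t c w‖ ≤ A' := by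
  obtain ⟨B, hB⟩ := (isCompact_closedBall (0 : Fin 3 → ℂ) E.C).exists_bound_of_continuousOn
    (MvPolynomial.continuous_eval Q).continuousOn
  have c := zero_le_one.trans E.C1
  have B0 : 0 ≤ B := (norm_nonneg _).trans (hB 0 (mem_closedBall_self c))
  have := E.δ0
  refine ⟨E.δ ^ (A.m * d) * B, by positivity, fun i t c h => ⟨fun w hw => ?_, fun w hw => ?_⟩⟩
  · have a := (an (E.lc i t c w h (mem_ball_iff_norm.1 hw).le).1 Q).comp
      (f := fun w : ℂ => ((t, w) : C2)) (analyticAt_const.prod analyticAt_id)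
    exact ((((analyticAt_id.sub analyticAt_const).pow _).mul
      a).differentiableAt).differentiableWithinAt
  · have l := (mem_ball_iff_norm.1 hw).le
    rw [Ff, norm_mul, norm_pow]
    exact mul_le_mul (pow_le_pow_left₀ (norm_nonneg _) l _) (hB _ (mem_closedBall_zero_iff.2
      ((pi_norm_le_iff_of_nonneg ‹_›).2 (E.lc i t c w h l).2.1))) (norm_nonneg _) (by positivity)

end MoI

open MoI in
theorem moIOf : MoIOf := by
  intro hC hS hL M _ A E Q d e κ M₀ B η _ d0 κ0 κ1 hM η0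
  have m := m1 E
  have c1 := E.C1
  have δ0 := E.δ0
  obtain ⟨K, B', B0, hg⟩ := grow E hC (x := M₀ / 2) B (by linarith)
  obtain ⟨A', A0, hf⟩ := fib E Q d
  obtain ⟨ε₁, ε0, hl⟩ := hL E.δ A' η e δ0 η0
  obtain ⟨d₁, p1, p2, p3⟩ : ∃ d₁ : ℝ, 0 < d₁ ∧ d₁ ≤ 1 ∧ E.C * d₁ < E.δ := by
    refine ⟨min 1 (E.δ / (2 * E.C)), by positivity, min_le_left _ _, ?_⟩
    have := (le_div_iff₀ (by positivity)).1 (min_le_right 1 (E.δ / (2 * E.C)))
    linarith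
  have p4 : d₁ < E.δ := by nlinarith
  obtain ⟨C, c2, c3⟩ : ∃ C : ℝ, E.C ≤ C ∧ 2 * (E.C * B') + E.δ ≤ C :=
    ⟨_, le_max_left _ _, le_max_right _ _⟩
  have a1 : 0 ≤ A' / E.δ ^ e := by positivity
  have a2 : 0 ≤ 2 / η := by positivity
  refine ⟨C, d₁, 1 + A' / E.δ ^ e + 2 / η, ε₁, K, c1.trans c2, p1, p2, by linarith, ε0,
    fun A₀ ε R s γ u Z hA hε hR hs hγ bs bγ od ld br => ?_⟩
  obtain ⟨Δ, Δ0, hΔ⟩ := del E (s := s) hγ
  refine ⟨Δ, fun t ht => ?_, Δ0, fun t₁ h1 h2 => ?_⟩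
  · obtain ⟨i, w₀, k1, k2, k3, -⟩ := hΔ t (hR ht)
    obtain ⟨w, l1, l2, -⟩ := br t ht i w₀ (E.o23 i (o2 E k1)) k2
    rwa [k3 w (by linarith) l2]
  have h1 : M₀ ≤ A.dp t₁ := h1
  have h3 : 2 * E.M₁ ≤ A.dp t₁ := by linarith
  have x1 : 1 ≤ A.dp t₁ := by linarith
  have h4 : Δ t₁ < E.δ := by nlinarith [Δ0 t₁]
  obtain ⟨i, w₀, k1, k2, -, k4⟩ := hΔ t₁ (show E.M₁ < _ by linarith)
  obtain ⟨w, k5, k6⟩ := k4 h4
  have k7 := E.o12 i t₁ w₀ w k1 (k5 ▸ h4.le)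
  obtain ⟨ω, r1, r2, r3⟩ := E.eq i t₁ w s k7 h3 (fun t ht => hs t (half E h3 ht)) k6
  obtain ⟨ω₀, s1, s2, s3⟩ := E.eq i t₁ w₀ γ (o2 E k1) h3 (fun t ht => hγ t (half E h3 ht)) k2
  have ab := dp_abs (A := A) (zero_le_one.trans x1)
  have sb : ball t₁ (κ * |t₁.re|) ⊆ ball t₁ (E.κ * A.dp t₁) :=
    ball_subset_ball (by rw [ab]; nlinarith)
  have inj : ∀ t ∈ ball t₁ (κ * |t₁.re|), ‖ω t - ω₀ t‖ ≤ d₁ → ∀ v, ‖v - ω₀ t‖ ≤ E.δ →
      s t = E.Y i (t, v) → v = ω t := fun t ht a v b c =>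
    (E.lc i t (ω₀ t) v (s3 t (sb ht)).1 b).2.2 _ (a.trans p4.le)
      (c.symm.trans (r3 t (sb ht)).2.1)
  have ord := fun t (ht : t ∈ ball t₁ (κ * |t₁.re|)) => od t (sub E h3 (sb ht)) _ _
    (lz E (s3 t (sb ht)).1).1 (s3 t (sb ht)).2.1
  have dg : DifferentiableOn ℂ (fun t => ω t - ω₀ t) (ball t₁ (κ * |t₁.re|)) :=
    (r1.sub s1).mono sb
  refine ⟨fun t => ω t - ω₀ t, fun t => Ff A Q d (E.Y i) t (ω₀ t) (ω t),
    fun d₀ hd => ⟨dg, ?_, fun t ht => ⟨?_, fun a => ?_, fun a => ?_⟩⟩, fun t ht => ?_,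
    fun t ht a => ⟨?_, fun b => ?_⟩, fun a => ?_⟩
  · simp only [r2, s2, k5]
    nlinarith [Δ0 t₁]
  · have g1 := hg s hs bs t₁ (by linarith) i w (E.o23 i k7) k6
    have g2 := hg γ hγ bγ t₁ (by linarith) i w₀ (E.o23 i (o2 E k1)) k2
    have g3 := norm_sub_le_norm_sub_add_norm_sub (ω t) w (ω₀ t)
    have g4 := norm_sub_le_norm_sub_add_norm_sub w w₀ (ω₀ t)
    have g5 : 1 ≤ A.dp t₁ ^ K := one_le_pow₀ x1
    rw [norm_sub_rev w₀] at g4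
    rw [ab]
    nlinarith [(r3 t (sb ht)).2.2.1, (s3 t (sb ht)).2.2.1,
      mul_le_mul_of_nonneg_left g1 (zero_le_one.trans c1),
      mul_le_mul_of_nonneg_left g2 (zero_le_one.trans c1),
      mul_le_mul_of_nonneg_right c3 (zero_le_one.trans g5)]
  · obtain ⟨j, v₀, l1, l2, l3, -⟩ := hΔ t (sub E h3 (sb ht))
    have n := norm_nonneg (ω t - ω₀ t)
    have a : ‖ω t - ω₀ t‖ ≤ d₁ := a
    have b : E.C * ‖ω t - ω₀ t‖ ≤ E.δ := by nlinarith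
    obtain ⟨v, q1, q2⟩ := E.tr i j t (ω₀ t) v₀ (ω t) (s3 t (sb ht)).1 (E.o23 j (o2 E l1))
      ((s3 t (sb ht)).2.1.symm.trans l2) b
    rw [l3 v (q1.trans b) ((r3 t (sb ht)).2.1.trans q2)]
    exact q1.trans (mul_le_mul_of_nonneg_right c2 n)
  · obtain ⟨j, v₀, l1, l2, -, l4⟩ := hΔ t (sub E h3 (sb ht))
    have n := Δ0 t
    have b : E.C * Δ t ≤ C * Δ t := mul_le_mul_of_nonneg_right c2 n
    have b' : C * Δ t < d₁ := by nlinarith
    obtain ⟨v, q1, q2⟩ := l4 (by nlinarith)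
    obtain ⟨v', q3, q4⟩ := E.tr j i t v₀ (ω₀ t) v (E.o23 j (o2 E l1)) (s3 t (sb ht)).1
      (l2.symm.trans (s3 t (sb ht)).2.1) (by rw [q1]; linarith)
    rw [q1] at q3
    refine (le_total ‖ω t - ω₀ t‖ d₁).imp_left fun z => ?_
    rw [inj t ht z v' (by linarith) (q2.trans q4)] at q3
    exact q3.trans b
  · exact ((dg t ht).pow _).mul ((an (lz E (r3 t (sb ht)).1) Q).differentiableAt
      |>.comp_differentiableWithinAt (f := fun t => ((t, ω t) : C2)) t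
        (differentiableWithinAt_id.prodMk (r1.mono sb t ht)))
  · have a : ‖ω t - ω₀ t‖ ≤ d₁ := a
    obtain ⟨f1, f2⟩ := hf i t _ (s3 t (sb ht)).1
    by_cases z : ω t = ω₀ t
    · simp only [Ff, z, sub_self, zero_pow (Nat.mul_pos A.m0 d0).ne', zero_mul, norm_zero]
      exact mul_nonneg (by linarith) (by positivity)
    · have := hS _ _ _ A' e δ0 (f1.mono sdiff_subset) (fun w hw => f2 w hw.1) (ord t ht) (ω t)
        ⟨mem_ball_iff_norm.2 (a.trans_lt p4), z⟩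
      rw [← le_div_iff₀ (by positivity), mul_div_right_comm] at this
      exact this.trans (mul_le_mul_of_nonneg_right (by linarith) (by positivity))
  · obtain ⟨v, q1, q2, q3⟩ := br t b i _ (s3 t (sb ht)).1 (s3 t (sb ht)).2.1
    rw [inj t ht a v (by linarith) q2] at q3
    exact q3 (r3 t (sb ht)).1
  · obtain ⟨t₂, q1, q2⟩ := ld t₁ h1 a
    have q3 : t₂ ∈ ball t₁ (κ * |t₁.re| / 4) := ball_subset_ball (by rw [ab]; nlinarith) q1
    refine ⟨t₂, q3, ?_⟩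
    filter_upwards [q2, isOpen_ball.mem_nhds (ball_subset_ball
      (show κ * |t₁.re| / 4 ≤ κ * |t₁.re| by nlinarith [abs_nonneg t₁.re]) q3)] with t l ht a
    have l := l i _ (s3 t (sb ht)).1 (s3 t (sb ht)).2.1
    obtain ⟨f1, f2⟩ := hf i t _ (s3 t (sb ht)).1
    have n : η / 2 * ‖ω t - ω₀ t‖ ^ e ≤ ‖Ff A Q d (E.Y i) t (ω₀ t) (ω t)‖ := by
      by_cases z : ω t = ω₀ t
      · have c := (f1.differentiableAt (ball_mem_nhds _ δ0)).continuousAt.norm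
        have c' : ContinuousAt (fun w => η * ‖w - ω₀ t‖ ^ e) (ω₀ t) := by fun_prop
        have := le_of_tendsto_of_tendsto (c'.tendsto.mono_left nhdsWithin_le_nhds)
          (c.tendsto.mono_left nhdsWithin_le_nhds) l
        rw [z]
        nlinarith [pow_nonneg (norm_nonneg (ω₀ t - ω₀ t)) e]
      · exact hl _ _ (f1.mono sdiff_subset) (fun w hw => f2 w hw.1) (ord t ht) l _ z a
    rw [← le_div_iff₀' (by positivity), div_div_eq_mul_div, mul_div_assoc, mul_comm] at n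
    exact n.trans (mul_le_mul_of_nonneg_right (by linarith) (norm_nonneg _))

end Pool.Agent.MP_c69980_ag.G3C
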