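import Pool.Agent.MP_c69980_ag.G3C.Abs

/-!
The order of vanishing along a curve of a function known only off the curve.
-/

set_option autoImplicit false

noncomputable section

namespace Pool.Agent.MP_c69980_ag.G3C

open Metric Filter Topology Set Asymptotics

namespace OrdX

theorem one {g : ℂ → ℂ} {R A B : ℝ} (hR : 0 < R)
    (hd : ∀ w ∈ closedBall (0 : ℂ) R, w ≠ 0 → DifferentiableAt ℂ g w)
    (hb : ∀ᶠ w in 𝓝[≠] (0 : ℂ), ‖g w‖ ≤ B) (hA : ∀ w ∈ sphere (0 : ℂ) R, ‖g w‖ ≤ A) :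
    ∀ w ∈ ball (0 : ℂ) R, w ≠ 0 → ‖g w - limUnder (𝓝[≠] 0) g‖ ≤ 2 * A / R * ‖w‖ := by
  have ho : (fun z => g z - g 0) =o[𝓝[≠] (0 : ℂ)] fun z => (z - 0)⁻¹ :=
    Filter.IsBoundedUnder.isLittleO_sub_self_inv ⟨B + ‖g 0‖, eventually_map.2
      (hb.mono fun w hw => (norm_sub_le _ _).trans (by linarith))⟩
  have hG := Complex.differentiableOn_update_limUnder_of_isLittleO (closedBall_mem_nhds 0 hR)
    (fun w hw => (hd w hw.1 hw.2).differentiableWithinAt) ho
  have hm : ∀ z ∈ ball (0 : ℂ) R, ‖Function.update g 0 (limUnder (𝓝[≠] 0) g) z‖ ≤ A := by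
    intro z hz
    refine Complex.norm_le_of_forall_mem_frontier_norm_le isBounded_ball
      (DifferentiableOn.diffContOnCl (hG.mono closure_ball_subset_closedBall)) (fun y hy => ?_)
      (subset_closure hz)
    have hy' := frontier_ball_subset_sphere hy
    rw [Function.update_of_ne (ne_of_mem_sphere hy' hR.ne')]
    exact hA y hy'
  intro w hw h0
  have := Complex.dist_le_div_mul_dist_of_mapsTo_ball (R₂ := 2 * A)
    (hG.mono ball_subset_closedBall) (fun z hz => mem_closedBall_iff_norm.2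
      ((norm_sub_le _ _).trans (by linarith [hm z hz, hm 0 (mem_ball_self hR)]))) hw
  rwa [Function.update_of_ne h0, Function.update_self, dist_eq_norm, dist_zero_right] at this

end OrdX

theorem ordS : OrdStmt := by
  intro F t₀ e h1 h2
  obtain ⟨R, hR, hs⟩ := nhds_basis_closedBall.eventually_iff.1
    (h1.and ((continuous_fst.tendsto ((t₀, 0) : ℂ × ℂ)).eventually h2))
  have hs' : ∀ t ∈ closedBall t₀ R, ∀ w ∈ closedBall (0 : ℂ) R, (w ≠ 0 → AnalyticAt ℂ F (t, w)) ∧
      ∃ B : ℝ, ∀ᶠ w in 𝓝[≠] (0 : ℂ), ‖F (t, w)‖ ≤ B * ‖w‖ ^ e := fun t ht w hw =>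
    hs (x := (t, w)) (by rw [← closedBall_prod_same]; exact ⟨ht, hw⟩)
  obtain ⟨A, hA⟩ := ((isCompact_closedBall t₀ R).prod
    (isCompact_sphere (0 : ℂ) R)).exists_bound_of_continuousOn (f := F) fun q hq =>
      ((hs' q.1 hq.1 q.2 (sphere_subset_closedBall hq.2)).1
        (ne_of_mem_sphere hq.2 hR.ne')).continuousAt.continuousWithinAt
  have key : ∀ t ∈ ball t₀ R, ∀ w ∈ ball (0 : ℂ) R, w ≠ 0 →
      ‖F (t, w) / w ^ e - limUnder (𝓝[≠] 0) fun w => F (t, w) / w ^ e‖ ≤
        2 * (A / R ^ e) / R * ‖w‖ := by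
    intro t ht
    have ht' := ball_subset_closedBall ht
    obtain ⟨B, hB⟩ := (hs' t ht' 0 (mem_closedBall_self hR.le)).2
    refine OrdX.one (B := B) hR (fun w hw h0 => ?_) ?_ fun w hw => ?_
    · exact (((hs' t ht' w hw).1 h0).differentiableAt.comp w
        ((differentiableAt_const t).prodMk differentiableAt_id)).div
        (differentiableAt_id.pow e) (pow_ne_zero e h0)
    · filter_upwards [hB, self_mem_nhdsWithin] with w hw h0
      rw [norm_div, norm_pow, div_le_iff₀ (pow_pos (norm_pos_iff.2 h0) e)]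
      exact hw
    · rw [norm_div, norm_pow, mem_sphere_zero_iff_norm.1 hw]
      exact div_le_div_of_nonneg_right (hA (t, w) ⟨ht', hw⟩) (pow_pos hR e).le
  have hw : ∀ᶠ w in 𝓝[≠] (0 : ℂ), w ∈ ball (0 : ℂ) R ∧ w ≠ 0 :=
    (eventually_nhdsWithin_of_eventually_nhds (ball_mem_nhds 0 hR)).and self_mem_nhdsWithin
  refine ⟨fun t => limUnder (𝓝[≠] 0) fun w => F (t, w) / w ^ e,
    DifferentiableOn.analyticAt (s := ball t₀ R) ?_ (ball_mem_nhds _ hR), 2 * (A / R ^ e) / R, ?_⟩
  · refine TendstoLocallyUniformlyOn.differentiableOn (φ := 𝓝[≠] (0 : ℂ))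
      (F := fun w t => F (t, w) / w ^ e) (TendstoUniformlyOn.tendstoLocallyUniformlyOn
        (tendstoUniformlyOn_iff.2 fun ε hε => ?_)) (hw.mono fun w q t ht => ?_) isOpen_ball
    · have h3 : Tendsto (fun w : ℂ => 2 * (A / R ^ e) / R * ‖w‖) (𝓝 0) (𝓝 0) :=
        Continuous.tendsto' (by fun_prop) _ _ (by simp)
      filter_upwards [hw, (h3.mono_left nhdsWithin_le_nhds).eventually (gt_mem_nhds hε)]
        with w q q' t ht
      rw [dist_comm, dist_eq_norm]
      exact (key t ht w q.1 q.2).trans_lt q'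
    · exact ((((hs' t (ball_subset_closedBall ht) w (ball_subset_closedBall q.1)).1
        q.2).differentiableAt.comp t (differentiableAt_id.prodMk
          (differentiableAt_const w))).div_const _).differentiableWithinAt
  · filter_upwards [ball_mem_nhds ((t₀, 0) : ℂ × ℂ) hR] with q hq h0
    rw [← ball_prod_same] at hq
    have h3 := mul_le_mul_of_nonneg_right (key q.1 hq.1 q.2 hq.2 h0)
      (pow_nonneg (norm_nonneg q.2) e)
    rw [← norm_pow, ← norm_mul, sub_mul, div_mul_cancel₀ _ (pow_ne_zero e h0), norm_pow] at h3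
    exact h3.trans_eq (by ring)

end Pool.Agent.MP_c69980_ag.G3C
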