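import Pool.Agent.MP_c69980_ag.G3C.SpecE

/-!
From holomorphic models to the hypotheses of abstract expansivity at one end.
-/

set_option autoImplicit false

noncomputable section

namespace Pool.Agent.MP_c69980_ag.G3C

open Metric Filter Topology MeasureTheory Set Real

namespace RPow

variable {σ κ C d₁ A M₀ M σ' y₀ ε₁ ε : ℝ} {K e : ℕ} {u Δ : ℂ → ℝ} {Z : Set ℂ} {t : ℂ}

lemma abs_re (hσ : σ = 1 ∨ σ = -1) (h0 : 0 ≤ σ * t.re) : |t.re| = σ * t.re := by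
  rcases hσ with rfl | rfl
  · rw [one_mul] at h0 ⊢; exact abs_of_nonneg h0
  · rw [neg_one_mul] at h0 ⊢; exact abs_of_nonpos (by linarith)

lemma sgn_le (hσ : σ = 1 ∨ σ = -1) (x : ℝ) : |σ * x| = |x| := by
  rcases hσ with rfl | rfl <;> simp

lemma sub_Rs (hκ' : κ ≤ 1 / 16) (hσ : σ = 1 ∨ σ = -1) (hσ' : σ' = 1 ∨ σ' = -1) (hM₀ : 4 ≤ M₀)
    (hM : 4 * M₀ ≤ M) (h1 : M₀ ≤ σ * t.re) (h2 : σ * t.re ≤ 2 * M₀) (h3 : y₀ + M₀ < σ' * t.im) :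
    ball t (κ * |t.re|) ⊆ Rs σ M₀ M σ' y₀ := fun w hw => by
  rw [mem_ball_iff_norm, abs_re hσ (by linarith)] at hw
  have a0 : ‖w - t‖ < M₀ / 8 := by nlinarith
  have a1 := abs_lt.1 (((sgn_le hσ _).le.trans (Complex.abs_re_le_norm (w - t))).trans_lt a0)
  have a2 := abs_lt.1 (((sgn_le hσ' _).le.trans (Complex.abs_im_le_norm (w - t))).trans_lt a0)
  rw [Complex.sub_re, mul_sub] at a1
  rw [Complex.sub_im, mul_sub] at a2
  exact ⟨by linarith [a1.1], by linarith [a1.2], by linarith [a2.1]⟩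

lemma hi (hκ : 0 < κ) (hC : 1 ≤ C) (hA : 1 ≤ A) (hσ : σ = 1 ∨ σ = -1) (hM₀ : 4 ≤ M₀)
    (he : C * ε < d₁) (hΔ : ∀ t ∈ Rs σ M₀ M σ' y₀, Δ t ≤ ε)
    (h : Mo σ κ C d₁ A M₀ ε₁ K e (Rs σ M₀ M σ' y₀) u Δ Z) (hZ : t ∈ Z) (h1 : M₀ ≤ σ * t.re)
    (h2 : σ * t.re ≤ M) (h3 : y₀ < σ' * t.im) :
    0 < Δ t ^ e ∧ u t ≤ A + 24 * log A + 6 * log (C ^ e) + 6 * log (Δ t ^ e) := by
  have hR : t ∈ Rs σ M₀ M σ' y₀ := ⟨by linarith, h2, h3⟩
  have hd : C * Δ t < d₁ := (mul_le_mul_of_nonneg_left (hΔ t hR) (by linarith)).trans_lt he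
  obtain ⟨g, F, c, -, m, -⟩ := h.2 t h1 hd
  have g1 := (c _ hd).2.1
  obtain ⟨m1, m2⟩ := m t (mem_ball_self (mul_pos hκ (by rw [abs_re hσ (by linarith)]; linarith)))
    (g1.trans hd.le)
  have f0 : 0 < ‖F t‖ := norm_pos_iff.2 ((m2 hR).1.1 hZ)
  have f1 : ‖F t‖ ≤ A * (C ^ e * Δ t ^ e) := m1.trans (mul_le_mul_of_nonneg_left
    (by rw [← mul_pow]; exact pow_le_pow_left₀ (norm_nonneg _) g1 e) (by linarith))
  have c0 : 0 < C ^ e := by positivity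
  have p0 : 0 < Δ t ^ e := (mul_pos_iff_of_pos_left c0).1
    ((mul_pos_iff_of_pos_left (by linarith)).1 (f0.trans_le f1))
  have l1 := log_le_log f0 f1
  rw [log_mul (by linarith) (mul_pos c0 p0).ne', log_mul c0.ne' p0.ne'] at l1
  exact ⟨p0, by linarith [(abs_le.1 ((m2 hR).2 hZ)).2, log_nonneg hA]⟩

lemma lo (hL : LowStmt) (hκ : 0 < κ) (hκ' : κ ≤ 1 / 16) (hC : 1 ≤ C) (hA : 1 ≤ A)
    (hσ : σ = 1 ∨ σ = -1) (hσ' : σ' = 1 ∨ σ' = -1) (hM₀ : 4 ≤ M₀) (hM : 4 * M₀ ≤ M)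
    (he : C * ε < d₁) (he₁ : C * ε ≤ ε₁) (hΔ : ∀ t ∈ Rs σ M₀ M σ' y₀, Δ t ≤ ε)
    (h : Mo σ κ C d₁ A M₀ ε₁ K e (Rs σ M₀ M σ' y₀) u Δ Z) (h1 : M₀ ≤ σ * t.re)
    (h2 : σ * t.re ≤ 2 * M₀) (h3 : y₀ + M₀ < σ' * t.im) (p0 : 0 < Δ t ^ e) :
    Mn u Z t (κ * |t.re| / 2) (6 * log (Δ t ^ e) - (A + 24 * log A + 6 * log (C ^ e))) := by
  have hs := sub_Rs hκ' hσ hσ' hM₀ hM h1 h2 h3
  have r0 : 0 < κ * |t.re| := mul_pos hκ (by rw [abs_re hσ (by linarith)]; linarith)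
  have c0 : 0 ≤ C := by linarith
  have hb : ∀ w ∈ ball t (κ * |t.re|), C * Δ w ≤ C * ε := fun w hw =>
    mul_le_mul_of_nonneg_left (hΔ w (hs hw)) c0
  obtain ⟨g, F, c, dF, m, l⟩ := h.2 t h1 ((hb t (mem_ball_self r0)).trans_lt he)
  obtain ⟨t₂, l1, l2⟩ := l h2
  have g1 : ∀ w ∈ ball t (κ * |t.re|), ‖g w‖ ≤ C * ε := fun w hw =>
    ((c ε he).conn c0 he (convex_ball _ _).isPreconnected (mem_ball_self r0) subset_rfl
      (fun w hw => hΔ w (hs hw)) w hw).trans (hb w hw)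
  have g2 : Δ t ^ e ≤ C ^ e * ‖g t ^ e‖ := by
    rw [norm_pow, ← mul_pow]
    exact pow_le_pow_left₀ (h.1 t) (((c ε he).2.2 t (mem_ball_self r0)).2.1
      ((g1 t (mem_ball_self r0)).trans he.le)) e
  have ce : 0 < C ^ e := by positivity
  have g3 : 0 < ‖g t ^ e‖ := (mul_pos_iff_of_pos_left ce).1 (p0.trans_le g2)
  have e2 : 2 * (κ * |t.re| / 2) = κ * |t.re| := by ring
  have k := hL F (fun w => g w ^ e) t t₂ (κ * |t.re| / 2) A (half_pos r0) hA (by rwa [e2])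
    (by rw [e2]; exact (c ε he).1.pow e) (norm_pos_iff.1 g3)
    (fun w hw => by
      rw [e2] at hw
      rw [norm_pow]
      exact (m w hw ((g1 w hw).trans he.le)).1)
    (by rwa [div_div, show (2 * 2 : ℝ) = 4 by norm_num])
    (by
      filter_upwards [l2, isOpen_ball.mem_nhds (ball_subset_ball (by linarith) l1 :
        t₂ ∈ ball t (κ * |t.re|))] with w a1 a2
      rw [norm_pow]
      exact a1 ((g1 w a2).trans he₁))
  refine ((k.smul (c := 6) (by norm_num)).add' (Mn.const (half_pos r0) (-A))).mono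
    (fun w hw hF => ?_) ?_
  · have hw' : w ∈ ball t (κ * |t.re|) := ball_subset_ball (by linarith) hw
    obtain ⟨a1, a2⟩ := (m w hw' ((g1 w hw').trans he.le)).2 (hs hw')
    exact ⟨a1.2 hF, by linarith [(abs_le.1 (a2 (a1.2 hF))).1]⟩
  · have l3 := log_le_log p0 g2
    rw [log_mul ce.ne' g3.ne'] at l3
    linarith

lemma cmp (hC : 1 ≤ C) (hd : 0 < d₁) (he : e ≠ 0) {d₀ : ℝ} (h0 : C ^ e * d₀ < d₁ ^ e)
    {R : Set ℂ} (h : Mo σ κ C d₁ A M₀ ε₁ K e R u Δ Z) (h1 : M₀ ≤ σ * t.re) (h2 : Δ t ^ e ≤ d₀) :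
    ∃ g, Cmp (fun w => Δ w ^ e) κ (C ^ e) d₀ (d₁ ^ e) (K * e) t g := by
  have c0 : 0 ≤ C := by linarith
  have sm : ∀ w, Δ w ^ e ≤ d₀ → C * Δ w < d₁ := fun w hw =>
    lt_of_pow_lt_pow_left₀ e hd.le (by
      rw [mul_pow]; exact (mul_le_mul_of_nonneg_left hw (by positivity)).trans_lt h0)
  obtain ⟨g, F, c, -⟩ := h.2 t h1 (sm t h2)
  obtain ⟨c1, c2, c3⟩ := c _ (sm t h2)
  refine ⟨fun w => g w ^ e, c1.pow e, ?_, fun w hw => ⟨?_, fun a => ?_, fun a => ?_⟩⟩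
  · rw [norm_pow, ← mul_pow]
    exact pow_le_pow_left₀ (norm_nonneg _) c2 e
  · rw [norm_pow, pow_mul, ← mul_pow]
    exact pow_le_pow_left₀ (norm_nonneg _) (c3 w hw).1 e
  · rw [norm_pow] at a ⊢
    rw [← mul_pow]
    exact pow_le_pow_left₀ (h.1 w) ((c3 w hw).2.1 (le_of_pow_le_pow_left₀ he hd.le a)) e
  · rw [norm_pow, ← mul_pow]
    exact (((c _ (sm w a)).2.2 w hw).2.2 le_rfl).imp
      (fun b => pow_le_pow_left₀ (norm_nonneg _) b e) fun b => pow_le_pow_left₀ hd.le b e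

lemma eps (hC : 1 ≤ C) (hd : 0 < d₁) (h1 : 0 < ε₁) {d₀ : ℝ} (h0 : 0 < d₀) :
    ∃ ε : ℝ, 0 < ε ∧ C * ε < d₁ ∧ C * ε ≤ ε₁ ∧ ε ≤ d₀ ∧ ε ≤ 1 := by
  have c0 : 0 < C := by linarith
  refine ⟨min (min (d₁ / 2 / C) (ε₁ / C)) (min d₀ 1), by positivity, ?_, ?_,
    (min_le_right _ _).trans (min_le_left _ _), (min_le_right _ _).trans (min_le_right _ _)⟩
  · have := (le_div_iff₀' c0).1 ((min_le_left (min (d₁ / 2 / C) (ε₁ / C)) (min d₀ 1)).trans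
      (min_le_left _ _))
    linarith
  · exact (le_div_iff₀' c0).1 ((min_le_left _ _).trans (min_le_right _ _))

end RPow

open RPow in
theorem powOf : PowOf := by
  intro hL κ C d₁ K e hκ hκ' hC hd hd1
  rcases eq_or_ne e 0 with rfl | he
  · refine ⟨1, 1, 0, le_rfl, one_pos, le_rfl, fun d₀ A ε₁ h0 h1 hA h2 => ?_⟩
    obtain ⟨ε, e0, e1, e2, -⟩ := eps hC hd h2 h0
    refine ⟨A + 24 * log A + 6 * |log d₀|, ε, e0,
      fun σ M₀ M σ' y₀ u Δ Z hσ hσ' hM₀ hM hΔ h => ⟨fun _ => d₀, fun _ => h0.le,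
        fun t _ _ => ⟨fun _ => d₀, differentiableOn_const _, ?_, fun w _ => ?_⟩,
        fun t hZ a1 a2 a3 => ⟨h0, ?_⟩, fun t a1 a2 a3 _ => ?_, fun _ _ _ _ => le_rfl⟩⟩
    · simp [abs_of_pos h0]
    · simp only [Complex.norm_real, Real.norm_eq_abs, abs_of_pos h0, pow_zero, one_mul, le_refl,
        implies_true, true_or, and_true]
      linarith
    · have := (hi hκ hC hA hσ hM₀ e1 hΔ h hZ a1 a2 a3).2
      simp only [pow_zero, log_one] at this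
      linarith [neg_abs_le (log d₀)]
    · refine (lo hL hκ hκ' hC hA hσ hσ' hM₀ hM e1 e2 hΔ h a1 a2 a3 (by simp)).mono
        (fun _ _ a => ⟨a, le_rfl⟩) ?_
      simp only [pow_zero, log_one]
      linarith [le_abs_self (log d₀)]
  · refine ⟨C ^ e, d₁ ^ e, K * e, one_le_pow₀ hC, pow_pos hd e, pow_le_one₀ hd.le hd1,
      fun d₀ A ε₁ h0 h1 hA h2 => ?_⟩
    obtain ⟨ε, e0, e1, e2, e3, e4⟩ := eps hC hd h2 h0
    exact ⟨A + 24 * log A + 6 * log (C ^ e), ε, e0,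
      fun σ M₀ M σ' y₀ u Δ Z hσ hσ' hM₀ hM hΔ h => ⟨fun w => Δ w ^ e, fun w => pow_nonneg (h.1 w) e,
        fun t a1 a2 => cmp hC hd he h1 h a1 a2,
        fun t hZ a1 a2 a3 => hi hκ hC hA hσ hM₀ e1 hΔ h hZ a1 a2 a3,
        fun t a1 a2 a3 a4 => lo hL hκ hκ' hC hA hσ hσ' hM₀ hM e1 e2 hΔ h a1 a2 a3 a4,
        fun t a1 a2 a3 => (pow_le_pow_left₀ (h.1 t) (hΔ t ⟨by linarith, a2, a3⟩) e).trans
          ((pow_le_of_le_one e0.le e4 he).trans e3)⟩⟩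

end Pool.Agent.MP_c69980_ag.G3C
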