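import Pool.Agent.MP_c69980_ag.G3C.Abs

/-! Propagation of smallness along a chain of discs. -/

set_option autoImplicit false

noncomputable section

namespace Pool.Agent.MP_c69980_ag.G3C

open Metric Filter Topology Set Real

namespace Prp

/-- One step of the chain. -/
lemma step (tc : TCStmt) {Δ : ℂ → ℝ} {κ C d₀ d₁ r ε ε' B : ℝ} {K : ℕ} {t₁ : ℂ} {g : ℂ → ℂ}
    (h : Cmp Δ κ C d₀ d₁ K t₁ g) (hC : 1 ≤ C) (hd : C * d₀ < d₁) (hr : 0 < r)
    (h8 : 8 * r ≤ κ * |t₁.re|) (hB : C * |t₁.re| ^ K ≤ B) (hε : 0 < ε) (hεd : ε ≤ d₀)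
    (hεB : C * ε ≤ B) (hε' : 0 ≤ ε') (hε'd : ε' ≤ d₀) (e : 2 * C ^ 3 * B * ε ≤ ε' ^ 2)
    (H : ∀ t ∈ closedBall t₁ r, Δ t ≤ ε) : ∀ t ∈ closedBall t₁ (2 * r), Δ t ≤ ε' := by
  have s1 : closedBall t₁ (2 * r) ⊆ ball t₁ (κ * |t₁.re|) := closedBall_subset_ball (by linarith)
  have s2 : closedBall t₁ r ⊆ ball t₁ (κ * |t₁.re|) := closedBall_subset_ball (by linarith)
  have s3 : ball t₁ (8 * r) ⊆ ball t₁ (κ * |t₁.re|) := ball_subset_ball h8
  have h0 : 0 ≤ C := by linarith
  have h1 := h.conn h0 hd (convex_closedBall t₁ r).isPreconnected (mem_closedBall_self hr.le) s2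
    fun t ht => (H t ht).trans hεd
  intro t ht
  have h2 := tc g t₁ r (C * ε) B hr (by positivity) hεB (h.1.mono s3)
    (fun w hw => (h.2.2 w (s3 hw)).1.trans hB)
    (fun w hw => (h1 w hw).trans (mul_le_mul_of_nonneg_left (H w hw) h0)) t ht
  have h3 : C * ‖g t‖ ≤ ε' := by
    refine (pow_le_pow_iff_left₀ (by positivity) hε' two_ne_zero).1 ?_
    rw [mul_pow]
    nlinarith [mul_le_mul_of_nonneg_left h2 (sq_nonneg C)]
  refine ((h.2.2 t (s1 ht)).2.1 ?_).trans h3
  nlinarith [norm_nonneg (g t)]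

lemma abs_eq_of {s x : ℝ} (hs : s = 1 ∨ s = -1) (h : 0 ≤ s * x) : |x| = s * x := by
  rcases hs with rfl | rfl
  · rw [one_mul] at h ⊢
    exact abs_of_nonneg h
  · rw [neg_one_mul] at h ⊢
    exact abs_of_nonpos (by linarith)

end Prp

open Prp in
theorem propOf : PropOf := by
  intro tc κ C d₀ d₁ c K hκ hκ' hC hd₀ hd hc
  obtain ⟨N, hN⟩ := exists_nat_ge (672 / κ)
  have hN0 : (0 : ℝ) < N := lt_of_lt_of_le (by positivity) hN
  have lim : Tendsto (fun x : ℝ => 2 * C ^ 4 * 4 ^ K * (x ^ (K : ℝ) * exp (-(c / 2 ^ N) * x)))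
      atTop (𝓝 (2 * C ^ 4 * 4 ^ K * 0)) :=
    (tendsto_rpow_mul_exp_neg_mul_atTop_nhds_zero K _ (by positivity)).const_mul _
  rw [mul_zero] at lim
  obtain ⟨X₁, hX₁⟩ := eventually_atTop.1
    ((lim.eventually (eventually_le_nhds (lt_min hd₀ one_pos))).and (eventually_ge_atTop 1))
  refine ⟨X₁, fun Δ M₀ X₀ y₁ hX hM _ cmp sm t a1 a2 a3 => ?_⟩
  obtain ⟨b1, b2⟩ := hX₁ X₀ hX
  rw [rpow_natCast] at b1
  obtain ⟨s, hs, hst⟩ : ∃ s : ℝ, (s = 1 ∨ s = -1) ∧ |t.re| = s * t.re := by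
    rcases le_total 0 t.re with h | h
    · exact ⟨1, Or.inl rfl, by rw [one_mul, abs_of_nonneg h]⟩
    · exact ⟨-1, Or.inr rfl, by rw [neg_one_mul, abs_of_nonpos h]⟩
  have hss : s * s = 1 := by rcases hs with rfl | rfl <;> norm_num
  have hsa : |s| = 1 := by rcases hs with rfl | rfl <;> norm_num
  obtain ⟨r, hr⟩ : ∃ r, r = κ * X₀ / 32 := ⟨_, rfl⟩
  have r0 : 0 < r := by rw [hr]; positivity
  have r1 : r ≤ X₀ / 512 := by rw [hr]; nlinarith
  have r2 : 21 * X₀ ≤ N * r := by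
    have : 672 ≤ N * κ := (div_le_iff₀ hκ).1 hN
    rw [hr]
    nlinarith
  obtain ⟨B, hB⟩ : ∃ B, B = C * (4 * X₀) ^ K := ⟨_, rfl⟩
  have B1 : C ≤ B := by
    rw [hB]
    exact le_mul_of_one_le_right (by linarith) (one_le_pow₀ (by linarith))
  have W1 : 1 ≤ 2 * C ^ 3 * B := by
    have : 1 ≤ C ^ 3 := one_le_pow₀ hC
    nlinarith
  let ε : ℕ → ℝ := fun j => 2 * C ^ 3 * B * exp (-(c / 2 ^ j) * X₀)
  have e0 : ∀ j, 0 < ε j := fun j => mul_pos (by linarith) (exp_pos _)
  have e1 : ∀ j ≤ N, ε j ≤ min d₀ 1 := by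
    intro j hj
    refine le_trans ?_ b1
    have : exp (-(c / 2 ^ j) * X₀) ≤ exp (-(c / 2 ^ N) * X₀) := by
      refine exp_le_exp.2 (mul_le_mul_of_nonneg_right (neg_le_neg ?_) (by linarith))
      exact div_le_div_of_nonneg_left hc.le (by positivity) (pow_le_pow_right₀ one_le_two hj)
    refine (mul_le_mul_of_nonneg_left this (by linarith)).trans (le_of_eq ?_)
    rw [hB, mul_pow]
    ring
  have e2 : ∀ j, 2 * C ^ 3 * B * ε j = ε (j + 1) ^ 2 := by
    intro j
    have : exp (-(c / 2 ^ j) * X₀) = exp (-(c / 2 ^ (j + 1)) * X₀) ^ 2 := by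
      rw [← exp_nat_mul]
      congr 1
      push_cast
      field_simp
      rw [pow_succ]
    simp only [ε]
    rw [this]
    ring
  let t₀ : ℂ := ⟨s * (3 * X₀ / 8), max t.im (y₁ + r)⟩
  let p : ℕ → ℂ := fun j => t₀ + ((j / N : ℝ) : ℂ) * (t - t₀)
  have p1 : ∀ j ≤ N, 3 * X₀ / 8 ≤ |(p j).re| ∧ |(p j).re| ≤ 4 * X₀ := by
    intro j hj
    have t1 : (0 : ℝ) ≤ j / N := by positivity
    have t2 : (j / N : ℝ) ≤ 1 := (div_le_one hN0).2 (by exact_mod_cast hj)
    have e : s * (p j).re = 3 * X₀ / 8 + j / N * (|t.re| - 3 * X₀ / 8) := by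
      simp only [p, t₀, Complex.add_re, Complex.re_ofReal_mul, Complex.sub_re, hst]
      linear_combination (3 * X₀ / 8 - j / N * (3 * X₀ / 8)) * hss
    have l1 : 3 * X₀ / 8 ≤ s * (p j).re := by
      rw [e]
      nlinarith
    rw [abs_eq_of hs (by linarith)]
    refine ⟨l1, ?_⟩
    rw [e]
    nlinarith
  have p2 : ∀ j, dist (p (j + 1)) (p j) ≤ r := by
    intro j
    have e : p (j + 1) - p j = ((1 / N : ℝ) : ℂ) * (t - t₀) := by
      simp only [p]
      push_cast
      ring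
    have n1 : |(t - t₀).re| ≤ 4 * X₀ := by
      have : s * (t - t₀).re = |t.re| - 3 * X₀ / 8 := by
        simp only [t₀, Complex.sub_re, hst]
        linear_combination (-(3 * X₀ / 8)) * hss
      rw [abs_eq_of hs (by linarith), this]
      linarith
    have n2 : |(t - t₀).im| ≤ 17 * X₀ := by
      simp only [t₀, Complex.sub_im]
      rcases max_cases t.im (y₁ + r) with h | h <;> rw [h.1, abs_le] <;> constructor <;>
        linarith [h.2]
    have n3 := Complex.norm_le_abs_re_add_abs_im (t - t₀)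
    rw [dist_eq_norm, e, norm_mul, Complex.norm_real, Real.norm_of_nonneg (by positivity),
      one_div, inv_mul_le_iff₀ hN0]
    linarith
  have key : ∀ j ≤ N, ∀ w ∈ closedBall (p j) r, Δ w ≤ ε j := by
    intro j
    induction j with
    | zero =>
      intro _ w hw
      have e : p 0 = t₀ := by simp [p]
      rw [e, mem_closedBall, dist_eq_norm] at hw
      have n1 := abs_le.1 ((Complex.abs_im_le_norm _).trans hw)
      have n2 : |s * (w - t₀).re| ≤ r := by
        rw [abs_mul, hsa, one_mul]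
        exact (Complex.abs_re_le_norm _).trans hw
      have n3 : s * (w - t₀).re = s * w.re - 3 * X₀ / 8 := by
        simp only [t₀, Complex.sub_re]
        linear_combination (-(3 * X₀ / 8)) * hss
      rw [n3, abs_le] at n2
      have n4 : |w.re| = s * w.re := abs_eq_of hs (by linarith [n2.1])
      simp only [t₀, Complex.sub_im] at n1
      refine (sm w (by linarith [n2.1]) (by linarith [n2.2])
        (by linarith [n1.1, le_max_right t.im (y₁ + r)])).trans ?_
      simp only [ε, pow_zero, div_one, neg_mul]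
      exact le_mul_of_one_le_left (exp_pos _).le W1
    | succ j ih =>
      intro hj w hw
      have hj' : j ≤ N := by omega
      obtain ⟨q1, q2⟩ := p1 j hj'
      have q3 := le_min_iff.1 (e1 j hj')
      obtain ⟨g, hg⟩ := cmp (p j) (by linarith)
        ((ih hj' _ (mem_closedBall_self r0.le)).trans q3.1)
      refine step tc hg hC hd r0 ?_ (B := B) ?_ (e0 j) q3.1 ?_ (e0 _).le
        ((e1 _ hj).trans (min_le_left _ _)) (e2 j).le (ih hj') w ?_
      · rw [hr]
        nlinarith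
      · rw [hB]
        exact mul_le_mul_of_nonneg_left (pow_le_pow_left₀ (abs_nonneg _) q2 K) (by linarith)
      · nlinarith [q3.2]
      · rw [mem_closedBall] at hw ⊢
        linarith [dist_triangle w (p (j + 1)) (p j), p2 j]
  have e : p N = t := by
    simp only [p]
    rw [div_self hN0.ne']
    simp
  exact (key N le_rfl t (e ▸ mem_closedBall_self r0.le)).trans
    ((e1 N le_rfl).trans (min_le_left _ _))

end Pool.Agent.MP_c69980_ag.G3C
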