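import Pool.Agent.MP_c69980_ag.G3C.Abs

/-!
The barrier on a rectangle.
-/

set_option autoImplicit false

noncomputable section

namespace Pool.Agent.MP_c69980_ag.G3C

open Metric Filter Topology MeasureTheory Set Real

namespace RectX

/-- A rounded absolute value. -/
def be (x : ℝ) : ℝ := if |x| ≤ 1 then (x ^ 2 + 1) / 2 else |x|

lemma be_up (w y : ℝ) : be w ≤ |y| + (w - y) ^ 2 / 2 + 1 / 2 := by
  unfold be
  split_ifs with h
  · have h1 : w * y ≤ |y| := by
      refine (le_abs_self _).trans ?_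
      rw [abs_mul]
      exact mul_le_of_le_one_left (abs_nonneg y) h
    nlinarith [sq_nonneg y]
  · have h1 := abs_add_le y (w - y)
    rw [add_sub_cancel] at h1
    nlinarith [sq_nonneg (|w - y| - 1), sq_abs (w - y)]

lemma be_ex (t : ℝ) : ∃ s, be t = |t - s| + s ^ 2 / 2 + 1 / 2 := by
  unfold be
  split_ifs with h
  · exact ⟨t, by rw [sub_self, abs_zero]; ring⟩
  · rcases lt_abs.1 (not_le.1 h) with k | k
    · exact ⟨1, by rw [abs_of_pos (by linarith), abs_of_pos (by linarith)]; ring⟩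
    · exact ⟨-1, by rw [abs_of_neg (by linarith), abs_of_neg (by linarith)]; ring⟩

lemma be_abs {x : ℝ} (h : 1 ≤ |x|) : be x = |x| := by
  unfold be
  split_ifs with k
  · rw [← sq_abs, le_antisymm k h]
    norm_num
  · rfl

lemma be_nn (x : ℝ) : 0 ≤ be x := by
  unfold be
  split_ifs <;> positivity

lemma be_le {x a : ℝ} (h : |x| ≤ a) (ha : 1 ≤ a) : be x ≤ a := by
  unfold be
  split_ifs with k
  · nlinarith [sq_abs x, abs_nonneg x]
  · exact h

lemma mn_be {t : ℂ} {ρ : ℝ} (hρ : 0 < ρ) (h : 2 < |t.re| → ρ ≤ |t.re| - 1) :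
    Mn (fun w => -be w.re) univ t ρ (-be t.re - gn 1 ρ t) := by
  unfold gn
  split_ifs with k
  · obtain ⟨s, hs⟩ := be_ex t.re
    refine (Mn.ccv (α := -be t.re) (p := -s) (q := 1 / 2) hρ (by norm_num) fun w _ => ?_).mono
      (fun _ _ _ => ⟨trivial, le_rfl⟩) (by nlinarith [sq_nonneg ρ])
    have := be_up w.re (t.re - s)
    rw [hs]
    nlinarith
  · have k1 := not_le.1 k
    have k2 := h k1
    have b : ∀ w ∈ ball t ρ, |w.re - t.re| < ρ := fun w hw =>
      (Complex.abs_re_le_norm (w - t)).trans_lt (mem_ball_iff_norm.1 hw)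
    rw [be_abs (by linarith), sub_zero]
    rcases lt_abs.1 k1 with q | q
    · rw [abs_of_pos (by linarith)] at k2 ⊢
      refine (Mn.lin hρ (-t.re) (-1)).mono (fun w hw _ => ⟨trivial, ?_⟩) le_rfl
      have := (abs_lt.1 (b w hw)).1
      have e : |w.re| = w.re := abs_of_pos (by linarith)
      rw [be_abs (by linarith), e]
      linarith
    · rw [abs_of_neg (by linarith)] at k2 ⊢
      refine (Mn.lin hρ (- -t.re) 1).mono (fun w hw _ => ⟨trivial, ?_⟩) le_rfl
      have := (abs_lt.1 (b w hw)).2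
      have e : |w.re| = -w.re := abs_of_neg (by linarith)
      rw [be_abs (by linarith), e]
      linarith

/-- The barrier. -/
def hh (X₀ y₀ : ℝ) (t : ℂ) : ℝ := -be t.re + (8 * X₀)⁻¹ * ((t - y₀ * Complex.I) ^ 2).re

lemma hh_eq (X₀ y₀ : ℝ) (t : ℂ) :
    hh X₀ y₀ t = -be t.re + (t.re ^ 2 - (t.im - y₀) ^ 2) / (8 * X₀) := by
  simp only [hh, sq, Complex.mul_re, Complex.sub_re, Complex.sub_im, Complex.mul_im,
    Complex.ofReal_re, Complex.ofReal_im, Complex.I_re, Complex.I_im]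
  ring

lemma mn_hh {X₀ y₀ : ℝ} (hX : 0 < X₀) {t : ℂ} {ρ : ℝ} (hρ : 0 < ρ)
    (h : 2 < |t.re| → ρ ≤ |t.re| - 1) : Mn (hh X₀ y₀) univ t ρ (hh X₀ y₀ t - gn 1 ρ t) :=
  ((mn_be hρ h).add' ((Mn.re (g := fun w => (w - y₀ * Complex.I) ^ 2) hρ (lt_add_one ρ)
    (by fun_prop)).smul (by positivity : 0 ≤ (8 * X₀)⁻¹))).mono
      (fun _ _ _ => ⟨trivial, le_rfl⟩) (le_of_eq (by rw [hh]; ring))

end RectX

open RectX

theorem rectOf : RectOf := by
  intro hM v Z κ c r M₀ X₀ y₀ B k0 k1 c0 r0 m4 x4 hS hB t ht h1 h2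
  have x0 : 0 < 8 * X₀ := by linarith
  have key := hM (fun t => v t + c * hh X₀ y₀ t) Z {t | |t.re| ≤ X₀ ∧ |t.im - y₀| ≤ 3 * X₀}
    {t | |t.re| ≤ 2 * X₀ ∧ |t.im - y₀| ≤ 4 * X₀} (min r (κ * M₀ / 2)) (2 * X₀)
    (B + c * (-(7 * X₀ / 8))) (B + c * X₀) (by positivity) (fun t h => h.1)
    (fun t h => ⟨by linarith [h.1], by linarith [h.2]⟩) (fun t ht h => ?_)
    (fun t ht h h' => ?_) (fun t ht h => ?_) t ht ⟨by linarith, by rw [h2]; simp; linarith⟩
  · have a := be_le h1 (by linarith)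
    have b : 0 ≤ (t.re ^ 2 - (t.im - y₀) ^ 2) / (8 * X₀) := by
      rw [h2, sub_self]
      exact div_nonneg (by nlinarith [sq_nonneg t.re]) x0.le
    simp only [hh_eq] at key
    nlinarith [mul_nonneg c0.le b, mul_le_mul_of_nonneg_left a c0.le]
  · refine add_le_add (hB t ht (by linarith [h.1]) (by linarith [h.2]))
      (mul_le_mul_of_nonneg_left ?_ c0.le)
    have b : (t.re ^ 2 - (t.im - y₀) ^ 2) / (8 * X₀) ≤ X₀ := by
      rw [div_le_iff₀ x0]
      nlinarith [sq_nonneg (t.im - y₀), sq_abs t.re, abs_nonneg t.re, h.1]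
    rw [hh_eq]
    linarith [be_nn t.re]
  · refine add_le_add (hB t ht h.1 h.2) (mul_le_mul_of_nonneg_left ?_ c0.le)
    rw [hh_eq]
    by_cases q : |t.re| ≤ X₀
    · have q' : 3 * X₀ < |t.im - y₀| := not_le.1 fun e => h' ⟨q, e⟩
      have b : (t.re ^ 2 - (t.im - y₀) ^ 2) / (8 * X₀) ≤ -X₀ := by
        rw [div_le_iff₀ x0]
        nlinarith [sq_abs (t.im - y₀), sq_abs t.re, abs_nonneg t.re]
      linarith [be_nn t.re]
    · have q' := not_le.1 q
      have b : (t.re ^ 2 - (t.im - y₀) ^ 2) / (8 * X₀) ≤ |t.re| - 7 * X₀ / 8 := by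
        rw [div_le_iff₀ x0]
        nlinarith [sq_nonneg (t.im - y₀), sq_abs t.re, h.1,
          mul_nonneg (sub_pos.2 q').le (sub_nonneg.2 h.1)]
      rw [be_abs (by linarith)]
      linarith
  · obtain ⟨ρ, a, b⟩ := hS t ht h.1 h.2
    have a1 : min r (κ * M₀ / 2) ≤ ρ ∧ ρ ≤ X₀ ∧ (2 < |t.re| → ρ ≤ |t.re| - 1) := by
      rcases a with a | ⟨rfl, a⟩
      · exact ⟨(min_le_left _ _).trans a.1, by linarith [a.2], fun q => by linarith [a.2]⟩
      · have := mul_le_mul_of_nonneg_right k1 (abs_nonneg t.re)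
        exact ⟨(min_le_right _ _).trans (by nlinarith), by linarith [h.1], fun q => by linarith⟩
    have ρ0 : 0 < ρ := lt_of_lt_of_le (by positivity) a1.1
    refine ⟨ρ, a1.1, fun w hw => ?_, (b.add' ((mn_hh (by linarith) ρ0 a1.2.2).smul c0.le)).mono
      (fun _ _ q => ⟨q, le_rfl⟩) (le_of_eq ?_)⟩
    · have e := mem_ball_iff_norm.1 hw
      have e1 := Complex.abs_re_le_norm (w - t)
      have e2 := Complex.abs_im_le_norm (w - t)
      rw [Complex.sub_re] at e1
      rw [Complex.sub_im] at e2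
      have e3 := abs_add_le (w.re - t.re) t.re
      have e4 := abs_sub_le w.im t.im y₀
      rw [sub_add_cancel] at e3
      exact ⟨by linarith [h.1, a1.2.1], by linarith [h.2, a1.2.1]⟩
    · unfold gn
      split_ifs <;> ring

end Pool.Agent.MP_c69980_ag.G3C
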