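import Pool.Agent.MP_c69980_ag.G3C.Abs

/-!
Three circles and the Schwarz bound.
-/

set_option autoImplicit false

noncomputable section

namespace Pool.Agent.MP_c69980_ag.G3C

open Metric Filter Topology Set

theorem tcS : TCStmt := by
  intro g c r ε B hr hε hB hg hb hs t ht
  have hB0 : 0 < B := hε.trans_le hB
  by_cases h1 : t ∈ closedBall c r
  · have := hs t h1
    have h0 := norm_nonneg (g t)
    nlinarith [mul_le_mul this this h0 hε.le, mul_le_mul_of_nonneg_left hB hε.le,
      mul_pos hε hB0]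
  obtain ⟨k, k1, k2⟩ := exists_nat_pow_near (x := B / ε) (y := 2) ((one_le_div hε).2 hB)
    one_lt_two
  rw [le_div_iff₀ hε] at k1
  rw [div_lt_iff₀ hε, pow_succ] at k2
  have hcl : closure (ball c (4 * r) \ closedBall c r) ⊆ closedBall c (4 * r) \ ball c r :=
    closure_minimal (sdiff_subset_sdiff ball_subset_closedBall ball_subset_closedBall)
      (isClosed_closedBall.sdiff isOpen_ball)
  have hsub : closedBall c (4 * r) \ ball c r ⊆ ball c (8 * r) := fun z hz =>
    closedBall_subset_ball (by linarith) hz.1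
  have hne : ∀ z ∈ closedBall c (4 * r) \ ball c r, (z - c) ^ k ≠ 0 := fun z hz =>
    pow_ne_zero _ (sub_ne_zero.2 fun q => hz.2 (q ▸ mem_ball_self hr))
  have hd : DifferentiableOn ℂ (fun z => g z ^ 2 / (z - c) ^ k)
      (closedBall c (4 * r) \ ball c r) :=
    ((hg.mono hsub).pow 2).div (by fun_prop) hne
  have hop : IsOpen (ball c (4 * r) \ closedBall c r) := isOpen_ball.sdiff isClosed_closedBall
  have p2 : (0 : ℝ) < 2 ^ k := by positivity
  have pr : (0 : ℝ) < r ^ k := by positivity
  have key := Complex.norm_le_of_forall_mem_frontier_norm_le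
    (U := ball c (4 * r) \ closedBall c r) (C := 2 * ε * B / (2 * r) ^ k) (z := t)
    (isBounded_ball.subset sdiff_subset) (hd.mono hcl).diffContOnCl
    (fun z hz => by
      rw [hop.frontier_eq] at hz
      have z1 := hcl hz.1
      have z2 := hz.2
      have a1 : ‖z - c‖ ≤ 4 * r := mem_closedBall_iff_norm.1 z1.1
      have a2 : r ≤ ‖z - c‖ := not_lt.1 fun q => z1.2 (mem_ball_iff_norm.2 q)
      have g0 := norm_nonneg (g z)
      rw [norm_div, norm_pow, norm_pow]
      by_cases q : z ∈ closedBall c r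
      · have e : ‖z - c‖ = r := le_antisymm (mem_closedBall_iff_norm.1 q) a2
        have g1 := hs z q
        have g2 : ‖g z‖ ^ 2 ≤ ε ^ 2 := pow_le_pow_left₀ g0 g1 2
        rw [e, div_le_div_iff₀ pr (by positivity), mul_pow]
        have : ‖g z‖ ^ 2 * 2 ^ k ≤ 2 * ε * B := by
          nlinarith [mul_le_mul_of_nonneg_right g2 p2.le, mul_le_mul_of_nonneg_left k1 hε.le,
            mul_pos hε hB0]
        nlinarith [mul_le_mul_of_nonneg_right this pr.le]
      · have e : ‖z - c‖ = 4 * r := le_antisymm a1 (not_lt.1 fun w =>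
          z2 ⟨mem_ball_iff_norm.2 w, q⟩)
        have g1 := hb z (hsub z1)
        have g2 : ‖g z‖ ^ 2 ≤ B ^ 2 := pow_le_pow_left₀ g0 g1 2
        have e4 : (4 * r) ^ k = 2 ^ k * (2 * r) ^ k := by rw [← mul_pow]; congr 1; ring
        have p3 : (0 : ℝ) < (2 * r) ^ k := by positivity
        rw [e, div_le_div_iff₀ (by positivity) p3, e4]
        have : ‖g z‖ ^ 2 ≤ 2 * ε * B * 2 ^ k := by
          nlinarith [mul_le_mul_of_nonneg_left k2.le hB0.le]
        nlinarith [mul_le_mul_of_nonneg_right this p3.le])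
    (subset_closure ⟨closedBall_subset_ball (by linarith) ht, h1⟩)
  have a1 : ‖t - c‖ ≤ 2 * r := mem_closedBall_iff_norm.1 ht
  have a2 : 0 < ‖t - c‖ := hr.trans (not_le.1 fun q => h1 (mem_closedBall_iff_norm.2 q))
  have p3 : (0 : ℝ) < (2 * r) ^ k := by positivity
  have a3 : ‖t - c‖ ^ k ≤ (2 * r) ^ k := pow_le_pow_left₀ a2.le a1 k
  rw [norm_div, norm_pow, norm_pow, div_le_div_iff₀ (by positivity) p3] at key
  have a4 : 0 ≤ 2 * ε * B := by positivity
  exact le_of_mul_le_mul_right (key.trans (mul_le_mul_of_nonneg_left a3 a4)) p3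

theorem schwS : SchwStmt := by
  intro f c r A e hr hf hA hB w hw
  obtain ⟨B, hB⟩ := hB
  have hne : ∀ z ∈ ball c r \ {c}, (z - c) ^ e ≠ 0 := fun z hz =>
    pow_ne_zero _ (sub_ne_zero.2 hz.2)
  have hd : DifferentiableOn ℂ (fun z => f z / (z - c) ^ e) (ball c r \ {c}) :=
    hf.div (by fun_prop) hne
  have hF := Complex.differentiableOn_update_limUnder_of_isLittleO (ball_mem_nhds c hr) hd
    (IsBoundedUnder.isLittleO_sub_self_inv ⟨B + ‖f c / (c - c) ^ e‖, eventually_map.2 (by
      filter_upwards [hB, self_mem_nhdsWithin] with z hz zc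
      have z0 : 0 < ‖z - c‖ ^ e := pow_pos (norm_pos_iff.2 (sub_ne_zero.2 zc)) e
      refine norm_sub_le_of_le ?_ le_rfl
      rw [norm_div, norm_pow, div_le_iff₀ z0]
      exact hz)⟩)
  have w1 : ‖w - c‖ < r := mem_ball_iff_norm.1 hw.1
  have w0 : 0 < ‖w - c‖ := norm_pos_iff.2 (sub_ne_zero.2 hw.2)
  have key : ∀ s ∈ Ioo ‖w - c‖ r, ‖f w‖ * s ^ e ≤ A * ‖w - c‖ ^ e := fun s hs => by
    have s0 : 0 < s := w0.trans hs.1
    have hsub : closure (ball c s) ⊆ ball c r :=
      closure_ball_subset_closedBall.trans (closedBall_subset_ball hs.2)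
    have := Complex.norm_le_of_forall_mem_frontier_norm_le (U := ball c s) (C := A / s ^ e)
      (z := w) isBounded_ball (hF.mono hsub).diffContOnCl
      (fun z hz => by
        have z1 : ‖z - c‖ = s := mem_sphere_iff_norm.1 (frontier_ball_subset_sphere hz)
        have z2 : z ≠ c := fun q => by
          rw [q, sub_self, norm_zero] at z1
          exact s0.ne z1
        rw [Function.update_of_ne z2, norm_div, norm_pow, z1]
        exact div_le_div_of_nonneg_right
          (hA z ⟨mem_ball_iff_norm.2 (z1 ▸ hs.2), z2⟩) (by positivity))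
      (subset_closure (mem_ball_iff_norm.2 hs.1))
    rwa [Function.update_of_ne hw.2, norm_div, norm_pow,
      div_le_div_iff₀ (by positivity) (by positivity)] at this
  have ct : Tendsto (fun s : ℝ => ‖f w‖ * s ^ e) (𝓝[<] r) (𝓝 (‖f w‖ * r ^ e)) :=
    (Continuous.tendsto (by fun_prop) r).mono_left nhdsWithin_le_nhds
  exact le_of_tendsto ct (mem_of_superset (Ioo_mem_nhdsLT w1) key)

end Pool.Agent.MP_c69980_ag.G3C
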