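import Pool.Agent.MP_c69980_ag.G3C.SpecE

/-!
Change of charts.
-/

set_option autoImplicit false

noncomputable section

namespace Pool.Agent.MP_c69980_ag.G3C

open MvPolynomial Metric Filter Topology Set
open H60 H4 E1 G3

namespace TrK

variable {M : Type} [MetricSpace M] (A : Amb M)

/-- The transition between two charts along one fibre. -/
theorem chg (Y Y' : C2 → M) (t v w : ℂ) (hY : A.LC Y (t, v)) (hY' : A.LC Y' (t, w))
    (h : Y (t, v) = Y' (t, w)) :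
    ∃ (ψ ρ : ℂ → ℂ) (a : ℂ), A.cf Y' (t, w) = a ^ A.m • A.cf Y (t, v) ∧
      Tendsto ψ (𝓝[≠] w) (𝓝[≠] v) ∧ Tendsto ρ (𝓝[≠] w) (𝓝 1) ∧
      Tendsto (fun w' => (ψ w' - v) / (w' - w)) (𝓝[≠] w) (𝓝 a) ∧
      ∀ᶠ w' in 𝓝[≠] w, Y' (t, w') = Y (t, ψ w') ∧ ∀ (Q : PR 3) (d : ℕ), Q.IsHomogeneous d →
        Ff A Q d Y' t w w' = ρ w' ^ (A.m * d) * Ff A Q d Y t v (ψ w') := by
  obtain ⟨φ, hφ, hv, ha, hE⟩ := A.trans Y Y' t v w hY hY' h
  have hι : ∀ z : ℂ, HasDerivAt (fun w' : ℂ => ((t, w') : C2)) (0, 1) z := fun z =>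
    (hasDerivAt_const z t).prodMk (hasDerivAt_id z)
  have hιc : Tendsto (fun w' : ℂ => ((t, w') : C2)) (𝓝 w) (𝓝 (t, w)) := (hι w).continuousAt
  have hψ : HasDerivAt (fun w' => φ (t, w')) (dw φ (t, w)) w :=
    hφ.differentiableAt.hasFDerivAt.comp_hasDerivAt w (hι w)
  have hdw : ContinuousAt (dw φ) (t, w) := by
    have h1 : ContinuousAt (fderiv ℂ φ) (t, w) := hφ.fderiv.continuousAt
    exact (ContinuousLinearMap.apply ℂ ℂ ((0, 1) : C2)).continuous.continuousAt.comp h1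
  have hsl : Tendsto (fun w' => (φ (t, w') - v) / (w' - w)) (𝓝[≠] w) (𝓝 (dw φ (t, w))) := by
    have h1 := hasDerivAt_iff_tendsto_slope.1 hψ
    refine h1.congr fun w' => ?_
    rw [slope_def_field, hv]
  have hne : ∀ᶠ w' in 𝓝[≠] w, φ (t, w') ≠ v := by
    filter_upwards [hsl.eventually_ne ha] with w' h1 h2
    exact h1 (by rw [h2, sub_self, zero_div])
  have hc : Tendsto (fun w' => φ (t, w')) (𝓝 w) (𝓝 v) := by
    have := hψ.continuousAt.tendsto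
    rwa [hv] at this
  have hcomp : ∀ᶠ q in 𝓝 ((t, w) : C2), Y' q = Y (q.1, φ q) ∧
      A.cf Y' q = dw φ q ^ A.m • A.cf Y (q.1, φ q) := by
    have h1 : Tendsto (fun q : C2 => ((q.1, φ q) : C2)) (𝓝 (t, w)) (𝓝 (t, v)) := by
      have := (continuous_fst.continuousAt (x := ((t, w) : C2))).prodMk hφ.continuousAt
      have h2 := this.tendsto
      simp only [hv] at h2
      exact h2
    filter_upwards [h1.eventually (A.ev Y _ hY), hφ.eventually_analyticAt,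
      hdw.eventually_ne ha, hE.eventually_nhds] with q q1 q2 q3 q4
    exact ⟨q4.self_of_nhds, funext fun l => (A.comp Y Y' q φ q1 q2 q3 q4).2 l⟩
  refine ⟨fun w' => φ (t, w'), fun w' => dw φ (t, w') / ((φ (t, w') - v) / (w' - w)),
    dw φ (t, w), ?_, ?_, ?_, hsl, ?_⟩
  · have := hcomp.self_of_nhds.2
    simp only [hv] at this
    exact this
  · exact tendsto_nhdsWithin_iff.2 ⟨hc.mono_left nhdsWithin_le_nhds, hne⟩
  · have h1 : Tendsto (fun w' : ℂ => dw φ (t, w')) (𝓝[≠] w) (𝓝 (dw φ (t, w))) :=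
      (hdw.tendsto.comp hιc).mono_left nhdsWithin_le_nhds
    have h2 := h1.div hsl ha
    rwa [div_self ha] at h2
  · filter_upwards [(hιc.eventually hcomp).filter_mono nhdsWithin_le_nhds, hne,
      self_mem_nhdsWithin] with w' h1 h2 h3
    refine ⟨h1.1, fun Q d hQ => ?_⟩
    have h4 : φ (t, w') - v ≠ 0 := sub_ne_zero.2 h2
    have h5 : w' - w ≠ 0 := sub_ne_zero.2 h3
    unfold Ff
    rw [h1.2, eval_smul_hom hQ, ← pow_mul, ← mul_assoc, ← mul_assoc, ← mul_pow, ← mul_pow]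
    have h6 : (w' - w) * dw φ (t, w') =
        dw φ (t, w') / ((φ (t, w') - v) / (w' - w)) * (φ (t, w') - v) := by
      field_simp
    rw [h6]

theorem od (Q : PR 3) (d e : ℕ) (γ : ℂ → M) (Y : C2 → M) (t w₀ : ℂ) (B : ℝ)
    (hQ : Q.IsHomogeneous d) (hY : A.LC Y (t, w₀)) (hγ : γ t = Y (t, w₀))
    (hB : ∀ᶠ w in 𝓝[≠] w₀, ‖Ff A Q d Y t w₀ w‖ ≤ B * ‖w - w₀‖ ^ e) : Od A Q d γ t e := by
  intro Y' w hY' hγ'
  obtain ⟨ψ, ρ, a, -, hψ, hρ, hsl, hE⟩ := chg A Y Y' t w₀ w hY hY' (hγ.symm.trans hγ')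
  refine ⟨2 ^ (A.m * d) * (|B| * (‖a‖ + 1) ^ e), ?_⟩
  have h1 : ∀ᶠ w' in 𝓝[≠] w, ‖ρ w'‖ < 2 :=
    hρ.norm.eventually_lt_const (by rw [norm_one]; norm_num)
  have h2 : ∀ᶠ w' in 𝓝[≠] w, ‖(ψ w' - w₀) / (w' - w)‖ < ‖a‖ + 1 :=
    hsl.norm.eventually_lt_const (by linarith)
  filter_upwards [hψ.eventually hB, h1, h2, hE, self_mem_nhdsWithin] with w' b1 b2 b3 b4 b5
  have h5 : 0 < ‖w' - w‖ := norm_pos_iff.2 (sub_ne_zero.2 b5)
  rw [norm_div, div_lt_iff₀ h5] at b3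
  rw [b4.2 Q d hQ, norm_mul, norm_pow, mul_assoc, mul_assoc, ← mul_pow]
  refine mul_le_mul (pow_le_pow_left₀ (norm_nonneg _) b2.le _) (b1.trans ?_) (norm_nonneg _)
    (by positivity)
  exact mul_le_mul (le_abs_self B) (pow_le_pow_left₀ (norm_nonneg _) b3.le _) (by positivity)
    (abs_nonneg B)

variable {A}

theorem atl (E : EA A) (i j : E.ι) (t w v : ℂ) (hi : (t, w) ∈ E.O₃ i) (hj : (t, v) ∈ E.O₃ j)
    (h : E.Y i (t, w) = E.Y j (t, v)) :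
    (∃ a : ℂ, ‖a‖ ≤ E.C ^ A.m ∧ 1 ≤ E.C ^ A.m * ‖a‖ ∧
      A.cf (E.Y i) (t, w) = a • A.cf (E.Y j) (t, v)) ∧
    ∀ (Q : PR 3) (d e : ℕ) (η : ℝ), Q.IsHomogeneous d → 0 < η → Ld A Q d (E.Y j) t v e η →
      Ld A Q d (E.Y i) t w e (η / (2 * E.C ^ e)) := by
  have hδ := E.δ0
  have hC := E.C1
  have hC0 : 0 < E.C := by linarith
  have li := (E.lc i t w w hi (by rw [sub_self, norm_zero]; exact hδ.le)).1.1
  have lj := (E.lc j t v v hj (by rw [sub_self, norm_zero]; exact hδ.le)).1.1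
  obtain ⟨ψ, ρ, a, hcf, hψ, hρ, hsl, hE⟩ := chg A (E.Y j) (E.Y i) t v w lj li h.symm
  have sm : ∀ z : ℂ, ∀ᶠ z' in 𝓝[≠] z, E.C * ‖z' - z‖ ≤ E.δ := by
    intro z
    have h1 : Tendsto (fun z' : ℂ => E.C * ‖z' - z‖) (𝓝 z) (𝓝 (E.C * ‖z - z‖)) :=
      (by fun_prop : Continuous fun z' : ℂ => E.C * ‖z' - z‖).tendsto z
    rw [sub_self, norm_zero, mul_zero] at h1
    exact ((h1.eventually_lt_const hδ).filter_mono nhdsWithin_le_nhds).mono fun _ h => h.le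
  have le : ∀ x : ℝ, 0 ≤ x → E.C * x ≤ E.δ → x ≤ E.δ := fun x hx h1 => by nlinarith
  have hb : ∀ᶠ w' in 𝓝[≠] w, ‖ψ w' - v‖ ≤ E.C * ‖w' - w‖ ∧ ‖w' - w‖ ≤ E.C * ‖ψ w' - v‖ := by
    filter_upwards [sm w, hψ.eventually (sm v), hE] with w' b1 b2 b3
    constructor
    · obtain ⟨v', c1, c2⟩ := E.tr i j t w v w' hi hj h b1
      have := (E.lc j t v (ψ w') hj (le _ (norm_nonneg _) b2)).2.2 v' (c1.trans b1)
        (b3.1.symm.trans c2)
      rw [this]; exact c1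
    · obtain ⟨w'', c1, c2⟩ := E.tr j i t v w (ψ w') hj hi h.symm b2
      have := (E.lc i t w w' hi (le _ (norm_nonneg _) b1)).2.2 w'' (c1.trans b2)
        (b3.1.trans c2)
      calc ‖w' - w‖ = ‖w'' - w‖ := by rw [this]
        _ ≤ _ := c1
  have up : ‖a‖ ≤ E.C := by
    refine le_of_tendsto hsl.norm ?_
    filter_upwards [hb, self_mem_nhdsWithin] with w' b1 b5
    have h5 : 0 < ‖w' - w‖ := norm_pos_iff.2 (sub_ne_zero.2 b5)
    rw [norm_div, div_le_iff₀ h5]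
    exact b1.1
  have lo : 1 ≤ E.C * ‖a‖ := by
    refine ge_of_tendsto (hsl.norm.const_mul E.C) ?_
    filter_upwards [hb, self_mem_nhdsWithin] with w' b1 b5
    have h5 : 0 < ‖w' - w‖ := norm_pos_iff.2 (sub_ne_zero.2 b5)
    rw [norm_div, ← mul_div_assoc, le_div_iff₀ h5, one_mul]
    exact b1.2
  refine ⟨⟨a ^ A.m, ?_, ?_, hcf⟩, fun Q d e η hQ hη hL => ?_⟩
  · rw [norm_pow]; exact pow_le_pow_left₀ (norm_nonneg _) up _
  · rw [norm_pow, ← mul_pow]; exact one_le_pow₀ lo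
  · have h1 : ∀ᶠ w' in 𝓝[≠] w, 1 / 2 < ‖ρ w'‖ ^ (A.m * d) :=
      (hρ.norm.pow (A.m * d)).eventually_const_lt (by rw [norm_one, one_pow]; norm_num)
    filter_upwards [hψ.eventually hL, h1, hb, hE] with w' b1 b2 b3 b4
    rw [b4.2 Q d hQ, norm_mul, norm_pow]
    have h2 : ‖w' - w‖ ^ e ≤ E.C ^ e * ‖ψ w' - v‖ ^ e := by
      rw [← mul_pow]; exact pow_le_pow_left₀ (norm_nonneg _) b3.2 _
    have h3 : 0 < E.C ^ e := pow_pos hC0 e
    calc η / (2 * E.C ^ e) * ‖w' - w‖ ^ e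
        ≤ η / (2 * E.C ^ e) * (E.C ^ e * ‖ψ w' - v‖ ^ e) :=
          mul_le_mul_of_nonneg_left h2 (by positivity)
      _ = 1 / 2 * (η * ‖ψ w' - v‖ ^ e) := by field_simp
      _ ≤ _ := mul_le_mul b2.le b1 (by positivity) (by positivity)

end TrK

theorem trS : TrStmt := fun _ _ A =>
  ⟨TrK.od A, fun E i j t w v hi hj h => TrK.atl E i j t w v hi hj h⟩

end Pool.Agent.MP_c69980_ag.G3C
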