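import Pool.Agent.MP_c69980_ag.G3.PrjA
import Pool.Agent.MP_c69980_ag.G3C.Brg
import Pool.Agent.MP_c69980_ag.G3C.CmpB
import Pool.Agent.MP_c69980_ag.G3C.CmpI
import Pool.Agent.MP_c69980_ag.G3C.Cu
import Pool.Agent.MP_c69980_ag.G3C.Cyl
import Pool.Agent.MP_c69980_ag.G3C.Eabs0
import Pool.Agent.MP_c69980_ag.G3C.Fh
import Pool.Agent.MP_c69980_ag.G3C.GO
import Pool.Agent.MP_c69980_ag.G3C.Glue
import Pool.Agent.MP_c69980_ag.G3C.Half
import Pool.Agent.MP_c69980_ag.G3C.Hol
import Pool.Agent.MP_c69980_ag.G3C.Ld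
import Pool.Agent.MP_c69980_ag.G3C.Loc
import Pool.Agent.MP_c69980_ag.G3C.Low
import Pool.Agent.MP_c69980_ag.G3C.MP
import Pool.Agent.MP_c69980_ag.G3C.MoB
import Pool.Agent.MP_c69980_ag.G3C.MoI
import Pool.Agent.MP_c69980_ag.G3C.Ord
import Pool.Agent.MP_c69980_ag.G3C.Pow
import Pool.Agent.MP_c69980_ag.G3C.Prop
import Pool.Agent.MP_c69980_ag.G3C.Rect
import Pool.Agent.MP_c69980_ag.G3C.TC
import Pool.Agent.MP_c69980_ag.G3C.Tr

/-!
The abstract statements and the statements at one end, without hypotheses.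
-/

set_option autoImplicit false

namespace Pool.Agent.MP_c69980_ag.G3C

open G3

theorem eabsS : EabsStmt := eabsOf (eabs0Of glueS (rectOf mpS) (halfOf mpS) (propOf tcS))

theorem cylS : CylStmt := cylOf mpS glueS lowS

theorem powS : PowStmt := powOf lowS

theorem goS : GOStmt := goOf ordS trS cuS

theorem ldS : LdStmt := ldOf ordS trS cuS

theorem ld0S : Ld0Stmt := ld0Of trS

theorem moIS : MoIStmt := moIOf chainS schwS (schwLOf schwS)

theorem moBS : MoBStmt := moBOf schwS (schwLOf schwS) cuS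

theorem fhS : FhStmt := fhOf trS

theorem brgS : BrgStmt := brgOf prjS

theorem cmpIS : CmpIStmt := cmpIOf prjS brgS trS (locOf prjS)

theorem cmpBS : CmpBStmt := cmpBOf prjS brgS cuS (locOf prjS)

end Pool.Agent.MP_c69980_ag.G3C
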