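import Pool.Agent.MP_c69980_ag.G3C.SpecF

/-!
The potential of the base is bounded at the ends.
-/

set_option autoImplicit false

noncomputable section

namespace Pool.Agent.MP_c69980_ag.E2.G3S.EC

open Real

theorem b0S : B0Stmt := fun L => ⟨21, fun t ht => by
  have e2 : (2 : ℝ) ≤ exp 1 := by linarith [add_one_le_exp (1 : ℝ)]
  have n1 : |exp t.re - 1| ≤ ‖Complex.exp t - 1‖ := by
    simpa [Complex.norm_exp] using abs_norm_sub_norm_le (Complex.exp t) 1
  have p := exp_pos t.re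
  have k : 1 / 2 ≤ ‖Complex.exp t - 1‖ ∧ exp t.re ≤ 4 * ‖Complex.exp t - 1‖ ^ 2 := by
    rcases le_abs.1 ht with h | h
    · have a := e2.trans (exp_le_exp.2 h)
      have b := (le_abs_self _).trans n1
      exact ⟨by linarith, by nlinarith⟩
    · have a : exp t.re * 2 ≤ 1 := by
        have := mul_le_mul_of_nonneg_left (e2.trans (exp_le_exp.2 h)) p.le
        rwa [← exp_add, add_neg_cancel, exp_zero] at this
      have b := (neg_le_abs _).trans n1
      exact ⟨by linarith, by nlinarith⟩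
  have q : 0 < ‖Complex.exp t - 1‖ := by linarith [k.1]
  have h1 : ‖L.wp t‖ ≤ 2 := by
    rw [Bas.wp, norm_inv, inv_le_comm₀ q two_pos]
    linarith [k.1]
  have h2 : ‖L.wq t‖ ≤ 4 := by
    rw [Bas.wq, norm_div, norm_neg, norm_pow, Complex.norm_exp, div_le_iff₀ (pow_pos q 2)]
    exact k.2
  have e : H4.sq ![L.wp t, L.wq t, 1] = ‖L.wp t‖ ^ 2 + ‖L.wq t‖ ^ 2 + 1 := by
    simp [H4.sq, Fin.sum_univ_three]
  have a1 := norm_nonneg (L.wp t)
  have a2 := norm_nonneg (L.wq t)
  have l1 : 1 ≤ H4.sq ![L.wp t, L.wq t, 1] := by rw [e]; nlinarith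
  rw [b0, abs_of_nonneg (log_nonneg l1)]
  refine (log_le_self (zero_le_one.trans l1)).trans ?_
  rw [e]
  nlinarith⟩

end Pool.Agent.MP_c69980_ag.E2.G3S.EC
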