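import Pool.Agent.MP_c69980_ag.G3C.SpecF

/-!
Periodic admissible sections lie in curves.
-/

set_option autoImplicit false

noncomputable section

namespace Pool.Agent.MP_c69980_ag.E2.G3S.EC

open MvPolynomial Metric Filter Topology Set
open H60 H4 E1 G3 G3C

namespace Cur1

variable {n : ℕ}

/-- The values of the forms along `g` at depth `dp`. -/
structure EF (D : Fib n) (g : ℂ → V n) (N : ℕ) (dp : ℂ → ℝ) (M κ C : ℝ) (F : ℂ → Fin 3 → ℂ) :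
    Prop where
  M0 : 1 ≤ M
  κ0 : 0 < κ
  κ1 : κ ≤ 1 / 16
  C1 : 1 ≤ C
  per : ∀ t, F (t + G3.tp N) = F t
  val : ∀ t, M < dp t → (t, g t) ∈ Rx D.X ∧ g t ∈ Cone D.U ∧
    ∃ a : ℂ, a ≠ 0 ∧ ∀ l, F t l = a * ph D l t (g t)
  loc : ∀ t₁, 2 * M ≤ dp t₁ → ∃ G : ℂ → Fin 3 → ℂ, DifferentiableOn ℂ G (ball t₁ (κ * dp t₁)) ∧
    ∀ t ∈ ball t₁ (κ * dp t₁), ‖G t‖ ≤ C ∧ ∃ a : ℂ, G t = a • F t ∧ ‖a‖ ≤ C ∧ 1 ≤ C * ‖a‖

variable {D : Fib n} {g : ℂ → V n} {N : ℕ} {M M' κ κ' C C' : ℝ} {F F' : ℂ → Fin 3 → ℂ}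

lemma EF.mono {dp : ℂ → ℝ} (h : EF D g N dp M κ C F) (hM : M ≤ M') (h0 : 0 < κ') (hκ : κ' ≤ κ)
    (hC : C ≤ C') : EF D g N dp M' κ' C' F := by
  refine ⟨h.M0.trans hM, h0, hκ.trans h.κ1, h.C1.trans hC, h.per,
    fun t ht => h.val t (hM.trans_lt ht), fun t₁ ht => ?_⟩
  obtain ⟨G, g1, g2⟩ := h.loc t₁ (by linarith)
  have s : ball t₁ (κ' * dp t₁) ⊆ ball t₁ (κ * dp t₁) :=
    ball_subset_ball (mul_le_mul_of_nonneg_right hκ (by linarith [h.M0]))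
  refine ⟨G, g1.mono s, fun t ht => ?_⟩
  obtain ⟨k1, a, k2, k3, k4⟩ := g2 t (s ht)
  exact ⟨k1.trans hC, a, k2, k3.trans hC,
    k4.trans (mul_le_mul_of_nonneg_right hC (norm_nonneg _))⟩

/-- One end. -/
lemma one (h1 : AdmStmt) (h2 : PrjStmt) (h3 : BrgStmt) (h4 : FhStmt) {A : Amb (Wg n)}
    (hA : IsA D A) (E : EA A) (hg : Sg D g) (hN : E.N ∣ N)
    (hp : ∀ t, Pp (g (t + G3.tp N)) (g t)) : ∃ M κ C F, EF D g N A.dp M κ C F := by
  obtain ⟨b1, b2, b3⟩ := h3 n _ _ _ _ _ A hA.1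
  have sc := hg.1.1
  have ne : ∀ t, g t ≠ 0 := fun t => sc.1.ne (mem_univ t)
  have hU : ∀ t ∈ Hs E, g t ∈ Cone D.U := fun t ht => by
    refine ((h1 n D).2.2.2 g hg.1).resolve_left hg.2 t ((hA.2 t ?_).notMem one_pos)
    have k : E.M₁ < A.σ * t.re := ht
    rcases A.hσ with e | e <;> rw [e] at k <;>
      linarith [E.MM, le_abs_self t.re, neg_le_abs t.re]
  have op : IsOpen (Hs E) :=
    isOpen_lt continuous_const (continuous_const.mul Complex.continuous_re)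
  obtain ⟨F, f1, f2, f3⟩ := h4 _ A E _ N
    ((b1 _ g op ⟨fun t _ => sc.1 t trivial, fun t _ => sc.2 t trivial⟩).1 hU) (b2 E) hN
    fun t => ((h2 n).1 _ _ (ne _) (ne _)).2 (hp t)
  have c1 : E.C ≤ E.C ^ (A.m + 1) := le_self_pow₀ E.C1 (Nat.succ_ne_zero _)
  have c2 : E.C ^ A.m ≤ E.C ^ (A.m + 1) := pow_le_pow_right₀ E.C1 (Nat.le_succ _)
  refine ⟨E.M₁, E.κ, E.C ^ (A.m + 1), F, A.M0.trans E.MM.le, E.κ0.1, E.κ0.2, E.C1.trans c1, f1,
    fun t ht => ?_, fun t₁ ht => ?_⟩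
  · obtain ⟨Y, w, k1, k2, k3⟩ := f2 t ht
    obtain ⟨k4, -, ⟨a, a0, k5⟩, -⟩ := b3 Y t w (g t) k1 (ne t) k2
    exact ⟨k4, hU t ht, a, a0, fun l => k3 ▸ k5 l⟩
  · obtain ⟨G, g1, g2⟩ := f3 t₁ ht
    refine ⟨G, g1, fun t ht => ?_⟩
    obtain ⟨k1, a, k2, k3, k4⟩ := g2 t ht
    exact ⟨k1.trans c1, a, k2, k3.trans c2,
      k4.trans (mul_le_mul_of_nonneg_right c2 (norm_nonneg _))⟩

/-- Both ends. -/
lemma merge (h : EF D g N (fun t => 1 * t.re) M κ C F)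
    (h' : EF D g N (fun t => -1 * t.re) M κ C F') :
    EF D g N (fun t => |t.re|) M κ C fun t => if 0 ≤ t.re then F t else F' t := by
  have near : ∀ t₁ t : ℂ, t ∈ ball t₁ (κ * |t₁.re|) → |t.re - t₁.re| ≤ 1 / 16 * |t₁.re| :=
    fun t₁ t ht => ((Complex.abs_re_le_norm (t - t₁)).trans (mem_ball_iff_norm.1 ht).le).trans
      (mul_le_mul_of_nonneg_right h.κ1 (abs_nonneg _))
  refine ⟨h.M0, h.κ0, h.κ1, h.C1, fun t => ?_, fun t ht => ?_, fun t₁ ht => ?_⟩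
  · have : (t + G3.tp N).re = t.re := by simp [G3.tp]
    rw [this, h.per, h'.per]
  · by_cases s : 0 ≤ t.re
    · rw [if_pos s]
      exact h.val t (by rwa [one_mul, ← abs_of_nonneg s])
    · rw [if_neg s]
      exact h'.val t (by rwa [neg_one_mul, ← abs_of_neg (not_le.1 s)])
  · by_cases s : 0 ≤ t₁.re
    · have e : 1 * t₁.re = |t₁.re| := by rw [one_mul, abs_of_nonneg s]
      obtain ⟨G, g1, g2⟩ := h.loc t₁ (e ▸ ht)
      rw [e] at g1 g2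
      refine ⟨G, g1, fun t k => ?_⟩
      rw [if_pos (by linarith [(abs_le.1 (near t₁ t k)).1])]
      exact g2 t k
    · have e : -1 * t₁.re = |t₁.re| := by rw [neg_one_mul, abs_of_neg (not_le.1 s)]
      obtain ⟨G, g1, g2⟩ := h'.loc t₁ (e ▸ ht)
      rw [e] at g1 g2
      refine ⟨G, g1, fun t k => ?_⟩
      rw [if_neg (not_le.2 (by linarith [(abs_le.1 (near t₁ t k)).2, not_le.1 s]))]
      exact g2 t k

variable (h : EF D g N (fun t => |t.re|) M κ C F)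

include h

lemma up {t : ℂ} (ht : 2 * M ≤ |t.re|) : ‖F t 0‖ ≤ C ^ 2 := by
  obtain ⟨G, -, g2⟩ := h.loc t ht
  obtain ⟨k1, a, k2, -, k4⟩ := g2 t (mem_ball_self (mul_pos h.κ0 (by linarith [h.M0])))
  have k5 : ‖a‖ * ‖F t 0‖ ≤ C := by
    have := (norm_le_pi_norm (G t) 0).trans k1
    rwa [k2, Pi.smul_apply, norm_smul] at this
  nlinarith [norm_nonneg (F t 0), h.C1]

/-- The poles of the inverse of the first value. -/
lemma pole {t₀ : ℂ} (ht : 2 * M ≤ |t₀.re|) (h0 : ∀ᶠ t in 𝓝[≠] t₀, F t 0 ≠ 0) :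
    ∃ (j : ℕ) (A : ℝ), ∀ᶠ t in 𝓝[≠] t₀, ‖t - t₀‖ ^ j * ‖F t 0‖⁻¹ ≤ A := by
  obtain ⟨G, g1, g2⟩ := h.loc t₀ ht
  have b := ball_mem_nhds t₀ (mul_pos h.κ0 (show 0 < |t₀.re| by linarith [h.M0]))
  have an : AnalyticAt ℂ (fun t => G t 0) t₀ := (differentiableOn_pi.1 g1 0).analyticAt b
  have nz : ∀ᶠ t in 𝓝[≠] t₀, G t 0 ≠ 0 ∧ ‖F t 0‖⁻¹ ≤ C * ‖G t 0‖⁻¹ := by
    filter_upwards [h0, nhdsWithin_le_nhds b] with t k0 k
    obtain ⟨-, a, k2, k3, k4⟩ := g2 t k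
    have a0 : a ≠ 0 := fun e => by
      rw [e, norm_zero, mul_zero] at k4
      exact absurd k4 (by norm_num)
    rw [k2, Pi.smul_apply, norm_smul, mul_inv, ← mul_assoc]
    exact ⟨smul_ne_zero a0 k0, le_mul_of_one_le_left (by positivity)
      ((le_mul_inv_iff₀ (norm_pos_iff.2 a0)).2 (by rwa [one_mul]))⟩
  obtain ⟨j, G₁, a1, n1, e1⟩ := an.exists_eventuallyEq_pow_smul_nonzero_iff.2 fun e => by
    obtain ⟨t, k1, k2⟩ := (nz.and (nhdsWithin_le_nhds e)).exists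
    exact k1.1 k2
  have c := (a1.continuousAt.norm.inv₀ (norm_ne_zero_iff.2 n1)).eventually_lt continuousAt_const
    (lt_add_one ‖G₁ t₀‖⁻¹)
  refine ⟨j, C * (‖G₁ t₀‖⁻¹ + 1), ?_⟩
  filter_upwards [nz, nhdsWithin_le_nhds e1, nhdsWithin_le_nhds c, self_mem_nhdsWithin]
    with t k1 k2 k3 k4
  have p : 0 < ‖t - t₀‖ ^ j := pow_pos (norm_pos_iff.2 (sub_ne_zero.2 k4)) _
  refine (mul_le_mul_of_nonneg_left k1.2 p.le).trans ?_
  rw [k2, norm_smul, norm_pow, mul_inv, mul_left_comm, mul_inv_cancel_left₀ p.ne']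
  exact mul_le_mul_of_nonneg_left (le_of_lt k3) (zero_le_one.trans h.C1)

lemma main (h5 : HolStmt) (h6 : CylStmt) (hN : 0 < N) (sc : Sc D.X univ g) {r : ℂ → Fin 3 → ℂ}
    {E : Set ℂ} (e1 : E.Countable) (e2 : ∀ t₀, ∀ᶠ t in 𝓝[≠] t₀, t ∉ E)
    (e3 : ∀ t, r (t + G3.tp N) = r t) (e4 : ∀ l t, MeromorphicAt (fun w => r w l) t)
    (e5 : ∀ t ∉ E, (t, g t) ∈ Rx D.X → g t ∈ Cone D.U →
      ph D 0 t (g t) ≠ 0 ∧ ∀ l, ph D l t (g t) = ph D 0 t (g t) * r t l) :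
    ∃ R, NZ D.X R ∧ ∀ t, eval (g t) R = 0 := by
  have M0 := h.M0
  have C1 := h.C1
  have cr : Continuous fun t : ℂ => |t.re| := Complex.continuous_re.abs
  have key : ∀ t ∉ E, M < |t.re| → F t 0 ≠ 0 ∧ F t = F t 0 • r t := fun t k1 k2 => by
    obtain ⟨v1, v2, a, a0, v3⟩ := h.val t k2
    obtain ⟨v4, v5⟩ := e5 t k1 v1 v2
    refine ⟨v3 0 ▸ mul_ne_zero a0 v4, funext fun l => ?_⟩
    rw [Pi.smul_apply, smul_eq_mul, v3 l, v3 0, v5 l, mul_assoc]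
  obtain ⟨p, H, E', A, p1, p2, p3, p4, A1, p5⟩ := h5 N (8 * (4 * M)) (κ / 4) r
    (fun t => if 2 * M ≤ |t.re| then ‖F t 0‖⁻¹ else 0) hN (by linarith [h.κ0]) e3 (fun t => by
      have : (t + Tp N).re = t.re := by simp [Tp]
      rw [this, show F (t + Tp N) = F t from h.per t]) e4 fun t₀ => by
      by_cases s : 2 * M ≤ |t₀.re|
      · obtain ⟨j, A, k⟩ := pole h s (by
          filter_upwards [e2 t₀, nhdsWithin_le_nhds (continuousAt_const.eventually_lt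
            cr.continuousAt (show M < |t₀.re| by linarith))] with t k1 k2 using (key t k1 k2).1)
        refine ⟨j, A, k.mono fun t k => le_trans (mul_le_mul_of_nonneg_left ?_ (by positivity)) k⟩
        split_ifs
        · exact le_rfl
        · positivity
      · refine ⟨0, 0, nhdsWithin_le_nhds ((cr.continuousAt.eventually_lt continuousAt_const
          (not_le.1 s)).mono fun t k => ?_)⟩
        rw [if_neg (not_le.2 k), mul_zero]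
  have rel : ∀ t : ℂ, 4 * M / 2 ≤ |t.re| → |t.re| < 8 * (4 * M) → t ∉ E ∪ E' →
      ∃ a : ℂ, H t = a • F t ∧ a ≠ 0 ∧ ‖a‖ ≤ A + C ^ 2 ∧ ‖p t‖ ≤ (A + C ^ 2) * ‖a‖ := by
    intro t k1 k2 k3
    obtain ⟨q1, q2⟩ := key t (fun e => k3 (Or.inl e)) (by linarith)
    obtain ⟨q3, q4, q5⟩ := (p5 t k2).2.2 fun e => k3 (Or.inr e)
    rw [if_pos (by linarith)] at q5
    refine ⟨p t / F t 0, ?_, div_ne_zero q3 q1, ?_, ?_⟩
    · refine q4.trans (Eq.trans ?_ (congrArg (fun v => (p t / F t 0) • v) q2).symm)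
      rw [smul_smul, div_mul_cancel₀ _ q1]
    · rw [norm_div, div_eq_mul_inv]
      linarith [sq_nonneg C]
    · rw [norm_div, ← mul_div_assoc, le_div_iff₀ (norm_pos_iff.2 q1), mul_comm]
      exact mul_le_mul_of_nonneg_right ((up h (by linarith)).trans (by linarith)) (norm_nonneg _)
  have c2 : C ≤ A + C ^ 2 := by nlinarith
  obtain ⟨Q, d, q1, q2, q3⟩ := h6 N κ (A + C ^ 2) (4 * M) H F p (E ∪ E') hN h.κ0 h.κ1
    (C1.trans c2) (by linarith) p2 p3 (e1.union p4) p1 (fun t k => by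
      obtain ⟨k1, ⟨t', k2, k3⟩, -⟩ := p5 t k
      exact ⟨by linarith [sq_nonneg C], t', k2, k3.trans
        (mul_le_mul_of_nonneg_right (by linarith [sq_nonneg C]) (norm_nonneg _))⟩)
    (fun t₁ k => (h.mono le_rfl h.κ0 le_rfl c2).loc t₁ (by linarith)) rel
  obtain ⟨B, b1, b2⟩ := D.zero Q d q1 q2
  obtain ⟨f, hf⟩ := b1.1
  refine ⟨B, b1, fun t => (sc.1.iden_eval isPreconnected_univ hf).resolve_right (fun k => ?_) t
    (mem_univ t)⟩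
  have t0 : |((4 * M : ℝ) : ℂ).re| = 4 * M := by
    rw [Complex.ofReal_re, abs_of_pos (by linarith)]
  obtain ⟨w, w1, w2, w3, w4⟩ := ((mem_closure_iff_frequently.1
    (((e1.union p4).insert ((4 * M : ℝ) : ℂ)).dense_compl ℂ ((4 * M : ℝ) : ℂ))).and_eventually
    ((eventually_nhdsWithin_iff.1 (k _ (mem_univ _))).and
      ((continuousAt_const.eventually_lt cr.continuousAt
        (show 4 * M / 2 < |((4 * M : ℝ) : ℂ).re| by linarith)).and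
      (cr.continuousAt.eventually_lt continuousAt_const
        (show |((4 * M : ℝ) : ℂ).re| < 8 * (4 * M) by linarith))))).exists
  obtain ⟨w5, w6⟩ := not_or.1 w1
  obtain ⟨a, a1, a0, -⟩ := rel w w3.le w4 w6
  obtain ⟨v1, v2, a', a0', v3⟩ := h.val w (by linarith)
  refine w2 w5 (uq_zero q1 hf b2 v1 v2 ?_)
  have := q3 w w4
  rw [a1, show F w = a' • fun l => ph D l w (g w) from funext v3, smul_smul,
    eval_smul_hom q1] at this
  exact (mul_eq_zero.1 this).resolve_left (pow_ne_zero _ (mul_ne_zero a0 a0'))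

end Cur1

open Cur1 in
theorem cur1Of : Cur1Of := by
  intro h1 h2 h3 h4 h5 h6 h7 n D g hE hg ⟨N, N0, hp⟩
  obtain ⟨A₁, s1, a1, ⟨E₁⟩⟩ := hE 1 (Or.inl rfl)
  obtain ⟨A₂, s2, a2, ⟨E₂⟩⟩ := hE (-1) (Or.inr rfl)
  have hp' := pe_mul hp (E₁.N * E₂.N)
  refine (h7 n D g _ hg.1.1 hp').elim id fun ⟨r, E, e1, e2, e3, e4, e5⟩ => ?_
  obtain ⟨M₁, κ₁, C₁, F₁, k1⟩ :=
    one h1 h2 h3 h4 a1 E₁ hg ((dvd_mul_right _ _).mul_left N) hp'
  obtain ⟨M₂, κ₂, C₂, F₂, k2⟩ :=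
    one h1 h2 h3 h4 a2 E₂ hg ((dvd_mul_left _ _).mul_left N) hp'
  rw [show A₁.dp = fun t => 1 * t.re from s1 ▸ rfl] at k1
  rw [show A₂.dp = fun t => -1 * t.re from s2 ▸ rfl] at k2
  have κ0 := lt_min k1.κ0 k2.κ0
  exact main (merge (k1.mono (le_max_left _ M₂) κ0 (min_le_left _ _) (le_max_left _ C₂))
    (k2.mono (le_max_right _ _) κ0 (min_le_right _ _) (le_max_right _ _))) h5 h6
    (mul_pos N0 (mul_pos E₁.N0 E₂.N0)) hg.1.1 e1 e2 e3 e4 e5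

end Pool.Agent.MP_c69980_ag.E2.G3S.EC
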