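import Pool.Agent.MP_c69980_ag.G3C.Abs

/-!
The Siegel argument on the cylinder: the potential theoretic part.
-/

set_option autoImplicit false

noncomputable section

namespace Pool.Agent.MP_c69980_ag.G3C

open Metric Filter Topology MeasureTheory Set Real

namespace CylX

lemma lg {d : ℕ} (hd : 0 < d) {a q : ℂ} (ha : a ≠ 0) (hq : q ≠ 0) :
    (d : ℝ)⁻¹ * log ‖a ^ d * q‖ = log ‖a‖ + (d : ℝ)⁻¹ * log ‖q‖ := by
  have h : (d : ℝ) ≠ 0 := by exact_mod_cast hd.ne'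
  rw [norm_mul, norm_pow, log_mul (pow_ne_zero _ (norm_ne_zero_iff.2 ha)) (norm_ne_zero_iff.2 hq),
    log_pow, mul_add, inv_mul_cancel_left₀ h]

lemma re_near {t w : ℂ} {ρ : ℝ} (h : w ∈ ball t ρ) :
    |w.re| < |t.re| + ρ ∧ |t.re| < |w.re| + ρ := by
  have h1 : |w.re - t.re| < ρ := (Complex.abs_re_le_norm (w - t)).trans_lt (mem_ball_iff_norm.1 h)
  have h2 := abs_sub_abs_le_abs_sub w.re t.re
  have h3 := abs_sub_abs_le_abs_sub t.re w.re
  rw [abs_sub_comm] at h3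
  exact ⟨by linarith, by linarith⟩

lemma log_ge {C : ℝ} {a : ℂ} {y : ℝ} (hC : 0 < C) (hy : 0 < y) (h : y ≤ C * ‖a‖) :
    a ≠ 0 ∧ log y - log C ≤ log ‖a‖ := by
  have ha : a ≠ 0 := by
    rintro rfl
    rw [norm_zero, mul_zero] at h
    linarith
  have := log_le_log hy h
  rw [log_mul hC.ne' (norm_ne_zero_iff.2 ha)] at this
  exact ⟨ha, by linarith⟩

/-- The function at the ends is almost sub-mean. -/
lemma kmean {d : ℕ} (hd : 0 < d) {C R : ℝ} {t : ℂ} {g φ : ℂ → ℂ} (hC : 0 < C) (hR : 0 < R)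
    (hg : DifferentiableOn ℂ g (ball t R))
    (h : ∀ w ∈ ball t R, ∃ a : ℂ, g w = a ^ d * φ w ∧ ‖a‖ ≤ C ∧ 1 ≤ C * ‖a‖) (h0 : φ t ≠ 0) :
    Mn (fun w => (d : ℝ)⁻¹ * log ‖φ w‖) {w | φ w ≠ 0} t (R / 2)
      ((d : ℝ)⁻¹ * log ‖φ t‖ - 2 * log C) := by
  obtain ⟨a, e, -, a2⟩ := h t (mem_ball_self hR)
  obtain ⟨a0, a3⟩ := log_ge hC one_pos a2
  have g0 : g t ≠ 0 := by rw [e]; exact mul_ne_zero (pow_ne_zero _ a0) h0
  have m := ((Mn.log (half_pos hR) (half_lt_self hR) hg g0).smul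
    (c := (d : ℝ)⁻¹) (by positivity)).add' (Mn.const (half_pos hR) (-log C))
  refine m.mono (fun w hw hz => ?_) ?_
  · obtain ⟨b, e', b1, b2⟩ := h w (ball_subset_ball (half_le_self hR.le) hw)
    have b0 := (log_ge hC one_pos b2).1
    have b3 : φ w ≠ 0 := fun c => hz (by rw [e', c, mul_zero])
    have b4 := log_le_log (norm_pos_iff.2 b0) b1
    refine ⟨b3, ?_⟩
    rw [e', lg hd b0 b3]
    linarith
  · rw [e, lg hd a0 h0]
    rw [log_one] at a3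
    linarith

lemma ps_le {κ A e M₀ x : ℝ} (hA : 0 ≤ A) (he : 0 ≤ e) (hM : 0 < M₀) (hx : M₀ ≤ x) :
    ps κ A e M₀ x ≤ e * x := by
  have h1 : 0 ≤ log (x / M₀) := log_nonneg ((one_le_div hM).2 hx)
  have h2 : 0 ≤ 256 * A / κ ^ 2 * log (x / M₀) := by positivity
  have h3 : 0 ≤ e * M₀ := by positivity
  unfold ps
  linarith

lemma core (hMP : MPStmt) (hGl : GlueStmt) (hLo : LowStmt) {κ C M₀ : ℝ} (k0 : 0 < κ)
    (k1 : κ ≤ 1 / 16) (hC : 1 ≤ C) (hM : 4 ≤ M₀) : ∃ e : ℝ, 0 ≤ e ∧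
    ∀ (d : ℕ) (lam B : ℝ) (W φ p : ℂ → ℂ) (E : Set ℂ), 0 < d → e + 1 ≤ lam → E.Countable →
      DifferentiableOn ℂ W {t | |t.re| < 8 * M₀} → (∀ t : ℂ, |t.re| ≤ 4 * M₀ → ‖W t‖ ≤ B) →
      Differentiable ℂ p →
      (∀ t : ℂ, |t.re| < 8 * M₀ → ‖p t‖ ≤ C ∧ ∃ t' ∈ ball t (κ / 4), 1 ≤ C * ‖p t'‖) →
      (∀ t₁ : ℂ, M₀ ≤ |t₁.re| → ∃ g : ℂ → ℂ, DifferentiableOn ℂ g (ball t₁ (κ * |t₁.re|)) ∧
        ∀ t ∈ ball t₁ (κ * |t₁.re|), ∃ a : ℂ, g t = a ^ d * φ t ∧ ‖a‖ ≤ C ∧ 1 ≤ C * ‖a‖) →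
      (∀ t : ℂ, M₀ / 2 ≤ |t.re| → |t.re| < 8 * M₀ → t ∉ E →
        ∃ a : ℂ, W t = a ^ d * φ t ∧ a ≠ 0 ∧ ‖a‖ ≤ C ∧ ‖p t‖ ≤ C * ‖a‖) →
      (∀ t : ℂ, M₀ ≤ |t.re| → φ t ≠ 0 →
        (d : ℝ)⁻¹ * log ‖φ t‖ + lam * t.re ≤ B - lam * |t.re|) →
      ∀ t : ℂ, |t.re| ≤ 4 * M₀ → t ∉ E → W t = 0 := by
  have C0 : 0 < C := by linarith
  have M0 : 0 < M₀ := by linarith
  have l0 : 0 ≤ log C := log_nonneg hC
  have l1 : log C ≤ log (2 * C) := log_le_log C0 (by linarith)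
  obtain ⟨A, hA⟩ : ∃ A, A = 7 * log (2 * C) := ⟨_, rfl⟩
  have A0 : 0 ≤ A := by linarith
  obtain ⟨S, hS⟩ : ∃ S, S = 256 * A / κ ^ 2 := ⟨_, rfl⟩
  have S0 : 0 ≤ S := by rw [hS]; positivity
  obtain ⟨e, he⟩ : ∃ e, e = 2 * A + 3 * S := ⟨_, rfl⟩
  have e0 : 0 ≤ e := by linarith
  refine ⟨e, e0, fun d lam B W φ p E hd hl hE hW hB hp hp' hg ha hφ => ?_⟩
  have d0 : (0 : ℝ) ≤ (d : ℝ)⁻¹ := by positivity
  have aE : ∀ᵐ w : ℂ, w ∉ E := hE.ae_notMem _
  obtain ⟨v, V, g1, g2, -, g4⟩ := hGl κ A e 0 1 M₀ (4 * M₀) (fun w => (d : ℝ)⁻¹ * log ‖W w‖)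
    (fun w => (d : ℝ)⁻¹ * log ‖φ w‖) {w | W w ≠ 0 ∧ w ∉ E} {w | φ w ≠ 0} k0 k1 A0 e0 one_pos hM
    le_rfl fun x hx => by
      have h1 : log (x / M₀) ≤ 3 := by
        have h2 : x / M₀ ≤ 4 := (div_le_iff₀ M0).2 hx.2
        have h3 := log_le_sub_one_of_pos (div_pos (show 0 < x by linarith [hx.1]) M0)
        linarith
      have h4 := mul_le_mul_of_nonneg_left h1 S0
      have h5 := mul_le_mul_of_nonneg_left (show 1 ≤ x - 2 * M₀ by linarith [hx.1]) e0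
      unfold ps
      rw [← hS]
      linarith
  have km : ∀ t : ℂ, φ t ≠ 0 → M₀ ≤ |t.re| → Mn (fun w => (d : ℝ)⁻¹ * log ‖φ w‖) {w | φ w ≠ 0} t
      (κ * |t.re| / 2) ((d : ℝ)⁻¹ * log ‖φ t‖ - 2 * log C) := fun t h0 ht => by
    obtain ⟨g, q1, q2⟩ := hg t ht
    exact kmean hd C0 (mul_pos k0 (M0.trans_le ht)) q1 q2 h0
  have gz : ∀ (ρ : ℝ) (t : ℂ), gn 0 ρ t = 0 := fun ρ t => by simp [gn]
  have sm : ∀ t ∈ V, Sm v V κ 0 1 M₀ t := fun t ht => by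
    refine g4 t ht (fun hz hx => ⟨1, ⟨le_rfl, le_rfl⟩, ?_⟩) (fun hz hx => ?_)
      (fun hz hx hx' => ?_) fun hz hx hx' => ?_
    · rw [gz, add_zero]
      refine ((Mn.log one_pos one_lt_two (hW.mono fun w hw => ?_) hz.1).smul d0).ae ?_
      · have := (re_near hw).1
        change |w.re| < 8 * M₀
        linarith
      · filter_upwards [aE] with w hw _ h0 using ⟨⟨h0, hw⟩, le_rfl⟩
    · exact (km t hz (by linarith)).mono (fun w _ h0 => ⟨h0, le_rfl⟩) (by linarith)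
    · obtain ⟨a, q1, q2, q3, -⟩ := ha t (by linarith) (by linarith) hz.2
      have q4 : φ t ≠ 0 := fun c => hz.1 (by rw [q1, c, mul_zero])
      have q5 := log_le_log (norm_pos_iff.2 q2) q3
      refine ⟨q4, ?_⟩
      rw [q1, lg hd q2 q4]
      linarith
    · have r1 : κ * |t.re| ≤ 1 / 16 * (2 * M₀) := mul_le_mul k1 hx' (abs_nonneg _) (by norm_num)
      have r2 : κ * 4 ≤ κ * |t.re| := mul_le_mul_of_nonneg_left (by linarith) k0.le
      have r0 : 0 < κ * |t.re| / 2 := by linarith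
      obtain ⟨t', q1, q2⟩ := (hp' t (by linarith)).2
      have m1 := hLo p (fun _ => 1) t t' (κ * |t.re| / 2) (2 * C) r0 (by linarith)
        hp.differentiableOn (differentiableOn_const _) one_ne_zero (fun w hw => by
          have q3 := (re_near hw).1
          have q4 := (hp' w (by linarith)).1
          rw [norm_one]
          linarith) (ball_subset_ball (by linarith) q1) (by
          have q3 : Continuous fun w => 2 * C * ‖p w‖ := continuous_const.mul hp.continuous.norm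
          filter_upwards [q3.continuousAt.eventually (lt_mem_nhds (a := 1) (b := 2 * C * ‖p t'‖)
            (by linarith))] with w hw
          rw [norm_one]
          exact hw.le)
      rw [norm_one, log_one] at m1
      refine ((((km t hz hx).add m1).add' (Mn.const r0 (-log C))).ae ?_).mono
        (fun w _ h0 => ⟨h0, le_rfl⟩) (by linarith)
      filter_upwards [aE] with w hw hb h0
      obtain ⟨q3, q4⟩ := re_near hb
      obtain ⟨a, s1, s2, -, s3⟩ := ha w (by linarith) (by linarith) hw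
      have s4 := (log_ge C0 (norm_pos_iff.2 h0.2) s3).2
      refine ⟨⟨by rw [s1]; exact mul_ne_zero (pow_ne_zero _ s2) h0.1, hw⟩, ?_⟩
      rw [s1, lg hd s2 h0.1]
      linarith
  have l2 : 0 ≤ lam := by linarith
  have far : ∀ t : ℂ, φ t ≠ 0 → M₀ ≤ |t.re| →
      ps κ A e M₀ |t.re| + (d : ℝ)⁻¹ * log ‖φ t‖ + lam * t.re ≤ B - |t.re| := fun t h0 ht => by
    have h1 := ps_le (κ := κ) A0 e0 M0 ht
    have h2 := hφ t ht h0
    have h3 := mul_le_mul_of_nonneg_right hl (abs_nonneg t.re)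
    linarith
  have key : ∀ R : ℝ, 4 * M₀ ≤ R → ∀ t ∈ V, |t.re| ≤ R → v t + lam * t.re ≤ B - R := by
    intro R hR
    refine hMP (fun w => v w + lam * w.re) V {t | |t.re| ≤ R} {t | |t.re| ≤ 2 * R} κ (2 * R)
      (B - R) (max ((d : ℝ)⁻¹ * log B + lam * (4 * M₀)) B) k0 (fun t ht => ht)
      (fun t (ht : |t.re| ≤ R) => show |t.re| ≤ 2 * R by linarith) (fun t ht _ => ?_)
      (fun t ht _ (h2 : ¬|t.re| ≤ R) => ?_) fun t ht (h2 : |t.re| ≤ R) => ?_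
    · rcases g1 t ht with ⟨q1, q2, q3⟩ | ⟨q1, q2, q3⟩
      · refine le_max_of_le_left ?_
        rw [q3]
        exact add_le_add (mul_le_mul_of_nonneg_left (log_le_log (norm_pos_iff.2 q1.1) (hB t q2)) d0)
          (mul_le_mul_of_nonneg_left ((le_abs_self _).trans q2) l2)
      · refine le_max_of_le_right ?_
        have := far t q1 q2
        rw [q3]
        linarith [abs_nonneg t.re]
    · rcases g1 t ht with ⟨-, q2, -⟩ | ⟨q1, q2, q3⟩
      · exact absurd (q2.trans hR) h2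
      · have := far t q1 q2
        rw [q3]
        linarith [not_le.1 h2]
    · obtain ⟨ρ, q1, q2⟩ := sm t ht
      have q3 : κ ≤ ρ ∧ ρ ≤ R := by
        rcases q1 with q1 | ⟨rfl, q1⟩
        · exact ⟨by linarith [q1.1], by linarith [q1.2]⟩
        · have r1 : κ * |t.re| ≤ 1 / 16 * R := mul_le_mul k1 h2 (abs_nonneg _) (by norm_num)
          have r2 : κ * 4 ≤ κ * |t.re| := mul_le_mul_of_nonneg_left (by linarith) k0.le
          exact ⟨by linarith, by linarith⟩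
      refine ⟨ρ, q3.1, fun w hw => ?_, ?_⟩
      · have := (re_near hw).1
        change |w.re| ≤ 2 * R
        linarith [q3.2]
      · rw [gz, add_zero] at q2
        exact (q2.add' (Mn.lin (k0.trans_le q3.1) (lam * t.re) lam)).mono
          (fun w _ h0 => ⟨h0, le_of_eq (by ring)⟩) le_rfl
  intro t ht hE'
  by_contra h0
  have h1 := key (max (4 * M₀) (B - (v t + lam * t.re) + 1)) (le_max_left _ _) t
    (g2 t ⟨h0, hE'⟩ ht).1 (ht.trans (le_max_left _ _))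
  linarith [le_max_right (4 * M₀) (B - (v t + lam * t.re) + 1)]

end CylX

end Pool.Agent.MP_c69980_ag.G3C
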