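import Pool.Agent.MP_c69980_ag.G3C.SpecF

/-!
Open surfaces with a nonconstant unit: the estimates at an end for the three kinds of pairs.
-/

set_option autoImplicit false

noncomputable section

namespace Pool.Agent.MP_c69980_ag.E2.G3S.EC

open MvPolynomial Metric Filter Topology Set
open H60 H4 E1 G3 G3C

namespace EndB

variable {n : ℕ} {D : Fib n} {A : Amb (Wg n)} {g : ℂ → V n} {t : ℂ}

lemma hs_open (E : EA A) : IsOpen (Hs E) :=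
  isOpen_lt continuous_const (by unfold Amb.dp; fun_prop)

lemma dp_abs (E : EA A) (ht : t ∈ Hs E) : |t.re| = A.dp t ∧ 1 ≤ |t.re| ∧ A.M₀ ≤ |t.re| := by
  have h1 : E.M₁ < A.σ * t.re := ht
  have h2 := E.MM
  have h3 := A.M0
  have e : |t.re| = A.σ * t.re := by
    rcases A.hσ with h | h <;> rw [h] at h1 ⊢
    · rw [abs_of_nonneg (by linarith), one_mul]
    · rw [abs_of_nonpos (by linarith), neg_one_mul]
  exact ⟨e, by linarith, by linarith⟩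

lemma far (hA : IsA D A) (E : EA A) (ht : t ∈ Hs E) : Far D 1 t := hA.2 t (dp_abs E ht).2.2

lemma mem (h1 : AdmStmt) (hA : IsA D A) (E : EA A) (hg : Sg D g) (ht : t ∈ Hs E) :
    g t ∈ Cone D.U :=
  ((h1 n D).2.2.2 g hg.1).resolve_left hg.2 t ((far hA E ht).notMem one_pos)

lemma sec (h1 : AdmStmt) (h2 : BrgStmt) (hA : IsA D A) (E : EA A) (hg : Sg D g) :
    A.Sec (Hs E) fun t => prj (g t) :=
  ((h2 n _ _ _ _ _ A hA.1).1 _ g (hs_open E) (hg.1.1.mono (subset_univ _))).1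
    fun _ ht => mem h1 hA E hg ht

lemma per (h : PrjStmt) (E : EA A) (hg : Sc D.X univ g) (hp : Pe g) :
    ∃ N : ℕ, 0 < N ∧ E.N ∣ N ∧ ∀ t, prj (g (t + G3.tp N)) = prj (g t) := by
  obtain ⟨N, N0, hN⟩ := hp
  exact ⟨N * E.N, Nat.mul_pos N0 E.N0, dvd_mul_left _ _, fun t =>
    ((h n).1 _ _ (hg.1.ne (mem_univ _)) (hg.1.ne (mem_univ _))).2 (pe_mul hN _ t)⟩

end EndB

open EndB

theorem endBOf : EndBOf := by
  intro hB hAd hP hBr hN hG hL hM hC hW n D Q d γ₀ σ hQ Q0 hE hσ hγ hp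
  obtain ⟨A, rfl, hA, ⟨E⟩⟩ := hE σ hσ
  obtain ⟨Ab, hAb⟩ := hB D.L
  have bs : G3C.Bs A (Hs E) fun t => prj (γ₀ t) :=
    ((hBr n _ _ _ _ _ A hA.1).1 _ γ₀ (hs_open E) (hγ.1.mono (subset_univ _))).2 fun t _ => hγ.2 t
  obtain ⟨N, N0, N1, N2⟩ := per hP E hγ.1 hp
  obtain ⟨e, he⟩ := hG _ A E Q d _ hQ.2.1 (hN n D Q d A E hQ.2.1 Q0 hA) (.inr bs)
  refine ⟨E.κ, max (4 * E.M₁) 4, E.κ0.1, fun κ M₀ κ0 κ1 hM₀ => ?_⟩
  have m1 := (le_max_left _ _).trans hM₀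
  have m2 := (le_max_right _ _).trans hM₀
  obtain ⟨η, η0, hη⟩ := (hL _ A E Q d e N _ M₀ (κ * M₀ / 4) hQ.2.1
    ((hBr n _ _ _ _ _ A hA.1).2.1 E) N0 N1 N2 he m1 (by positivity)).2 bs
  obtain ⟨C, d₁, A₁, ε₁, K, C1, d0, d1, A1, ε0, hMo⟩ :=
    hM _ A E Q d e κ M₀ η hQ.2.1 hQ.1 κ0 κ1 m1 η0
  obtain ⟨C', d', K', C1', d0', d1', hPw⟩ := hW κ C d₁ K e κ0 (κ1.trans E.κ0.2) C1 d0 d1
  refine ⟨C', d', K', C1', d0', d1', fun d₀ p0 p1 => ?_⟩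
  obtain ⟨A', ε, e0, hPw⟩ := hPw d₀ (max A₁ (3 * (D.m * d) + Ab)) ε₁ p0 p1
    (A1.trans (le_max_left _ _)) ε0
  refine ⟨A', fun M hM' => ?_⟩
  obtain ⟨δ, δ0, hδ⟩ := hC n _ _ _ _ _ A E Q d hA.1 hQ.2.1 hQ.1 M (min ε d₁) (lt_min e0 d0)
  refine ⟨min δ 1, lt_min δ0 one_pos, fun g γ σ' y₀ hg e1 hσ' hc => ?_⟩
  subst e1
  have sb : Rs A.σ M₀ M σ' y₀ ⊆ Hs E := fun t ht => by
    have h1 := ht.1
    have h2 := E.MM
    have h3 := A.M0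
    change E.M₁ < A.σ * t.re
    linarith
  obtain ⟨Δ, h1, h2⟩ := hMo (max A₁ (3 * (D.m * d) + Ab)) (min ε d₁) (Rs A.σ M₀ M σ' y₀)
    (fun t => prj (g t)) _ (fun t => uu D Q d t (g t) (γ t)) {t | Zp D Q t (g t) (γ t)}
    (le_max_left _ _) (min_le_right _ _) sb (sec hAd hBr hA E hg) bs (fun t ht => (he t ht).1) hη
    fun t ht i Y hY e2 => by
      have a := dp_abs E (sb ht)
      have f := far hA E (sb ht)
      have l : t ∉ D.L.lattice := fun q => f.notMem one_pos (lat_sub D q)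
      obtain ⟨b, b1, b2, b3, b4⟩ := hδ t (g t) (γ t) (le_of_lt (sb ht)) ht.2.1
        ⟨hg.1.1.2 t (mem_univ _), mem hAd hA E hg (sb ht)⟩ (hγ.1.1.ne (mem_univ _))
        ((hc t (a.1.trans_le ht.2.1) ht.2.2 (f.mono (min_le_right _ _))).trans (min_le_left _ _))
        i Y hY e2
      refine ⟨b, b1, b2, (zp_iff.trans (and_iff_right l)).trans b3, fun q => ?_⟩
      have c1 := abs_le.1 (b4 (zp_iff.1 q).2)
      have c2 := abs_le.1 (hAb t a.2.1)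
      refine le_trans ?_ (le_max_right _ _)
      simp only [uu_eq]
      exact abs_le.2 ⟨by linarith [c1.1, c2.1], by linarith [c1.2, c2.2]⟩
  exact hPw A.σ M₀ M σ' y₀ _ Δ _ hσ hσ' m2 hM' (fun t ht => (h1 t ht).trans (min_le_left _ _)) h2

theorem endFOf : EndFOf := by
  intro hAd hP hBr hN hG hL hI n D Q d γ₀ σ hQ Q0 hE hB hσ hγ hp
  obtain ⟨A, rfl, hA, ⟨E⟩⟩ := hE σ hσ
  have sc := sec hAd hBr hA E hγ
  obtain ⟨N, N0, N1, N2⟩ := per hP E hγ.1.1 hp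
  obtain ⟨e, he⟩ := hG _ A E Q d _ hQ.2.1 (hN n D Q d A E hQ.2.1 Q0 hA) (.inl sc)
  refine hI n D Q d A E _ e hQ hA hB (fun γ q => q ▸ hγ) fun M₀ r m1 r0 => ?_
  obtain ⟨η, η0, hη⟩ := (hL _ A E Q d e N _ M₀ r hQ.2.1
    ((hBr n _ _ _ _ _ A hA.1).2.1 E) N0 N1 N2 he m1 r0).1 sc
  exact ⟨η, η0, fun γ q => q ▸ ⟨fun t ht => (he t ht).1, hη⟩⟩

theorem endCOf : EndCOf := by
  intro hAd hBr hL hW hI n D Q d B P σ hQ hE hB hZ hσ hi hc hP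
  obtain ⟨A, rfl, hA, ⟨E⟩⟩ := hE σ hσ
  refine hI n D Q d A E P (A.m * d) hQ hA hB (fun γ q => (hP γ q).1) fun M₀ r m1 r0 => ?_
  obtain ⟨η, η0, hη⟩ := hW n D Q d B A E P M₀ r hQ.2.1 hA hZ hi hc hP m1 r0
  obtain ⟨η', η0', hη'⟩ := hL _ A E Q d η hQ.2.1 η0
  refine ⟨η', η0', fun γ q => ?_⟩
  have := hη' _ M₀ r (sec hAd hBr hA E (hP γ q).1)
  exact ⟨this.1, this.2 (hη γ q)⟩

end Pool.Agent.MP_c69980_ag.E2.G3S.EC
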