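import Pool.Agent.MP_c69980_ag.G3C.SpecF

/-!
The estimates at an end for two sections of the open part.
-/

set_option autoImplicit false

noncomputable section

namespace Pool.Agent.MP_c69980_ag.E2.G3S.EC

open MvPolynomial Metric Filter Topology Set
open H60 H4 E1 G3 G3C

theorem endIOf : EndIOf := by
  intro hB0 hAdm hBrg hMo hCmp hPow n D Q d A E P e ⟨d0, hQ, _⟩ hA hBd hP hL
  have ab : ∀ t : ℂ, 0 ≤ A.dp t → |t.re| = A.dp t := fun t h => by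
    rw [← abs_of_nonneg h, Amb.dp, abs_mul]
    rcases A.hσ with e | e <;> simp [e]
  have M1 : 1 < E.M₁ := A.M0.trans_lt E.MM
  have far : ∀ t, E.M₁ < A.dp t → Far D 1 t := fun t h =>
    hA.2 t (by rw [ab t (by linarith)]; linarith [E.MM])
  have sec : ∀ g, Sg D g → A.Sec (Hs E) fun t => prj (g t) := fun g hg =>
    ((hBrg n _ _ _ _ _ A hA.1).1 _ g (isOpen_lt continuous_const
      (continuous_const.mul Complex.continuous_re)) (hg.1.1.mono (subset_univ _))).1 fun t ht =>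
        ((hAdm n D).2.2.2 g hg.1).resolve_left hg.2 t ((far t ht).notMem one_pos)
  obtain ⟨Ab, hb⟩ := hB0 D.L
  obtain ⟨A₀, hC⟩ := hCmp n _ _ _ _ _ A E Q d hA.1 E.opn hQ d0
  have aw : ∀ M : ℝ, ∃ η : ℝ, 0 < η ∧ ∀ g, Sg D g → ∀ t, E.M₁ < A.dp t → A.dp t ≤ M →
      Aw0 D.X D.U η t (g t) := fun M => by
    obtain ⟨η, η0, h⟩ := hBd 1 M one_pos
    exact ⟨η, η0, fun g hg t h1 h2 =>
      h g hg.1 hg.2 t (by rwa [ab t (by linarith)]) (far t h1)⟩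
  refine ⟨E.κ, 4 * E.M₁, E.κ0.1, fun κ M₀ κ0 κ1 hM => ?_⟩
  obtain ⟨η, η0, hη⟩ := hL M₀ (κ * M₀ / 4) hM (div_pos (mul_pos κ0 (by linarith)) four_pos)
  obtain ⟨η₁, e1, h1⟩ := aw M₀
  obtain ⟨_, B, -, hB⟩ := hC M₀ η₁ 1 e1 one_pos
  have scb : ∀ g, Sg D g → Scb E (fun t => prj (g t)) (M₀ / 2) B := fun g hg t k1 k2 i w k3 k4 =>
    (hB t _ (by linarith) (by linarith) (hg.1.1.2 t trivial)
      (h1 g hg t (by linarith) (by linarith)) i w k3 k4).1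
  obtain ⟨C, d₁, A₁, ε₁, K, C1, d1, d1', A1, ε1, hm⟩ := hMo _ A E Q d e κ M₀ B η hQ d0 κ0 κ1 hM η0
  obtain ⟨C', d₁', K', c1, c2, c3, hp⟩ := hPow κ C d₁ K e κ0 (κ1.trans E.κ0.2) C1 d1 d1'
  refine ⟨C', d₁', K', c1, c2, c3, fun d₀ a1 a2 => ?_⟩
  obtain ⟨A', ε, ε0, hp⟩ := hp d₀ (max A₁ (A₀ + Ab)) ε₁ a1 a2 (A1.trans (le_max_left _ _)) ε1
  refine ⟨A', fun M hMM => ?_⟩
  obtain ⟨η₂, e2, h2⟩ := aw M
  obtain ⟨δ, _, δ0, hδ⟩ := hC M η₂ (min ε d₁) e2 (lt_min ε0 d1)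
  refine ⟨min δ 1, lt_min δ0 one_pos, fun g γ σ' y₀ hg hγ hσ hc => ?_⟩
  have hR : ∀ t ∈ Rs A.σ M₀ M σ' y₀, 2 * E.M₁ ≤ A.dp t ∧ E.M₁ < A.dp t := fun t ht => by
    have : M₀ / 2 ≤ A.dp t := ht.1
    exact ⟨by linarith, by linarith⟩
  obtain ⟨Δ, k1, k2⟩ := hm (max A₁ (A₀ + Ab)) (min ε d₁) (Rs A.σ M₀ M σ' y₀) _ _
    (fun t => uu D Q d t (g t) (γ t)) {t | Zp D Q t (g t) (γ t)} (le_max_left _ _)
    (min_le_right _ _) (fun t ht => (hR t ht).2) (sec g hg) (sec γ (hP γ hγ)) (scb g hg)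
    (scb γ (hP γ hγ)) (hη γ hγ).1 (hη γ hγ).2 fun t ht i w₀ j1 j2 => by
      obtain ⟨r1, r2⟩ := hR t ht
      have r3 := ab t (by linarith)
      obtain ⟨w, j3, j4, j5⟩ := (hδ t _ r1 ht.2.1 ((hP γ hγ).1.1.2 t trivial)
        (h2 γ (hP γ hγ) t r2 ht.2.1) i w₀ j1 j2).2 (g t) (hg.1.1.2 t trivial)
        ((hc t (r3.trans_le ht.2.1) ht.2.2 ((far t r2).mono (min_le_right _ _))).trans
          (min_le_left _ _))
      have nl : t ∉ D.L.lattice := fun q => (far t r2).notMem one_pos (lat_sub D q)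
      refine ⟨w, j3, j4, fun j6 => ⟨(zp_iff.trans (and_iff_right nl)).trans (j5 j6).1,
        fun z => le_trans ?_ (le_max_right _ _)⟩⟩
      beta_reduce
      rw [uu_eq, add_sub_right_comm]
      exact (abs_add_le _ _).trans (add_le_add ((j5 j6).2 (zp_iff.1 z).2) (hb t (by linarith)))
  exact hp A.σ M₀ M σ' y₀ _ Δ _ A.hσ hσ (by linarith) hMM
    (fun t ht => (k1 t ht).trans (min_le_left _ _)) k2

end Pool.Agent.MP_c69980_ag.E2.G3S.EC
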