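import Pool.Agent.MP_c69980_ag.G3C.SpecF

/-!
Expansivity from the estimates at the two ends and on the strip.
-/

set_option autoImplicit false

noncomputable section

namespace Pool.Agent.MP_c69980_ag.E2.G3S.EC

open MvPolynomial Metric Filter Topology Set
open H60 H4 E1 G3 G3C

theorem exOf : ExOf := by
  intro hA hG hM hE n D Q d B P hQ hB hP ⟨κ₁, M₁, k1, h1⟩ ⟨κ₂, M₂, k2, h2⟩
  obtain ⟨ρ, c, ρ0, -, c0, -, hG⟩ := hG n D Q d hQ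
  obtain ⟨x, -, hx⟩ := far_of_re D ρ
  obtain ⟨κ, κ0, a1, a2, a3⟩ : ∃ κ : ℝ, 0 < κ ∧ κ ≤ κ₁ ∧ κ ≤ κ₂ ∧ κ ≤ 1 / 16 :=
    ⟨min κ₁ (min κ₂ (1 / 16)), by positivity, min_le_left _ _,
      (min_le_right _ _).trans (min_le_left _ _), (min_le_right _ _).trans (min_le_right _ _)⟩
  obtain ⟨M₀, b1, b2, b3, b4⟩ : ∃ M₀ : ℝ, M₁ ≤ M₀ ∧ M₂ ≤ M₀ ∧ 4 ≤ M₀ ∧ 2 * x ≤ M₀ :=
    ⟨max (max M₁ M₂) (max 4 (2 * x)), by simp, by simp, by simp, by simp⟩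
  obtain ⟨C₁, d₁, K₁, c1, p1, q1, h1⟩ := h1 κ M₀ κ0 a1 b1
  obtain ⟨C₂, d₂, K₂, c2, p2, -, h2⟩ := h2 κ M₀ κ0 a2 b2
  obtain ⟨C, c3, c4⟩ : ∃ C : ℝ, C₁ ≤ C ∧ C₂ ≤ C := ⟨_, le_max_left _ _, le_max_right _ _⟩
  obtain ⟨e, e0, e1, e2⟩ : ∃ e : ℝ, 0 < e ∧ e ≤ d₁ ∧ e ≤ d₂ :=
    ⟨_, lt_min p1 p2, min_le_left _ _, min_le_right _ _⟩
  obtain ⟨d₀, d0, d1⟩ : ∃ d₀ : ℝ, 0 < d₀ ∧ C * d₀ < e := by
    have : 0 < C := by linarith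
    refine ⟨e / (2 * C), by positivity, ?_⟩
    rw [show C * (e / (2 * C)) = e / 2 by field_simp]
    linarith
  obtain ⟨A₁, h1⟩ := h1 d₀ d0 (by nlinarith)
  obtain ⟨A₂, h2⟩ := h2 d₀ d0 (by nlinarith)
  obtain ⟨A₃, hG⟩ := hG M₀
  obtain ⟨A, l1, l2, l3⟩ : ∃ A : ℝ, A₁ ≤ A ∧ A₂ ≤ A ∧ A₃ ≤ A :=
    ⟨max A₁ (max A₂ A₃), by simp, by simp, by simp⟩
  obtain ⟨M, m, hE⟩ := hE κ C d₀ e A c 6 M₀ (max K₁ K₂) κ0 a3 (c1.trans c3) d0 d1 (e1.trans q1)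
    c0 (by norm_num) b3
  obtain ⟨δ₁, f1, h1⟩ := h1 M m
  obtain ⟨δ₂, f2, h2⟩ := h2 M m
  obtain ⟨δ₃, r, f3, r0, hG⟩ := hG M (by linarith)
  refine ⟨M + 1, min δ₁ (min δ₂ δ₃), by positivity, fun g γ hg hγ hc => ?_⟩
  obtain ⟨σ, y₀, hσ, hc⟩ := hc_iff.1 hc
  obtain ⟨Δ₁, n1⟩ := h1 g γ σ (y₀ + 1) hg hγ hσ (hc.mono (by linarith) (by simp) (by linarith))
  obtain ⟨Δ₂, n2⟩ := h2 g γ σ (y₀ + 1) hg hγ hσ (hc.mono (by linarith) (by simp) (by linarith))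
  obtain ⟨u, Z, u1, u2⟩ := hG g γ σ y₀ hσ
    ⟨hg.1, (hP γ hγ).imp (fun q => ⟨q.1, hg.2, q.2⟩) id⟩ (hc.mono le_rfl (by simp) le_rfl)
  obtain ⟨Δ, ea⟩ := hM κ C C₁ C₂ d₀ e d₁ d₂ A A₁ A₂ c M₀ M r σ (y₀ + 1) (max K₁ K₂) K₁ K₂ _ u
    Δ₁ Δ₂ _ Z κ0 a3 b3 (by linarith) (by linarith) c3 c4 e1 e2 l1 l2 (le_max_left _ _)
    (le_max_right _ _) n1 n2 (fun t ht => u1 t (hx t (by linarith)))
    (fun t ht a b => ((u2 t ht b).2 a).imp fun ρ' q => ⟨q.1, .of_int q.2.2.1 q.2.1 q.2.2.2⟩)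
    fun t ht a b => ((u2 t ht b).1 a).trans l3
  have fin := hE r σ (y₀ + 1) u Δ Z r0 hσ ea
  have sγ : Sc D.X univ γ := (hP γ hγ).elim (fun q => q.2.1.1) fun q => q.1
  obtain ⟨⟨f, hf⟩, -⟩ := hB.1
  rcases hg.1.1.1.iden_pp sγ.1 isPreconnected_univ with q | q
  · exact .inl fun t => q t trivial
  rcases hg.1.1.1.iden_eval isPreconnected_univ hf with q' | q'
  · exact .inr fun t => q' t trivial
  exfalso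
  obtain ⟨t₀, t1, t2⟩ : ∃ t₀ : ℂ, t₀.re = 2 * M₀ ∧ t₀.im = σ * (y₀ + M + 4) := ⟨⟨_, _⟩, rfl, rfl⟩
  obtain ⟨w, w1, w2, w3⟩ := ((q t₀ trivial).and ((q' t₀ trivial).and
    (nhdsWithin_le_nhds (ball_mem_nhds t₀ one_pos)))).exists
  have z1 := abs_lt.1 ((Complex.abs_re_le_norm (w - t₀)).trans_lt (mem_ball_iff_norm.1 w3))
  have z2 := abs_lt.1 ((Complex.abs_im_le_norm (w - t₀)).trans_lt (mem_ball_iff_norm.1 w3))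
  rw [Complex.sub_re, t1] at z1
  rw [Complex.sub_im, t2] at z2
  have z3 : |w.re| = w.re := abs_of_nonneg (by linarith)
  have F := hx w (by linarith)
  have nb := F.notMem ρ0
  have hU := (((hA n D).2.2.2 g hg.1).resolve_left hg.2) w nb
  have := fin w ((u1 w F).2.2 ⟨fun z => nb (lat_sub D z), hU, w1, fun z => w2
    (uq_zero hQ.2.1 hf hB.2 (D.bad _ (hg.1.1.2 w trivial) nb) hU z)⟩) (by linarith)
  rcases hσ with rfl | rfl <;> linarith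

end Pool.Agent.MP_c69980_ag.E2.G3S.EC
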