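import Pool.Agent.MP_c69980_ag.G3C.SpecF

/-!
Open surfaces with a nonconstant unit: expansivity for admissible sections outside the boundary.
-/

set_option autoImplicit false

noncomputable section

namespace Pool.Agent.MP_c69980_ag.E2.G3S.EC

open MvPolynomial Metric Filter Topology Set
open H60 H4 E1 G3 G3C

namespace Exp0X

variable {n : ℕ} {D : Fib n}

lemma inv_sg (h : Inv D (Adm D)) : Inv D (Sg D) :=
  ⟨fun _ q => q.1.1, fun g q l hl => ⟨h.2 g q.1 l hl, fun e => q.2 fun t => by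
    simpa using e (t - l)⟩⟩

lemma cp_sg (h : Cp D (Adm D)) (hB : BdP D) : Cp D (Sg D) := fun u g hg => by
  obtain ⟨G, c1, c2⟩ := h u g fun k => (hg k).1
  refine ⟨G, ⟨c1, fun q => ?_⟩, c2⟩
  obtain ⟨t, ht⟩ := (b_ev lat D 0).exists
  obtain ⟨r, r0, hr⟩ := far_of_notMem lat ht
  obtain ⟨η, η0, hη⟩ := hB r |t.re| r0
  have k1 := c2.d2 (cv_const c2.lh) ht tendsto_const_nhds
  rw [d2_self (c2.lh.ne ht)] at k1
  exact η0.not_ge (ge_of_tendsto' k1 fun k =>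
    hη _ (hg k).1 (hg k).2 t le_rfl hr _ (c1.1.2 t (mem_univ t)) (q t))

end Exp0X

open Exp0X

theorem exp0Of : Exp0Of := by
  intro hA hF hS hK hP hEF hEC hX n D hE hB
  obtain ⟨a1, a2, -, -⟩ := hA n D
  obtain ⟨Q, d, d0, hQ, Q0, hV⟩ := D.van
  obtain ⟨B, B0, hZ⟩ := D.zero Q d hQ Q0
  have qv : QV D Q d := ⟨d0, hQ, hV⟩
  have zb : ZB D Q B := ⟨B0, hZ⟩
  obtain ⟨e, he⟩ := B0.1
  have i := inv_sg a1
  have c := cp_sg a2 hB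
  have iΓ : Inv D fun g => Sg D g ∧ ∀ t, eval (g t) B = 0 :=
    ⟨fun g h => i.1 g h.1, fun g h l hl => ⟨i.2 g h.1 l hl, fun _ => h.2 _⟩⟩
  have fΓ : Fn fun g => Sg D g ∧ ∀ t, eval (g t) B = 0 :=
    (hF n D B B0).mono fun g h => ⟨i.1 g h.1, h.2⟩
  obtain ⟨cΓ, δs, s0, hs⟩ := hS n D _ iΓ fΓ
  have pΓ := hP n D _ iΓ fΓ
  obtain ⟨T, t1, t2, t3⟩ := fΓ
  have ev : ∀ᶠ p : ℝ × ℝ in atTop ×ˢ 𝓝[>] 0, ∀ γ ∈ T, ∀ g, Sg D g → Hc D p.1 g γ p.2 →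
      ∀ t, eval (g t) B = 0 := (eventually_all_finite t1).2 fun γ hγ => by
    have m := t2 γ hγ
    obtain ⟨M, δ, δ0, h⟩ := hX n D Q d B (fun x => x = γ) qv zb
      (fun x q => .inl ⟨hB, q ▸ m.1⟩)
      (hEF n D Q d γ 1 qv Q0 hE hB (.inl rfl) m.1 (pΓ γ m))
      (hEF n D Q d γ (-1) qv Q0 hE hB (.inr rfl) m.1 (pΓ γ m))
    filter_upwards [tendsto_fst.eventually (eventually_ge_atTop M), tendsto_snd.eventually
      (nhdsWithin_le_nhds (ge_mem_nhds δ0))] with p p1 p2 g hg q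
    exact (h g γ hg rfl (hc_mono q p1 p2)).elim (fun r t => ((r t).eval he).2 (m.2 t)) id
  have e1 : ∀ᶠ p : ℝ × ℝ in atTop ×ˢ 𝓝[>] 0, 1 ≤ p.1 :=
    tendsto_fst.eventually (eventually_ge_atTop 1)
  have e2 : ∀ᶠ p : ℝ × ℝ in atTop ×ˢ 𝓝[>] 0, p.2 ≤ δs :=
    tendsto_snd.eventually (nhdsWithin_le_nhds (ge_mem_nhds s0))
  have e3 : ∀ᶠ p : ℝ × ℝ in atTop ×ˢ 𝓝[>] 0, 0 < p.2 :=
    tendsto_snd.eventually self_mem_nhdsWithin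
  obtain ⟨⟨M₁, δ₁⟩, h1, h2, h3, h4⟩ := (ev.and (e1.and (e2.and e3))).exists
  have k : ∀ g γ, Sg D g → (Sg D γ ∧ ∀ t, eval (γ t) B = 0) → Hc D M₁ g γ δ₁ →
      ∀ t, eval (g t) B = 0 := fun g γ hg hγ q => by
    obtain ⟨γ', r1, r2⟩ := t3 γ hγ
    exact h1 γ' r1 g hg (hc_pp q r2)
  have iP : Inv D fun g => Sg D g ∧ ∃ t, eval (g t) B ≠ 0 :=
    ⟨fun g h => i.1 g h.1, fun g h l hl => ⟨i.2 g h.1 l hl, by
      obtain ⟨t, ht⟩ := h.2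
      exact ⟨t - l, by simpa using ht⟩⟩⟩
  have cP : Cp D fun g => Sg D g ∧ ∃ t, eval (g t) B ≠ 0 := fun u g hg => by
    obtain ⟨G, c1, c2⟩ := c u g fun j => (hg j).1
    refine ⟨G, ⟨c1, by_contra fun q => ?_⟩, c2⟩
    have q' : ∀ t, eval (G t) B = 0 := fun t => by_contra fun r => q ⟨t, r⟩
    obtain ⟨j, hj⟩ := (hK n D _ _ M₁ δ₁ u g G i iΓ c cΓ h4
      (fun x y hx hy r => hs δ₁ h3 M₁ h2 x y ⟨hx, k x y hx hy r⟩ hy r) (fun j => (hg j).1)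
      ⟨c1, q'⟩ c2).exists
    obtain ⟨t, ht⟩ := (hg j).2
    exact ht (((hj t).eval he).2 (q' t))
  obtain ⟨M₂, δ₂, h5, h6⟩ := hX n D Q d B _ qv zb (fun x q => .inl ⟨hB, q.1⟩)
    (hEC n D Q d B _ 1 qv hE hB zb (.inl rfl) iP cP fun _ q => q)
    (hEC n D Q d B _ (-1) qv hE hB zb (.inr rfl) iP cP fun _ q => q)
  refine ⟨max M₁ M₂, min δ₁ δ₂, B, lt_min h4 h5, B0, fun δ hδ g g' g1 g2 g3 g4 q => ?_⟩
  by_cases r : ∃ t, eval (g' t) B ≠ 0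
  · exact h6 g g' ⟨g1, g3⟩ ⟨⟨g2, g4⟩, r⟩
      (hc_mono q (le_max_right _ _) (hδ.trans (min_le_right _ _)))
  · exact .inr (k g g' ⟨g1, g3⟩ ⟨⟨g2, g4⟩, fun t => by_contra fun s => r ⟨t, s⟩⟩
      (hc_mono q (le_max_left _ _) (hδ.trans (min_le_left _ _))))

end Pool.Agent.MP_c69980_ag.E2.G3S.EC
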