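import Pool.Agent.MP_c69980_ag.G3C.SpecF

/-!
Periodicity of finite invariant classes, expansivity against the boundary, and curves that
contain the admissible sections.
-/

set_option autoImplicit false

noncomputable section

namespace Pool.Agent.MP_c69980_ag.E2.G3S.EC

open MvPolynomial Metric Filter Topology Set
open H60 H4 E1 G3 G3C

theorem perS : PerStmt := by
  intro n D P hI ⟨T, t1, _, t3⟩ g hg
  choose f f1 f2 using fun k : ℕ => t3 _ (hI.2 g hg (G3.tp k) (by simpa using tp_mem D.L k 1))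
  obtain ⟨a, b, ab, e⟩ := t1.exists_lt_map_eq_of_forall_mem f1
  refine ⟨b - a, Nat.sub_pos_of_lt ab, fun t => ?_⟩
  have h1 := f2 a (t - G3.tp a)
  have h2 := f2 b (t - G3.tp a)
  have e2 : t - G3.tp a + G3.tp b = t + G3.tp (b - a) := by
    simp only [G3.tp, Nat.cast_sub ab.le]
    ring
  rw [sub_add_cancel, e] at h1
  rw [e2] at h2
  exact h2.trans h1.symm

theorem expBOf : ExpBOf := by
  intro SF Per EB Ex n D hE
  obtain ⟨Q, d, d0, hQ, Q0, hv⟩ := D.van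
  obtain ⟨BQ, hz⟩ := D.zero Q d hQ Q0
  obtain ⟨Bd, nd, hd⟩ := D.bdy
  have hI : Inv D (Sd D) := ⟨fun g h => h.1, fun g h l hl =>
    ⟨h.1.shift' D.cov hl fun _ _ => trivial, fun t => h.2 (t + l)⟩⟩
  have hF : Fn (Sd D) := (SF n D Bd nd).mono fun g h =>
    ⟨h.1, fun t => hd (t, g t) (h.1.2 t trivial) (h.2 t)⟩
  have hP := Per n D _ hI hF
  obtain ⟨T, t1, t2, t3⟩ := hF
  have k : ∀ᶠ p : ℝ × ℝ in atTop ×ˢ 𝓝[>] 0, ∀ γ ∈ T, ∀ g, Sg D g → Hc D p.1 g γ p.2 →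
      (∀ t, Pp (g t) (γ t)) ∨ ∀ t, eval (g t) BQ = 0 := by
    refine (eventually_all_finite t1).2 fun γ hγ => ?_
    obtain ⟨M, δ, δ0, h⟩ := Ex n D Q d BQ (fun w => w = γ) ⟨d0, hQ, hv⟩ hz
      (fun w e => .inr (e ▸ t2 γ hγ))
      (EB n D Q d γ 1 ⟨d0, hQ, hv⟩ Q0 hE (.inl rfl) (t2 γ hγ) (hP γ (t2 γ hγ)))
      (EB n D Q d γ (-1) ⟨d0, hQ, hv⟩ Q0 hE (.inr rfl) (t2 γ hγ) (hP γ (t2 γ hγ)))
    filter_upwards [(eventually_ge_atTop M).prod_mk
      (eventually_nhdsWithin_of_eventually_nhds (ge_mem_nhds δ0))] with p hp g sg hc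
    exact h g γ sg rfl (hc_mono hc hp.1 hp.2)
  obtain ⟨p, p1, p2⟩ := (k.and (Eventually.prod_inr
    (self_mem_nhdsWithin : ∀ᶠ x in 𝓝[>] (0 : ℝ), x ∈ Ioi 0) atTop)).exists
  refine ⟨p.1, p.2, Bd * BQ, p2, D.prime _ _ nd hz.1, fun x hx q => by
    rw [map_mul, hd x hx q, zero_mul], fun δ hδ g γ ad sc ib hc t => ?_⟩
  rw [map_mul, mul_eq_zero]
  by_cases q : InB D g
  · exact .inl (hd (t, g t) (ad.1.2 t trivial) (q t))
  obtain ⟨γ', m, e⟩ := t3 γ ⟨sc, ib⟩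
  rcases p1 γ' m g ⟨ad, q⟩ (hc_mono (hc_pp hc e) le_rfl hδ) with h | h
  · exact absurd (fun t c => (t2 γ' m).2 t ((cone_iff (h t)).1 c)) q
  · exact .inr (h t)

theorem curOf : CurOf := by
  intro Ad Per C1 n D hE hF
  have hI : Inv D (Sg D) := ⟨fun g h => h.1.1, fun g h l hl =>
    ⟨(Ad n D).1.2 g h.1 l hl, fun q => h.2 fun t => by simpa using q (t - l)⟩⟩
  have hP := Per n D _ hI hF
  obtain ⟨T, t1, t2, t3⟩ := hF
  have k : ∃ R, NZ D.X R ∧ ∀ g ∈ T, ∀ t, eval (g t) R = 0 := by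
    clear t3
    induction T, t1 using Set.Finite.induction_on with
    | empty => exact D.bdy.imp fun B h => ⟨h.1, fun _ q => q.elim⟩
    | @insert g T _ _ ih =>
      obtain ⟨R, r1, r2⟩ := ih fun w hw => t2 w (mem_insert_of_mem _ hw)
      obtain ⟨R', r3, r4⟩ := C1 n D g hE (t2 g (mem_insert _ _)) (hP g (t2 g (mem_insert _ _)))
      refine ⟨R' * R, D.prime _ _ r3 r1, fun w hw t => ?_⟩
      rw [map_mul, mul_eq_zero]
      rcases hw with rfl | m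
      exacts [.inl (r4 t), .inr (r2 w m t)]
  obtain ⟨R, r1, r2⟩ := k
  refine ⟨R, r1, fun g a b t => ?_⟩
  obtain ⟨g', m, e⟩ := t3 g ⟨a, b⟩
  obtain ⟨f, hf⟩ := r1.1
  exact ((e t).eval hf).2 (r2 g' m t)

end Pool.Agent.MP_c69980_ag.E2.G3S.EC
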