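import Pool.Agent.MP_c69980_ag.G3C.SpecF
import Pool.Agent.MP_c69980_ag.G3C.CmpB

/-!
A uniform lower bound for the form along a compact class of sections.
-/

set_option autoImplicit false

noncomputable section

namespace Pool.Agent.MP_c69980_ag.E2.G3S.EC

open MvPolynomial Metric Filter Topology Set
open H60 H4 E1 G3 G3C

namespace LowX

variable {n : ℕ} {A : Amb (Wg n)} (E : EA A) (Q : PR 3) (r η : ℝ)

/-- The lower bound near `t₁`. -/
def Gd (γ : ℂ → V n) (t₁ : ℂ) : Prop := ∃ t₂ ∈ ball t₁ r,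
  2 * E.M₁ ≤ A.dp t₂ ∧ ∃ j v, (t₂, v) ∈ E.O₂ j ∧ prj (γ t₂) = E.Y j (t₂, v) ∧
    η ≤ ‖eval (A.cf (E.Y j) (t₂, v)) Q‖

variable {E Q r η}

lemma lz {j : E.ι} {t v : ℂ} (h : (t, v) ∈ E.O₂ j) : A.LZ (E.Y j) (t, v) :=
  (E.lc j t v v (E.o23 j h) (by simpa using E.δ0.le)).1

lemma shift (pc : Pc E) {γ : ℂ → V n} {s : ℂ} (k : ℤ)
    (h : Gd E Q r η (fun t => γ (t + k * G3.tp E.N)) s) : Gd E Q r η γ (s + k * G3.tp E.N) := by
  obtain ⟨t, h1, h2, j, v, h3, h4, h5⟩ := h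
  have pO : ∀ i : ℤ, (t + i * G3.tp E.N, v) ∈ E.O₂ j := fun i => by
    have := Function.Periodic.int_mul (f := fun t => (t, v) ∈ E.O₂ j)
      (fun t => (E.per j).2.2.1 t v) i t
    exact this.mpr h3
  have pY : E.Y j (t + k * G3.tp E.N, v) = E.Y j (t, v) :=
    Function.Periodic.int_mul (f := fun t => E.Y j (t, v)) (fun t => (E.per j).1 t v) k t
  have cf : A.cf (E.Y j) (t + k * G3.tp E.N, v) = A.cf (E.Y j) (t, v) := by
    have p : Function.Periodic (fun i : ℤ => A.cf (E.Y j) (t + i * G3.tp E.N, v)) 1 := fun i => by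
      simpa [add_mul, add_assoc] using pc _ _ v (E.per j).1 (lz (pO i))
    simpa using p.int_mul_eq k
  exact ⟨t + k * G3.tp E.N, by simpa using h1, by rwa [CmpBX.dp_per], j, v, pO k,
    h4.trans pY.symm, by rwa [cf]⟩

end LowX

open LowX in
theorem lowCOf : LowCOf := by
  intro hA hP hB n D Q d B A E P M₀ r hQ hI hZ iv cp hS hM r0
  obtain ⟨-, pc, br⟩ := hB n _ _ _ _ _ A hI.1
  obtain ⟨K, hK, -, K2⟩ := CmpBX.dom E (2 * M₀)
  obtain ⟨e, hBe⟩ := hZ.1.1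
  have m1 := A.M0
  have m2 := E.MM
  have cd : Continuous A.dp := by unfold Amb.dp; fun_prop
  by_contra hn
  have ex : ∀ k : ℕ, ∃ γ s, P γ ∧ s ∈ K ∧ M₀ ≤ A.dp s ∧ ¬Gd E Q r (1 / ((k : ℝ) + 1)) γ s := by
    intro k
    by_contra q
    refine hn ⟨1 / ((k : ℝ) + 1), by positivity, fun γ hγ t h1 h2 => ?_⟩
    obtain ⟨s, i, hs, rfl⟩ := K2 t (by linarith) h2
    refine shift (pc E) i (by_contra fun q' => q ⟨_, s, iv.2 γ hγ _ (tp_mem D.L E.N i), hs, ?_, q'⟩)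
    rwa [CmpBX.dp_per] at h1
  choose γ s g1 g2 g3 g4 using ex
  obtain ⟨t, -, ht⟩ := ulim uf hK (.of_forall g2)
  obtain ⟨G, G1, G2⟩ := cp uf γ g1
  obtain ⟨⟨G3, G4⟩, t', G5⟩ := hS G G1
  have d0 : M₀ ≤ A.dp t := ge_of_tendsto' ((cd.tendsto t).comp ht) g3
  have z := (G3.1.1.iden_eval isPreconnected_univ hBe).resolve_left
    (fun q => G5 (q t' trivial)) t trivial
  obtain ⟨t₂, b1, b2, b3⟩ := (z.and (nhdsWithin_le_nhds ((show ∀ᶠ w in 𝓝 t, w ∈ ball t r from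
    ball_mem_nhds t r0).and (cd.continuousAt.eventually_const_lt
      (show 2 * E.M₁ < A.dp t by linarith))))).exists
  have nb : t₂ ∉ D.B := (hI.2 t₂ (by
    have : A.dp t₂ ≤ |t₂.re| := by
      rw [Amb.dp]
      rcases A.hσ with q | q <;> rw [q]
      · simpa using le_abs_self _
      · simpa using neg_le_abs _
    linarith)).notMem one_pos
  have hU := (((hA n D).2.2.2 G G3).resolve_left G4) t₂ nb
  have hX := G3.1.2 t₂ trivial
  obtain ⟨i, w, o1, e1⟩ := E.cov (t₂, prj (G t₂)) (hI.1.2.1.z ▸ ⟨(t₂, G t₂), ⟨hX, hU⟩, rfl⟩)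
    (by linarith)
  have l := lz (E.o12 i t₂ w w o1 (by simpa using E.δ0.le))
  obtain ⟨rx, -, ⟨a, a0, ha⟩, -⟩ := br _ t₂ w (G t₂) l hU.1 e1
  have c0 : 0 < ‖eval (A.cf (E.Y i) (t₂, w)) Q‖ := by
    have e2 : A.cf (E.Y i) (t₂, w) = a • fun l => ph D l t₂ (G t₂) := funext ha
    rw [norm_pos_iff, e2, eval_smul_hom hQ]
    exact mul_ne_zero (pow_ne_zero _ a0) fun q => b1 (uq_zero hQ hBe hZ.2 rx hU q)
  have an : ContinuousAt (fun p => ‖eval (A.cf (E.Y i) p) Q‖) (t₂, w) := by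
    have := AnalyticAt.aeval_mvPolynomial (fun j => A.an _ _ l.1 l.2 j) Q
    simp only [aeval_eq_eval] at this
    exact this.continuousAt.norm
  have on := A.onto _ _ l.1 {p | ‖eval (A.cf (E.Y i) (t₂, w)) Q‖ / 2 < ‖eval (A.cf (E.Y i) p) Q‖ ∧
    ‖p.2 - w‖ ≤ E.δ} (Eventually.and (an.eventually_const_lt (half_lt_self c0))
      ((show ContinuousAt (fun p : C2 => ‖p.2 - w‖) (t₂, w) by fun_prop).eventually_le_const
        (by simpa using E.δ0)))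
  obtain ⟨y, y1, y2⟩ := G2.pt nb tendsto_const_nhds
  have n0 : ∀ k, γ k t₂ ≠ 0 := fun k => (iv.1 _ (g1 k)).1.ne (mem_univ _)
  have T : Tendsto (fun k => (t₂, prj (γ k t₂))) uf (𝓝 (t₂, E.Y i (t₂, w))) := by
    refine tendsto_const_nhds.prodMk_nhds ?_
    rw [← show prj (G t₂) = E.Y i (t₂, w) from e1]
    refine (((hP n).2.1 _ hU.1).tendsto.comp y1).congr' (y2.mono fun k q => ?_)
    exact (((hP n).1 _ _ (n0 k) (q.symm.ne (n0 k))).2 q).symm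
  have T2 : ∀ᶠ k in (uf : Filter ℕ), dist t₂ (s k) < r :=
    (tendsto_const_nhds.dist ht).eventually_lt_const b2
  have T3 := (tendsto_one_div_add_atTop_nhds_zero_nat.mono_left uf_le).eventually_lt_const
    (half_pos c0)
  obtain ⟨k, k1, k2, k3⟩ := ((T.eventually on).and (T2.and T3)).exists
  obtain ⟨v, ⟨v1, v2⟩, v3⟩ :=
    k1 (hI.1.2.1.zb ▸ ⟨(t₂, γ k t₂), (iv.1 _ (g1 k)).2 t₂ trivial, rfl⟩)
  exact g4 k ⟨t₂, k2, b3.le, i, v, E.o12 i t₂ w v o1 v2, v3.symm, (k3.trans v1).le⟩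

end Pool.Agent.MP_c69980_ag.E2.G3S.EC
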