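import Pool.Agent.MP_c69980_ag.G3.Link
import Pool.Agent.MP_c69980_ag.G3C.AllE
import Pool.Agent.MP_c69980_ag.G3C.B0
import Pool.Agent.MP_c69980_ag.G3C.Cur1
import Pool.Agent.MP_c69980_ag.G3C.EndB
import Pool.Agent.MP_c69980_ag.G3C.EndI
import Pool.Agent.MP_c69980_ag.G3C.Ex
import Pool.Agent.MP_c69980_ag.G3C.Exp0
import Pool.Agent.MP_c69980_ag.G3C.ExpB
import Pool.Agent.MP_c69980_ag.G3C.LowC
import Pool.Agent.MP_c69980_ag.G3C.NZq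

/-!
Open surfaces with a nonconstant unit: the admissible sections lie in a curve.
-/

set_option autoImplicit false

noncomputable section

namespace Pool.Agent.MP_c69980_ag.E2.G3S.EC

open MvPolynomial Metric Filter Topology Set
open H60 H4 E1 G3 G3C

/-- The curve, from the end atlases. -/
theorem curE (h1 : AdmStmt) (h2 : GlueStmt) (h3 : SecFinStmt) (h4 : SepStmt) (h5 : KeyStmt)
    (h6 : BdStmt) (h7 : FinStmt) {n : ℕ} (D : Fib n) (e : Ends D) : Cur0P D := by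
  have nz := nzqOf prjS brgS
  have eI := endIOf b0S h1 brgS moIS cmpIS powS
  have ex := exOf h1 h2 mergeS eabsS
  have bd := h6 n D (expBOf h3 perS
    (endBOf b0S h1 prjS brgS nz goS ldS moBS cmpBS powS) ex n D e)
  exact curOf h1 perS (cur1Of h1 prjS brgS fhS holS cylS rtS) n D e (h7 n D bd
    (exp0Of h1 h3 h4 h5 perS (endFOf h1 prjS brgS nz goS ldS eI)
      (endCOf h1 brgS ld0S (lowCOf h1 prjS brgS) eI) ex n D e bd))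

theorem endS (h0 : ∀ (n : ℕ) (D : Fib n), ∃ M₀ : ℝ, ∀ M σ : ℝ, M₀ ≤ M → σ = 1 ∨ σ = -1 →
      AH D.X D.W D.U D.m D.Φ σ M ∧ ∀ t : ℂ, M ≤ |t.re| → Far D 1 t)
    (hL : LinkStmt) (h1 : AdmStmt) (h2 : GlueStmt) (h3 : SecFinStmt) (h4 : SepStmt) (h5 : KeyStmt)
    (h6 : BdStmt) (h7 : FinStmt) : EndStmt := by
  intro K _ _ n d D e1 e2 e3 e4 kl
  refine curE h1 h2 h3 h4 h5 h6 h7 D fun σ hσ => ?_
  obtain ⟨M, hM⟩ := h0 n D
  obtain ⟨a, f⟩ := hM M σ le_rfl hσ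
  obtain ⟨A, a1, a2, a3, a4⟩ := hL K n d D.Φ σ M kl (e1 ▸ e2 ▸ e3 ▸ e4 ▸ a)
  exact ⟨A, a1, ⟨⟨a1 ▸ a2 ▸ a, e2 ▸ e3 ▸ e4 ▸ a3, perX D⟩, a2 ▸ f⟩, a4⟩

end Pool.Agent.MP_c69980_ag.E2.G3S.EC
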