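import Pool.Agent.MP_c69980_ag.G3C.SpecE

/-!
Uniform lower bounds for the leading coefficient along periodic sections.
-/

set_option autoImplicit false

noncomputable section

namespace Pool.Agent.MP_c69980_ag.G3C

open MvPolynomial Metric Filter Topology Set Real
open H60 G3

namespace LdX

lemma shift {a : ℂ} {p : ℂ → Prop} :
    (∀ᶠ w in 𝓝[≠] a, p w) ↔ ∀ᶠ b in 𝓝[≠] (0 : ℂ), p (a + b) := by
  have := (Homeomorph.addLeft a).map_punctured_nhds_eq 0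
  rw [Homeomorph.coe_addLeft] at this
  simp only [add_zero] at this
  rw [← this, eventually_map]

lemma cover {σ M₀ r : ℝ} (hσ : σ = 1 ∨ σ = -1) {N : ℕ} (hN : 0 < N) (P : ℂ → ℝ → Prop)
    (per : ∀ η, Function.Periodic (fun t => P t η) (G3.tp N))
    (loc : ∀ t₀ : ℂ, M₀ ≤ σ * t₀.re → ∃ t₂ ∈ ball t₀ r, ∀ᶠ η in 𝓝[>] (0 : ℝ),
      ∀ᶠ t in 𝓝 t₂, P t η) :
    ∃ η : ℝ, 0 < η ∧ ∀ t₁ : ℂ, M₀ ≤ σ * t₁.re → σ * t₁.re ≤ 2 * M₀ →
      ∃ t₂ ∈ ball t₁ r, ∀ᶠ t in 𝓝 t₂, P t η := by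
  have L0 : (0 : ℝ) < N * (2 * π) := by positivity
  have hK : IsCompact ((Icc (-|2 * M₀|) |2 * M₀| ×ℂ Icc 0 (N * (2 * π))) ∩
      {t : ℂ | M₀ ≤ σ * t.re}) :=
    (isCompact_Icc.reProdIm isCompact_Icc).inter_right (isClosed_le (by fun_prop) (by fun_prop))
  have key := hK.induction_on (p := fun S => ∀ᶠ η in 𝓝[>] (0 : ℝ), ∀ t₁ ∈ S,
      ∃ t₂ ∈ ball t₁ r, ∀ᶠ t in 𝓝 t₂, P t η) (.of_forall fun _ _ h => h.elim)
    (fun S T hs h => h.mono fun η q t ht => q t (hs ht))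
    (fun S T h h' => (h.and h').mono fun η q t ht => ht.elim (q.1 t) (q.2 t))
    (fun x hx => by
      obtain ⟨t₂, h1, h2⟩ := loc x hx.2
      exact ⟨ball t₂ r, mem_nhdsWithin_of_mem_nhds (isOpen_ball.mem_nhds (mem_ball_comm.1 h1)),
        h2.mono fun η q t ht => ⟨t₂, mem_ball_comm.1 ht, q⟩⟩)
  obtain ⟨η, h1, h2⟩ := (key.and self_mem_nhdsWithin).exists
  refine ⟨η, h2, fun t₁ a b => ?_⟩
  have re : ∀ k : ℤ, (t₁ - k * G3.tp N).re = t₁.re := fun k => by simp [G3.tp]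
  have im : ∀ k : ℤ, (t₁ - k * G3.tp N).im = t₁.im - k * (N * (2 * π)) := fun k => by
    simp [G3.tp]
  have M0 : 0 ≤ M₀ := by linarith
  obtain ⟨t₂, c1, c2⟩ := h1 (t₁ - (⌊t₁.im / (N * (2 * π))⌋ : ℤ) * G3.tp N) (by
    refine ⟨⟨?_, ?_⟩, ?_⟩
    · rw [mem_preimage, re, abs_of_nonneg (by linarith)]
      rcases hσ with rfl | rfl <;> constructor <;> linarith
    · rw [mem_preimage, im]
      exact ⟨Int.sub_floor_div_mul_nonneg _ L0, (Int.sub_floor_div_mul_lt _ L0).le⟩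
    · show M₀ ≤ σ * _
      rwa [re])
  generalize ⌊t₁.im / (N * (2 * π))⌋ = k at c1
  refine ⟨t₂ + k * G3.tp N, ?_, ?_⟩
  · rw [mem_ball_iff_norm] at c1 ⊢
    rwa [show t₂ + k * G3.tp N - t₁ = t₂ - (t₁ - k * G3.tp N) by ring]
  · have : Tendsto (fun t : ℂ => t - k * G3.tp N) (𝓝 (t₂ + k * G3.tp N)) (𝓝 t₂) :=
      (continuous_sub_right _).tendsto' _ _ (add_sub_cancel_right _ _)
    exact (this.eventually c2).mono fun t ht => ((per η).sub_int_mul_eq k) ▸ ht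

variable {M : Type} [MetricSpace M] {A : Amb M} {Q : PR 3} {d e : ℕ}

lemma mono {Y : C2 → M} {t w : ℂ} {η η' : ℝ} (h : Ld A Q d Y t w e η) (H : η' ≤ η) :
    Ld A Q d Y t w e η' :=
  Eventually.mono h fun _ q => (mul_le_mul_of_nonneg_right H (by positivity)).trans q

lemma gen (ho : OrdStmt) (ht : TrStmt) (hQ : Q.IsHomogeneous d) {Y : C2 → M} {γ : ℂ → M}
    {ω : ℂ → ℂ} {t₂ : ℂ} (aω : AnalyticAt ℂ ω t₂) (lc : A.LC Y (t₂, ω t₂))
    (hγ : ∀ᶠ t in 𝓝 t₂, γ t = Y (t, ω t))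
    (hz : ∀ᶠ q in 𝓝 ((t₂, 0) : C2), q.2 ≠ 0 → (q.1, Y (q.1, ω q.1 + q.2)) ∈ A.Z)
    (od : ∀ᶠ t in 𝓝 t₂, Od A Q d γ t e) (no : ¬Od A Q d γ t₂ (e + 1)) :
    ∃ η : ℝ, 0 < η ∧ ∀ᶠ t in 𝓝 t₂, Ld A Q d Y t (ω t) e η := by
  have a1 : AnalyticAt ℂ (fun q : C2 => ω q.1) (t₂, 0) := aω.comp_of_eq analyticAt_fst rfl
  have a2 : AnalyticAt ℂ (fun q : C2 => ((q.1, ω q.1 + q.2) : C2)) (t₂, 0) :=
    analyticAt_fst.prod (a1.add analyticAt_snd)
  have l1 : ∀ᶠ q in 𝓝 ((t₂, 0) : C2), A.LC Y (q.1, ω q.1 + q.2) :=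
    a2.continuousAt.eventually (by simpa using A.ev _ _ lc)
  have l2 : ∀ᶠ t in 𝓝 t₂, A.LC Y (t, ω t) :=
    (continuousAt_id.prodMk aω.continuousAt).eventually (A.ev _ _ lc)
  obtain ⟨c, ac, B, hc⟩ := ho (fun q => Ff A Q d Y q.1 (ω q.1) (ω q.1 + q.2)) t₂ e (by
    filter_upwards [l1, hz, a2.eventually_analyticAt] with q h1 h2 h3 h0
    simp only [Ff, add_sub_cancel_left]
    refine (analyticAt_snd.pow _).mul ?_
    exact AnalyticAt.aeval_mvPolynomial (f := fun q : C2 => A.cf Y (q.1, ω q.1 + q.2))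
      (fun l => (A.an Y _ h1 (h2 h0) l).comp_of_eq h3 rfl) Q) (by
    filter_upwards [l2, hγ, od] with t h1 h2 h3
    obtain ⟨B, hB⟩ := h3 Y _ h1 h2
    exact ⟨B, by simpa only [add_sub_cancel_left] using shift.1 hB⟩)
  have c0 : c t₂ ≠ 0 := fun c0 => no ((ht M A).1 Q d (e + 1) γ Y t₂ _ B hQ lc hγ.self_of_nhds
    (shift.2 (by
      filter_upwards [mem_nhdsWithin_of_mem_nhds hc.curry_nhds.self_of_nhds,
        self_mem_nhdsWithin] with b h1 h2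
      simpa only [c0, zero_mul, sub_zero, add_sub_cancel_left] using h1 h2)))
  have n0 : 0 < ‖c t₂‖ := norm_pos_iff.2 c0
  have e1 : ∀ᶠ q in 𝓝 ((t₂, 0) : C2), ‖c t₂‖ / 2 < ‖c q.1‖ - B * ‖q.2‖ := by
    have : ContinuousAt (fun q : C2 => ‖c q.1‖ - B * ‖q.2‖) (t₂, 0) :=
      (ac.continuousAt.comp_of_eq continuousAt_fst rfl).norm.sub (by fun_prop)
    exact this.eventually (lt_mem_nhds (by simpa using n0))
  refine ⟨‖c t₂‖ / 2, half_pos n0, ((hc.and e1).curry_nhds).mono fun t h => shift.2 ?_⟩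
  filter_upwards [mem_nhdsWithin_of_mem_nhds h, self_mem_nhdsWithin] with b h1 h2
  have h3 := h1.1 h2
  have h4 := norm_sub_norm_le (c t * b ^ e) (Ff A Q d Y t (ω t) (ω t + b))
  rw [norm_sub_rev, norm_mul, norm_pow] at h4
  rw [pow_succ] at h3
  rw [add_sub_cancel_left]
  nlinarith [mul_le_mul_of_nonneg_right h1.2.le (pow_nonneg (norm_nonneg b) e)]

lemma per {E : EA A} (pc : Pc E) {Y : C2 → M} (hY : Pd E.N Y) {t w : ℂ} {η : ℝ}
    (h : ∀ᶠ w' in 𝓝[≠] w, A.LZ Y (t, w')) :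
    Ld A Q d Y (t + G3.tp E.N) w e η ↔ Ld A Q d Y t w e η :=
  eventually_congr (h.mono fun w' q => by rw [Ff, Ff, pc Y t w' hY q])

lemma dpp (t : ℂ) (N : ℕ) : A.dp (t + G3.tp N) = A.dp t := by simp [Amb.dp, G3.tp]

lemma main {E : EA A} {N : ℕ} {γ : ℂ → M} {M₀ r : ℝ} (hN : 0 < N) (dv : E.N ∣ N)
    (pγ : ∀ t, γ (t + G3.tp N) = γ t) (go : GO E Q d γ e) (hM : 4 * E.M₁ ≤ M₀) (hr : 0 < r)
    (P : ℂ → M → ℝ → Prop)
    (pe : ∀ t ∈ Hs E, ∀ y η, P (t + G3.tp E.N) y η ↔ P t y η)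
    (loc : ∀ t₂ ∈ Hs E, (∀ᶠ t in 𝓝 t₂, t ∈ Hs E) → ¬Od A Q d γ t₂ (e + 1) →
      ∀ᶠ η in 𝓝[>] (0 : ℝ), ∀ᶠ t in 𝓝 t₂, P t (γ t) η) :
    ∃ η : ℝ, 0 < η ∧ ∀ t₁, M₀ ≤ A.dp t₁ → A.dp t₁ ≤ 2 * M₀ →
      ∃ t₂ ∈ ball t₁ r, ∀ᶠ t in 𝓝 t₂, P t (γ t) η := by
  have op : IsOpen (Hs E) := isOpen_lt (by fun_prop) (by unfold Amb.dp; fun_prop)
  obtain ⟨k, rfl⟩ := dv
  obtain ⟨η, h0, h⟩ := cover (M₀ := M₀) (r := r) A.hσ hN (fun t η => t ∈ Hs E ∧ P t (γ t) η)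
    (fun η t => by
      have : Function.Periodic (fun t' => t' ∈ Hs E ∧ P t' (γ t) η) (G3.tp E.N) := fun t' => by
        have q : t' + G3.tp E.N ∈ Hs E ↔ t' ∈ Hs E := by simp only [Hs, mem_ofPred_eq, dpp]
        exact propext ((and_congr_left' q).trans (and_congr_right fun h => pe t' h _ _))
      have q := this.nat_mul k t
      rw [show (k : ℂ) * G3.tp E.N = G3.tp (E.N * k) by simp only [G3.tp, Nat.cast_mul]; ring] at q
      simp only [pγ]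
      exact q)
    fun t₀ h₀ => by
      have m : t₀ ∈ Hs E := by
        have := A.M0
        have := E.MM
        show E.M₁ < A.σ * t₀.re
        linarith
      obtain ⟨t₂, h1, h2, h3⟩ := ((go t₀ m).2.and (mem_nhdsWithin_of_mem_nhds
        (inter_mem (op.mem_nhds m) (ball_mem_nhds t₀ hr)))).exists
      exact ⟨t₂, h3, (loc t₂ h2 (op.mem_nhds h2) h1).mono fun η q =>
        Eventually.and (op.mem_nhds h2) q⟩
  exact ⟨η, h0, fun t₁ a b => (h t₁ a b).imp fun t₂ q => ⟨q.1, q.2.mono fun _ => And.right⟩⟩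

lemma small {η : ℝ} (h : 0 < η) : ∀ᶠ η' in 𝓝[>] (0 : ℝ), η' ≤ η :=
  mem_nhdsWithin_of_mem_nhds (ge_mem_nhds h)

end LdX

open LdX in
theorem ldOf : LdOf := by
  intro ho ht hc M _ A E Q d e N γ M₀ r hQ pc hN dv pγ go hM hr
  refine ⟨fun hs => main hN dv pγ go hM hr (fun t y η => ∀ i w₀, (t, w₀) ∈ E.O₃ i →
      y = E.Y i (t, w₀) → Ld A Q d (E.Y i) t w₀ e η) (fun t _ y η => ?_) fun t₂ m ev no => ?_,
    fun hb => main hN dv pγ go hM hr (fun t y η => ∀ i Y, E.pu i = some Y → y = Y (t, 0) →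
      Ld A Q d Y t 0 e η) (fun t m y η => ?_) fun t₂ m ev no => ?_⟩
  · refine forall₂_congr fun i w => ?_
    rw [show ((t + G3.tp E.N, w) ∈ E.O₃ i) = ((t, w) ∈ E.O₃ i) from (E.per i).2.2.2.1 t w,
      (E.per i).1]
    refine imp_congr_right fun h => imp_congr_right fun _ => per pc (E.per i).1 ?_
    filter_upwards [mem_nhdsWithin_of_mem_nhds (closedBall_mem_nhds w E.δ0)] with w' hw
    exact (E.lc i t w w' h (mem_closedBall_iff_norm.1 hw)).1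
  · obtain ⟨j, v, o1, e1⟩ := E.cov (t₂, γ t₂) (hs t₂ m).2 (le_of_lt m)
    have o2 := E.opn j _ o1 m
    have lc := (E.lc j t₂ v v (E.o23 j (mem_of_mem_nhds o2)) (by simpa using E.δ0.le)).1.1
    obtain ⟨ω, aω, rfl, hω⟩ := A.lift γ _ t₂ v (hs t₂ m).1 lc e1
    have o3 : ∀ᶠ t in 𝓝 t₂, (t, ω t) ∈ E.O₃ j :=
      (continuousAt_id.prodMk aω.continuousAt).eventually (mem_of_superset o2 (E.o23 j))
    obtain ⟨η, η0, h⟩ := gen ho ht hQ aω lc hω (by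
      filter_upwards [(continuousAt_fst (p := ((t₂, 0) : C2))).eventually o3,
        (continuousAt_snd (p := ((t₂, 0) : C2))).eventually (closedBall_mem_nhds 0 E.δ0)]
        with q h1 h2 _
      exact (E.lc j _ _ (ω q.1 + q.2) h1 (by simpa using h2)).1.2) (ev.mono fun t q => (go t q).1) no
    have C0 : 0 < E.C := zero_lt_one.trans_le E.C1
    filter_upwards [small (η := η / (2 * E.C ^ e)) (by positivity)] with η' h'
    filter_upwards [h, hω, o3] with t h1 h2 h3 i w₀ h4 h5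
    exact mono (((ht M A).2 E i j t w₀ _ h4 h3 (h5.symm.trans h2)).2 Q d e η hQ η0 h1) h'
  · refine forall₂_congr fun i Y => imp_congr_right fun h => ?_
    rw [(E.per i).2.2.2.2.2 Y h]
    refine imp_congr_right fun _ => per pc ((E.per i).2.2.2.2.2 Y h) ?_
    filter_upwards [mem_nhdsWithin_of_mem_nhds (closedBall_mem_nhds (0 : ℂ)
      (show (0 : ℝ) < 1 / 4 by norm_num)), self_mem_nhdsWithin] with b h1 h2
    exact (((hc M A E).1 i Y t h (le_of_lt m)).1 b h2 (mem_closedBall_zero_iff.1 h1)).1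
  · simp only [eventually_all]
    intro i
    by_cases q : ∃ Y, E.pu i = some Y ∧ γ t₂ = Y (t₂, 0)
    · obtain ⟨Y, y1, y2⟩ := q
      obtain ⟨η, η0, h⟩ := gen (ω := fun _ => 0) ho ht hQ analyticAt_const
        (((E.cusp i Y y1).2 t₂ (le_of_lt m)).2.2.2 0 (by simp)).1
        (ev.mono (((hc M A E).2 γ hb).2 i Y y1 t₂ m y2)) (by
          filter_upwards [(continuousAt_fst (p := ((t₂, 0) : C2))).eventually ev,
            (continuousAt_snd (p := ((t₂, 0) : C2))).eventually (closedBall_mem_nhds 0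
              (show (0 : ℝ) < 1 / 4 by norm_num))] with q h1 h2 h3
          rw [zero_add]
          exact (((hc M A E).1 i Y _ y1 (le_of_lt h1)).1 _ h3
            (mem_closedBall_zero_iff.1 h2)).1.2) (ev.mono fun t q => (go t q).1) no
      filter_upwards [small η0] with η' h'
      filter_upwards [h] with t h1 Y' h2 _
      obtain rfl : Y = Y' := Option.some.inj (y1.symm.trans h2)
      exact mono h1 h'
    · exact .of_forall fun η => ev.mono fun t h1 Y h2 h3 =>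
        (q ⟨Y, h2, ((hc M A E).2 γ hb).2 i Y h2 t h1 h3 t₂ m⟩).elim

end Pool.Agent.MP_c69980_ag.G3C
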