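import Pool.Agent.MP_c69980_ag.G3C.SpecF
import Pool.Agent.MP_c69980_ag.E1.Exp

/-!
A nonzero form does not vanish on an open part of a general fibre; the ratios of the forms along
a periodic section.
-/

set_option autoImplicit false

noncomputable section

namespace Pool.Agent.MP_c69980_ag.E2.G3S.EC

open MvPolynomial Metric Filter Topology Set
open H60 H4 E1 G3 G3C

namespace NZqX

variable {n : ℕ}

lemma drop (D : Fib n) {B : PR n} (hB : NZ D.X B) : ∃ A : Polynomial (Polynomial ℂ), A ≠ 0 ∧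
    ∀ a j t y, (t, y) ∈ D.X → t ∉ D.L.lattice → y j ≠ 0 → eval y B = 0 →
      A.evalEval (D.L.wp t) (y a / y j) = 0 := by
  choose P P0 hP using fun q : Fin n × Fin n => D.drop B q.1 q.2 hB
  refine ⟨∏ q, P q, Finset.prod_ne_zero_iff.2 fun q _ => P0 q, fun a j t y h1 h2 h3 h4 => ?_⟩
  rw [Polynomial.evalEval_prod]
  exact Finset.prod_eq_zero (Finset.mem_univ (a, j)) (hP (a, j) (t, y) h1 h2 h3 h4)

/-- A continuous function with values in a finite set is locally constant. -/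
lemma const {f : ℂ → ℂ} {w : ℂ} {Z : Finset ℂ} (hf : ContinuousAt f w)
    (h : ∀ᶠ v in 𝓝 w, f v ∈ Z) : ∀ᶠ v in 𝓝 w, f v = f w := by
  have c : IsClosed ((Z : Set ℂ) \ {f w}) := (Z.finite_toSet.subset sdiff_subset).isClosed
  filter_upwards [h, hf.eventually (c.isOpen_compl.mem_nhds fun q => q.2 rfl)] with v a b
  exact by_contra fun q => b ⟨a, q⟩

end NZqX

open NZqX in
theorem nzqOf : NZqOf := by
  intro hP hB n D Q d A E hQ Q0 hA
  obtain ⟨B, ⟨⟨f, hf⟩, b0⟩, hZ⟩ := D.zero Q d hQ Q0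
  obtain ⟨R, R0, hR⟩ := drop D ⟨⟨f, hf⟩, b0⟩
  have o : IsOpen (Hs E) := isOpen_lt continuous_const (by unfold Amb.dp; fun_prop)
  have h₀ : ((A.σ * (E.M₁ + 1) : ℝ) : ℂ) ∈ Hs E := by
    change E.M₁ < A.σ * _
    rw [Complex.ofReal_re]
    rcases A.hσ with e | e <;> rw [e] <;> linarith
  obtain ⟨t, ⟨t1, t2⟩, t3⟩ := (((lat D.L).2.1 _ _ (Polynomial.leadingCoeff_ne_zero.2 R0)).and
    (nhdsWithin_le_nhds (o.mem_nhds h₀))).exists
  obtain ⟨Z, -, hZ'⟩ := ExpX.roots R t2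
  refine ⟨t, t3, fun Y w hY hev => ?_⟩
  obtain ⟨g, ⟨g1, g2, g3⟩, -⟩ := (hA.1.2.1.lc Y (t, w)).1 hY.1
  have c : Tendsto (fun v : ℂ => ((t, v) : C2)) (𝓝 w) (𝓝 (t, w)) :=
    tendsto_const_nhds.prodMk_nhds tendsto_id
  have e1 : ∀ᶠ q in 𝓝 (t, w), A.LZ Y q := by
    filter_upwards [A.ev Y _ hY.1,
      (continuousAt_fst.prodMk (A.cont Y _ hY.1)).eventually (A.opn _ hY.2)] with q a b
    exact ⟨a, b (A.mem Y q a)⟩
  obtain ⟨j, hj⟩ := Function.ne_iff.1 g2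
  have hj : g (t, w) j ≠ 0 := hj
  have gc : ContinuousAt (fun v => g (t, v)) w := g1.continuousAt.tendsto.comp c
  have e2 : ∀ᶠ v in 𝓝 w, g (t, v) j ≠ 0 := (continuousAt_pi.1 gc j).eventually_ne hj
  have e3 : ∀ a, ∀ᶠ v in 𝓝 w, g (t, v) a / g (t, v) j ∈ Z := fun a => by
    filter_upwards [c.eventually e1, c.eventually g3, e2, hev] with v a1 a2 a3 a4
    obtain ⟨r1, r2, ⟨κ, κ0, r3⟩, -⟩ := (hB n _ _ _ _ _ A hA.1).2.2 Y t v _ a1
      (fun q => a3 (congrFun q j)) a2.symm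
    refine hZ' _ (hR a j t _ r2.1 t1 a3 (uq_zero hQ hf hZ r1 r2.2 ?_))
    have e : A.cf Y (t, v) = κ • fun l => ph D l t (g (t, v)) := funext r3
    rw [e, eval_smul_hom hQ] at a4
    exact (mul_eq_zero.1 a4).resolve_left (pow_ne_zero _ κ0)
  have e4 := eventually_all.2 fun a => const
    ((continuousAt_pi.1 gc a).div (continuousAt_pi.1 gc j) hj) (e3 a)
  have e5 : ∀ᶠ v in 𝓝 w, v = w := by
    filter_upwards [e2, e4, c.eventually g3, (c.prodMk_nhds tendsto_const_nhds).eventually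
      (A.linj Y _ hY.1)] with v a1 a2 a3 a4
    refine a4 (a3.trans (.trans ?_ g3.self_of_nhds.symm))
    refine ((hP n).1 _ _ (fun q => a1 (congrFun q j)) g2).2
      ⟨g (t, v) j / g (t, w) j, div_ne_zero a1 hj, funext fun a => ?_⟩
    have a3 : g (t, v) a / g (t, v) j = g (t, w) a / g (t, w) j := a2 a
    rw [Pi.smul_apply, smul_eq_mul, div_mul_eq_mul_div, mul_div_assoc, ← a3,
      mul_div_cancel₀ _ a1]
  have e6 : ∀ᶠ v in 𝓝[≠] w, v = w := nhdsWithin_le_nhds e5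
  obtain ⟨v, v1, v2⟩ := (e6.and self_mem_nhdsWithin).exists
  exact v2 v1

theorem rtS : RtStmt := by
  intro n D g N hg hp
  obtain ⟨A, e, hA, A0, hR⟩ := D.rat
  have hX : (MvPolynomial.X 0 : PR 3).IsHomogeneous 1 := isHomogeneous_X _ _
  obtain ⟨B, ⟨⟨f, hf⟩, b0⟩, hZ⟩ := D.zero _ 1 hX (X_ne_zero _)
  rcases hg.1.iden_eval isPreconnected_univ (hA 0) with q | q
  · exact .inl ⟨_, A0, fun t => q t trivial⟩
  rcases hg.1.iden_eval isPreconnected_univ hf with q' | q'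
  · exact .inl ⟨_, ⟨⟨f, hf⟩, b0⟩, fun t => q' t trivial⟩
  have ev : ∀ t₀, ∀ᶠ t in 𝓝[≠] t₀, t ∉ {t | eval (g t) (A 0) = 0 ∨ eval (g t) B = 0} :=
    fun t₀ => ((q t₀ trivial).and (q' t₀ trivial)).mono fun t h => not_or.2 h
  have key : ∀ (l : Fin 3) {y w : V n}, Pp y w →
      eval y (A l) / eval y (A 0) = eval w (A l) / eval w (A 0) := by
    rintro l y w ⟨c, c0, rfl⟩
    rw [eval_smul_hom (hA l), eval_smul_hom (hA 0), mul_div_mul_left _ _ (pow_ne_zero _ c0)]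
  refine .inr ⟨fun t l => eval (g t) (A l) / eval (g t) (A 0), _,
    (HereditarilyLindelofSpace.isLindelof _).countable_of_isDiscrete (isDiscrete_iff_nhdsNE.2
      fun t _ => inf_principal_eq_bot.2 (ev t)), ev, fun t => funext fun l => key l (hp t),
    fun l t => ?_, fun t ht hx hU => ?_⟩
  · obtain ⟨G, a, -, c⟩ := lh_iff.1 hg.1 t trivial
    exact ((eval_an a (A l)).meromorphicAt.div (eval_an a (A 0)).meromorphicAt).congr
      (nhdsWithin_le_nhds (c.mono fun w h => (key l h).symm))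
  · obtain ⟨h1, h2⟩ := not_or.1 ht
    refine ⟨fun q => h2 (uq_zero hX hf hZ hx hU (by simpa [Uq] using q)), fun l => ?_⟩
    obtain ⟨a, j, O, Y, c, z, z1, z2⟩ := hx
    have hU' := cone_pp hU z2.symm
    obtain ⟨κ, -, -, k, -⟩ := ph_chart0 c z1 hU' z2
    have n0 := mt (z2.eval (hA 0)).2 h1
    refine .trans ?_ (congrArg _ (key l z2).symm)
    rw [k, k, mul_assoc, ← mul_div_assoc, ← hR a j O Y c _ z1 hU' l, mul_div_cancel_right₀ _ n0]

end Pool.Agent.MP_c69980_ag.E2.G3S.EC
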