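import Pool.Agent.MP_c69980_ag.G3C.Abs
import Pool.Agent.MP_c69980_ag.G3.Amb

/-!
The analysis at one end: statements.
-/

set_option autoImplicit false

noncomputable section

namespace Pool.Agent.MP_c69980_ag.G3C

open MvPolynomial Metric Filter Topology MeasureTheory Set Real
open H60 H4 E1 G3

/-! ### Pure analysis -/

/-- The hypotheses of abstract expansivity at the end `σ`. -/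
structure En (σ κ C d₀ d₁ A M₀ : ℝ) (K : ℕ) (M σ' y₀ : ℝ) (u Δ : ℂ → ℝ) (Z : Set ℂ) : Prop where
  nn : ∀ t, 0 ≤ Δ t
  cmp : ∀ t : ℂ, M₀ ≤ σ * t.re → Δ t ≤ d₀ → ∃ g, Cmp Δ κ C d₀ d₁ K t g
  hi : ∀ t ∈ Z, M₀ ≤ σ * t.re → σ * t.re ≤ M → y₀ < σ' * t.im → 0 < Δ t ∧ u t ≤ A + 6 * log (Δ t)
  lo : ∀ t : ℂ, M₀ ≤ σ * t.re → σ * t.re ≤ 2 * M₀ → y₀ + M₀ < σ' * t.im → 0 < Δ t →
    Mn u Z t (κ * |t.re| / 2) (6 * log (Δ t) - A)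
  cl : ∀ t : ℂ, M₀ ≤ σ * t.re → σ * t.re ≤ M → y₀ < σ' * t.im → Δ t ≤ d₀

/-- A half-strip at the end `σ`. -/
def Rs (σ M₀ M σ' y₀ : ℝ) : Set ℂ := {t | M₀ / 2 ≤ σ * t.re ∧ σ * t.re ≤ M ∧ y₀ < σ' * t.im}

/-- Holomorphic models `g` of `Δ` and `F` of `u`. -/
def Mo (σ κ C d₁ A M₀ ε₁ : ℝ) (K e : ℕ) (R : Set ℂ) (u Δ : ℂ → ℝ) (Z : Set ℂ) : Prop :=
  (∀ t, 0 ≤ Δ t) ∧ ∀ t₁ : ℂ, M₀ ≤ σ * t₁.re → C * Δ t₁ < d₁ → ∃ g F : ℂ → ℂ,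
    (∀ d₀, C * d₀ < d₁ → Cmp Δ κ C d₀ d₁ K t₁ g) ∧ DifferentiableOn ℂ F (ball t₁ (κ * |t₁.re|)) ∧
    (∀ t ∈ ball t₁ (κ * |t₁.re|), ‖g t‖ ≤ d₁ → ‖F t‖ ≤ A * ‖g t‖ ^ e ∧
      (t ∈ R → (t ∈ Z ↔ F t ≠ 0) ∧ (t ∈ Z → |u t - 6 * log ‖F t‖| ≤ A))) ∧
    (σ * t₁.re ≤ 2 * M₀ → ∃ t₂ ∈ ball t₁ (κ * |t₁.re| / 4), ∀ᶠ t in 𝓝 t₂,
      ‖g t‖ ≤ ε₁ → ‖g t‖ ^ e ≤ A * ‖F t‖)

def PowStmt : Prop := ∀ (κ C d₁ : ℝ) (K e : ℕ), 0 < κ → κ ≤ 1 / 16 → 1 ≤ C → 0 < d₁ → d₁ ≤ 1 →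
  ∃ (C' d₁' : ℝ) (K' : ℕ), 1 ≤ C' ∧ 0 < d₁' ∧ d₁' ≤ 1 ∧ ∀ d₀ A ε₁ : ℝ, 0 < d₀ → C' * d₀ < d₁' →
    1 ≤ A → 0 < ε₁ → ∃ A' ε : ℝ, 0 < ε ∧ ∀ (σ M₀ M σ' y₀ : ℝ) (u Δ : ℂ → ℝ) (Z : Set ℂ),
      σ = 1 ∨ σ = -1 → σ' = 1 ∨ σ' = -1 → 4 ≤ M₀ → 4 * M₀ ≤ M →
      (∀ t ∈ Rs σ M₀ M σ' y₀, Δ t ≤ ε) → Mo σ κ C d₁ A M₀ ε₁ K e (Rs σ M₀ M σ' y₀) u Δ Z →
      ∃ Δ', En σ κ C' d₀ d₁' A' M₀ K' M σ' y₀ u Δ' Z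

def PowOf : Prop := LowStmt → PowStmt

/-- The two ends and the strip. -/
def MergeStmt : Prop := ∀ (κ C C₁ C₂ d₀ d d₁ d₂ A A₁ A₂ c M₀ M r σ y₀ : ℝ) (K K₁ K₂ : ℕ)
  (u u' Δ₁ Δ₂ : ℂ → ℝ) (Z Z' : Set ℂ), 0 < κ → κ ≤ 1 / 16 → 4 ≤ M₀ → 0 ≤ C₁ → 0 ≤ C₂ → C₁ ≤ C →
  C₂ ≤ C → d ≤ d₁ → d ≤ d₂ → A₁ ≤ A → A₂ ≤ A → K₁ ≤ K → K₂ ≤ K →
  En 1 κ C₁ d₀ d₁ A₁ M₀ K₁ M σ y₀ u Δ₁ Z → En (-1) κ C₂ d₀ d₂ A₂ M₀ K₂ M σ y₀ u Δ₂ Z →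
  (∀ t : ℂ, M₀ / 2 ≤ |t.re| → u' t = u t ∧ (t ∈ Z' ↔ t ∈ Z)) →
  (∀ t ∈ Z', |t.re| ≤ M → y₀ < σ * t.im → ∃ ρ ∈ Icc r 1, Mn u' Z' t ρ (u' t + gn c ρ t)) →
  (∀ t ∈ Z', |t.re| ≤ M₀ → y₀ < σ * t.im → u' t ≤ A) →
  ∃ Δ, Ea κ C d₀ d A c 6 M₀ K M r σ y₀ u' Δ Z'

/-- Vanishing to order `e` in one variable: lower bound. -/
def SchwLStmt : Prop := ∀ (r A η : ℝ) (e : ℕ), 0 < r → 0 < η → ∃ ε : ℝ, 0 < ε ∧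
  ∀ (f : ℂ → ℂ) (c : ℂ), DifferentiableOn ℂ f (ball c r \ {c}) → (∀ w ∈ ball c r \ {c}, ‖f w‖ ≤ A) →
    (∃ B : ℝ, ∀ᶠ w in 𝓝[≠] c, ‖f w‖ ≤ B * ‖w - c‖ ^ e) →
    (∀ᶠ w in 𝓝[≠] c, η * ‖w - c‖ ^ e ≤ ‖f w‖) →
    ∀ w, w ≠ c → ‖w - c‖ ≤ ε → η / 2 * ‖w - c‖ ^ e ≤ ‖f w‖

def SchwLOf : Prop := SchwStmt → SchwLStmt

/-! ### The abstract family -/

section amb

variable {M : Type} [MetricSpace M] (A : Amb M)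

/-- Sections of the boundary. -/
def Bs (O : Set ℂ) (γ : ℂ → M) : Prop := ∀ t ∈ O, A.HS γ t ∧ (t, γ t) ∈ A.Zb ∧ (t, γ t) ∉ A.Z

/-- The function of the pair `w`, `w₀` in the chart `Y`. -/
def Ff (Q : PR 3) (d : ℕ) (Y : C2 → M) (t w₀ w : ℂ) : ℂ :=
  (w - w₀) ^ (A.m * d) * eval (A.cf Y (t, w)) Q

/-- Vanishing to order `e` at `γ t` along the fibre. -/
def Od (Q : PR 3) (d : ℕ) (γ : ℂ → M) (t : ℂ) (e : ℕ) : Prop :=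
  ∀ Y w₀, A.LC Y (t, w₀) → γ t = Y (t, w₀) →
    ∃ B : ℝ, ∀ᶠ w in 𝓝[≠] w₀, ‖Ff A Q d Y t w₀ w‖ ≤ B * ‖w - w₀‖ ^ e

/-- A lower bound for the leading coefficient. -/
def Ld (Q : PR 3) (d : ℕ) (Y : C2 → M) (t w₀ : ℂ) (e : ℕ) (η : ℝ) : Prop :=
  ∀ᶠ w in 𝓝[≠] w₀, η * ‖w - w₀‖ ^ e ≤ ‖Ff A Q d Y t w₀ w‖

variable {A} (E : EA A)

/-- The half-plane of the atlas. -/
def Hs : Set ℂ := {t | E.M₁ < A.dp t}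

/-- The margin in both variables. -/
def OpE : Prop := ∀ i, ∀ p ∈ E.O₁ i, E.M₁ < A.dp p.1 → E.O₂ i ∈ 𝓝 p

/-- The coefficients of the forms are periodic. -/
def Pc : Prop := ∀ Y t w, Pd E.N Y → A.LZ Y (t, w) → A.cf Y (t + G3.tp E.N, w) = A.cf Y (t, w)

/-- The generic order along `γ` is `e`. -/
def GO (Q : PR 3) (d : ℕ) (γ : ℂ → M) (e : ℕ) : Prop :=
  ∀ t ∈ Hs E, Od A Q d γ t e ∧ ∀ᶠ t' in 𝓝[≠] t, ¬Od A Q d γ t' (e + 1)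

/-- The form does not vanish on an open part of some fibre. -/
def NZq (Q : PR 3) : Prop := ∃ t ∈ Hs E, ∀ Y w, A.LZ Y (t, w) →
  ¬∀ᶠ w' in 𝓝 w, eval (A.cf Y (t, w')) Q = 0

/-- The scale is bounded along `s` at depths between `x` and `2 x`. -/
def Scb (s : ℂ → M) (x B : ℝ) : Prop := ∀ t, x ≤ A.dp t → A.dp t ≤ 2 * x →
  ∀ i w, (t, w) ∈ E.O₃ i → s t = E.Y i (t, w) → E.sc i (t, w) ≤ B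

def LdI (Q : PR 3) (d : ℕ) (γ : ℂ → M) (e : ℕ) (η M₀ r : ℝ) : Prop :=
  ∀ t₁, M₀ ≤ A.dp t₁ → A.dp t₁ ≤ 2 * M₀ → ∃ t₂ ∈ ball t₁ r, ∀ᶠ t in 𝓝 t₂,
    ∀ i w₀, (t, w₀) ∈ E.O₃ i → γ t = E.Y i (t, w₀) → Ld A Q d (E.Y i) t w₀ e η

def LdB (Q : PR 3) (d : ℕ) (γ : ℂ → M) (e : ℕ) (η M₀ r : ℝ) : Prop :=
  ∀ t₁, M₀ ≤ A.dp t₁ → A.dp t₁ ≤ 2 * M₀ → ∃ t₂ ∈ ball t₁ r, ∀ᶠ t in 𝓝 t₂,
    ∀ i Y, E.pu i = some Y → γ t = Y (t, 0) → Ld A Q d Y t 0 e η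

/-- On `R`, `s` is close to `γ` and `u` is given by the function of the pair. -/
def BrI (Q : PR 3) (d : ℕ) (s γ : ℂ → M) (u : ℂ → ℝ) (Z : Set ℂ) (A₀ ε : ℝ) (R : Set ℂ) : Prop :=
  ∀ t ∈ R, ∀ i w₀, (t, w₀) ∈ E.O₃ i → γ t = E.Y i (t, w₀) → ∃ w, ‖w - w₀‖ ≤ ε ∧
    s t = E.Y i (t, w) ∧ ((t, w) ∈ E.O₃ i → (t ∈ Z ↔ Ff A Q d (E.Y i) t w₀ w ≠ 0) ∧
      (t ∈ Z → |u t - 6 * log ‖Ff A Q d (E.Y i) t w₀ w‖| ≤ A₀))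

def BrB (Q : PR 3) (d : ℕ) (s γ : ℂ → M) (u : ℂ → ℝ) (Z : Set ℂ) (A₀ ε : ℝ) (R : Set ℂ) : Prop :=
  ∀ t ∈ R, ∀ i Y, E.pu i = some Y → γ t = Y (t, 0) → ∃ b, ‖b‖ ≤ ε ∧ s t = Y (t, b) ∧
    (t ∈ Z ↔ Ff A Q d Y t 0 b ≠ 0) ∧ (t ∈ Z → |u t - 6 * log ‖Ff A Q d Y t 0 b‖| ≤ A₀)

end amb

/-- Change of charts. -/
def TrStmt : Prop := ∀ (M : Type) [MetricSpace M] (A : Amb M),
  (∀ (Q : PR 3) (d e : ℕ) (γ : ℂ → M) (Y : C2 → M) (t w₀ : ℂ) (B : ℝ), Q.IsHomogeneous d →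
    A.LC Y (t, w₀) → γ t = Y (t, w₀) →
    (∀ᶠ w in 𝓝[≠] w₀, ‖Ff A Q d Y t w₀ w‖ ≤ B * ‖w - w₀‖ ^ e) → Od A Q d γ t e) ∧
  ∀ (E : EA A) (i j : E.ι) (t w v : ℂ), (t, w) ∈ E.O₃ i → (t, v) ∈ E.O₃ j →
    E.Y i (t, w) = E.Y j (t, v) →
    (∃ a : ℂ, ‖a‖ ≤ E.C ^ A.m ∧ 1 ≤ E.C ^ A.m * ‖a‖ ∧
      A.cf (E.Y i) (t, w) = a • A.cf (E.Y j) (t, v)) ∧
    ∀ (Q : PR 3) (d e : ℕ) (η : ℝ), Q.IsHomogeneous d → 0 < η → Ld A Q d (E.Y j) t v e η →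
      Ld A Q d (E.Y i) t w e (η / (2 * E.C ^ e))

/-- Cusps. -/
def CuStmt : Prop := ∀ (M : Type) [MetricSpace M] (A : Amb M) (E : EA A),
  (∀ i Y t, E.pu i = some Y → E.M₁ ≤ A.dp t → (∀ b : ℂ, b ≠ 0 → ‖b‖ ≤ 1 / 4 → A.LZ Y (t, b) ∧
      ∀ l, ‖b ^ A.m * A.cf Y (t, b) l‖ ≤ E.C) ∧
    ∀ w, (t, w) ∈ E.O₃ i →
      A.cf (E.Y i) (t, w) = Complex.exp w ^ A.m • A.cf Y (t, Complex.exp w)) ∧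
  ∀ γ, Bs A (Hs E) γ → (∃ i Y, E.pu i = some Y ∧ ∀ t ∈ Hs E, γ t = Y (t, 0)) ∧
    ∀ i Y, E.pu i = some Y → ∀ t₀ ∈ Hs E, γ t₀ = Y (t₀, 0) → ∀ t ∈ Hs E, γ t = Y (t, 0)

/-- The generic order exists. -/
def GOStmt : Prop := ∀ (M : Type) [MetricSpace M] (A : Amb M) (E : EA A) (Q : PR 3) (d : ℕ)
  (γ : ℂ → M), Q.IsHomogeneous d → NZq E Q → A.Sec (Hs E) γ ∨ Bs A (Hs E) γ → ∃ e, GO E Q d γ e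

def GOOf : Prop := OrdStmt → TrStmt → CuStmt → GOStmt

/-- Uniform lower bounds along periodic sections. -/
def LdStmt : Prop := ∀ (M : Type) [MetricSpace M] (A : Amb M) (E : EA A) (Q : PR 3) (d e N : ℕ)
  (γ : ℂ → M) (M₀ r : ℝ), Q.IsHomogeneous d → Pc E → 0 < N → E.N ∣ N →
  (∀ t, γ (t + G3.tp N) = γ t) → GO E Q d γ e → 4 * E.M₁ ≤ M₀ → 0 < r →
  (A.Sec (Hs E) γ → ∃ η : ℝ, 0 < η ∧ LdI E Q d γ e η M₀ r) ∧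
  (Bs A (Hs E) γ → ∃ η : ℝ, 0 < η ∧ LdB E Q d γ e η M₀ r)

def LdOf : Prop := OrdStmt → TrStmt → CuStmt → LdStmt

/-- Sections along which the form does not vanish. -/
def Ld0Stmt : Prop := ∀ (M : Type) [MetricSpace M] (A : Amb M) (E : EA A) (Q : PR 3) (d : ℕ)
  (η : ℝ), Q.IsHomogeneous d → 0 < η → ∃ η' : ℝ, 0 < η' ∧ ∀ (γ : ℂ → M) (M₀ r : ℝ),
    A.Sec (Hs E) γ → (∀ t ∈ Hs E, Od A Q d γ t (A.m * d)) ∧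
    ((∀ t₁, M₀ ≤ A.dp t₁ → A.dp t₁ ≤ 2 * M₀ → ∃ t₂ ∈ ball t₁ r, 2 * E.M₁ ≤ A.dp t₂ ∧ ∃ j v,
      (t₂, v) ∈ E.O₂ j ∧ γ t₂ = E.Y j (t₂, v) ∧ η ≤ ‖eval (A.cf (E.Y j) (t₂, v)) Q‖) →
    LdI E Q d γ (A.m * d) η' M₀ r)

def Ld0Of : Prop := TrStmt → Ld0Stmt

/-- The models for two sections of the open part. -/
def MoIStmt : Prop := ∀ (M : Type) [MetricSpace M] (A : Amb M) (E : EA A) (Q : PR 3) (d e : ℕ)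
  (κ M₀ B η : ℝ), Q.IsHomogeneous d → 0 < d → 0 < κ → κ ≤ E.κ → 4 * E.M₁ ≤ M₀ → 0 < η →
  ∃ (C d₁ A₁ ε₁ : ℝ) (K : ℕ), 1 ≤ C ∧ 0 < d₁ ∧ d₁ ≤ 1 ∧ 1 ≤ A₁ ∧ 0 < ε₁ ∧
    ∀ (A₀ ε : ℝ) (R : Set ℂ) (s γ : ℂ → M) (u : ℂ → ℝ) (Z : Set ℂ), A₁ ≤ A₀ → ε ≤ d₁ →
      R ⊆ Hs E → A.Sec (Hs E) s → A.Sec (Hs E) γ → Scb E s (M₀ / 2) B → Scb E γ (M₀ / 2) B →
      (∀ t ∈ Hs E, Od A Q d γ t e) → LdI E Q d γ e η M₀ (κ * M₀ / 4) →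
      BrI E Q d s γ u Z A₀ ε R →
      ∃ Δ, (∀ t ∈ R, Δ t ≤ ε) ∧ Mo A.σ κ C d₁ A₀ M₀ ε₁ K e R u Δ Z

def MoIOf : Prop := ChainStmt → SchwStmt → SchwLStmt → MoIStmt

/-- The models for a section of the open part and a section of the boundary. -/
def MoBStmt : Prop := ∀ (M : Type) [MetricSpace M] (A : Amb M) (E : EA A) (Q : PR 3) (d e : ℕ)
  (κ M₀ η : ℝ), Q.IsHomogeneous d → 0 < d → 0 < κ → κ ≤ E.κ → 4 * E.M₁ ≤ M₀ → 0 < η →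
  ∃ (C d₁ A₁ ε₁ : ℝ) (K : ℕ), 1 ≤ C ∧ 0 < d₁ ∧ d₁ ≤ 1 ∧ 1 ≤ A₁ ∧ 0 < ε₁ ∧
    ∀ (A₀ ε : ℝ) (R : Set ℂ) (s γ : ℂ → M) (u : ℂ → ℝ) (Z : Set ℂ), A₁ ≤ A₀ → ε ≤ d₁ →
      R ⊆ Hs E → A.Sec (Hs E) s → Bs A (Hs E) γ →
      (∀ t ∈ Hs E, Od A Q d γ t e) → LdB E Q d γ e η M₀ (κ * M₀ / 4) →
      BrB E Q d s γ u Z A₀ ε R →
      ∃ Δ, (∀ t ∈ R, Δ t ≤ ε) ∧ Mo A.σ κ C d₁ A₀ M₀ ε₁ K e R u Δ Z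

def MoBOf : Prop := SchwStmt → SchwLStmt → CuStmt → MoBStmt

/-- The values of the forms along a periodic section. -/
def FhStmt : Prop := ∀ (M : Type) [MetricSpace M] (A : Amb M) (E : EA A) (s : ℂ → M) (N : ℕ),
  A.Sec (Hs E) s → Pc E → E.N ∣ N → (∀ t, s (t + G3.tp N) = s t) → ∃ F : ℂ → Fin 3 → ℂ,
    (∀ t, F (t + G3.tp N) = F t) ∧
    (∀ t ∈ Hs E, ∃ Y w, A.LZ Y (t, w) ∧ s t = Y (t, w) ∧ F t = A.cf Y (t, w)) ∧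
    ∀ t₁, 2 * E.M₁ ≤ A.dp t₁ → ∃ G : ℂ → Fin 3 → ℂ,
      DifferentiableOn ℂ G (ball t₁ (E.κ * A.dp t₁)) ∧ ∀ t ∈ ball t₁ (E.κ * A.dp t₁),
        ‖G t‖ ≤ E.C ∧ ∃ a : ℂ, G t = a • F t ∧ ‖a‖ ≤ E.C ^ A.m ∧ 1 ≤ E.C ^ A.m * ‖a‖

def FhOf : Prop := TrStmt → FhStmt

/-! ### The bridge to the projective picture -/

section brg

variable {n : ℕ} (X : Set (Pt n)) (U : Set (PS n)) (m : ℕ) (Φ : Fin 3 → Pt n → V n → ℂ)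

/-- The value of the form `Q (Φ)` on the chosen vertical vector. -/
def Uq0 (Q : PR 3) (t : ℂ) (y : V n) : ℂ := eval (fun l => Φ l (t, y) (tv X (t, y))) Q

/-- The function of a pair of points, without the potential of the base. -/
def U0 (Q : PR 3) (d : ℕ) (t : ℂ) (y y' : V n) : ℝ :=
  3 * (m * d) * (log (d2 y y') - log (lamv y (tv X (t, y)))) + 6 * log ‖Uq0 X Φ Q t y‖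

def Z0 (Q : PR 3) (t : ℂ) (y y' : V n) : Prop := y ∈ Cone U ∧ ¬Pp y y' ∧ Uq0 X Φ Q t y ≠ 0

def Aw0 (η : ℝ) (t : ℂ) (y : V n) : Prop := ∀ y', (t, y') ∈ X → y' ∉ Cone U → η ≤ d2 y y'

/-- Invariance under the periods. -/
def PerX : Prop := (∀ x ∈ X, ∀ k : ℤ, (x.1 + k * (2 * π * Complex.I), x.2) ∈ X) ∧
  ∀ a j O Y, Chart X a j O Y → ∀ p ∈ O, Y p ∈ Cone U → ∀ (k : ℤ) (c α β : ℂ) (i : Fin 3), c ≠ 0 →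
    Φ i (p.1 + k * (2 * π * Complex.I), c • Y p) (α • dz Y p + β • Y p) = (α / c) ^ m * fc Φ Y i p

/-- `A` is the family at an end of `X`. -/
def IsEnd (W : Set (PS n)) (A : Amb (Wg n)) : Prop :=
  AH X W U m Φ A.σ A.M₀ ∧ IsAmb A X U m Φ ∧ PerX X U m Φ

end brg

/-- Sections, periods and values of the forms. -/
def BrgStmt : Prop := ∀ (n : ℕ) (X : Set (Pt n)) (W U : Set (PS n)) (m : ℕ)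
  (Φ : Fin 3 → Pt n → V n → ℂ) (A : Amb (Wg n)), IsEnd X U m Φ W A →
  (∀ (O : Set ℂ) (g : ℂ → V n), IsOpen O → Sc X O g →
    ((∀ t ∈ O, g t ∈ Cone U) → A.Sec O fun t => prj (g t)) ∧
    ((∀ t ∈ O, g t ∉ Cone U) → Bs A O fun t => prj (g t))) ∧
  (∀ E : EA A, Pc E) ∧
  ∀ Y t w y, A.LZ Y (t, w) → y ≠ 0 → prj y = Y (t, w) → (t, y) ∈ Rx X ∧ (t, y) ∈ E2.Op X U ∧
    (∃ a : ℂ, a ≠ 0 ∧ ∀ l, A.cf Y (t, w) l = a * Φ l (t, y) (tv X (t, y))) ∧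
    ∀ (Q : PR 3) (d : ℕ) (k : ℤ) (y' : V n), Q.IsHomogeneous d →
      (Z0 X U Φ Q (t + k * (2 * π * Complex.I)) y y' ↔ Z0 X U Φ Q t y y') ∧
      (Z0 X U Φ Q t y y' →
        U0 X m Φ Q d (t + k * (2 * π * Complex.I)) y y' = U0 X m Φ Q d t y y')

def BrgOf : Prop := PrjStmt → BrgStmt

/-- The local form of the function of a pair. -/
def LocStmt : Prop := ∀ (n : ℕ) (X : Set (Pt n)) (W U : Set (PS n)) (m : ℕ)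
  (Φ : Fin 3 → Pt n → V n → ℂ) (A : Amb (Wg n)) (Q : PR 3) (d : ℕ) (Y : C2 → Wg n) (t₀ w₀ : ℂ),
  IsEnd X U m Φ W A → Q.IsHomogeneous d → 0 < d → A.LC Y (t₀, w₀) →
  ∀ᶠ q : ℂ × ℂ × ℂ in 𝓝 (t₀, w₀, w₀), ∀ y y', y ∈ Cone U → y' ≠ 0 → prj y = Y (q.1, q.2.1) →
    prj y' = Y (q.1, q.2.2) → (Z0 X U Φ Q q.1 y y' ↔ Ff A Q d Y q.1 q.2.2 q.2.1 ≠ 0) ∧
      (Z0 X U Φ Q q.1 y y' →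
        |U0 X m Φ Q d q.1 y y' - 6 * log ‖Ff A Q d Y q.1 q.2.2 q.2.1‖| ≤ 3 * (m * d))

def LocOf : Prop := PrjStmt → LocStmt

/-- Comparison at bounded depth, away from the boundary. -/
def CmpIStmt : Prop := ∀ (n : ℕ) (X : Set (Pt n)) (W U : Set (PS n)) (m : ℕ)
  (Φ : Fin 3 → Pt n → V n → ℂ) (A : Amb (Wg n)) (E : EA A) (Q : PR 3) (d : ℕ),
  IsEnd X U m Φ W A → OpE E → Q.IsHomogeneous d → 0 < d → ∃ A₀ : ℝ, ∀ M η ε : ℝ, 0 < η → 0 < ε →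
    ∃ δ B : ℝ, 0 < δ ∧ ∀ t y', 2 * E.M₁ ≤ A.dp t → A.dp t ≤ M → (t, y') ∈ X → Aw0 X U η t y' →
      ∀ i w₀, (t, w₀) ∈ E.O₃ i → prj y' = E.Y i (t, w₀) → E.sc i (t, w₀) ≤ B ∧
        ∀ y, (t, y) ∈ X → d2 y y' ≤ δ → ∃ w, ‖w - w₀‖ ≤ ε ∧ prj y = E.Y i (t, w) ∧
          ((t, w) ∈ E.O₃ i → (Z0 X U Φ Q t y y' ↔ Ff A Q d (E.Y i) t w₀ w ≠ 0) ∧
            (Z0 X U Φ Q t y y' →
              |U0 X m Φ Q d t y y' - 6 * log ‖Ff A Q d (E.Y i) t w₀ w‖| ≤ A₀))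

def CmpIOf : Prop := PrjStmt → BrgStmt → TrStmt → LocStmt → CmpIStmt

/-- Comparison at bounded depth, near the boundary. -/
def CmpBStmt : Prop := ∀ (n : ℕ) (X : Set (Pt n)) (W U : Set (PS n)) (m : ℕ)
  (Φ : Fin 3 → Pt n → V n → ℂ) (A : Amb (Wg n)) (E : EA A) (Q : PR 3) (d : ℕ),
  IsEnd X U m Φ W A → Q.IsHomogeneous d → 0 < d → ∀ M ε : ℝ, 0 < ε →
    ∃ δ : ℝ, 0 < δ ∧ ∀ t y y', E.M₁ ≤ A.dp t → A.dp t ≤ M → (t, y) ∈ E2.Op X U → y' ≠ 0 →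
      d2 y y' ≤ δ → ∀ i Y, E.pu i = some Y → prj y' = Y (t, 0) → ∃ b, ‖b‖ ≤ ε ∧
        prj y = Y (t, b) ∧ (Z0 X U Φ Q t y y' ↔ Ff A Q d Y t 0 b ≠ 0) ∧
          (Z0 X U Φ Q t y y' →
            |U0 X m Φ Q d t y y' - 6 * log ‖Ff A Q d Y t 0 b‖| ≤ 3 * (m * d))

def CmpBOf : Prop := PrjStmt → BrgStmt → CuStmt → LocStmt → CmpBStmt

end Pool.Agent.MP_c69980_ag.G3C
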