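import Pool.Agent.MP_c69980_ag.G3C.SpecE
import Pool.Agent.MP_c69980_ag.G3S.Base

/-!
Open surfaces with a nonconstant unit: the ends and the strip together.
-/

set_option autoImplicit false

noncomputable section

namespace Pool.Agent.MP_c69980_ag.E2.G3S.EC

open MvPolynomial Metric Filter Topology Set
open H60 H4 E1 G3 G3C

variable {n : ℕ}

/-- The family `A` at an end of `D`. -/
def IsA (D : Fib n) (A : Amb (Wg n)) : Prop :=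
  IsEnd D.X D.U D.m D.Φ D.W A ∧ ∀ t : ℂ, A.M₀ ≤ |t.re| → Far D 1 t

/-- End atlases at both ends. -/
def Ends (D : Fib n) : Prop := ∀ σ : ℝ, σ = 1 ∨ σ = -1 →
  ∃ A : Amb (Wg n), A.σ = σ ∧ IsA D A ∧ Nonempty (EA A)

/-- Admissible sections that are not in the boundary. -/
def Sg (D : Fib n) (g : ℂ → V n) : Prop := Adm D g ∧ ¬InB D g

/-- Sections of the boundary. -/
def Sd (D : Fib n) (g : ℂ → V n) : Prop := Sc D.X univ g ∧ InB D g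

/-- `g` and `g'` are close on a given half-strip. -/
def Cs (D : Fib n) (g g' : ℂ → V n) (M δ σ y₀ : ℝ) : Prop :=
  ∀ t : ℂ, |t.re| ≤ M → y₀ < σ * t.im → Far D δ t → d2 (g t) (g' t) ≤ δ

/-- Periodic sections. -/
def Pe (g : ℂ → V n) : Prop := ∃ N : ℕ, 0 < N ∧ ∀ t, Pp (g (t + G3.tp N)) (g t)

/-- `B` vanishes where `Q (Φ)` does. -/
def ZB (D : Fib n) (Q : PR 3) (B : PR n) : Prop := NZ D.X B ∧ ∀ a j O Y, Chart D.X a j O Y →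
  ∀ p ∈ O, Y p ∈ Cone D.U → qq D.Φ Q Y p = 0 → eval (Y p) B = 0

/-- The potential of the base. -/
def b0 (L : Bas) (t : ℂ) : ℝ := Real.log (H4.sq ![L.wp t, L.wq t, 1])

section

variable {D : Fib n} {Q : PR 3} {d : ℕ} {t : ℂ} {y y' : V n} {g g' : ℂ → V n}
  {M M' δ δ' σ y₀ y₁ η : ℝ}

lemma uu_eq : uu D Q d t y y' = U0 D.X D.m D.Φ Q d t y y' + b0 D.L t := (add_assoc _ _ _).symm

lemma zp_iff : Zp D Q t y y' ↔ t ∉ D.L.lattice ∧ Z0 D.X D.U D.Φ Q t y y' := Iff.rfl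

lemma aw_iff : Aw D η t y ↔ Aw0 D.X D.U η t y := Iff.rfl

lemma hc_iff : Hc D M g g' δ ↔ ∃ σ y₀ : ℝ, (σ = 1 ∨ σ = -1) ∧ Cs D g g' M δ σ y₀ := Iff.rfl

lemma Cs.mono (h : Cs D g g' M δ σ y₀) (hM : M' ≤ M) (hδ : δ ≤ δ') (hy : y₀ ≤ y₁) :
    Cs D g g' M' δ' σ y₁ := fun t a b c =>
  (h t (a.trans hM) (hy.trans_lt b) (c.mono hδ)).trans hδ

lemma hc_mono (h : Hc D M g g' δ) (hM : M' ≤ M) (hδ : δ ≤ δ') : Hc D M' g g' δ' := by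
  obtain ⟨σ, y₀, a, b⟩ := h
  exact ⟨σ, y₀, a, Cs.mono b hM hδ le_rfl⟩

lemma hc_pp {w : ℂ → V n} (h : Hc D M g g' δ) (H : ∀ t, Pp (g' t) (w t)) : Hc D M g w δ := by
  obtain ⟨σ, y₀, a, b⟩ := h
  exact ⟨σ, y₀, a, fun t p q r => (Pp.refl (g t)).d2 (H t) ▸ b t p q r⟩

lemma tp_mem (L : Bas) (N : ℕ) (k : ℤ) : k * G3.tp N ∈ L.lattice :=
  L.mem_iff.2 ⟨k * N, by rw [G3.tp]; push_cast; ring⟩

lemma perX (D : Fib n) : PerX D.X D.U D.m D.Φ :=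
  ⟨fun x hx k => D.cov.per x hx _ (D.L.mem_iff.2 ⟨k, rfl⟩), fun a j O Y h p hp hU k c α β i hc =>
    D.frm.hom a j O Y h p hp hU _ (D.L.mem_iff.2 ⟨k, rfl⟩) c α β i hc⟩

/-- A multiple of a period is a period. -/
lemma pe_mul {N : ℕ} (h : ∀ t, Pp (g (t + G3.tp N)) (g t)) (k : ℕ) (t : ℂ) :
    Pp (g (t + G3.tp (N * k))) (g t) := by
  induction k with
  | zero => simpa [G3.tp] using Pp.refl (g t)
  | succ k ih =>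
    have e : t + G3.tp (N * (k + 1)) = t + G3.tp (N * k) + G3.tp N := by
      simp only [G3.tp]
      push_cast
      ring
    exact e ▸ (h _).trans ih

end

def B0Stmt : Prop := ∀ L : Bas, ∃ A : ℝ, ∀ t : ℂ, 1 ≤ |t.re| → |b0 L t| ≤ A

/-! ### Rows End: the ends -/

/-- The estimates at the end `σ` for pairs with second member in `P`. -/
def EnS (D : Fib n) (Q : PR 3) (d : ℕ) (σ : ℝ) (P : (ℂ → V n) → Prop) : Prop :=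
  ∃ κ₀ M₁ : ℝ, 0 < κ₀ ∧ ∀ κ M₀ : ℝ, 0 < κ → κ ≤ κ₀ → M₁ ≤ M₀ → ∃ (C d₁ : ℝ) (K : ℕ), 1 ≤ C ∧
    0 < d₁ ∧ d₁ ≤ 1 ∧ ∀ d₀, 0 < d₀ → C * d₀ < d₁ → ∃ A : ℝ, ∀ M : ℝ, 4 * M₀ ≤ M → ∃ δ : ℝ, 0 < δ ∧
      ∀ (g γ : ℂ → V n) (σ' y₀ : ℝ), Sg D g → P γ → σ' = 1 ∨ σ' = -1 → Cs D g γ M δ σ' y₀ →
        ∃ Δ, En σ κ C d₀ d₁ A M₀ K M σ' y₀ (fun t => uu D Q d t (g t) (γ t)) Δ
          {t | Zp D Q t (g t) (γ t)}

def NZqStmt : Prop := ∀ (n : ℕ) (D : Fib n) (Q : PR 3) (d : ℕ) (A : Amb (Wg n)) (E : EA A),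
  Q.IsHomogeneous d → Q ≠ 0 → IsA D A → NZq E Q

def NZqOf : Prop := PrjStmt → BrgStmt → NZqStmt

def EndIStmt : Prop := ∀ (n : ℕ) (D : Fib n) (Q : PR 3) (d : ℕ) (A : Amb (Wg n)) (E : EA A)
  (P : (ℂ → V n) → Prop) (e : ℕ), QV D Q d → IsA D A → BdP D → (∀ γ, P γ → Sg D γ) →
  (∀ M₀ r : ℝ, 4 * E.M₁ ≤ M₀ → 0 < r → ∃ η : ℝ, 0 < η ∧ ∀ γ, P γ →
    (∀ t ∈ Hs E, Od A Q d (fun t => prj (γ t)) t e) ∧
      LdI E Q d (fun t => prj (γ t)) e η M₀ r) → EnS D Q d A.σ P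

def EndIOf : Prop := B0Stmt → AdmStmt → BrgStmt → MoIStmt → CmpIStmt → PowStmt → EndIStmt

def EndBStmt : Prop := ∀ (n : ℕ) (D : Fib n) (Q : PR 3) (d : ℕ) (γ₀ : ℂ → V n) (σ : ℝ),
  QV D Q d → Q ≠ 0 → Ends D → σ = 1 ∨ σ = -1 → Sd D γ₀ → Pe γ₀ → EnS D Q d σ fun γ => γ = γ₀

def EndBOf : Prop := B0Stmt → AdmStmt → PrjStmt → BrgStmt → NZqStmt → GOStmt → LdStmt → MoBStmt →
  CmpBStmt → PowStmt → EndBStmt

def EndFStmt : Prop := ∀ (n : ℕ) (D : Fib n) (Q : PR 3) (d : ℕ) (γ₀ : ℂ → V n) (σ : ℝ),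
  QV D Q d → Q ≠ 0 → Ends D → BdP D → σ = 1 ∨ σ = -1 → Sg D γ₀ → Pe γ₀ →
  EnS D Q d σ fun γ => γ = γ₀

def EndFOf : Prop := AdmStmt → PrjStmt → BrgStmt → NZqStmt → GOStmt → LdStmt → EndIStmt → EndFStmt

/-- A uniform lower bound for the form along a compact class. -/
def LowCStmt : Prop := ∀ (n : ℕ) (D : Fib n) (Q : PR 3) (d : ℕ) (B : PR n) (A : Amb (Wg n))
  (E : EA A) (P : (ℂ → V n) → Prop) (M₀ r : ℝ), Q.IsHomogeneous d → IsA D A → ZB D Q B →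
  Inv D P → Cp D P → (∀ γ, P γ → Sg D γ ∧ ∃ t, eval (γ t) B ≠ 0) → 4 * E.M₁ ≤ M₀ → 0 < r →
  ∃ η : ℝ, 0 < η ∧ ∀ γ, P γ → ∀ t₁, M₀ ≤ A.dp t₁ → A.dp t₁ ≤ 2 * M₀ → ∃ t₂ ∈ ball t₁ r,
    2 * E.M₁ ≤ A.dp t₂ ∧ ∃ j v, (t₂, v) ∈ E.O₂ j ∧ prj (γ t₂) = E.Y j (t₂, v) ∧
      η ≤ ‖eval (A.cf (E.Y j) (t₂, v)) Q‖

def LowCOf : Prop := AdmStmt → PrjStmt → BrgStmt → LowCStmt

def EndCStmt : Prop := ∀ (n : ℕ) (D : Fib n) (Q : PR 3) (d : ℕ) (B : PR n)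
  (P : (ℂ → V n) → Prop) (σ : ℝ), QV D Q d → Ends D → BdP D → ZB D Q B → σ = 1 ∨ σ = -1 →
  Inv D P → Cp D P → (∀ γ, P γ → Sg D γ ∧ ∃ t, eval (γ t) B ≠ 0) → EnS D Q d σ P

def EndCOf : Prop := AdmStmt → BrgStmt → Ld0Stmt → LowCStmt → EndIStmt → EndCStmt

/-! ### Rows Ex, Per, ExpB, Exp0: expansivity -/

def ExStmt : Prop := ∀ (n : ℕ) (D : Fib n) (Q : PR 3) (d : ℕ) (B : PR n) (P : (ℂ → V n) → Prop),
  QV D Q d → ZB D Q B → (∀ γ, P γ → (BdP D ∧ Sg D γ) ∨ Sd D γ) → EnS D Q d 1 P →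
  EnS D Q d (-1) P → ∃ M δ : ℝ, 0 < δ ∧ ∀ g γ : ℂ → V n, Sg D g → P γ → Hc D M g γ δ →
    (∀ t, Pp (g t) (γ t)) ∨ ∀ t, eval (g t) B = 0

def ExOf : Prop := AdmStmt → GlueStmt → MergeStmt → EabsStmt → ExStmt

/-- The members of a finite invariant class are periodic. -/
def PerStmt : Prop := ∀ (n : ℕ) (D : Fib n) (P : (ℂ → V n) → Prop), Inv D P → Fn P →
  ∀ g, P g → Pe g

def ExpBStmt : Prop := ∀ (n : ℕ) (D : Fib n), Ends D → ExpBP D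

def ExpBOf : Prop := SecFinStmt → PerStmt → EndBStmt → ExStmt → ExpBStmt

def Exp0Stmt : Prop := ∀ (n : ℕ) (D : Fib n), Ends D → BdP D → Exp0P D

def Exp0Of : Prop := AdmStmt → SecFinStmt → SepStmt → KeyStmt → PerStmt → EndFStmt → EndCStmt →
  ExStmt → Exp0Stmt

/-! ### Rows Cur: periodic sections lie in curves -/

/-- The ratios of the forms along a section. -/
def RtStmt : Prop := ∀ (n : ℕ) (D : Fib n) (g : ℂ → V n) (N : ℕ), Sc D.X univ g →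
  (∀ t, Pp (g (t + G3.tp N)) (g t)) → (∃ R, NZ D.X R ∧ ∀ t, eval (g t) R = 0) ∨
  ∃ (h : ℂ → Fin 3 → ℂ) (E : Set ℂ), E.Countable ∧ (∀ t₀, ∀ᶠ t in 𝓝[≠] t₀, t ∉ E) ∧
    (∀ t, h (t + G3.tp N) = h t) ∧ (∀ l t, MeromorphicAt (fun w => h w l) t) ∧
    ∀ t ∉ E, (t, g t) ∈ Rx D.X → g t ∈ Cone D.U →
      ph D 0 t (g t) ≠ 0 ∧ ∀ l, ph D l t (g t) = ph D 0 t (g t) * h t l

def Cur1Stmt : Prop := ∀ (n : ℕ) (D : Fib n) (g : ℂ → V n), Ends D → Sg D g → Pe g →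
  ∃ R, NZ D.X R ∧ ∀ t, eval (g t) R = 0

def Cur1Of : Prop :=
  AdmStmt → PrjStmt → BrgStmt → FhStmt → HolStmt → CylStmt → RtStmt → Cur1Stmt

def CurStmt : Prop := ∀ (n : ℕ) (D : Fib n), Ends D → FinP D → Cur0P D

def CurOf : Prop := AdmStmt → PerStmt → Cur1Stmt → CurStmt

end Pool.Agent.MP_c69980_ag.E2.G3S.EC
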